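import Pool.Agent.H78.SK.Defs
import Pool.Agent.H35.CA.ShG
import Pool.Agent.H35.CA.ShE

/-!
# Steklov spectra: internal definitions
-/

namespace Pool.Agent.H78.SK

open MeasureTheory Metric Set
open Pool.Agent.H35.CA

variable {n : ℕ}

/-- Half of `n - 2`. -/
noncomputable def kz (n : ℕ) : ℝ := ((n : ℝ) - 2) / 2

/-- The radius at depth `t`. -/
noncomputable def rr (R ε t : ℝ) : ℝ := R * Real.exp (ε * t)

/-- The profile of the collar. -/
noncomputable def Hf (n : ℕ) (a t : ℝ) : ℝ :=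
  a * Real.exp (kz n * t) + (1 - a) * Real.exp (-(kz n * t))

/-- The sign of a boundary sphere: outer `-1`, inner `1`. -/
def eps {N : ℕ} : Option (Fin N) → ℝ
  | none => -1
  | some _ => 1

/-- The collar of depth `S` along the sphere of centre `p` and radius `R`. -/
def ann (p : Eu n) (R ε S : ℝ) : Set (Eu n) := {x | ∃ t ∈ Ioo (0 : ℝ) S, ‖x - p‖ = rr R ε t}

/-- Domains whose collars of depth `S` are separable: boundary spheres of radius `r c` and
profiles `Hf n (a c)`. -/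
structure SD {N : ℕ} (D : Dom n N) (r a : Option (Fin N) → ℝ) (S : ℝ) : Prop where
  S_ge : 3 ≤ S
  r_pos : ∀ c, 0 < r c
  a_nonneg : ∀ c, 0 ≤ a c
  metric : ∀ c t, 0 ≤ t → t ≤ S → ∀ w : Eu n, ‖w‖ = 1 →
    D.ρ (D.cen c + rr (D.rad c) (eps c) t • w) * rr (D.rad c) (eps c) t
      = r c * Hf n (a c) t ^ (1 / kz n)
  sub : ∀ c, ann (D.cen c) (D.rad c) (eps c) S ⊆ D.Om
  dis : ∀ c d, c ≠ d → Disjoint (ann (D.cen c) (D.rad c) (eps c) S)
    (ann (D.cen d) (D.rad d) (eps d) S)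

/-- The function `x ↦ u (p + rr R ε t • x)`. -/
noncomputable def sl (u : Eu n → ℝ) (p : Eu n) (R ε t : ℝ) (x : Eu n) : ℝ :=
  u (p + rr R ε t • x)

/-- The derivative of `sl u p R ε t x` in `t`. -/
noncomputable def dsl (u : Eu n → ℝ) (p : Eu n) (R ε t : ℝ) (x : Eu n) : ℝ :=
  fderiv ℝ u (p + rr R ε t • x) ((ε * rr R ε t) • x)

/-- The sum over `k < K` of the dimensions of the spaces of harmonics of degree `k`. -/
def cum (Y : SHFam n) (K : ℕ) : ℕ := ∑ k ∈ Finset.range K, Y.m k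

end Pool.Agent.H78.SK
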