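import Pool.Agent.H78.SK.Base

/-!
# Job SK-CMB: finite combinations of harmonics

`SHFam` is an orthonormal family of spherical harmonics for the probability measure `mu n`.
Everything only depends on the values on the unit sphere (`int_congr`, `mu_ae`).  Tools:
`ShB_S`, `ShB_cf_S`, `ShB_sq_S`, `cf_congr` (`H35/CA/ShB.lean`), `sum_lap` (`H35/CA/ShG.lean`):
`HasSum (fun k => lam n k * en Y f k) (∑ q, ∫ (XX f)^2)`, and `en Y f k = ∑ i, cf Y f k i ^ 2`
vanishes for `k ≥ K`.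
-/

namespace Pool.Agent.H78.SK

open MeasureTheory Metric Set
open Pool.Agent.H35.CA

variable {n : ℕ}

/-- Coefficients of a function which is a finite combination of harmonics on the sphere. -/
theorem cf_comb (hn : 1 ≤ n) (Y : SHFam n) {f : Eu n → ℝ} (K : ℕ)
    (z : (k : ℕ) → Fin (Y.m k) → ℝ)
    (h : ∀ w : Eu n, ‖w‖ = 1 → f w = ∑ k ∈ Finset.range K, ∑ i, z k i * ev (Y.Y k i) w)
    (k : ℕ) (i : Fin (Y.m k)) : cf Y f k i = if k < K then z k i else 0 := by
  have h0 : cf Y f k i = cf Y (ShB_S Y z K) k i := cf_congr hn Y (fun w hw => h w hw) k i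
  rw [h0]
  split_ifs with hk
  · exact ShB_cf_S hn Y z K k hk i
  · have h1 : cf Y (ShB_S Y z K) k i = ∫ x, ev (Y.Y k i) x * ShB_S Y z K x ∂(mu n) := by
      unfold cf
      refine integral_congr_ae (Filter.Eventually.of_forall fun x => ?_)
      exact mul_comm _ _
    rw [h1, ShB_int_S hn Y (ShB_ev_cont _)]
    refine Finset.sum_eq_zero fun l hl => Finset.sum_eq_zero fun j _ => ?_
    have hlk : k ≠ l := by
      have := Finset.mem_range.1 hl
      omega
    have h2 : cf Y (ev (Y.Y k i)) l j = 0 := Y.ortho_diff k l i j hlk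
    rw [h2, mul_zero]

/-- Energies of a function which is a finite combination of harmonics on the sphere. -/
theorem sq_comb (hn : 1 ≤ n) (Y : SHFam n) {f : Eu n → ℝ} (K : ℕ)
    (z : (k : ℕ) → Fin (Y.m k) → ℝ)
    (h : ∀ w : Eu n, ‖w‖ = 1 → f w = ∑ k ∈ Finset.range K, ∑ i, z k i * ev (Y.Y k i) w) :
    H35.CA.sq f = ∑ k ∈ Finset.range K, ∑ i, z k i ^ 2 := by
  rw [← ShB_sq_S hn Y z K]
  unfold H35.CA.sq
  refine int_congr hn fun x hx => ?_
  rw [h x hx, pow_two]
  rfl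

theorem lap_comb (hn : 1 ≤ n) (Y : SHFam n) {f : Eu n → ℝ} (hf : ContDiff ℝ (⊤ : ℕ∞) f) (K : ℕ)
    (z : (k : ℕ) → Fin (Y.m k) → ℝ)
    (h : ∀ w : Eu n, ‖w‖ = 1 → f w = ∑ k ∈ Finset.range K, ∑ i, z k i * ev (Y.Y k i) w) :
    ∑ q ∈ prs n, ∫ w, XX (Jij q.1 q.2) f w ^ 2 ∂(mu n)
      = ∑ k ∈ Finset.range K, ∑ i, lam n k * z k i ^ 2 := by
  have h1 := sum_lap hn Y (τ := f) ((hf.of_le (WithTop.coe_le_coe.2 le_top)).contDiffOn)
  have h2 : ∀ k, k ∉ Finset.range K → lam n k * en Y f k = 0 := by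
    intro k hk
    have hk' : ¬ k < K := fun h' => hk (Finset.mem_range.2 h')
    have h3 : en Y f k = 0 := by
      unfold en
      refine Finset.sum_eq_zero fun i _ => ?_
      rw [cf_comb hn Y K z h k i, if_neg hk']
      norm_num
    rw [h3, mul_zero]
  have h4 : HasSum (fun k => lam n k * en Y f k) (∑ k ∈ Finset.range K, lam n k * en Y f k) :=
    hasSum_sum_of_ne_finset_zero h2
  rw [h1.unique h4]
  refine Finset.sum_congr rfl fun k hk => ?_
  unfold en
  rw [Finset.mul_sum]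
  refine Finset.sum_congr rfl fun i _ => ?_
  rw [cf_comb hn Y K z h k i, if_pos (Finset.mem_range.1 hk)]

end Pool.Agent.H78.SK
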