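import Pool.Agent.H78.SK.Dim

/-!
# Job SK-CNT: the multiplicity identity

`hc n K` is the number of multi-indices `d : Fin n → ℕ` of total degree `K` (a cardinality of
`finsuppAntidiag`), `hc1 n K` is `hc n (K - 1)` (`0` for `K = 0`).

`count_id`: bijection `d ↦ (T, β)`, `T = {i | d i odd}`, `β = d / 2`, between the multi-indices
`d` with `|d| ∈ {M, M-1}` and the pairs `(T, β)` with `|T| ≤ M`, `|β| = (M - |T|) / 2`
(floor division), because `|d| = 2 |β| + |T|`.

`cum_id`: the truncated differences are as in the statement.  The number of `k` with `k ≤ M` is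
`M + 1`, the number of `k` with `k + 2 ≤ M` is `M - 1`, and the number of `k` with
`2 k + |T| ≤ M` is `(M + 2 - |T|) / 2`.  By `cum_eq` the left side is
`(hc M + hc1 M) + (hc (M-2) + hc1 (M-2))` (second bracket absent for `M < 2`), and for
`|T| ≤ M` one has `cum Y ((M + 2 - |T|) / 2) = hc q + hc1 q`, `q = (M - |T|) / 2`, where
`hc1 q = hc ((M - 2 - |T|) / 2)` if `|T| ≤ M - 2` and `0` otherwise; for `|T| > M` it is
`cum Y 0 = 0`.  Use `count_id` for `M` and for `M - 2`.
-/

namespace Pool.Agent.H78.SK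

open MeasureTheory Metric Set
open Pool.Agent.H35.CA

variable {n : ℕ}

lemma Cnt_sum (d : Fin n →₀ ℕ) : ∑ i, d i
    = 2 * ∑ i, d i / 2 + (Finset.univ.filter (fun i => d i % 2 = 1)).card := by
  rw [Finset.card_filter, Finset.mul_sum, ← Finset.sum_add_distrib]
  refine Finset.sum_congr rfl fun i _ => ?_
  split_ifs with h <;> omega

/-- the halves -/
noncomputable def Cnt_half (d : Fin n →₀ ℕ) : Fin n →₀ ℕ :=
  Finsupp.equivFunOnFinite.symm fun i => d i / 2

/-- the multi-index with halves `b` and odd places `T` -/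
noncomputable def Cnt_back (T : Finset (Fin n)) (b : Fin n →₀ ℕ) : Fin n →₀ ℕ :=
  Finsupp.equivFunOnFinite.symm fun i => 2 * b i + if i ∈ T then 1 else 0

lemma Cnt_half_apply (d : Fin n →₀ ℕ) (i : Fin n) : Cnt_half d i = d i / 2 := rfl

lemma Cnt_back_apply (T : Finset (Fin n)) (b : Fin n →₀ ℕ) (i : Fin n) :
    Cnt_back T b i = 2 * b i + if i ∈ T then 1 else 0 := rfl

lemma Cnt_mem (d : Fin n →₀ ℕ) (K : ℕ) :
    d ∈ Finset.finsuppAntidiag (Finset.univ : Finset (Fin n)) K ↔ ∑ i, d i = K := by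
  rw [Finset.mem_finsuppAntidiag]
  exact ⟨fun h => h.1, fun h => ⟨h, Finset.subset_univ _⟩⟩

/-- the multi-indices of degree `M` or `M - 1` -/
noncomputable def Cnt_L (n M : ℕ) : Finset (Fin n →₀ ℕ) :=
  Finset.finsuppAntidiag (Finset.univ : Finset (Fin n)) M ∪
    if M = 0 then ∅ else Finset.finsuppAntidiag (Finset.univ : Finset (Fin n)) (M - 1)

lemma Cnt_mem_L (M : ℕ) (d : Fin n →₀ ℕ) :
    d ∈ Cnt_L n M ↔ ∑ i, d i = M ∨ (M ≠ 0 ∧ ∑ i, d i = M - 1) := by
  rw [Cnt_L, Finset.mem_union, Cnt_mem]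
  by_cases h : M = 0
  · simp [h]
  · rw [if_neg h, Cnt_mem]
    simp [h]

lemma Cnt_card_L (n M : ℕ) : (Cnt_L n M).card = hc n M + hc1 n M := by
  rw [Cnt_L, hc1, hc]
  by_cases h : M = 0
  · rw [if_pos h, if_pos h, Finset.union_empty, add_zero]
  · rw [if_neg h, if_neg h, hc]
    refine Finset.card_union_of_disjoint ?_
    rw [Finset.disjoint_left]
    intro d h1 h2
    rw [Cnt_mem] at h1 h2
    omega

/-- the pairs (odd places, halves) -/
noncomputable def Cnt_R (n M : ℕ) : Finset ((_ : Finset (Fin n)) × (Fin n →₀ ℕ)) :=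
  (Finset.univ : Finset (Finset (Fin n))).sigma fun T =>
    if T.card ≤ M then Finset.finsuppAntidiag (Finset.univ : Finset (Fin n)) ((M - T.card) / 2)
    else ∅

lemma Cnt_mem_R (M : ℕ) (x : (_ : Finset (Fin n)) × (Fin n →₀ ℕ)) :
    x ∈ Cnt_R n M ↔ x.1.card ≤ M ∧ ∑ i, x.2 i = (M - x.1.card) / 2 := by
  rw [Cnt_R, Finset.mem_sigma]
  by_cases h : x.1.card ≤ M
  · rw [if_pos h, Cnt_mem]
    simp [h]
  · rw [if_neg h]
    simp [h]

lemma Cnt_card_R (n M : ℕ) : (Cnt_R n M).card
    = ∑ T : Finset (Fin n), if T.card ≤ M then hc n ((M - T.card) / 2) else 0 := by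
  rw [Cnt_R, Finset.card_sigma]
  refine Finset.sum_congr rfl fun T _ => ?_
  split_ifs
  · rfl
  · rfl

theorem count_id (n M : ℕ) : hc n M + hc1 n M
    = ∑ T : Finset (Fin n), if T.card ≤ M then hc n ((M - T.card) / 2) else 0 := by
  rw [← Cnt_card_L, ← Cnt_card_R]
  have hback : ∀ (T : Finset (Fin n)) (b : Fin n →₀ ℕ),
      Finset.univ.filter (fun i => Cnt_back T b i % 2 = 1) = T := by
    intro T b
    ext i
    rw [Finset.mem_filter, Cnt_back_apply]
    by_cases h : i ∈ T
    · simp only [h, if_true, Finset.mem_univ, true_and, iff_true]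
      omega
    · simp only [h, if_false, Finset.mem_univ, true_and, iff_false]
      omega
  have hhalf : ∀ (T : Finset (Fin n)) (b : Fin n →₀ ℕ), Cnt_half (Cnt_back T b) = b := by
    intro T b
    ext i
    rw [Cnt_half_apply, Cnt_back_apply]
    split_ifs <;> omega
  refine Finset.card_nbij'
    (fun d => ⟨Finset.univ.filter (fun i => d i % 2 = 1), Cnt_half d⟩)
    (fun x => Cnt_back x.1 x.2) ?_ ?_ ?_ ?_
  · intro d hd
    have hd' := (Cnt_mem_L M d).1 hd
    have h1 := Cnt_sum d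
    refine (Cnt_mem_R M _).2 ?_
    have h2 : ∑ i, Cnt_half d i = ∑ i, d i / 2 := rfl
    show (Finset.univ.filter (fun i => d i % 2 = 1)).card ≤ M ∧ ∑ i, Cnt_half d i
      = (M - (Finset.univ.filter (fun i => d i % 2 = 1)).card) / 2
    rw [h2]
    omega
  · intro x hx
    have hx' := (Cnt_mem_R M x).1 hx
    have h1 := Cnt_sum (Cnt_back x.1 x.2)
    rw [hback] at h1
    have h2 : ∑ i, Cnt_back x.1 x.2 i / 2 = ∑ i, x.2 i := by
      refine Finset.sum_congr rfl fun i _ => ?_
      rw [← Cnt_half_apply, hhalf]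
    rw [h2] at h1
    refine (Cnt_mem_L M _).2 ?_
    show ∑ i, Cnt_back x.1 x.2 i = M ∨ (M ≠ 0 ∧ ∑ i, Cnt_back x.1 x.2 i = M - 1)
    omega
  · intro d _
    ext i
    show Cnt_back _ (Cnt_half d) i = d i
    rw [Cnt_back_apply, Cnt_half_apply]
    by_cases h : d i % 2 = 1
    · rw [if_pos (by simp [h])]
      omega
    · rw [if_neg (by simp [h])]
      omega
  · intro x _
    obtain ⟨T, b⟩ := x
    show (⟨Finset.univ.filter (fun i => Cnt_back T b i % 2 = 1), Cnt_half (Cnt_back T b)⟩ :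
      (_ : Finset (Fin n)) × (Fin n →₀ ℕ)) = ⟨T, b⟩
    rw [hback, hhalf]

/-- The cumulative form of the multiplicity identity between two spheres of radius `2` and
`2^n` unit spheres. -/
theorem cum_id (hn : 2 ≤ n) (Y : SHFam n) (M : ℕ) :
    cum Y (M + 1) + cum Y (M - 1) = ∑ T : Finset (Fin n), cum Y ((M + 2 - T.card) / 2) := by
  have h0 : cum Y 0 = 0 := by simp [cum]
  have h1 : cum Y (M - 1) = ∑ T : Finset (Fin n),
      if T.card + 2 ≤ M then hc n ((M - 2 - T.card) / 2) else 0 := by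
    by_cases h : 2 ≤ M
    · have e : M - 1 = (M - 2) + 1 := by omega
      rw [e, cum_eq hn, count_id]
      refine Finset.sum_congr rfl fun T _ => ?_
      by_cases h2 : T.card + 2 ≤ M
      · rw [if_pos h2, if_pos (by omega)]
      · rw [if_neg h2, if_neg (by omega)]
    · have e : M - 1 = 0 := by omega
      rw [e, h0]
      symm
      refine Finset.sum_eq_zero fun T _ => ?_
      rw [if_neg (by omega)]
  rw [h1, cum_eq hn, count_id, ← Finset.sum_add_distrib]
  refine Finset.sum_congr rfl fun T _ => ?_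
  by_cases h : T.card ≤ M
  · have e : (M + 2 - T.card) / 2 = (M - T.card) / 2 + 1 := by omega
    rw [if_pos h, e, cum_eq hn, hc1]
    congr 1
    by_cases h2 : T.card + 2 ≤ M
    · have e2 : (M - T.card) / 2 - 1 = (M - 2 - T.card) / 2 := by omega
      rw [if_pos h2, if_neg (by omega), e2]
    · rw [if_neg h2, if_pos (by omega)]
  · have e : (M + 2 - T.card) / 2 = 0 := by omega
    rw [if_neg h, if_neg (by omega), e, h0]

end Pool.Agent.H78.SK
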