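import Pool.Agent.H78.SK.Base

/-!
# Job SK-DIM: dimensions of the spaces of spherical harmonics, and a counting identity

`SHFam n` (in `H35/CA/Defs.lean`) is an orthonormal family of spherical harmonics
`Y.Y k i`, `i < Y.m k`, for the uniform probability measure `mu n` of the unit sphere, such that
the `Y.Y k i` with `k ≤ K` span the restrictions to the sphere of the polynomials of degree
`≤ K` (field `span`).

`hc n K` is the number of multi-indices `d : Fin n → ℕ` of total degree `K`.

`cum_eq`: the number `∑_{k ≤ K} m k` is the dimension of the space `W_K` of the restrictions to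
the sphere of the polynomials of degree `≤ K` (span and orthonormality).  The map
`(P, Q) ↦ (P + Q)|sphere` from (homogeneous of degree `K`) × (homogeneous of degree `K - 1`) to
`W_K` is bijective.  Surjective: on the sphere `f_j = q^m f_j`, `q = ∑ x_i^2`, for the
homogeneous component `f_j` of degree `j`, `2 m = K - j` or `2 m = K - 1 - j`.  Injective: if
`P + Q = 0` on the sphere, replace `x` by `-x`: `P = 0` and `Q = 0` on the sphere, hence
everywhere by homogeneity, hence as polynomials (`MvPolynomial.funext`).  Dimension of the space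
of homogeneous polynomials of degree `K`: `MvPolynomial.homogeneousSubmodule_eq_finsupp_supported`.

`cum_ge`: for `n ≥ 2` there are at least `K + 1` multi-indices of degree `K`.
-/

namespace Pool.Agent.H78.SK

open MeasureTheory Metric Set
open Pool.Agent.H35.CA

variable {n : ℕ}

/-- The number of multi-indices of degree `K` in `n` variables. -/
def hc (n K : ℕ) : ℕ := (Finset.finsuppAntidiag (Finset.univ : Finset (Fin n)) K).card

/-- `hc n (K - 1)`, with value `0` for `K = 0`. -/
def hc1 (n K : ℕ) : ℕ := if K = 0 then 0 else hc n (K - 1)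

/-- Multi-indices of degree `K`. -/
def dimA (n K : ℕ) : Finset (Fin n →₀ ℕ) := Finset.finsuppAntidiag Finset.univ K

/-- Multi-indices of degree `K - 1`. -/
def dimB (n K : ℕ) : Finset (Fin n →₀ ℕ) :=
  if K = 0 then ∅ else Finset.finsuppAntidiag Finset.univ (K - 1)

theorem dim_memA {K : ℕ} {d : Fin n →₀ ℕ} : d ∈ dimA n K ↔ ∑ i, d i = K := by
  unfold dimA
  rw [Finset.mem_finsuppAntidiag]
  exact ⟨fun h => h.1, fun h => ⟨h, Finset.subset_univ _⟩⟩

theorem dim_memB {K : ℕ} {d : Fin n →₀ ℕ} : d ∈ dimB n K ↔ ∑ i, d i + 1 = K := by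
  unfold dimB
  split_ifs with h
  · simp only [Finset.notMem_empty, false_iff]
    omega
  · rw [Finset.mem_finsuppAntidiag]
    constructor
    · intro h1
      have h2 : ∑ i, d i = K - 1 := h1.1
      omega
    · intro h1
      have h2 : ∑ i, d i = K - 1 := by omega
      exact ⟨h2, Finset.subset_univ _⟩

theorem dim_cardA (K : ℕ) : (dimA n K).card = hc n K := rfl

theorem dim_cardB (K : ℕ) : (dimB n K).card = hc1 n K := by
  unfold dimB hc1 hc
  split_ifs <;> rfl

theorem dim_disj (K : ℕ) : Disjoint (dimA n K) (dimB n K) := by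
  rw [Finset.disjoint_left]
  intro d h1 h2
  rw [dim_memA] at h1
  rw [dim_memB] at h2
  omega

/-- Both kinds of multi-indices. -/
def dimS (n K : ℕ) : Finset (Fin n →₀ ℕ) := dimA n K ∪ dimB n K

theorem dim_cardS (K : ℕ) : (dimS n K).card = hc n K + hc1 n K := by
  unfold dimS
  rw [Finset.card_union_of_disjoint (dim_disj K), dim_cardA, dim_cardB]

theorem dim_hom {P : Pol n} {K : ℕ} (hP : P.IsHomogeneous K) (t : ℝ) (x : E n) :
    ev P (t • x) = t ^ K * ev P x := by
  unfold ev
  rw [MvPolynomial.eval_eq', MvPolynomial.eval_eq', Finset.mul_sum]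
  refine Finset.sum_congr rfl fun d hd => ?_
  have h1 : ∑ i, d i = K := by
    have h2 := hP (MvPolynomial.mem_support_iff.1 hd)
    rw [Finsupp.weight_apply, Finsupp.sum_fintype] at h2
    · simpa using h2
    · intro i
      simp
  have h3 : ∏ i, (t • x) i ^ d i = t ^ K * ∏ i, x i ^ d i := by
    rw [← h1, ← Finset.prod_pow_eq_pow_sum, ← Finset.prod_mul_distrib]
    refine Finset.prod_congr rfl fun i _ => ?_
    rw [PiLp.smul_apply, smul_eq_mul, mul_pow]
  rw [h3]
  ring

theorem dim_van (hn : 1 ≤ n) {P : Pol n} {K : ℕ} (hP : P.IsHomogeneous K)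
    (h : ∀ x : E n, ‖x‖ = 1 → ev P x = 0) : P = 0 := by
  have h1 : P * MvPolynomial.X (⟨0, by omega⟩ : Fin n) = 0 := by
    refine MvPolynomial.funext fun y => ?_
    rw [map_zero, map_mul, MvPolynomial.eval_X]
    by_cases hy : y = 0
    · rw [hy]
      simp
    · have hx : (WithLp.toLp 2 y : E n) ≠ 0 := by
        intro h0
        apply hy
        have := congrArg (fun z : E n => (fun i => z i)) h0
        funext i
        exact congrFun this i
      set x : E n := WithLp.toLp 2 y with hxd
      have h2 : ev P x = 0 := by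
        have h3 : x = ‖x‖ • (‖x‖⁻¹ • x) := by
          rw [smul_smul, mul_inv_cancel₀ (norm_ne_zero_iff.2 hx), one_smul]
        have h4 : ‖‖x‖⁻¹ • x‖ = 1 := by
          rw [norm_smul, norm_inv, norm_norm, inv_mul_cancel₀ (norm_ne_zero_iff.2 hx)]
        rw [h3, dim_hom hP, h _ h4, mul_zero]
      have h5 : ev P x = MvPolynomial.eval y P := rfl
      rw [← h5, h2, zero_mul]
  exact (mul_eq_zero.1 h1).resolve_right (MvPolynomial.X_ne_zero _)

/-- Restriction to the sphere. -/
noncomputable def dimR (n : ℕ) : Pol n →ₗ[ℝ] (sphere (0 : E n) 1 → ℝ) where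
  toFun P := fun w => ev P (w : E n)
  map_add' P Q := by
    funext w
    exact ev_add P Q w
  map_smul' c P := by
    funext w
    exact ev_smul c P w

theorem dimR_apply (P : Pol n) (w : sphere (0 : E n) 1) : dimR n P w = ev P (w : E n) := rfl

/-- The harmonics on the sphere. -/
noncomputable def dimV1 (Y : SHFam n) (K : ℕ) :
    ((k : Fin (K + 1)) × Fin (Y.m k)) → (sphere (0 : E n) 1 → ℝ) :=
  fun p => dimR n (Y.Y p.1 p.2)

/-- The monomials on the sphere. -/
noncomputable def dimV2 (n K : ℕ) : dimS n K → (sphere (0 : E n) 1 → ℝ) :=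
  fun d => dimR n (MvPolynomial.monomial (d : Fin n →₀ ℕ) 1)

theorem dim_norm_sphere (w : sphere (0 : E n) 1) : ‖(w : E n)‖ = 1 := by
  have := w.2
  rwa [mem_sphere_zero_iff_norm] at this

theorem dim_li1 (hn : 1 ≤ n) (Y : SHFam n) (K : ℕ) : LinearIndependent ℝ (dimV1 Y K) := by
  rw [Fintype.linearIndependent_iff]
  intro g hg p
  classical
  let c : (k : ℕ) → Fin (Y.m k) → ℝ := fun k i =>
    if h : k < K + 1 then g ⟨⟨k, h⟩, i⟩ else 0
  have h1 : ∀ x : E n, ‖x‖ = 1 → ShB_S Y c (K + 1) x = (0 : E n → ℝ) x := by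
    intro x hx
    have h2 := congrFun hg ⟨x, by rw [mem_sphere_zero_iff_norm]; exact hx⟩
    rw [Finset.sum_apply, Fintype.sum_sigma] at h2
    unfold ShB_S
    rw [← Fin.sum_univ_eq_sum_range (fun k => ∑ i, c k i * ev (Y.Y k i) x) (K + 1)]
    rw [Pi.zero_apply]
    rw [Pi.zero_apply] at h2
    rw [← h2]
    refine Finset.sum_congr rfl fun k _ => Finset.sum_congr rfl fun i _ => ?_
    have h3 : c k i = g ⟨k, i⟩ := by
      show (if h : (k : ℕ) < K + 1 then g ⟨⟨k, h⟩, i⟩ else 0) = g ⟨k, i⟩
      rw [dif_pos k.2]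
    rw [h3]
    rfl
  have h4 : cf Y (ShB_S Y c (K + 1)) p.1 p.2 = cf Y (0 : E n → ℝ) p.1 p.2 :=
    cf_congr hn Y h1 _ _
  have h5 := ShB_cf_S hn Y c (K + 1) p.1 p.1.2 p.2
  have h6 : cf Y (0 : E n → ℝ) p.1 p.2 = 0 := by
    unfold cf
    simp
  rw [h4, h6] at h5
  have h7 : c p.1 p.2 = g p := by
    show (if h : (p.1 : ℕ) < K + 1 then g ⟨⟨p.1, h⟩, p.2⟩ else 0) = g p
    rw [dif_pos p.1.2]
  rw [← h7, ← h5]

theorem dim_li2 (hn : 1 ≤ n) (K : ℕ) : LinearIndependent ℝ (dimV2 n K) := by
  rw [Fintype.linearIndependent_iff]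
  intro g hg
  classical
  let G : (Fin n →₀ ℕ) → ℝ := fun d => if h : d ∈ dimS n K then g ⟨d, h⟩ else 0
  have hG : ∀ d : dimS n K, G d = g d := by
    intro d
    show (if h : (d : Fin n →₀ ℕ) ∈ dimS n K then g ⟨d, h⟩ else 0) = g d
    rw [dif_pos d.2]
  let P : Pol n := ∑ d ∈ dimA n K, MvPolynomial.monomial d (G d)
  let Q : Pol n := ∑ d ∈ dimB n K, MvPolynomial.monomial d (G d)
  have hP : P.IsHomogeneous K := by
    refine MvPolynomial.IsHomogeneous.sum _ _ _ fun d hd => ?_
    refine MvPolynomial.isHomogeneous_monomial _ ?_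
    rw [Finsupp.degree_eq_sum]
    exact dim_memA.1 hd
  have hQ : Q.IsHomogeneous (K - 1) := by
    refine MvPolynomial.IsHomogeneous.sum _ _ _ fun d hd => ?_
    refine MvPolynomial.isHomogeneous_monomial _ ?_
    rw [Finsupp.degree_eq_sum]
    have := dim_memB.1 hd
    omega
  have h1 : ∀ x : E n, ‖x‖ = 1 → ev P x + ev Q x = 0 := by
    intro x hx
    have h2 := congrFun hg ⟨x, by rw [mem_sphere_zero_iff_norm]; exact hx⟩
    rw [Finset.sum_apply, Pi.zero_apply] at h2
    rw [← ev_add]
    have h3 : P + Q = ∑ d ∈ dimS n K, MvPolynomial.monomial d (G d) := by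
      show (∑ d ∈ dimA n K, MvPolynomial.monomial d (G d)) +
        (∑ d ∈ dimB n K, MvPolynomial.monomial d (G d)) = _
      rw [← Finset.sum_union (dim_disj K)]
      rfl
    rw [h3, ev_sum, ← Finset.sum_coe_sort (dimS n K), ← h2]
    refine Finset.sum_congr rfl fun d _ => ?_
    rw [hG]
    show ev (MvPolynomial.monomial (d : Fin n →₀ ℕ) (g d)) x =
      g d • ev (MvPolynomial.monomial (d : Fin n →₀ ℕ) 1) x
    have h4 : (MvPolynomial.monomial (d : Fin n →₀ ℕ) (g d) : Pol n) =
        g d • MvPolynomial.monomial (d : Fin n →₀ ℕ) (1 : ℝ) := by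
      rw [MvPolynomial.smul_monomial, smul_eq_mul, mul_one]
    rw [h4, ev_smul]
    rfl
  have h5 : ∀ x : E n, ‖x‖ = 1 → ev P x = 0 ∧ ev Q x = 0 := by
    intro x hx
    rcases Nat.eq_zero_or_pos K with hK | hK
    · have hQ0 : Q = 0 := by
        show (∑ d ∈ dimB n K, MvPolynomial.monomial d (G d)) = 0
        have : dimB n K = ∅ := by
          unfold dimB
          rw [if_pos hK]
        rw [this, Finset.sum_empty]
      have h6 := h1 x hx
      rw [hQ0, ShA_ev_zero] at h6
      rw [hQ0, ShA_ev_zero]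
      exact ⟨by simpa using h6, rfl⟩
    · have h6 := h1 x hx
      have h7 := h1 ((-1 : ℝ) • x) (by rw [norm_smul, norm_neg, norm_one, one_mul, hx])
      rw [dim_hom hP, dim_hom hQ] at h7
      obtain ⟨k, rfl⟩ : ∃ k, K = k + 1 := ⟨K - 1, by omega⟩
      rw [Nat.add_sub_cancel, pow_succ] at h7
      have h8 : ((-1 : ℝ)) ^ k * (ev Q x - ev P x) = 0 := by linarith
      have h9 : ((-1 : ℝ)) ^ k ≠ 0 := pow_ne_zero _ (by norm_num)
      have h10 := (mul_eq_zero.1 h8).resolve_left h9
      constructor <;> linarith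
  have hP0 : P = 0 := dim_van hn hP fun x hx => (h5 x hx).1
  have hQ0 : Q = 0 := dim_van hn hQ fun x hx => (h5 x hx).2
  have hco : ∀ (S : Finset (Fin n →₀ ℕ)), (∑ d ∈ S, MvPolynomial.monomial d (G d) : Pol n) = 0 →
      ∀ d ∈ S, G d = 0 := by
    intro S hS d hd
    have h11 := congrArg (MvPolynomial.coeff d) hS
    rw [MvPolynomial.coeff_sum, MvPolynomial.coeff_zero] at h11
    rw [Finset.sum_eq_single d] at h11
    · rwa [MvPolynomial.coeff_monomial, if_pos rfl] at h11
    · intro e _ he
      rw [MvPolynomial.coeff_monomial, if_neg he]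
    · intro h
      exact absurd hd h
  intro d
  rw [← hG]
  rcases Finset.mem_union.1 d.2 with h | h
  · exact hco _ hP0 _ h
  · exact hco _ hQ0 _ h

/-- Homogeneous polynomials of the two degrees are spanned by the monomials. -/
theorem dim_spH (K : ℕ) (P : Pol n) (j : ℕ) (hP : P.IsHomogeneous j) (hj : j = K ∨ j + 1 = K) :
    dimR n P ∈ Submodule.span ℝ (Set.range (dimV2 n K)) := by
  have h1 : P = ∑ d ∈ P.support, P.coeff d • MvPolynomial.monomial d (1 : ℝ) := by
    conv_lhs => rw [MvPolynomial.as_sum P]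
    refine Finset.sum_congr rfl fun d _ => ?_
    rw [MvPolynomial.smul_monomial, smul_eq_mul, mul_one]
  rw [h1, map_sum]
  refine Submodule.sum_mem _ fun d hd => ?_
  rw [map_smul]
  refine Submodule.smul_mem _ _ (Submodule.subset_span ?_)
  have h2 : ∑ i, d i = j := by
    have h2 := hP (MvPolynomial.mem_support_iff.1 hd)
    rw [Finsupp.weight_apply, Finsupp.sum_fintype] at h2
    · simpa using h2
    · intro i
      simp
  have h3 : d ∈ dimS n K := by
    rw [dimS, Finset.mem_union, dim_memA, dim_memB]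
    omega
  exact ⟨⟨d, h3⟩, rfl⟩

theorem dim_spP (K : ℕ) (P : Pol n) (hP : P.totalDegree ≤ K) :
    dimR n P ∈ Submodule.span ℝ (Set.range (dimV2 n K)) := by
  have hs : P = ∑ j ∈ Finset.range (K + 1), MvPolynomial.homogeneousComponent j P := by
    conv_lhs => rw [← MvPolynomial.sum_homogeneousComponent P]
    refine Finset.sum_subset (Finset.range_subset_range.mpr (Nat.succ_le_succ hP)) ?_
    intro j _ hj
    rw [Finset.mem_range, not_lt] at hj
    exact MvPolynomial.homogeneousComponent_eq_zero _ _ (Nat.lt_of_succ_le hj)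
  rw [hs, map_sum]
  refine Submodule.sum_mem _ fun j hj => ?_
  rw [Finset.mem_range] at hj
  have hq : (∑ i : Fin n, MvPolynomial.X i ^ 2 : Pol n).IsHomogeneous 2 := by
    refine MvPolynomial.IsHomogeneous.sum _ _ _ fun i _ => ?_
    have := (MvPolynomial.isHomogeneous_X ℝ i).pow 2
    simpa using this
  have key : ∀ m : ℕ, dimR n (MvPolynomial.homogeneousComponent j P) =
      dimR n ((∑ i : Fin n, MvPolynomial.X i ^ 2 : Pol n) ^ m *
        MvPolynomial.homogeneousComponent j P) := by
    intro m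
    funext w
    rw [dimR_apply, dimR_apply, ev_mul]
    have h1 : ev ((∑ i : Fin n, MvPolynomial.X i ^ 2 : Pol n) ^ m) (w : E n) = 1 := by
      have h2 : ev ((∑ i : Fin n, MvPolynomial.X i ^ 2 : Pol n) ^ m) (w : E n) =
          (ev (∑ i : Fin n, MvPolynomial.X i ^ 2 : Pol n) (w : E n)) ^ m := by
        unfold ev
        rw [map_pow]
      rw [h2, shE_q (dim_norm_sphere w), one_pow]
    rw [h1, one_mul]
  have hh := MvPolynomial.homogeneousComponent_isHomogeneous j P
  have hm : ∀ m : ℕ, ((∑ i : Fin n, MvPolynomial.X i ^ 2 : Pol n) ^ m *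
        MvPolynomial.homogeneousComponent j P).IsHomogeneous (2 * m + j) := fun m =>
    (hq.pow m).mul hh
  rcases Nat.even_or_odd (K - j) with ⟨m, he⟩ | ⟨m, he⟩
  · rw [key m]
    exact dim_spH K _ _ (hm m) (Or.inl (by omega))
  · rw [key m]
    exact dim_spH K _ _ (hm m) (Or.inr (by omega))

theorem dim_span_eq (Y : SHFam n) (K : ℕ) :
    Submodule.span ℝ (Set.range (dimV1 Y K)) = Submodule.span ℝ (Set.range (dimV2 n K)) := by
  apply le_antisymm
  · rw [Submodule.span_le]
    rintro _ ⟨p, rfl⟩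
    exact dim_spP K _ ((Y.deg _ _).trans (Nat.lt_succ_iff.1 p.1.2))
  · rw [Submodule.span_le]
    rintro _ ⟨d, rfl⟩
    have h1 : (MvPolynomial.monomial (d : Fin n →₀ ℕ) (1 : ℝ) : Pol n).totalDegree ≤ K := by
      refine (MvPolynomial.totalDegree_monomial_le _ _).trans ?_
      have h2 : (d : Fin n →₀ ℕ) ∈ dimA n K ∪ dimB n K := d.2
      rw [Finset.mem_union, dim_memA, dim_memB] at h2
      rw [Finsupp.sum_fintype _ _ (fun i => rfl)]
      simp only [id_eq]
      omega
    obtain ⟨c, hc⟩ := Y.span K _ h1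
    have h3 : dimV2 n K d = ∑ p : (k : Fin (K + 1)) × Fin (Y.m k), c p.1 p.2 • dimV1 Y K p := by
      funext w
      rw [Finset.sum_apply, Fintype.sum_sigma]
      have h4 := hc w (dim_norm_sphere w)
      rw [← Fin.sum_univ_eq_sum_range (fun k => ∑ i, c k i * ev (Y.Y k i) (w : E n)) (K + 1)] at h4
      exact h4
    show dimV2 n K d ∈ Submodule.span ℝ (Set.range (dimV1 Y K))
    rw [h3]
    exact Submodule.sum_mem _ fun p _ => Submodule.smul_mem _ _ (Submodule.subset_span ⟨p, rfl⟩)

theorem cum_eq (hn : 2 ≤ n) (Y : SHFam n) (K : ℕ) : cum Y (K + 1) = hc n K + hc1 n K := by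
  have h1 := finrank_span_eq_card (dim_li1 (by omega) Y K)
  have h2 := finrank_span_eq_card (dim_li2 (by omega : 1 ≤ n) K)
  rw [dim_span_eq, h2, Fintype.card_coe, dim_cardS, Fintype.card_sigma] at h1
  rw [h1]
  unfold cum
  rw [← Fin.sum_univ_eq_sum_range (fun k => Y.m k) (K + 1)]
  refine Finset.sum_congr rfl fun k _ => ?_
  rw [Fintype.card_fin]

/-- The dimension of the constants is one. -/
theorem m_zero (hn : 2 ≤ n) (Y : SHFam n) : Y.m 0 = 1 := by
  have h1 := cum_eq hn Y 0
  have h2 : cum Y (0 + 1) = Y.m 0 := by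
    unfold cum
    rw [zero_add, Finset.sum_range_one]
  have h3 : hc1 n 0 = 0 := by
    unfold hc1
    rw [if_pos rfl]
  have h4 : hc n 0 = 1 := by
    unfold hc
    rw [Finset.finsuppAntidiag_zero, Finset.card_singleton]
  rw [← h2, h1, h3, h4]

theorem dim_hc (hn : 2 ≤ n) (K : ℕ) : K + 1 ≤ hc n K := by
  have h0 : (⟨0, by omega⟩ : Fin n) ≠ ⟨1, by omega⟩ := by
    intro h
    have := congrArg Fin.val h
    simp at this
  have h1 : (Finset.range (K + 1)).card ≤ (dimA n K).card := by
    refine Finset.card_le_card_of_injOn (fun j => Finsupp.single (⟨0, by omega⟩ : Fin n) j +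
      Finsupp.single (⟨1, by omega⟩ : Fin n) (K - j)) ?_ ?_
    · intro j hj
      have hj' : j < K + 1 := Finset.mem_range.1 (Finset.mem_coe.1 hj)
      rw [Finset.mem_coe, dim_memA]
      simp only [Finsupp.add_apply, Finset.sum_add_distrib]
      rw [Finset.sum_eq_single (⟨0, by omega⟩ : Fin n), Finset.sum_eq_single
        (⟨1, by omega⟩ : Fin n), Finsupp.single_eq_same, Finsupp.single_eq_same]
      · omega
      · intro b _ hb
        rw [Finsupp.single_apply, if_neg (Ne.symm hb)]
      · intro h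
        exact absurd (Finset.mem_univ _) h
      · intro b _ hb
        rw [Finsupp.single_apply, if_neg (Ne.symm hb)]
      · intro h
        exact absurd (Finset.mem_univ _) h
    · intro j _ k _ hjk
      have := DFunLike.congr_fun hjk (⟨0, by omega⟩ : Fin n)
      simp only [Finsupp.add_apply] at this
      rw [Finsupp.single_eq_same, Finsupp.single_eq_same, Finsupp.single_apply,
        Finsupp.single_apply, if_neg (Ne.symm h0), if_neg (Ne.symm h0)] at this
      simpa using this
  rw [Finset.card_range, dim_cardA] at h1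
  exact h1

theorem cum_ge (hn : 2 ≤ n) (Y : SHFam n) (K : ℕ) : K + 1 ≤ cum Y (K + 1) := by
  rw [cum_eq hn Y K]
  exact (dim_hc hn K).trans (Nat.le_add_right _ _)

/-- There are spherical harmonics of degree one. -/
theorem m_one (hn : 2 ≤ n) (Y : SHFam n) : 1 ≤ Y.m 1 := by
  have h1 := cum_ge hn Y 1
  have h2 : cum Y (1 + 1) = Y.m 0 + Y.m 1 := by
    unfold cum
    rw [Finset.sum_range_succ, Finset.sum_range_one]
  have h3 := m_zero hn Y
  omega

end Pool.Agent.H78.SK
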