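import Pool.Agent.H78.SK.Base

/-!
# Steklov spectra: abstract Courant-Fischer bounds
-/

namespace Pool.Agent.H78.SK

open MeasureTheory Metric Set
open Pool.Agent.H35.CA

variable {n : ℕ}

/-- Test functions give a space as in the definition. -/
theorem minmax_space {Q b : (Eu n → ℝ) → ℝ}
    {ι : Type} [Fintype ι] {j : ℕ} (hcard : j < Fintype.card ι) {s : ℝ}
    (u : ι → Eu n → ℝ) (hu : ∀ i, ContDiff ℝ (⊤ : ℕ∞) (u i))
    (hb : ∀ z : ι → ℝ, z ≠ 0 → 0 < b (fun x => ∑ i, z i * u i x))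
    (hs : ∀ z : ι → ℝ, Q (fun x => ∑ i, z i * u i x) ≤ s * b (fun x => ∑ i, z i * u i x))
    (hb0 : b 0 = 0) :
    ∃ V : Submodule ℝ (Eu n → ℝ), Module.finrank ℝ V = j + 1 ∧
      (∀ u ∈ V, ContDiff ℝ (⊤ : ℕ∞) u) ∧ (∀ u ∈ V, u ≠ 0 → 0 < b u) ∧
      ∀ u ∈ V, Q u ≤ s * b u := by
  classical
  -- the linear map of combinations
  have hcomb : ∀ z : ι → ℝ, (∑ i, z i • u i) = fun x => ∑ i, z i * u i x := by
    intro z
    funext x
    simp [Finset.sum_apply]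
  have hli : LinearIndependent ℝ u := by
    rw [Fintype.linearIndependent_iff]
    intro z hz i
    by_contra hzi
    have hz0 : z ≠ 0 := fun h => hzi (by rw [h]; rfl)
    have h1 := hb z hz0
    rw [← hcomb z, hz, hb0] at h1
    exact lt_irrefl _ h1
  obtain ⟨S, hS⟩ := (Finset.exists_subset_card_eq (s := (Finset.univ : Finset ι)) (n := j + 1)
    (by rw [Finset.card_univ]; omega))
  obtain ⟨-, hScard⟩ := hS
  have hliS : LinearIndependent ℝ (fun i : S => u i) := hli.comp _ Subtype.val_injective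
  refine ⟨Submodule.span ℝ (Set.range (fun i : S => u i)), ?_, ?_, ?_, ?_⟩
  · rw [finrank_span_eq_card hliS]
    simpa using hScard
  all_goals
    have hmem : ∀ v ∈ Submodule.span ℝ (Set.range (fun i : S => u i)), ∃ z : ι → ℝ,
        v = ∑ i, z i • u i := by
      intro v hv
      have hv' : v ∈ Submodule.span ℝ (Set.range u) := by
        refine Submodule.span_mono ?_ hv
        rintro _ ⟨i, rfl⟩
        exact ⟨i.1, rfl⟩
      obtain ⟨z, hz⟩ := (Submodule.mem_span_range_iff_exists_fun ℝ).1 hv'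
      exact ⟨z, hz.symm⟩
    intro v hv
    obtain ⟨z, rfl⟩ := hmem v hv
  · have : ContDiff ℝ (⊤ : ℕ∞) (fun x => ∑ i, z i * u i x) := by
      refine ContDiff.sum fun i _ => ?_
      exact contDiff_const.mul (hu i)
    rw [hcomb z]; exact this
  · intro hne
    rw [hcomb z]
    refine hb z fun h => hne ?_
    rw [h]; simp
  · rw [hcomb z]
    exact hs z

/-- The elements of the defining set are nonnegative. -/
theorem minmax_mem_nonneg {Q b : (Eu n → ℝ) → ℝ} (hQ : ∀ u, 0 ≤ Q u) {j : ℕ} {s : ℝ}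
    (h : ∃ V : Submodule ℝ (Eu n → ℝ), Module.finrank ℝ V = j + 1 ∧
    (∀ u ∈ V, ContDiff ℝ (⊤ : ℕ∞) u) ∧ (∀ u ∈ V, u ≠ 0 → 0 < b u) ∧ ∀ u ∈ V, Q u ≤ s * b u) :
    0 ≤ s := by
  obtain ⟨V, hV, -, hb, hs⟩ := h
  have hpos : 0 < Module.finrank ℝ V := by omega
  have : Nontrivial V := Module.nontrivial_of_finrank_pos hpos
  obtain ⟨v, hv⟩ := exists_ne (0 : V)
  have h1 := hb v.1 v.2 (fun h => hv (Subtype.ext h))
  have h2 := hs v.1 v.2
  have h3 := hQ v.1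
  by_contra hneg
  rw [not_le] at hneg
  nlinarith

/-- Upper bound by test functions. -/
theorem minmax_upper {Q b : (Eu n → ℝ) → ℝ} (hQ : ∀ u, 0 ≤ Q u)
    {ι : Type} [Fintype ι] {j : ℕ} (hcard : j < Fintype.card ι) {s : ℝ}
    (u : ι → Eu n → ℝ) (hu : ∀ i, ContDiff ℝ (⊤ : ℕ∞) (u i))
    (hb : ∀ z : ι → ℝ, z ≠ 0 → 0 < b (fun x => ∑ i, z i * u i x))
    (hs : ∀ z : ι → ℝ, Q (fun x => ∑ i, z i * u i x) ≤ s * b (fun x => ∑ i, z i * u i x))
    (hb0 : b 0 = 0) :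
    minmax Q b j ≤ s :=
  csInf_le ⟨0, fun _ h => minmax_mem_nonneg hQ h⟩ (minmax_space hcard u hu hb hs hb0)

/-- The Courant-Fischer values are nonnegative. -/
theorem minmax_nonneg {Q b : (Eu n → ℝ) → ℝ} (hQ : ∀ u, 0 ≤ Q u) (j : ℕ) :
    0 ≤ minmax Q b j :=
  Real.sInf_nonneg fun _ h => minmax_mem_nonneg hQ h

/-- Lower bound by finitely many linear conditions. -/
theorem minmax_lower {Q b : (Eu n → ℝ) → ℝ} (hQ : ∀ u, 0 ≤ Q u)
    {κ : Type} [Fintype κ] {j : ℕ} (hcard : Fintype.card κ ≤ j) {s : ℝ}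
    (l : κ → (Eu n → ℝ) → ℝ)
    (hadd : ∀ i u v, ContDiff ℝ (⊤ : ℕ∞) u → ContDiff ℝ (⊤ : ℕ∞) v →
      l i (u + v) = l i u + l i v)
    (hsmul : ∀ i (c : ℝ) u, ContDiff ℝ (⊤ : ℕ∞) u → l i (c • u) = c * l i u)
    (h : ∀ u, ContDiff ℝ (⊤ : ℕ∞) u → (∀ i, l i u = 0) → s * b u ≤ Q u)
    (hne : ∃ V : Submodule ℝ (Eu n → ℝ), Module.finrank ℝ V = j + 1 ∧
      (∀ u ∈ V, ContDiff ℝ (⊤ : ℕ∞) u) ∧ (∀ u ∈ V, u ≠ 0 → 0 < b u) ∧
      ∃ s : ℝ, ∀ u ∈ V, Q u ≤ s * b u) :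
    s ≤ minmax Q b j := by
  obtain ⟨W, hW1, hW2, hW3, s₀, hW4⟩ := hne
  refine le_csInf ⟨s₀, W, hW1, hW2, hW3, hW4⟩ ?_
  rintro s' ⟨V, hV1, hV2, hV3, hV4⟩
  have hfin : FiniteDimensional ℝ V := Module.finite_of_finrank_pos (by omega)
  let L : V →ₗ[ℝ] (κ → ℝ) :=
    { toFun := fun v i => l i v.1
      map_add' := fun v w => by
        funext i
        exact hadd i v.1 w.1 (hV2 _ v.2) (hV2 _ w.2)
      map_smul' := fun c v => by
        funext i
        exact hsmul i c v.1 (hV2 _ v.2) }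
  have hker : LinearMap.ker L ≠ ⊥ := by
    intro hbot
    have hinj : Function.Injective L := LinearMap.ker_eq_bot.1 hbot
    have := LinearMap.finrank_le_finrank_of_injective hinj
    rw [hV1, Module.finrank_fintype_fun_eq_card] at this
    omega
  obtain ⟨v, hv, hv0⟩ := Submodule.exists_mem_ne_zero_of_ne_bot hker
  have hl : ∀ i, l i v.1 = 0 := fun i => congrFun (LinearMap.mem_ker.1 hv) i
  have h1 := h v.1 (hV2 _ v.2) hl
  have h2 := hV4 v.1 v.2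
  have h3 := hV3 v.1 v.2 (fun h => hv0 (Subtype.ext h))
  by_contra hlt
  rw [not_le] at hlt
  nlinarith

end Pool.Agent.H78.SK
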