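import Pool.Agent.H78.SK.Tst
import Pool.Agent.H78.SK.Min
import Pool.Agent.H78.SK.Dim

/-!
# Job SK-REAU: upper bounds for the Steklov eigenvalues of a domain with separable collars

Put `g c = 2 * a c * kz n`, `I c k = (k + g c) / r c`.

`real_upper`.  With `C1` the constant of `test_family`,
`K1 = ∑ c, (C1 / r c) * exp (C * (g c / r c))`, `K = K1 * exp (C * K1)`.  For `k < κ c`
`(k + g c + C1 e^(-2κ(S-2))) / r c ≤ I + K1 exp (-C I) ≤ x + K exp (-C x)`, `I = I c k ≤ x`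
(if `x - I ≥ K1` it is `≤ I + K1 ≤ x`, otherwise `exp (-C I) ≤ exp (C K1) exp (-C x)`).
`minmax_upper` with the functions `u c k i` of `test_family` (index type as above).
-/

namespace Pool.Agent.H78.SK

open MeasureTheory Metric Set
open Pool.Agent.H35.CA

variable {n N : ℕ}

/-- Coefficients of a combination, extended by zero. -/
noncomputable def reau_Z (Y : SHFam n) (κ : Option (Fin N) → ℕ)
    (z : (Σ c : Option (Fin N), Σ k : Fin (κ c), Fin (Y.m k)) → ℝ) (c : Option (Fin N)) (k : ℕ)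
    (i : Fin (Y.m k)) : ℝ :=
  if h : k < κ c then z ⟨c, ⟨k, h⟩, i⟩ else 0

theorem reau_Z_eq (Y : SHFam n) (κ : Option (Fin N) → ℕ)
    (z : (Σ c : Option (Fin N), Σ k : Fin (κ c), Fin (Y.m k)) → ℝ) (c : Option (Fin N))
    (k : Fin (κ c)) (i : Fin (Y.m k)) : reau_Z Y κ z c k i = z ⟨c, k, i⟩ := by
  unfold reau_Z
  rw [dif_pos k.2]

theorem reau_sum (Y : SHFam n) (κ : Option (Fin N) → ℕ)
    (u : Option (Fin N) → (k : ℕ) → Fin (Y.m k) → Eu n → ℝ)
    (z : (Σ c : Option (Fin N), Σ k : Fin (κ c), Fin (Y.m k)) → ℝ) :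
    (fun x => ∑ q : (Σ c : Option (Fin N), Σ k : Fin (κ c), Fin (Y.m k)),
      z q * u q.1 q.2.1 q.2.2 x)
      = fun x => ∑ c, ∑ k ∈ Finset.range (κ c), ∑ i, reau_Z Y κ z c k i * u c k i x := by
  funext x
  rw [Fintype.sum_sigma]
  refine Finset.sum_congr rfl fun c _ => ?_
  rw [Fintype.sum_sigma, Finset.sum_range (fun k => ∑ i, reau_Z Y κ z c k i * u c k i x)]
  refine Finset.sum_congr rfl fun k _ => ?_
  refine Finset.sum_congr rfl fun i _ => ?_
  rw [reau_Z_eq]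

theorem reau_card (Y : SHFam n) (κ : Option (Fin N) → ℕ) :
    Fintype.card (Σ c : Option (Fin N), Σ k : Fin (κ c), Fin (Y.m k)) = ∑ c, cum Y (κ c) := by
  rw [Fintype.card_sigma]
  refine Finset.sum_congr rfl fun c _ => ?_
  rw [Fintype.card_sigma, cum, Finset.sum_range (fun k => Y.m k)]
  exact Finset.sum_congr rfl fun k _ => Fintype.card_fin _

theorem reau_num {C C1 r g kz S K1 x : ℝ} {k : ℕ} (hC : 0 ≤ C) (hC1 : 0 ≤ C1) (hr : 0 < r)
    (hg : 0 ≤ g) (hk : 0 ≤ kz) (hS : 3 ≤ S) (hCS : C / r ≤ 2 * (S - 2))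
    (hK1 : C1 / r * Real.exp (C * (g / r)) ≤ K1) (hx : ((k : ℝ) + g) / r ≤ x) :
    ((k : ℝ) + g + C1 * Real.exp (-(2 * ((k : ℝ) + kz) * (S - 2)))) ≤
      (x + K1 * Real.exp (C * K1) * Real.exp (-(C * x))) * r := by
  have hk0 : (0 : ℝ) ≤ k := Nat.cast_nonneg k
  have hK10 : 0 ≤ K1 := le_trans (mul_nonneg (div_nonneg hC1 hr.le) (Real.exp_pos _).le) hK1
  set I : ℝ := ((k : ℝ) + g) / r with hI
  have hI0 : 0 ≤ I := div_nonneg (by linarith) hr.le
  have h1 : C1 / r * Real.exp (-(2 * ((k : ℝ) + kz) * (S - 2))) ≤ K1 * Real.exp (-(C * I)) := by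
    have h2 : Real.exp (-(2 * ((k : ℝ) + kz) * (S - 2))) ≤
        Real.exp (C * (g / r)) * Real.exp (-(C * I)) := by
      rw [← Real.exp_add, Real.exp_le_exp]
      have h3 : C * I = C / r * k + C * (g / r) := by rw [hI]; field_simp
      rw [h3]
      have h4 : C / r * k ≤ 2 * (S - 2) * k := mul_le_mul_of_nonneg_right hCS hk0
      have h5 : 0 ≤ kz * (S - 2) := mul_nonneg hk (by linarith)
      nlinarith
    calc C1 / r * Real.exp (-(2 * ((k : ℝ) + kz) * (S - 2)))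
        ≤ C1 / r * (Real.exp (C * (g / r)) * Real.exp (-(C * I))) :=
          mul_le_mul_of_nonneg_left h2 (div_nonneg hC1 hr.le)
      _ = C1 / r * Real.exp (C * (g / r)) * Real.exp (-(C * I)) := by ring
      _ ≤ K1 * Real.exp (-(C * I)) := mul_le_mul_of_nonneg_right hK1 (Real.exp_pos _).le
  have h6 : I + K1 * Real.exp (-(C * I)) ≤ x + K1 * Real.exp (C * K1) * Real.exp (-(C * x)) := by
    by_cases hc : K1 ≤ x - I
    · have h7 : Real.exp (-(C * I)) ≤ 1 := by
        rw [Real.exp_le_one_iff]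
        have := mul_nonneg hC hI0
        linarith
      have h8 : K1 * Real.exp (-(C * I)) ≤ K1 * 1 := mul_le_mul_of_nonneg_left h7 hK10
      have h9 : 0 ≤ K1 * Real.exp (C * K1) * Real.exp (-(C * x)) := by positivity
      linarith
    · rw [not_le] at hc
      have h7 : Real.exp (-(C * I)) ≤ Real.exp (C * K1) * Real.exp (-(C * x)) := by
        rw [← Real.exp_add, Real.exp_le_exp]
        have := mul_le_mul_of_nonneg_left hc.le hC
        linarith
      have h8 := mul_le_mul_of_nonneg_left h7 hK10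
      have h9 : I ≤ x := hx
      linarith
  have h10 : I + C1 / r * Real.exp (-(2 * ((k : ℝ) + kz) * (S - 2))) ≤
      x + K1 * Real.exp (C * K1) * Real.exp (-(C * x)) := by linarith
  have h11 := mul_le_mul_of_nonneg_right h10 hr.le
  have h12 : (I + C1 / r * Real.exp (-(2 * ((k : ℝ) + kz) * (S - 2)))) * r =
      (k : ℝ) + g + C1 * Real.exp (-(2 * ((k : ℝ) + kz) * (S - 2))) := by
    rw [hI]; field_simp
  rw [← h12]
  exact h11

theorem real_upper (hn : 3 ≤ n) (Y : SHFam n) {D : Dom n N} {r a : Option (Fin N) → ℝ}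
    {S C : ℝ} (h : SD D r a S) (hC : 0 ≤ C) (hS : ∀ c, C / r c ≤ 2 * (S - 2)) :
    ∃ K : ℝ, 0 ≤ K ∧ ∀ (j : ℕ) (x : ℝ) (κ : Option (Fin N) → ℕ),
      (∀ c, ∀ k < κ c, ((k : ℝ) + 2 * a c * kz n) / r c ≤ x) →
      j < ∑ c, cum Y (κ c) → D.steklov j ≤ x + K * Real.exp (-(C * x)) := by
  obtain ⟨C1, hC1, u, hu, htest⟩ := test_family hn Y h
  have hkz : 0 ≤ kz n := by
    have : (3 : ℝ) ≤ n := by exact_mod_cast hn
    unfold kz
    linarith
  have hg : ∀ c, 0 ≤ 2 * a c * kz n := fun c =>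
    mul_nonneg (mul_nonneg (by norm_num) (h.a_nonneg c)) hkz
  obtain ⟨K1, hK1⟩ : ∃ K1 : ℝ, K1 =
      ∑ c, C1 / r c * Real.exp (C * (2 * a c * kz n / r c)) := ⟨_, rfl⟩
  have hterm : ∀ c, 0 ≤ C1 / r c * Real.exp (C * (2 * a c * kz n / r c)) := fun c =>
    mul_nonneg (div_nonneg hC1 (h.r_pos c).le) (Real.exp_pos _).le
  have hK10 : 0 ≤ K1 := by rw [hK1]; exact Finset.sum_nonneg fun c _ => hterm c
  have hK1c : ∀ c, C1 / r c * Real.exp (C * (2 * a c * kz n / r c)) ≤ K1 := by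
    intro c
    rw [hK1]
    exact Finset.single_le_sum (f := fun c => C1 / r c * Real.exp (C * (2 * a c * kz n / r c)))
      (fun c _ => hterm c) (Finset.mem_univ c)
  have hn0 : (0 : ℝ) < n := by
    have : 0 < n := by omega
    exact_mod_cast this
  have hnom : 0 < (n : ℝ) * om n := mul_pos hn0 (om_pos n)
  refine ⟨K1 * Real.exp (C * K1), mul_nonneg hK10 (Real.exp_pos _).le, ?_⟩
  intro j x κ hκ hj
  refine minmax_upper (energy_nonneg D) (ι := Σ c : Option (Fin N), Σ k : Fin (κ c), Fin (Y.m k))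
    (by rw [reau_card]; exact hj) (fun q => u q.1 q.2.1 q.2.2) (fun q => hu _ _ _) ?_ ?_ ?_
  · intro z hz
    rw [reau_sum, (htest κ (reau_Z Y κ z)).1]
    refine mul_pos hnom ?_
    obtain ⟨⟨c, k, i⟩, hq⟩ := Function.ne_iff.1 hz
    refine Finset.sum_pos' (fun c _ => mul_nonneg (pow_pos (h.r_pos c) _).le
      (Finset.sum_nonneg fun k _ => Finset.sum_nonneg fun i _ => sq_nonneg _)) ⟨c, Finset.mem_univ c, ?_⟩
    refine mul_pos (pow_pos (h.r_pos c) _) ?_
    refine Finset.sum_pos' (fun k _ => Finset.sum_nonneg fun i _ => sq_nonneg _)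
      ⟨k, Finset.mem_range.2 k.2, ?_⟩
    refine Finset.sum_pos' (fun i _ => sq_nonneg _) ⟨i, Finset.mem_univ i, ?_⟩
    rw [reau_Z_eq]
    exact lt_of_le_of_ne (sq_nonneg _) (Ne.symm (pow_ne_zero 2 hq))
  · intro z
    rw [reau_sum, (htest κ (reau_Z Y κ z)).1]
    refine (htest κ (reau_Z Y κ z)).2.1.trans ?_
    rw [mul_left_comm]
    refine mul_le_mul_of_nonneg_left ?_ hnom.le
    rw [Finset.mul_sum]
    refine Finset.sum_le_sum fun c _ => ?_
    have hrr : r c ^ (n - 1) = r c ^ (n - 2) * r c := by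
      rw [← pow_succ]
      congr 1
      omega
    rw [hrr, mul_left_comm, mul_assoc (r c ^ (n - 2))]
    refine mul_le_mul_of_nonneg_left ?_ (pow_pos (h.r_pos c) _).le
    rw [← mul_assoc, Finset.mul_sum]
    refine Finset.sum_le_sum fun k hk => ?_
    rw [Finset.mul_sum]
    refine Finset.sum_le_sum fun i _ => ?_
    rw [mul_comm]
    refine mul_le_mul_of_nonneg_right ?_ (sq_nonneg _)
    exact (reau_num hC hC1 (h.r_pos c) (hg c) hkz h.S_ge (hS c) (hK1c c)
      (hκ c k (Finset.mem_range.1 hk))).trans_eq (mul_comm _ _)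
  · simp [Dom.mass]

end Pool.Agent.H78.SK
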