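import Pool.Agent.H78.SK.ReaL
import Pool.Agent.H78.SK.ReaU
import Pool.Agent.H78.SK.Cnt

/-!
# Steklov spectra: comparison of two domains with the same counting function
-/

namespace Pool.Agent.H78.SK

open MeasureTheory Metric Set Filter
open Pool.Agent.H35.CA

variable {n N N' : ℕ}

/-- The modes of the domain are counted by `cc`: there are `cc M` modes with value `≤ M / 2`. -/
structure Cntd (n : ℕ) {N : ℕ} (Y : SHFam n) (r a : Option (Fin N) → ℝ) (cc : ℕ → ℕ) : Prop where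
  up : ∀ M : ℕ, ∃ κ : Option (Fin N) → ℕ,
    (∀ c, ∀ k < κ c, ((k : ℝ) + 2 * a c * kz n) / r c ≤ (M : ℝ) / 2) ∧ ∑ c, cum Y (κ c) = cc M
  low : ∀ M : ℕ, ∃ κ : Option (Fin N) → ℕ,
    (∀ c (k : ℕ), κ c ≤ k → (M : ℝ) / 2 ≤ ((k : ℝ) + 2 * a c * kz n) / r c) ∧
      (∑ c, cum Y (κ c) = if M = 0 then 0 else cc (M - 1))

theorem close_of (hn : 3 ≤ n) (Y : SHFam n) {D : Dom n N} {r a : Option (Fin N) → ℝ}
    {S C : ℝ} (h : SD D r a S) (hC : 0 ≤ C) (hS : ∀ c, C / r c ≤ 2 * (S - 2)) {cc : ℕ → ℕ}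
    (hc : Cntd n Y r a cc) :
    ∃ K : ℝ, 0 ≤ K ∧ ∀ j M : ℕ, (M ≠ 0 → cc (M - 1) ≤ j) → j < cc M →
      |D.steklov j - (M : ℝ) / 2| ≤ K * Real.exp (-(C * ((M : ℝ) / 2))) := by
  obtain ⟨K1, hK1, h1⟩ := real_lower hn Y h hC hS
  obtain ⟨K2, hK2, h2⟩ := real_upper hn Y h hC hS
  refine ⟨K1 + K2, add_nonneg hK1 hK2, fun j M hj1 hj2 => ?_⟩
  have he : 0 < Real.exp (-(C * ((M : ℝ) / 2))) := Real.exp_pos _
  obtain ⟨κ, hκ, hκ'⟩ := hc.up M
  obtain ⟨l, hl, hl'⟩ := hc.low M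
  have h3 := h2 j ((M : ℝ) / 2) κ hκ (by rw [hκ']; exact hj2)
  have h4 := h1 j ((M : ℝ) / 2) l hl (by
    rw [hl']
    by_cases hM : M = 0
    · rw [if_pos hM]; exact Nat.zero_le _
    · rw [if_neg hM]; exact hj1 hM)
  rw [abs_le]
  constructor <;> nlinarith

theorem compare (hn : 3 ≤ n) (Y : SHFam n) {D : Dom n N} {r a : Option (Fin N) → ℝ}
    {D' : Dom n N'} {r' a' : Option (Fin N') → ℝ} {S C : ℝ} (h : SD D r a S)
    (h' : SD D' r' a' S) (hC : 0 ≤ C) (hS : ∀ c, C / r c ≤ 2 * (S - 2))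
    (hS' : ∀ c, C / r' c ≤ 2 * (S - 2)) {cc : ℕ → ℕ}
    (hc : Cntd n Y r a cc) (hc' : Cntd n Y r' a' cc) (hu : ∀ j, ∃ M, j < cc M) :
    (∃ K : ℝ, ∀ j, |D.steklov j - D'.steklov j| ≤ K * Real.exp (-(C * D.steklov j))) ∧
      Tendsto D.steklov atTop atTop := by
  obtain ⟨K1, hK1, h1⟩ := close_of hn Y h hC hS hc
  obtain ⟨K2, hK2, h2⟩ := close_of hn Y h' hC hS' hc'
  have key : ∀ j, ∃ M : ℕ, (M ≠ 0 → cc (M - 1) ≤ j) ∧ j < cc M := by
    intro j
    classical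
    refine ⟨Nat.find (hu j), fun h0 => ?_, Nat.find_spec (hu j)⟩
    exact not_lt.1 (Nat.find_min (hu j) (Nat.pred_lt h0))
  constructor
  · refine ⟨(K1 + K2) * Real.exp (C * K1), fun j => ?_⟩
    obtain ⟨M, hM1, hM2⟩ := key j
    have h3 := h1 j M hM1 hM2
    have h4 := h2 j M hM1 hM2
    have he : Real.exp (-(C * ((M : ℝ) / 2))) ≤ 1 :=
      Real.exp_le_one_iff.2 (by
        have : 0 ≤ C * ((M : ℝ) / 2) := by positivity
        linarith)
    have h5 : D.steklov j ≤ (M : ℝ) / 2 + K1 := by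
      have := (abs_le.1 h3).2
      nlinarith
    have h6 : Real.exp (-(C * ((M : ℝ) / 2))) ≤ Real.exp (C * K1) * Real.exp (-(C * D.steklov j)) := by
      rw [← Real.exp_add]
      exact Real.exp_le_exp.2 (by nlinarith)
    have h7 : |D.steklov j - D'.steklov j| ≤ (K1 + K2) * Real.exp (-(C * ((M : ℝ) / 2))) := by
      have := abs_sub_le (D.steklov j) ((M : ℝ) / 2) (D'.steklov j)
      rw [abs_sub_comm ((M : ℝ) / 2)] at this
      linarith
    calc |D.steklov j - D'.steklov j| ≤ (K1 + K2) * Real.exp (-(C * ((M : ℝ) / 2))) := h7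
      _ ≤ (K1 + K2) * (Real.exp (C * K1) * Real.exp (-(C * D.steklov j))) :=
        mul_le_mul_of_nonneg_left h6 (add_nonneg hK1 hK2)
      _ = _ := by ring
  · rw [tendsto_atTop_atTop]
    intro b
    obtain ⟨M0, hM0⟩ := exists_nat_gt (2 * (b + K1))
    -- all `j` beyond the values of `cc` up to `M0` have `M > M0`
    refine ⟨∑ M ∈ Finset.range (M0 + 1), cc M, fun j hj => ?_⟩
    obtain ⟨M, hM1, hM2⟩ := key j
    have hMM : M0 < M := by
      by_contra hcon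
      have : cc M ≤ ∑ M ∈ Finset.range (M0 + 1), cc M :=
        Finset.single_le_sum (f := cc) (fun _ _ => Nat.zero_le _)
          (Finset.mem_range.2 (by omega))
      omega
    have h3 := h1 j M hM1 hM2
    have he : Real.exp (-(C * ((M : ℝ) / 2))) ≤ 1 :=
      Real.exp_le_one_iff.2 (by
        have : 0 ≤ C * ((M : ℝ) / 2) := by positivity
        linarith)
    have h5 : (M : ℝ) / 2 - K1 ≤ D.steklov j := by
      have := (abs_le.1 h3).1
      nlinarith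
    have h6 : (M0 : ℝ) < M := by exact_mod_cast hMM
    linarith

end Pool.Agent.H78.SK
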