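import Pool.Agent.H78.SK.Base

/-!
# Job SK-CNN: connectedness of the domain

Proof.  Choose `M` with `‖p i‖ + R i < M < R0` for all `i` and `0 < M` (finitely many
conditions).  The shell `An = {x | M < ‖x‖ < R0}` is contained in `Om` and connected (image of
`sphere 0 1 ×ˢ Ioo M R0`, `isConnected_sphere`).  For `x ∈ Om` with `‖x‖ ≤ M` let `s = 1` if
`0 ≤ ⟪v, x⟫` and `s = -1` otherwise; along `τ ↦ x + τ s v`, `τ ≥ 0`, the distances to all the
`p i` do not decrease, because `‖x + τ s v - p i‖^2 = ‖x - p i‖^2 + 2 τ |⟪v, x⟫| + τ^2`, and the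
norm increases continuously from `‖x‖ ≤ M`; stop when the norm is `(M + R0) / 2`.
Use `isPreconnected_of_forall` with a base point in `An`.
-/

namespace Pool.Agent.H78.SK

open MeasureTheory Metric Set
open Pool.Agent.H35.CA

variable {n N : ℕ}

lemma Cnn_norm_sq {x u : Eu n} (hu : ‖u‖ = 1) (τ : ℝ) :
    ‖x + τ • u‖ ^ 2 = ‖x‖ ^ 2 + 2 * τ * inner ℝ u x + τ ^ 2 := by
  rw [norm_add_sq_real, inner_smul_right, norm_smul, mul_pow, hu, real_inner_comm x u,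
    Real.norm_eq_abs, sq_abs]
  ring

lemma Cnn_le {x u : Eu n} (hu : ‖u‖ = 1) (hx : 0 ≤ inner ℝ u x) {τ τ' : ℝ} (h0 : 0 ≤ τ)
    (h : τ ≤ τ') : ‖x + τ • u‖ ≤ ‖x + τ' • u‖ := by
  have h1 := Cnn_norm_sq (x := x) hu τ
  have h2 := Cnn_norm_sq (x := x) hu τ'
  refine le_of_sq_le_sq ?_ (norm_nonneg _)
  rw [h1, h2]
  nlinarith [mul_nonneg (sub_nonneg.2 h) hx]

lemma Cnn_ge {x u : Eu n} (hu : ‖u‖ = 1) (hx : 0 ≤ inner ℝ u x) {τ : ℝ} (h0 : 0 ≤ τ) :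
    ‖x‖ ≤ ‖x + τ • u‖ := by
  have := Cnn_le hu hx le_rfl h0
  rwa [zero_smul, add_zero] at this

/-- the path from a point of the inner part to the shell -/
lemma Cnn_path (D : Dom n N) {u : Eu n} (hu : ‖u‖ = 1) (ho : ∀ i, inner ℝ u (D.p i) = 0)
    {x : Eu n} (hx : x ∈ D.Om) (hux : 0 ≤ inner ℝ u x) {m : ℝ} (hm : ‖x‖ ≤ m) (hm' : m < D.R0) :
    ∃ t : Set (Eu n), t ⊆ D.Om ∧ x ∈ t ∧ IsPreconnected t ∧ ∃ y ∈ t, ‖y‖ = m := by
  have hc : Continuous fun τ : ℝ => ‖x + τ • u‖ := by fun_prop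
  have hT : (0 : ℝ) ≤ ‖x‖ + D.R0 := add_nonneg (norm_nonneg _) D.R0_pos.le
  have h1 : m ∈ Icc ‖x + (0 : ℝ) • u‖ ‖x + (‖x‖ + D.R0) • u‖ := by
    constructor
    · rwa [zero_smul, add_zero]
    · have h2 : ‖(‖x‖ + D.R0) • u‖ = ‖x‖ + D.R0 := by
        rw [norm_smul, hu, mul_one, Real.norm_eq_abs, abs_of_nonneg hT]
      have h3 : ‖(‖x‖ + D.R0) • u‖ ≤ ‖x + (‖x‖ + D.R0) • u‖ + ‖x‖ := by
        have h4 : (‖x‖ + D.R0) • u = (x + (‖x‖ + D.R0) • u) - x := by abel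
        conv_lhs => rw [h4]
        exact norm_sub_le _ _
      linarith
  obtain ⟨τ₀, hτ₀, h2⟩ := intermediate_value_Icc hT hc.continuousOn h1
  have h2 : ‖x + τ₀ • u‖ = m := h2
  refine ⟨(fun τ : ℝ => x + τ • u) '' Icc 0 τ₀, ?_, ⟨0, ⟨le_rfl, hτ₀.1⟩, by simp⟩,
    isPreconnected_Icc.image _ (by fun_prop), x + τ₀ • u, ⟨τ₀, ⟨hτ₀.1, le_rfl⟩, rfl⟩, h2⟩
  rintro _ ⟨τ, ⟨hτ0, hτ1⟩, rfl⟩
  refine ⟨?_, fun i => ?_⟩
  · have h3 := Cnn_le hu hux hτ0 hτ1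
    show ‖x + τ • u‖ < D.R0
    linarith
  · refine (hx.2 i).trans_le ?_
    rw [dist_eq_norm, dist_eq_norm]
    have h3 : x + τ • u - D.p i = (x - D.p i) + τ • u := by abel
    rw [h3]
    refine Cnn_ge hu ?_ hτ0
    rw [inner_sub_right, ho i, sub_zero]
    exact hux

/-- If the centres of all the holes are orthogonal to a unit vector, the domain is connected. -/
theorem Om_connected (hn : 2 ≤ n) (D : Dom n N) {v : Eu n} (hv : ‖v‖ = 1)
    (ho : ∀ i, inner ℝ v (D.p i) = 0) : IsConnected D.Om := by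
  obtain ⟨M, hM0, hMi, hMR⟩ : ∃ M : ℝ, 0 < M ∧ (∀ i, ‖D.p i‖ + D.R i < M) ∧ M < D.R0 := by
    have h1 : ∀ᶠ M in nhdsWithin D.R0 (Iio D.R0), (0 < M ∧ (∀ i, ‖D.p i‖ + D.R i < M)) ∧ M < D.R0 := by
      refine Filter.Eventually.and ?_ self_mem_nhdsWithin
      refine Filter.Eventually.filter_mono nhdsWithin_le_nhds ?_
      refine Filter.Eventually.and (lt_mem_nhds D.R0_pos) ?_
      rw [Filter.eventually_all]
      exact fun i => lt_mem_nhds (D.inside i)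
    obtain ⟨M, ⟨h2, h3⟩, h4⟩ := h1.exists
    exact ⟨M, h2, h3, h4⟩
  set An : Set (Eu n) := {x | M < ‖x‖ ∧ ‖x‖ < D.R0} with hAn
  have hAnOm : An ⊆ D.Om := by
    rintro x ⟨h1, h2⟩
    refine ⟨h2, fun i => ?_⟩
    have h3 := norm_sub_norm_le x (D.p i)
    rw [dist_eq_norm]
    have h4 := hMi i
    linarith
  have hrank : 1 < Module.rank ℝ (Eu n) := by
    rw [← Module.finrank_eq_rank, finrank_euclideanSpace_fin]
    exact_mod_cast hn
  have hAnc : IsPreconnected An := by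
    have h1 : An = (fun z : Eu n × ℝ => z.2 • z.1) '' (sphere (0 : Eu n) 1 ×ˢ Ioo M D.R0) := by
      ext x
      constructor
      · rintro ⟨h2, h3⟩
        have hx0 : ‖x‖ ≠ 0 := by linarith
        refine ⟨(‖x‖⁻¹ • x, ‖x‖), ⟨?_, h2, h3⟩, ?_⟩
        · rw [mem_sphere_zero_iff_norm, norm_smul, norm_inv, norm_norm, inv_mul_cancel₀ hx0]
        · show ‖x‖ • ‖x‖⁻¹ • x = x
          rw [smul_smul, mul_inv_cancel₀ hx0, one_smul]
      · rintro ⟨⟨w, t⟩, ⟨hw, ht⟩, rfl⟩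
        have hw : w ∈ sphere (0 : Eu n) 1 := hw
        have ht : t ∈ Ioo M D.R0 := ht
        rw [mem_sphere_zero_iff_norm] at hw
        have h2 : ‖t • w‖ = t := by
          rw [norm_smul, hw, mul_one, Real.norm_eq_abs, abs_of_pos (hM0.trans ht.1)]
        show M < ‖t • w‖ ∧ ‖t • w‖ < D.R0
        rw [h2]
        exact ht
    rw [h1]
    refine ((isPreconnected_sphere hrank 0 1).prod isPreconnected_Ioo).image _ ?_
    fun_prop
  set m : ℝ := (M + D.R0) / 2 with hm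
  have hm1 : M < m := by rw [hm]; linarith
  have hm2 : m < D.R0 := by rw [hm]; linarith
  have hb : m • v ∈ An := by
    have h2 : ‖m • v‖ = m := by
      rw [norm_smul, hv, mul_one, Real.norm_eq_abs, abs_of_pos (hM0.trans hm1)]
    show M < ‖m • v‖ ∧ ‖m • v‖ < D.R0
    rw [h2]
    exact ⟨hm1, hm2⟩
  refine ⟨⟨_, hAnOm hb⟩, isPreconnected_of_forall (m • v) fun x hx => ?_⟩
  by_cases hxM : M < ‖x‖
  · exact ⟨An, hAnOm, hb, ⟨hxM, hx.1⟩, hAnc⟩
  · push Not at hxM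
    have key : ∃ t : Set (Eu n), t ⊆ D.Om ∧ x ∈ t ∧ IsPreconnected t ∧ ∃ y ∈ t, ‖y‖ = m := by
      rcases le_total 0 (inner ℝ v x) with h1 | h1
      · exact Cnn_path D hv ho hx h1 (by linarith) hm2
      · refine Cnn_path D (u := -v) (by rwa [norm_neg]) (fun i => by rw [inner_neg_left, ho i, neg_zero])
          hx (by rw [inner_neg_left]; linarith) (by linarith) hm2
    obtain ⟨t, h1, h2, h3, y, hy, hym⟩ := key
    refine ⟨An ∪ t, union_subset hAnOm h1, Or.inl hb, Or.inr h2, ?_⟩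
    exact IsPreconnected.union y (by show M < ‖y‖ ∧ ‖y‖ < D.R0; rw [hym]; exact ⟨hm1, hm2⟩) hy hAnc h3

end Pool.Agent.H78.SK
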