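import Pool.Agent.H78.SK.Cnt

/-!
# Job SK-CNT2: counting identity without the modes of degree zero (combinatorics)

`cm Y K = ∑_{1 ≤ k < K} m k`, so `cum Y K = 1 + cm Y K` for `K ≥ 1` and `cm Y 0 = cm Y 1 = 0`
(`m_zero`: `Y.m 0 = 1`).

`cm_id`: from `cum_id` (`Cnt.lean`).  For `T.card ≤ M` the number `(M + 2 - T.card) / 2` is `≥ 1`,
otherwise it is `0`.  So `cm Y (M + 1) + cm Y (M - 1) = cum Y (M + 1) - 1 + (cum Y (M - 1) - [2 ≤ M])`
and the sum over `T` of `cum` is the sum of `cm` plus the number of `T` with `T.card ≤ M`; the two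
sets `∅` and `T0` (`T0.card = 2`) account for `1 + [2 ≤ M]`.

`cm_big`.  Let `L m = cm (m + 1) + cm (m - 1)`, `R m = ∑ U, cm ((m + 2 - U.card) / 2)` and
`t m = #{T ∈ Th T0 | T.card ≤ m}`; `cm_id` says `L m = R m + t m`, and `L 0 = R 0 = t 0 = 0`, so
subtractions may be truncated.  Left side: `∑_{T ∈ Th} (R ((M + 1 - |T|) / 2) + L (M + 1 - 2 |T|))`,
right side: `∑_{T ∈ Th} (R (M + 1 - 2 |T|) + L ((M + 1 - |T|) / 2))` (for `T ∈ Th` one has
`|T| ≥ 1`; check the cases `|T| > M + 1`, `2 |T| > M + 1` separately: all terms vanish because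
`cm 0 = cm 1 = 0`).  The difference is
`∑_{T ∈ Th} t (M + 1 - 2 |T|) - ∑_{T ∈ Th} t ((M + 1 - |T|) / 2)`, and both sums count
pairs: `#{(T, T') | |T'| + 2 |T| ≤ M + 1} = #{(T, T') | 2 |T'| + |T| ≤ M + 1}` (swap).
-/

namespace Pool.Agent.H78.SK

open Pool.Agent.H35.CA

variable {n : ℕ}

/-- The number of modes of degree `1 ≤ k < K`. -/
def cm (Y : SHFam n) (K : ℕ) : ℕ := ∑ k ∈ Finset.Ico 1 K, Y.m k

/-- The nonempty subsets different from `T0`. -/
def Th (T0 : Finset (Fin n)) : Finset (Finset (Fin n)) :=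
  Finset.univ.filter fun T => T ≠ ∅ ∧ T ≠ T0

theorem Cnt2_zero (Y : SHFam n) : cm Y 0 = 0 := by simp [cm]

theorem Cnt2_one (Y : SHFam n) : cm Y 1 = 0 := by simp [cm]

theorem Cnt2_cum (hn : 2 ≤ n) (Y : SHFam n) (K : ℕ) :
    cum Y K = (if K = 0 then 0 else 1) + cm Y K := by
  rcases K with _ | K
  · simp [cum, cm]
  · rw [if_neg (by omega), cum, cm, Finset.range_eq_Ico, Finset.sum_eq_sum_Ico_succ_bot (by omega),
      m_zero hn]

theorem cum_cm (hn : 2 ≤ n) (Y : SHFam n) (K : ℕ) : cum Y (max 1 K) = 1 + cm Y K := by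
  rcases Nat.eq_zero_or_pos K with h | h
  · subst h
    rw [Cnt2_cum hn, if_neg (by omega)]
    simp [cm]
  · rw [max_eq_right h, Cnt2_cum hn, if_neg (by omega)]

/-- All subsets: the empty one, `T0` and the elements of `Th T0`. -/
theorem Cnt2_univ {T0 : Finset (Fin n)} (h0 : T0.card = 2) (f : Finset (Fin n) → ℕ) :
    ∑ T : Finset (Fin n), f T = f ∅ + f T0 + ∑ T ∈ Th T0, f T := by
  have h1 : (∅ : Finset (Fin n)) ≠ T0 := by
    rintro rfl
    simp at h0
  have h2 : (Finset.univ : Finset (Finset (Fin n))) = {∅, T0} ∪ Th T0 := by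
    ext T
    simp only [Th, Finset.mem_univ, Finset.mem_union, Finset.mem_insert, Finset.mem_singleton,
      Finset.mem_filter, true_and, true_iff]
    tauto
  have h3 : Disjoint ({∅, T0} : Finset (Finset (Fin n))) (Th T0) := by
    rw [Finset.disjoint_left]
    intro T hT hT'
    simp only [Finset.mem_insert, Finset.mem_singleton] at hT
    simp only [Th, Finset.mem_filter] at hT'
    tauto
  rw [h2, Finset.sum_union h3, Finset.sum_pair h1]

theorem card_Th {T0 : Finset (Fin n)} (h0 : T0.card = 2) : (Th T0).card + 2 = 2 ^ n := by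
  have h := Cnt2_univ h0 (fun _ => 1)
  simp only [Finset.sum_const, smul_eq_mul, mul_one, Finset.card_univ, Fintype.card_finset,
    Fintype.card_fin] at h
  omega

theorem cm_id (hn : 2 ≤ n) (Y : SHFam n) {T0 : Finset (Fin n)} (h0 : T0.card = 2) (M : ℕ) :
    cm Y (M + 1) + cm Y (M - 1) = ∑ T : Finset (Fin n), cm Y ((M + 2 - T.card) / 2)
      + ((Th T0).filter fun T => T.card ≤ M).card := by
  have h := cum_id hn Y M
  rw [Cnt2_cum hn Y (M + 1), Cnt2_cum hn Y (M - 1)] at h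
  have h1 : ∑ T : Finset (Fin n), cum Y ((M + 2 - T.card) / 2) =
      ∑ T : Finset (Fin n), (if T.card ≤ M then 1 else 0) +
        ∑ T : Finset (Fin n), cm Y ((M + 2 - T.card) / 2) := by
    rw [← Finset.sum_add_distrib]
    refine Finset.sum_congr rfl fun T _ => ?_
    rw [Cnt2_cum hn]
    congr 1
    by_cases h2 : T.card ≤ M
    · rw [if_pos h2, if_neg (by omega)]
    · rw [if_neg h2, if_pos (by omega)]
  rw [h1, Cnt2_univ h0, ← Finset.card_filter, h0, Finset.card_empty, if_pos (Nat.zero_le M),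
    if_neg (by omega : ¬ (M + 1 = 0))] at h
  by_cases h2 : 2 ≤ M
  · rw [if_pos h2, if_neg (by omega)] at h
    omega
  · rw [if_neg h2, if_pos (by omega)] at h
    omega

/-- The swap of the two pair counts. -/
theorem Cnt2_swap (T0 : Finset (Fin n)) (M : ℕ) :
    ∑ T ∈ Th T0, ((Th T0).filter fun U => U.card ≤ M + 1 - 2 * T.card).card =
      ∑ T ∈ Th T0, ((Th T0).filter fun U => U.card ≤ (M + 1 - T.card) / 2).card := by
  have hpos : ∀ T ∈ Th T0, 1 ≤ T.card := by
    intro T hT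
    exact Finset.card_pos.2 (Finset.nonempty_iff_ne_empty.2 (Finset.mem_filter.1 hT).2.1)
  simp only [Finset.card_filter]
  rw [Finset.sum_comm]
  refine Finset.sum_congr rfl fun U hU => Finset.sum_congr rfl fun T hT => ?_
  have h1 := hpos T hT
  have h2 := hpos U hU
  by_cases h : U.card + 2 * T.card ≤ M + 1
  · rw [if_pos (by omega), if_pos (by omega)]
  · rw [if_neg (by omega), if_neg (by omega)]

theorem cm_big (hn : 2 ≤ n) (Y : SHFam n) {T0 : Finset (Fin n)} (h0 : T0.card = 2) (M : ℕ) :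
    ∑ T ∈ Th T0, (∑ U : Finset (Fin n), cm Y ((M + 4 - (T.card - 1 + 2 * U.card)) / 4)
        + (cm Y (M + 1 - (2 * T.card - 1)) + cm Y (M + 1 - (2 * T.card - 1 + 2))))
      = ∑ T ∈ Th T0, (∑ U : Finset (Fin n), cm Y ((M + 2 - (2 * T.card - 1 + U.card)) / 2)
        + (cm Y ((M + 2 - (T.card - 1)) / 2) + cm Y ((M + 2 - (T.card - 1 + 4)) / 2))) := by
  have hpos : ∀ T ∈ Th T0, 1 ≤ T.card := by
    intro T hT
    exact Finset.card_pos.2 (Finset.nonempty_iff_ne_empty.2 (Finset.mem_filter.1 hT).2.1)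
  have h00 := Cnt2_zero Y
  have h11 := Cnt2_one Y
  have hsmall : ∀ K, K ≤ 1 → cm Y K = 0 := by
    intro K hK
    rcases Nat.le_one_iff_eq_zero_or_eq_one.1 hK with rfl | rfl
    · exact h00
    · exact h11
  have hsame : ∀ K K', K = K' ∨ (K ≤ 1 ∧ K' ≤ 1) → cm Y K = cm Y K' := by
    rintro K K' (h | ⟨h, h'⟩)
    · rw [h]
    · rw [hsmall K h, hsmall K' h']
  have hL : ∑ T ∈ Th T0, (∑ U : Finset (Fin n), cm Y ((M + 4 - (T.card - 1 + 2 * U.card)) / 4)
        + (cm Y (M + 1 - (2 * T.card - 1)) + cm Y (M + 1 - (2 * T.card - 1 + 2))))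
      = ∑ T ∈ Th T0, (∑ U : Finset (Fin n), cm Y (((M + 1 - T.card) / 2 + 2 - U.card) / 2)
        + (∑ U : Finset (Fin n), cm Y ((M + 1 - 2 * T.card + 2 - U.card) / 2)
          + ((Th T0).filter fun U => U.card ≤ M + 1 - 2 * T.card).card)) := by
    refine Finset.sum_congr rfl fun T hT => ?_
    have h1 := hpos T hT
    rw [← cm_id hn Y h0]
    congr 1
    · refine Finset.sum_congr rfl fun U _ => hsame _ _ ?_
      omega
    · congr 1
      · refine hsame _ _ ?_
        omega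
      · refine hsame _ _ ?_
        omega
  have hR : ∑ T ∈ Th T0, (∑ U : Finset (Fin n), cm Y ((M + 2 - (2 * T.card - 1 + U.card)) / 2)
        + (cm Y ((M + 2 - (T.card - 1)) / 2) + cm Y ((M + 2 - (T.card - 1 + 4)) / 2)))
      = ∑ T ∈ Th T0, (∑ U : Finset (Fin n), cm Y ((M + 1 - 2 * T.card + 2 - U.card) / 2)
        + (∑ U : Finset (Fin n), cm Y (((M + 1 - T.card) / 2 + 2 - U.card) / 2)
          + ((Th T0).filter fun U => U.card ≤ (M + 1 - T.card) / 2).card)) := by
    refine Finset.sum_congr rfl fun T hT => ?_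
    have h1 := hpos T hT
    rw [← cm_id hn Y h0]
    congr 1
    · refine Finset.sum_congr rfl fun U _ => hsame _ _ ?_
      omega
    · congr 1
      · refine hsame _ _ ?_
        omega
      · refine hsame _ _ ?_
        omega
  rw [hL, hR]
  simp only [Finset.sum_add_distrib]
  rw [Cnt2_swap]
  ring

end Pool.Agent.H78.SK
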