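import Mathlib

/-!
# Steklov spectra of conformally Euclidean balls with holes: definitions

`Dom n N` is a compact Riemannian manifold with boundary: the closed ball of radius `R0` of
`R^n` with `N` disjoint open balls removed, with the metric `ρ^2 |dx|^2`.
-/

namespace Pool.Agent.H78.SK

open MeasureTheory Metric Set

/-- Euclidean space of dimension `n`. -/
abbrev Eu (n : ℕ) : Type := EuclideanSpace ℝ (Fin n)

/-- A closed ball (centre `0`, radius `R0`) of `R^n` with `N` pairwise disjoint open balls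
(centres `p i`, radii `R i`) removed, whose closures lie in the interior of the big ball, and a
smooth positive function `ρ`.  It stands for the compact Riemannian manifold with boundary whose
metric is `ρ^2 |dx|^2`. -/
structure Dom (n N : ℕ) where
  R0 : ℝ
  p : Fin N → Eu n
  R : Fin N → ℝ
  ρ : Eu n → ℝ
  R0_pos : 0 < R0
  R_pos : ∀ i, 0 < R i
  inside : ∀ i, ‖p i‖ + R i < R0
  disj : ∀ i j, i ≠ j → R i + R j < dist (p i) (p j)
  smooth : ContDiff ℝ (⊤ : ℕ∞) ρ
  pos : ∀ x, 0 < ρ x

variable {n N : ℕ}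

/-- The interior of the manifold. -/
def Dom.Om (D : Dom n N) : Set (Eu n) := {x | ‖x‖ < D.R0 ∧ ∀ i, D.R i < dist x (D.p i)}

/-- Centre of a boundary sphere (`none` is the outer sphere). -/
def Dom.cen (D : Dom n N) : Option (Fin N) → Eu n
  | none => 0
  | some i => D.p i

/-- Euclidean radius of a boundary sphere. -/
def Dom.rad (D : Dom n N) : Option (Fin N) → ℝ
  | none => D.R0
  | some i => D.R i

/-- The point of the boundary sphere `c` in the direction `w`. -/
noncomputable def Dom.pt (D : Dom n N) (c : Option (Fin N)) (w : Eu n) : Eu n :=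
  D.cen c + D.rad c • w

/-- Dirichlet energy of `u` for the metric `ρ^2 |dx|^2`: the integral over the interior of
`ρ^(n-2) |∇u|^2`. -/
noncomputable def Dom.energy (D : Dom n N) (u : Eu n → ℝ) : ℝ :=
  ∫ x in D.Om, D.ρ x ^ (n - 2) * ‖fderiv ℝ u x‖ ^ 2

/-- The integral of `u^2` over the boundary, for the metric `ρ^2 |dx|^2`. -/
noncomputable def Dom.mass (D : Dom n N) (u : Eu n → ℝ) : ℝ :=
  ∑ c, D.rad c ^ (n - 1) * ∫ w : sphere (0 : Eu n) 1,
    D.ρ (D.pt c w) ^ (n - 1) * u (D.pt c w) ^ 2 ∂(volume : Measure (Eu n)).toSphere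

/-- Dirichlet energy of the restriction of `u` to the boundary, for the metric induced by
`ρ^2 |dx|^2`: the integral over the boundary of `ρ^(n-3)` times the square of the tangential
gradient. -/
noncomputable def Dom.bdryEnergy (D : Dom n N) (u : Eu n → ℝ) : ℝ :=
  ∑ c, D.rad c ^ (n - 1) * ∫ w : sphere (0 : Eu n) 1,
    D.ρ (D.pt c w) ^ (n - 3) *
      (‖fderiv ℝ u (D.pt c w)‖ ^ 2 - (fderiv ℝ u (D.pt c w) (w : Eu n)) ^ 2)
        ∂(volume : Measure (Eu n)).toSphere

/-- Courant-Fischer values of the quadratic form `Q` relative to the quadratic form `b`, on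
smooth functions: the infimum of the numbers `s` such that `Q ≤ s b` on some space of smooth
functions of dimension `j + 1` on which `b` is positive definite. -/
noncomputable def minmax (Q b : (Eu n → ℝ) → ℝ) (j : ℕ) : ℝ :=
  sInf {s : ℝ | ∃ V : Submodule ℝ (Eu n → ℝ), Module.finrank ℝ V = j + 1 ∧
    (∀ u ∈ V, ContDiff ℝ (⊤ : ℕ∞) u) ∧ (∀ u ∈ V, u ≠ 0 → 0 < b u) ∧ ∀ u ∈ V, Q u ≤ s * b u}

/-- The Steklov eigenvalues `σ_0 ≤ σ_1 ≤ ...`. -/
noncomputable def Dom.steklov (D : Dom n N) (j : ℕ) : ℝ := minmax D.energy D.mass j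

/-- The eigenvalues `λ_0 ≤ λ_1 ≤ ...` of the Laplacian of the boundary. -/
noncomputable def Dom.bdryLaplace (D : Dom n N) (j : ℕ) : ℝ := minmax D.bdryEnergy D.mass j

end Pool.Agent.H78.SK
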