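import Pool.Agent.H78.SK.Base

/-!
# Steklov spectra: the profile of a collar
-/

namespace Pool.Agent.H78.SK

open MeasureTheory Metric Set
open Pool.Agent.H35.CA

variable {n : ℕ}

theorem kz_pos (hn : 3 ≤ n) : 1 / 2 ≤ kz n := by
  have : (3 : ℝ) ≤ n := by exact_mod_cast hn
  unfold kz
  linarith

theorem Hf_pos (hn : 3 ≤ n) {a : ℝ} (ha : 0 ≤ a) {t : ℝ} (ht : 0 ≤ t) : 0 < Hf n a t := by
  have hk := kz_pos hn
  unfold Hf
  have h1 : 0 < Real.exp (-(kz n * t)) := Real.exp_pos _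
  have h2 : Real.exp (-(kz n * t)) ≤ Real.exp (kz n * t) :=
    Real.exp_le_exp.2 (by nlinarith)
  nlinarith

theorem Hf_zero (a : ℝ) : Hf n a 0 = 1 := by
  unfold Hf
  rw [mul_zero, neg_zero, Real.exp_zero]
  ring

end Pool.Agent.H78.SK
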