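import Pool.Agent.H78.SK.Base

/-!
# Job SK-POL: polar coordinates in a collar

`mu n` is the uniform probability measure of the unit sphere (as a measure on `E n`),
`om n` the volume of the unit ball.  Tools: `H35/CA/SphA.lean` (`toSphere_int`, and the proof of
`polar` there, which uses `measurePreserving_homeomorphUnitSphereProd`),
`MeasureTheory.integral_image_eq_integral_abs_deriv_smul` for the substitution `r = R e^(ε t)`.
-/

namespace Pool.Agent.H78.SK

open MeasureTheory Metric Set
open Pool.Agent.H35.CA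

variable {n : ℕ}

theorem pol_ioiPow (m : ℕ) (H : ℝ → ℝ) :
    ∫ r : Ioi (0 : ℝ), H r ∂(Measure.volumeIoiPow m) = ∫ r in Ioi (0 : ℝ), r ^ m * H r := by
  unfold Measure.volumeIoiPow
  rw [integral_withDensity_eq_integral_toReal_smul
    (by fun_prop) (Filter.Eventually.of_forall fun _ => ENNReal.ofReal_lt_top)]
  rw [← integral_subtype_comap measurableSet_Ioi (fun r => r ^ m * H r)]
  refine integral_congr_ae (Filter.Eventually.of_forall fun r => ?_)
  have hr : (0 : ℝ) < r := r.2
  change (ENNReal.ofReal ((r : ℝ) ^ m)).toReal • H r = (r : ℝ) ^ m * H r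
  rw [ENNReal.toReal_ofReal (by positivity), smul_eq_mul]

theorem pol_sphere (hn : 1 ≤ n) {f : E n → ℝ} (hfi : Integrable f (volume : Measure (E n))) :
    ∫ x, f x = ∫ r in Ioi (0 : ℝ), r ^ (n - 1) * ((n : ℝ) * om n * ∫ w, f (r • w) ∂(mu n)) := by
  have : Nonempty (Fin n) := ⟨⟨0, hn⟩⟩
  have hnt : Nontrivial (E n) := inferInstance
  have hmp := (volume : Measure (E n)).measurePreserving_homeomorphUnitSphereProd
  have hemb : MeasurableEmbedding (homeomorphUnitSphereProd (E n)) :=
    (homeomorphUnitSphereProd (E n)).measurableEmbedding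
  set G : sphere (0 : E n) 1 × Ioi (0 : ℝ) → ℝ := fun q => f ((q.2 : ℝ) • (q.1 : E n)) with hG
  have hGf : ∀ x : ({(0)}ᶜ : Set (E n)), G (homeomorphUnitSphereProd (E n) x) = f x := by
    intro x
    change f _ = f _
    congr 1
    rw [homeomorphUnitSphereProd_apply_snd_coe, homeomorphUnitSphereProd_apply_fst_coe, smul_smul,
      mul_inv_cancel₀ (norm_ne_zero_iff.mpr x.2), one_smul]
  have hGi : Integrable G ((volume : Measure (E n)).toSphere.prod
      (Measure.volumeIoiPow (Module.finrank ℝ (E n) - 1))) := by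
    rw [← hmp.integrable_comp_emb hemb]
    have h1 : G ∘ (homeomorphUnitSphereProd (E n)) = fun x : ({(0)}ᶜ : Set (E n)) => f x :=
      funext hGf
    rw [h1]
    have h2 : IntegrableOn f ({0}ᶜ : Set (E n)) := hfi.integrableOn
    rwa [integrableOn_iff_comap_subtypeVal (measurableSet_singleton _).compl] at h2
  have e2 : ∫ x, f x = ∫ x : ({(0)}ᶜ : Set (E n)), f x ∂((volume : Measure (E n)).comap (↑)) := by
    rw [integral_subtype_comap (measurableSet_singleton _).compl fun x => f x,
      restrict_compl_singleton]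
  have e3 : ∫ x : ({(0)}ᶜ : Set (E n)), f x ∂((volume : Measure (E n)).comap (↑)) =
      ∫ q, G q ∂((volume : Measure (E n)).toSphere.prod
      (Measure.volumeIoiPow (Module.finrank ℝ (E n) - 1))) := by
    rw [← hmp.integral_comp hemb]
    exact integral_congr_ae (Filter.Eventually.of_forall fun x => (hGf x).symm)
  have e4 : ∀ r : Ioi (0 : ℝ), ∫ u, G (u, r) ∂((volume : Measure (E n)).toSphere)
      = (n : ℝ) * om n * ∫ w, f ((r : ℝ) • w) ∂(mu n) := by
    intro r
    exact toSphere_int hn (fun w => f ((r : ℝ) • w))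
  rw [e2, e3, integral_prod_symm _ hGi, integral_congr_ae (Filter.Eventually.of_forall e4),
    finrank_euclideanSpace_fin]
  exact pol_ioiPow (n - 1) (fun r => (n : ℝ) * om n * ∫ w, f (r • w) ∂(mu n))

/-- Polar coordinates: `∫_{a < |x - p| < b} F = n om(n) ∫_a^b r^(n-1) ∫ F(p + r w) dμ(w) dr`. -/
theorem polar_r (hn : 1 ≤ n) {F : E n → ℝ} (hF : Continuous F) (p : E n) {a b : ℝ}
    (ha : 0 ≤ a) :
    ∫ x in {x : E n | a < ‖x - p‖ ∧ ‖x - p‖ < b}, F x
      = (n : ℝ) * om n * ∫ r in Ioo a b, r ^ (n - 1) * ∫ w, F (p + r • w) ∂(mu n) := by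
  have hm : MeasurableSet {x : E n | a < ‖x‖ ∧ ‖x‖ < b} :=
    ((isOpen_lt continuous_const continuous_norm).inter
      (isOpen_lt continuous_norm continuous_const)).measurableSet
  have hm' : MeasurableSet {x : E n | a < ‖x - p‖ ∧ ‖x - p‖ < b} :=
    ((isOpen_lt continuous_const (continuous_id.sub continuous_const).norm).inter
      (isOpen_lt (continuous_id.sub continuous_const).norm continuous_const)).measurableSet
  set f : E n → ℝ := {x : E n | a < ‖x‖ ∧ ‖x‖ < b}.indicator (fun x => F (p + x)) with hf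
  have hfi : Integrable f (volume : Measure (E n)) := by
    rw [hf, integrable_indicator_iff hm]
    have h1 : ContinuousOn (fun x => F (p + x)) (closedBall (0 : E n) b) :=
      (hF.comp (continuous_const.add continuous_id)).continuousOn
    refine (h1.integrableOn_compact (isCompact_closedBall _ _)).mono_set ?_
    intro x hx
    rw [mem_closedBall_zero_iff]
    exact hx.2.le
  have e1 : ∫ x in {x : E n | a < ‖x - p‖ ∧ ‖x - p‖ < b}, F x = ∫ x, f x := by
    rw [← integral_indicator hm', ← integral_sub_right_eq_self f p]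
    refine integral_congr_ae (Filter.Eventually.of_forall fun x => ?_)
    by_cases hx : x ∈ {x : E n | a < ‖x - p‖ ∧ ‖x - p‖ < b}
    · rw [indicator_of_mem hx]
      change F x = f (x - p)
      rw [hf, indicator_of_mem (show x - p ∈ {x : E n | a < ‖x‖ ∧ ‖x‖ < b} from hx)]
      rw [add_sub_cancel]
    · rw [indicator_of_notMem hx]
      change 0 = f (x - p)
      rw [hf, indicator_of_notMem (show x - p ∉ {x : E n | a < ‖x‖ ∧ ‖x‖ < b} from hx)]
  rw [e1, pol_sphere hn hfi]
  have e5 : ∀ r ∈ Ioi (0 : ℝ), r ^ (n - 1) * ((n : ℝ) * om n * ∫ w, f (r • w) ∂(mu n))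
      = (Ioo a b).indicator (fun r => (n : ℝ) * om n *
          (r ^ (n - 1) * ∫ w, F (p + r • w) ∂(mu n))) r := by
    intro r hr
    have hr : (0 : ℝ) < r := hr
    by_cases h : r ∈ Ioo a b
    · rw [indicator_of_mem h]
      have : ∫ w, f (r • w) ∂(mu n) = ∫ w, F (p + r • w) ∂(mu n) := by
        refine integral_congr_ae ?_
        filter_upwards [mu_ae hn] with w hw
        rw [hf, indicator_of_mem]
        change a < ‖r • w‖ ∧ ‖r • w‖ < b
        rw [norm_smul, hw, mul_one, Real.norm_of_nonneg hr.le]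
        exact h
      rw [this]
      ring
    · rw [indicator_of_notMem h]
      have : ∫ w, f (r • w) ∂(mu n) = ∫ _w : E n, (0 : ℝ) ∂(mu n) := by
        refine integral_congr_ae ?_
        filter_upwards [mu_ae hn] with w hw
        rw [hf, indicator_of_notMem]
        intro h'
        apply h
        have h2 : a < ‖r • w‖ ∧ ‖r • w‖ < b := h'
        rw [norm_smul, hw, mul_one, Real.norm_of_nonneg hr.le] at h2
        exact h2
      rw [this, integral_zero, mul_zero, mul_zero]
  rw [setIntegral_congr_fun measurableSet_Ioi e5, setIntegral_indicator measurableSet_Ioo,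
    integral_const_mul]
  congr 3
  rw [inter_eq_right.mpr]
  intro r hr
  exact ha.trans_lt hr.1

theorem pol_image {R ε S : ℝ} (hR : 0 < R) (hε : ε = 1 ∨ ε = -1) (hS : 0 < S) :
    ∃ a b : ℝ, 0 ≤ a ∧ rr R ε '' Ioo 0 S = Ioo a b := by
  rcases hε with rfl | rfl
  · refine ⟨R, R * Real.exp S, hR.le, ?_⟩
    ext y
    constructor
    · rintro ⟨t, ⟨ht0, htS⟩, rfl⟩
      unfold rr
      rw [one_mul]
      constructor
      · exact lt_mul_of_one_lt_right hR (Real.one_lt_exp_iff.mpr ht0)
      · exact mul_lt_mul_of_pos_left (Real.exp_lt_exp.mpr htS) hR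
    · rintro ⟨h1, h2⟩
      have hy : 0 < y / R := div_pos (hR.trans h1) hR
      refine ⟨Real.log (y / R), ⟨?_, ?_⟩, ?_⟩
      · apply Real.log_pos
        rwa [one_lt_div hR]
      · rw [Real.log_lt_iff_lt_exp hy, div_lt_iff₀' hR]
        exact h2
      · unfold rr
        rw [one_mul, Real.exp_log hy]
        field_simp
  · refine ⟨R * Real.exp (-S), R, by positivity, ?_⟩
    ext y
    constructor
    · rintro ⟨t, ⟨ht0, htS⟩, rfl⟩
      unfold rr
      rw [neg_one_mul]
      constructor
      · exact mul_lt_mul_of_pos_left (Real.exp_lt_exp.mpr (neg_lt_neg htS)) hR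
      · exact mul_lt_of_lt_one_right hR (by rw [Real.exp_lt_one_iff]; exact neg_lt_zero.mpr ht0)
    · rintro ⟨h1, h2⟩
      have hy0 : 0 < y := (by positivity : 0 < R * Real.exp (-S)).trans h1
      have hy : 0 < y / R := div_pos hy0 hR
      refine ⟨-Real.log (y / R), ⟨?_, ?_⟩, ?_⟩
      · rw [neg_pos]
        apply Real.log_neg hy
        rwa [div_lt_one hR]
      · rw [neg_lt, Real.lt_log_iff_exp_lt hy, lt_div_iff₀' hR]
        exact h1
      · unfold rr
        rw [neg_mul_neg, one_mul, Real.exp_log hy]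
        field_simp

/-- Polar coordinates in a collar. -/
theorem polar_ann (hn : 1 ≤ n) {F : E n → ℝ} (hF : Continuous F) (p : E n) {R ε S : ℝ}
    (hR : 0 < R) (hε : ε = 1 ∨ ε = -1) (hS : 0 < S) :
    ∫ x in ann p R ε S, F x
      = (n : ℝ) * om n * ∫ t in Ioo 0 S, rr R ε t ^ n * ∫ w, F (p + rr R ε t • w) ∂(mu n) := by
  obtain ⟨a, b, ha, hab⟩ := pol_image hR hε hS
  have h1 : ann p R ε S = {x : E n | a < ‖x - p‖ ∧ ‖x - p‖ < b} := by
    ext x
    have h2 : x ∈ ann p R ε S ↔ ‖x - p‖ ∈ rr R ε '' Ioo 0 S := by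
      constructor
      · rintro ⟨t, ht, h⟩
        exact ⟨t, ht, h.symm⟩
      · rintro ⟨t, ht, h⟩
        exact ⟨t, ht, h.symm⟩
    rw [h2, hab]
    rfl
  have hrpos : ∀ t, 0 < rr R ε t := fun t => by
    unfold rr
    positivity
  have hε2 : |ε| = 1 := by
    rcases hε with rfl | rfl <;> simp
  have hε0 : ε ≠ 0 := by
    rcases hε with rfl | rfl <;> norm_num
  have hder : ∀ t ∈ Ioo 0 S, HasDerivWithinAt (rr R ε) (rr R ε t * ε) (Ioo 0 S) t := by
    intro t _
    have h3 : HasDerivAt (fun s => R * Real.exp (ε * s)) (R * (Real.exp (ε * t) * (ε * 1))) t :=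
      (((hasDerivAt_id t).const_mul ε).exp).const_mul R
    have h4 : HasDerivAt (rr R ε) (rr R ε t * ε) t := by
      refine h3.congr_deriv ?_
      unfold rr
      ring
    exact h4.hasDerivWithinAt
  have hinj : InjOn (rr R ε) (Ioo 0 S) := by
    intro s _ t _ h
    unfold rr at h
    have h3 := Real.exp_injective (mul_left_cancel₀ hR.ne' h)
    exact mul_left_cancel₀ hε0 h3
  rw [h1, polar_r hn hF p ha, ← hab,
    integral_image_eq_integral_abs_deriv_smul measurableSet_Ioo hder hinj]
  congr 1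
  refine integral_congr_ae (Filter.Eventually.of_forall fun t => ?_)
  change |rr R ε t * ε| • (rr R ε t ^ (n - 1) * ∫ w, F (p + rr R ε t • w) ∂(mu n))
    = rr R ε t ^ n * ∫ w, F (p + rr R ε t • w) ∂(mu n)
  rw [abs_mul, hε2, mul_one, abs_of_pos (hrpos t), smul_eq_mul, ← mul_assoc]
  congr 1
  rw [mul_comm, ← pow_succ, Nat.sub_add_cancel hn]

end Pool.Agent.H78.SK
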