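import Pool.Agent.H78.SK.Grd
import Pool.Agent.H78.SK.Pol
import Pool.Agent.H78.SK.One

/-!
# Job SK-ENE: energy and mass of a domain with separable collars

`col_energy`: `polar_ann` for `F x = D.ρ x ^ (n-2) * ‖fderiv ℝ u x‖ ^ 2`; on the collar, with
`ρ̂ = rr (rad c) (eps c) t > 0` and `SD.metric`, `D.ρ ^ (n-2) * ρ̂ ^ (n-2)
= r ^ (n-2) * Hf ^ 2` because `(H^(1/κ0))^(n-2) = H^2` (`κ0 = kz n = (n-2)/2`, `Hf_pos`), and
`grad_sq`; so `ρ̂^n * D.ρ^(n-2) * ‖fderiv‖^2 = r^(n-2) * Hf^2 * (dsl^2 + ∑ XX^2)`.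
`energy_ge`: the collars are disjoint subsets of `Om` (open sets, measurable), the integrand is
nonnegative, continuous and integrable on `Om` (bounded set).
`energy_eq`: the integrand vanishes on the rest of `Om`.
`mass_eq`, `bdryEnergy_eq`: `toSphere_int` (`H35/CA/SphA.lean`), `SD.metric` at `t = 0`
(`Hf_zero`, `rr R ε 0 = R`), `tang_sq` at `t = 0`.
-/

namespace Pool.Agent.H78.SK

open MeasureTheory Metric Set
open Pool.Agent.H35.CA

variable {n N : ℕ}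

theorem eps_or (c : Option (Fin N)) : eps c = 1 ∨ eps c = -1 := by
  cases c with
  | none => exact Or.inr rfl
  | some i => exact Or.inl rfl

theorem rad_pos (D : Dom n N) (c : Option (Fin N)) : 0 < D.rad c := by
  cases c with
  | none => exact D.R0_pos
  | some i => exact D.R_pos i

/-- The integrand of the energy. -/
theorem Ene_cont (D : Dom n N) {u : Eu n → ℝ} (hu : ContDiff ℝ (⊤ : ℕ∞) u) :
    Continuous (fun x => D.ρ x ^ (n - 2) * ‖fderiv ℝ u x‖ ^ 2) := by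
  have h1 : Continuous (fderiv ℝ u) := hu.continuous_fderiv (by simp)
  exact (D.smooth.continuous.pow _).mul (h1.norm.pow 2)

theorem Ene_nonneg (D : Dom n N) (u : Eu n → ℝ) (x : Eu n) :
    0 ≤ D.ρ x ^ (n - 2) * ‖fderiv ℝ u x‖ ^ 2 :=
  mul_nonneg (pow_nonneg (D.pos x).le _) (sq_nonneg _)

theorem Ene_meas_ann (p : Eu n) (R ε S : ℝ) : MeasurableSet (ann p R ε S) := by
  have h1 : ann p R ε S = (fun x : Eu n => ‖x - p‖) ⁻¹' (rr R ε '' Ioo (0 : ℝ) S) := by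
    ext x
    constructor
    · rintro ⟨t, ht, h⟩
      exact ⟨t, ht, h.symm⟩
    · rintro ⟨t, ht, h⟩
      exact ⟨t, ht, h.symm⟩
  have h2 : Continuous (rr R ε) := by
    unfold rr
    fun_prop
  have h3 : IsPreconnected (rr R ε '' Ioo (0 : ℝ) S) :=
    isPreconnected_Ioo.image _ h2.continuousOn
  rw [h1]
  exact (continuous_id.sub continuous_const).norm.measurable h3.ordConnected.measurableSet

theorem Ene_meas_Om (D : Dom n N) : MeasurableSet D.Om := by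
  have h1 : D.Om = {x | ‖x‖ < D.R0} ∩ ⋂ i, {x | D.R i < dist x (D.p i)} := by
    ext x
    simp [Dom.Om]
  rw [h1]
  refine (measurableSet_lt measurable_norm measurable_const).inter
    (MeasurableSet.iInter fun i => measurableSet_lt measurable_const ?_)
  exact (continuous_id.dist continuous_const).measurable

theorem Ene_int_Om (D : Dom n N) {F : Eu n → ℝ} (hF : Continuous F) : IntegrableOn F D.Om := by
  have h1 : IntegrableOn F (closedBall (0 : Eu n) D.R0) :=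
    hF.continuousOn.integrableOn_compact (isCompact_closedBall _ _)
  refine h1.mono_set ?_
  intro x hx
  rw [mem_closedBall_zero_iff]
  exact hx.1.le

theorem Ene_rr_zero (R ε : ℝ) : rr R ε 0 = R := by
  unfold rr
  rw [mul_zero, Real.exp_zero, mul_one]

theorem Ene_kz_ne (hn : 3 ≤ n) : kz n ≠ 0 := by
  have h := kz_pos hn
  intro h0
  rw [h0] at h
  norm_num at h

theorem Ene_pow (hn : 3 ≤ n) {h : ℝ} (hh : 0 < h) : (h ^ (1 / kz n)) ^ (n - 2) = h ^ 2 := by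
  have hk := Ene_kz_ne hn
  rw [← Real.rpow_natCast, ← Real.rpow_mul hh.le]
  have h1 : 1 / kz n * ((n - 2 : ℕ) : ℝ) = 2 := by
    rw [Nat.cast_sub (by omega)]
    push_cast
    have h2 : ((n : ℝ) - 2) = 2 * kz n := by
      unfold kz
      ring
    rw [h2]
    field_simp
  rw [h1]
  norm_num

theorem Ene_metric0 {D : Dom n N} {r a : Option (Fin N) → ℝ} {S : ℝ}
    (h : SD D r a S) (c : Option (Fin N)) {w : Eu n} (hw : ‖w‖ = 1) :
    D.ρ (D.pt c w) * D.rad c = r c := by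
  have h1 := h.metric c 0 le_rfl (by linarith [h.S_ge]) w hw
  rw [Ene_rr_zero, Hf_zero, Real.one_rpow, mul_one] at h1
  exact h1

theorem Ene_sum (hn : 1 ≤ n) {u : Eu n → ℝ} (hu : ContDiff ℝ (⊤ : ℕ∞) u) (p : Eu n)
    (R ε t : ℝ) :
    ∫ w, (∑ q ∈ prs n, XX (Jij q.1 q.2) (sl u p R ε t) w ^ 2) ∂(mu n)
      = ∑ q ∈ prs n, ∫ w, XX (Jij q.1 q.2) (sl u p R ε t) w ^ 2 ∂(mu n) := by
  refine integral_finsetSum _ fun q _ => ?_
  have h1 : Continuous (fun w => XX (Jij q.1 q.2) (sl u p R ε t) w) :=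
    (xsl_cont hu p R ε (Jij q.1 q.2)).comp (continuous_const.prodMk continuous_id)
  exact integrable_mu hn (h1.pow 2).continuousOn

theorem Ene_DD (hn : 1 ≤ n) {u : Eu n → ℝ} (hu : ContDiff ℝ (⊤ : ℕ∞) u) (p : Eu n)
    (R ε t : ℝ) :
    ∫ w, (dsl u p R ε t w ^ 2 + ∑ q ∈ prs n, XX (Jij q.1 q.2) (sl u p R ε t) w ^ 2) ∂(mu n)
      = DD u p R ε t := by
  have h0 : Continuous (fun w => dsl u p R ε t w) :=
    (dsl_cont hu p R ε).comp (continuous_const.prodMk continuous_id)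
  have h1 : ∀ q : Fin n × Fin n, Continuous (fun w => XX (Jij q.1 q.2) (sl u p R ε t) w) :=
    fun q => (xsl_cont hu p R ε (Jij q.1 q.2)).comp (continuous_const.prodMk continuous_id)
  have i1 : Integrable (fun w => dsl u p R ε t w ^ 2) (mu n) :=
    integrable_mu hn (h0.pow 2).continuousOn
  have i2 : Integrable (fun w => ∑ q ∈ prs n, XX (Jij q.1 q.2) (sl u p R ε t) w ^ 2) (mu n) :=
    integrable_mu hn (continuous_finsetSum _ fun q _ => (h1 q).pow 2).continuousOn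
  rw [integral_add i1 i2, Ene_sum hn hu]
  rfl

theorem col_energy (hn : 3 ≤ n) {D : Dom n N} {r a : Option (Fin N) → ℝ} {S : ℝ}
    (h : SD D r a S) {u : Eu n → ℝ} (hu : ContDiff ℝ (⊤ : ℕ∞) u) (c : Option (Fin N)) :
    ∫ x in ann (D.cen c) (D.rad c) (eps c) S, D.ρ x ^ (n - 2) * ‖fderiv ℝ u x‖ ^ 2
      = (n : ℝ) * om n * (r c ^ (n - 2) *
        ∫ t in Ioo 0 S, Hf n (a c) t ^ 2 * DD u (D.cen c) (D.rad c) (eps c) t) := by
  have hn1 : 1 ≤ n := by omega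
  have hS : 0 < S := by linarith [h.S_ge]
  rw [polar_ann hn1 (Ene_cont D hu) (D.cen c) (rad_pos D c) (eps_or c) hS]
  congr 1
  rw [← integral_const_mul]
  refine setIntegral_congr_fun measurableSet_Ioo fun t ht => ?_
  change rr (D.rad c) (eps c) t ^ n * ∫ w, D.ρ (D.cen c + rr (D.rad c) (eps c) t • w) ^ (n - 2) *
      ‖fderiv ℝ u (D.cen c + rr (D.rad c) (eps c) t • w)‖ ^ 2 ∂(mu n)
    = r c ^ (n - 2) * (Hf n (a c) t ^ 2 * DD u (D.cen c) (D.rad c) (eps c) t)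
  rw [← Ene_DD hn1 hu, ← mul_assoc, ← integral_const_mul, ← integral_const_mul]
  refine int_congr hn1 fun w hw => ?_
  have h1 := h.metric c t ht.1.le ht.2.le w hw
  have h2 := grad_sq hu (D.cen c) (D.rad c) (eps c) (eps_or c) t hw
  have h3 := Ene_pow hn (Hf_pos hn (h.a_nonneg c) ht.1.le)
  have h4 : rr (D.rad c) (eps c) t ^ n
      = rr (D.rad c) (eps c) t ^ (n - 2) * rr (D.rad c) (eps c) t ^ 2 := by
    rw [← pow_add]
    congr 1
    omega
  rw [← h2, ← h3, ← mul_pow, ← h1, h4, mul_pow]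
  ring

theorem Ene_union (hn : 3 ≤ n) {D : Dom n N} {r a : Option (Fin N) → ℝ} {S : ℝ}
    (h : SD D r a S) {u : Eu n → ℝ} (hu : ContDiff ℝ (⊤ : ℕ∞) u) :
    ∫ x in ⋃ c, ann (D.cen c) (D.rad c) (eps c) S, D.ρ x ^ (n - 2) * ‖fderiv ℝ u x‖ ^ 2
      = (n : ℝ) * om n * ∑ c, (r c ^ (n - 2) *
      ∫ t in Ioo 0 S, Hf n (a c) t ^ 2 * DD u (D.cen c) (D.rad c) (eps c) t) := by
  rw [integral_iUnion_fintype (fun c => Ene_meas_ann _ _ _ _) (fun c d hcd => h.dis c d hcd)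
    (fun c => (Ene_int_Om D (Ene_cont D hu)).mono_set (h.sub c)), Finset.mul_sum]
  exact Finset.sum_congr rfl fun c _ => col_energy hn h hu c

theorem energy_ge (hn : 3 ≤ n) {D : Dom n N} {r a : Option (Fin N) → ℝ} {S : ℝ}
    (h : SD D r a S) {u : Eu n → ℝ} (hu : ContDiff ℝ (⊤ : ℕ∞) u) :
    (n : ℝ) * om n * ∑ c, (r c ^ (n - 2) *
      ∫ t in Ioo 0 S, Hf n (a c) t ^ 2 * DD u (D.cen c) (D.rad c) (eps c) t) ≤ D.energy u := by
  rw [← Ene_union hn h hu]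
  refine setIntegral_mono_set (Ene_int_Om D (Ene_cont D hu))
    (Filter.Eventually.of_forall fun x => Ene_nonneg D u x) ?_
  exact (iUnion_subset fun c => h.sub c).eventuallyLE

theorem energy_eq (hn : 3 ≤ n) {D : Dom n N} {r a : Option (Fin N) → ℝ} {S : ℝ}
    (h : SD D r a S) {u : Eu n → ℝ} (hu : ContDiff ℝ (⊤ : ℕ∞) u)
    (hz : ∀ x ∈ D.Om, (∀ c, x ∉ ann (D.cen c) (D.rad c) (eps c) S) → fderiv ℝ u x = 0) :
    D.energy u = (n : ℝ) * om n * ∑ c, (r c ^ (n - 2) *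
      ∫ t in Ioo 0 S, Hf n (a c) t ^ 2 * DD u (D.cen c) (D.rad c) (eps c) t) := by
  rw [← Ene_union hn h hu]
  refine setIntegral_eq_of_subset_of_forall_sdiff_eq_zero (Ene_meas_Om D)
    (iUnion_subset fun c => h.sub c) ?_
  rintro x ⟨hx, hx2⟩
  have h1 : fderiv ℝ u x = 0 := hz x hx fun c hc => hx2 (mem_iUnion.mpr ⟨c, hc⟩)
  rw [h1, norm_zero]
  ring

theorem mass_eq (hn : 3 ≤ n) {D : Dom n N} {r a : Option (Fin N) → ℝ} {S : ℝ}
    (h : SD D r a S) (u : Eu n → ℝ) :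
    D.mass u = (n : ℝ) * om n * ∑ c, (r c ^ (n - 1) *
      H35.CA.sq (sl u (D.cen c) (D.rad c) (eps c) 0)) := by
  have hn1 : 1 ≤ n := by omega
  rw [Dom.mass, Finset.mul_sum]
  refine Finset.sum_congr rfl fun c _ => ?_
  rw [toSphere_int hn1 (fun w => D.ρ (D.pt c w) ^ (n - 1) * u (D.pt c w) ^ 2), H35.CA.sq]
  rw [mul_left_comm]
  congr 1
  rw [← integral_const_mul, ← integral_const_mul]
  refine int_congr hn1 fun w hw => ?_
  rw [← Ene_metric0 h c hw, mul_pow, sl, Ene_rr_zero]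
  unfold Dom.pt
  ring

theorem bdryEnergy_eq (hn : 3 ≤ n) {D : Dom n N} {r a : Option (Fin N) → ℝ} {S : ℝ}
    (h : SD D r a S) {u : Eu n → ℝ} (hu : ContDiff ℝ (⊤ : ℕ∞) u) :
    D.bdryEnergy u = (n : ℝ) * om n * ∑ c, (r c ^ (n - 3) * ∑ q ∈ prs n,
      ∫ w, XX (Jij q.1 q.2) (sl u (D.cen c) (D.rad c) (eps c) 0) w ^ 2 ∂(mu n)) := by
  have hn1 : 1 ≤ n := by omega
  rw [Dom.bdryEnergy, Finset.mul_sum]
  refine Finset.sum_congr rfl fun c _ => ?_
  rw [toSphere_int hn1 (fun w => D.ρ (D.pt c w) ^ (n - 3) *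
      (‖fderiv ℝ u (D.pt c w)‖ ^ 2 - (fderiv ℝ u (D.pt c w) w) ^ 2)), ← Ene_sum hn1 hu]
  rw [mul_left_comm]
  congr 1
  rw [← integral_const_mul, ← integral_const_mul]
  refine int_congr hn1 fun w hw => ?_
  have h2 := tang_sq hu (D.cen c) (D.rad c) (eps c) (eps_or c) 0 hw
  rw [Ene_rr_zero] at h2
  have h4 : D.rad c ^ (n - 1) = D.rad c ^ (n - 3) * D.rad c ^ 2 := by
    rw [← pow_add]
    congr 1
    omega
  rw [← h2, ← Ene_metric0 h c hw, mul_pow, h4]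
  unfold Dom.pt
  ring

theorem energy_nonneg (D : Dom n N) (u : Eu n → ℝ) : 0 ≤ D.energy u := by
  rw [Dom.energy]
  exact integral_nonneg fun x => Ene_nonneg D u x

theorem bdryEnergy_nonneg (D : Dom n N) (u : Eu n → ℝ) : 0 ≤ D.bdryEnergy u := by
  rw [Dom.bdryEnergy]
  refine Finset.sum_nonneg fun c _ => mul_nonneg (pow_nonneg (rad_pos D c).le _)
    (integral_nonneg fun w => ?_)
  refine mul_nonneg (pow_nonneg (D.pos _).le _) ?_
  have hw : ‖(w : Eu n)‖ = 1 := by simp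
  have h1 := (fderiv ℝ u (D.pt c w)).le_opNorm (w : Eu n)
  rw [hw, mul_one, Real.norm_eq_abs] at h1
  have h2 := sq_le_sq' (by linarith [neg_abs_le (fderiv ℝ u (D.pt c w) (w : Eu n))])
    ((le_abs_self _).trans h1)
  linarith

end Pool.Agent.H78.SK
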