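import Pool.Agent.H78.SK.Base

/-!
# Job SK-RAD: functions with separated polar variables

`rad_smooth`: the function `u x = G (ε log (‖x - p‖ / R)) * ev P (un (x - p))` for `x ≠ p`,
`u p = 0`.  Away from `p` it is a composition of smooth functions (`un_smooth`, `ev_smooth` in
`H35/CA/ShA.lean`); near `p` it vanishes because `|log (‖x - p‖ / R)|` is large and `G` has
compact support.
-/

namespace Pool.Agent.H78.SK

open MeasureTheory Metric Set
open Pool.Agent.H35.CA

variable {n : ℕ}

/-- Smooth functions with compact support, with separated polar variables. -/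
theorem rad_smooth {G : ℝ → ℝ} (hG : ContDiff ℝ (⊤ : ℕ∞) G) {A B : ℝ}
    (hA : ∀ t, t ≤ A → G t = 0) (hB : ∀ t, B ≤ t → G t = 0) (p : Eu n) {R ε : ℝ} (hR : 0 < R)
    (hε : ε = 1 ∨ ε = -1) (P : Pol n) :
    ∃ u : Eu n → ℝ, ContDiff ℝ (⊤ : ℕ∞) u ∧ u p = 0 ∧
      ∀ x, x ≠ p → u x = G (ε * Real.log (‖x - p‖ / R)) * ev P (un (x - p)) := by
  classical
  refine ⟨fun x => if x = p then 0 else
    G (ε * Real.log (‖x - p‖ / R)) * ev P (un (x - p)), ?_, if_pos rfl, fun x hx => if_neg hx⟩
  rw [contDiff_iff_contDiffAt]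
  intro x
  by_cases hx : x = p
  · subst hx
    have hδ : 0 < R * Real.exp (-(|A| + |B|)) := mul_pos hR (Real.exp_pos _)
    have hev : (fun y => if y = x then 0 else
        G (ε * Real.log (‖y - x‖ / R)) * ev P (un (y - x))) =ᶠ[nhds x] fun _ => (0 : ℝ) := by
      filter_upwards [Metric.ball_mem_nhds x hδ] with y hy
      by_cases hyx : y = x
      · rw [if_pos hyx]
      · rw [if_neg hyx]
        have hy0 : 0 < ‖y - x‖ := norm_pos_iff.2 (sub_ne_zero.2 hyx)
        have hy1 : ‖y - x‖ / R < Real.exp (-(|A| + |B|)) := by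
          rw [div_lt_iff₀ hR, mul_comm]
          rwa [Metric.mem_ball, dist_eq_norm] at hy
        have hl : Real.log (‖y - x‖ / R) < -(|A| + |B|) :=
          (Real.log_lt_iff_lt_exp (div_pos hy0 hR)).2 hy1
        have hA1 := neg_abs_le A
        have hB1 := le_abs_self B
        have hA2 := abs_nonneg A
        have hB2 := abs_nonneg B
        have hG0 : G (ε * Real.log (‖y - x‖ / R)) = 0 := by
          rcases hε with h | h
          · rw [h, one_mul]
            exact hA _ (by linarith)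
          · rw [h]
            exact hB _ (by linarith)
        rw [hG0, zero_mul]
    exact contDiffAt_const.congr_of_eventuallyEq hev
  · have hev : (fun y => if y = p then 0 else
        G (ε * Real.log (‖y - p‖ / R)) * ev P (un (y - p))) =ᶠ[nhds x]
        fun y => G (ε * Real.log (‖y - p‖ / R)) * ev P (un (y - p)) := by
      filter_upwards [isOpen_compl_singleton.mem_nhds (show x ∈ ({p} : Set (Eu n))ᶜ from hx)]
        with y hy
      exact if_neg hy
    refine ContDiffAt.congr_of_eventuallyEq ?_ hev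
    have hxp : x - p ≠ 0 := sub_ne_zero.2 hx
    have h0 : ContDiffAt ℝ (⊤ : ℕ∞) (fun y : Eu n => y - p) x :=
      (contDiff_id.sub contDiff_const).contDiffAt
    have h1 : ContDiffAt ℝ (⊤ : ℕ∞) (fun y : Eu n => ‖y - p‖ / R) x :=
      (h0.norm ℝ hxp).div_const R
    have h2 : ContDiffAt ℝ (⊤ : ℕ∞) (fun y : Eu n => Real.log (‖y - p‖ / R)) x :=
      h1.log (ne_of_gt (div_pos (norm_pos_iff.2 hxp) hR))
    have h3 : ContDiffAt ℝ (⊤ : ℕ∞) (fun y : Eu n => G (ε * Real.log (‖y - p‖ / R))) x :=
      hG.contDiffAt.comp x (contDiffAt_const.mul h2)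
    have h4 : ContDiffAt ℝ (⊤ : ℕ∞) (fun y : Eu n => un (y - p)) x := by
      have h5 : ContDiffAt ℝ (⊤ : ℕ∞) (un : Eu n → Eu n) (x - p) :=
        un_smooth.contDiffAt (isOpen_compl_singleton.mem_nhds hxp)
      exact ContDiffAt.comp (g := (un : Eu n → Eu n)) (f := fun y : Eu n => y - p) x h5 h0
    have h6 : ContDiffAt ℝ (⊤ : ℕ∞) (fun y : Eu n => ev P (un (y - p))) x :=
      (ev_smooth P).contDiffAt.comp x h4
    exact h3.mul h6

end Pool.Agent.H78.SK
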