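import Pool.Agent.H78.SK.Cnn
import Pool.Agent.H78.SK.Rad
import Pool.Agent.H78.SK.One

/-!
# Job SK-GEO: existence of domains with separable collars

`exists_SD`.  Take `e0`, `e1` orthonormal (`n ≥ 2`), `R i = e^(-S) / 2`, `p i = (2 (i+1)) e0`,
`R0 = 4 (N + 1) e^S`.  The collars are `{R i < |x - p i| < 1/2}` and
`{4 (N + 1) < |x| < R0}`; they are pairwise disjoint and lie in `Om`.  Let `κ0 = kz n`.  For each
boundary sphere `c` choose `τ ∈ (0, 1/4)` with `Hf n (a c) > 0` on `(-2τ, ∞)` (by continuity at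
`0`, `Hf_pos`), and the smooth function with compact support
`G c t = ψ t * ((1 / κ0) * log (Hf n (a c) t) + log (r c) - log (rad c) - eps c * t)`,
`ψ t = smoothTransition ((t + τ) / τ) * smoothTransition ((S + τ - t) / τ)`
(`ψ = 1` on `[0, S]` and `ψ = 0` for `t ≤ -τ` and for `t ≥ S + τ`).
With `L = ∑ c, (the function of rad_smooth for G c, P = 1)` put `ρ = exp L`.  On the collar `c`
all the terms other than the term `c` vanish: the support of the term of an inner sphere is
contained in `{|x - p i| ≤ e^(1/4) / 2 < 1}`, that of the outer sphere in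
`{4 (N + 1) e^(-1/4) ≤ |x|}`, and `4 (N + 1) e^(-1/4) ≥ 3 (N + 1) > 2 N + 1`
(`e^(-x) ≥ 1 - x`).
-/

namespace Pool.Agent.H78.SK

open MeasureTheory Metric Set
open Pool.Agent.H35.CA

variable {n N : ℕ}

/-- The cutoff: `1` on `[0, S]`, `0` outside `(-τ, S + τ)`. -/
noncomputable def Geo_psi (S τ t : ℝ) : ℝ :=
  Real.smoothTransition ((t + τ) / τ) * Real.smoothTransition ((S + τ - t) / τ)

theorem Geo_psi_smooth (S τ : ℝ) : ContDiff ℝ (⊤ : ℕ∞) (Geo_psi S τ) := by
  unfold Geo_psi
  have h1 : ContDiff ℝ (⊤ : ℕ∞) (fun t : ℝ => (t + τ) / τ) :=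
    (contDiff_id.add contDiff_const).div_const τ
  have h2 : ContDiff ℝ (⊤ : ℕ∞) (fun t : ℝ => (S + τ - t) / τ) :=
    (contDiff_const.sub contDiff_id).div_const τ
  exact (Real.smoothTransition.contDiff.comp h1).mul (Real.smoothTransition.contDiff.comp h2)

theorem Geo_psi_one {S τ t : ℝ} (hτ : 0 < τ) (h0 : 0 ≤ t) (h1 : t ≤ S) : Geo_psi S τ t = 1 := by
  unfold Geo_psi
  rw [Real.smoothTransition.one_of_one_le, Real.smoothTransition.one_of_one_le, one_mul]
  · rw [le_div_iff₀ hτ]; linarith
  · rw [le_div_iff₀ hτ]; linarith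

theorem Geo_psi_left {S τ t : ℝ} (hτ : 0 < τ) (h : t ≤ -τ) : Geo_psi S τ t = 0 := by
  unfold Geo_psi
  rw [Real.smoothTransition.zero_of_nonpos, zero_mul]
  exact div_nonpos_of_nonpos_of_nonneg (by linarith) hτ.le

theorem Geo_psi_right {S τ t : ℝ} (hτ : 0 < τ) (h : S + τ ≤ t) : Geo_psi S τ t = 0 := by
  unfold Geo_psi
  rw [Real.smoothTransition.zero_of_nonpos (x := (S + τ - t) / τ), mul_zero]
  exact div_nonpos_of_nonpos_of_nonneg (by linarith) hτ.le

theorem Geo_psi_nonneg (S τ t : ℝ) : 0 ≤ Geo_psi S τ t :=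
  mul_nonneg (Real.smoothTransition.nonneg _) (Real.smoothTransition.nonneg _)

theorem Geo_psi_le (S τ t : ℝ) : Geo_psi S τ t ≤ 1 :=
  mul_le_one₀ (Real.smoothTransition.le_one _) (Real.smoothTransition.nonneg _)
    (Real.smoothTransition.le_one _)

theorem Geo_Hf_smooth (a : ℝ) : ContDiff ℝ (⊤ : ℕ∞) (Hf n a) := by
  unfold Hf
  have h1 : ContDiff ℝ (⊤ : ℕ∞) (fun t : ℝ => kz n * t) := contDiff_const.mul contDiff_id
  exact (contDiff_const.mul h1.exp).add (contDiff_const.mul h1.neg.exp)

theorem Geo_tau (hn : 3 ≤ n) {a : ℝ} (ha : 0 ≤ a) :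
    ∃ τ : ℝ, 0 < τ ∧ τ < 1 / 4 ∧ ∀ t, -τ < t → 0 < Hf n a t := by
  have hc : ContinuousAt (Hf n a) 0 := (Geo_Hf_smooth a).continuous.continuousAt
  have he : ∀ᶠ t in nhds (0 : ℝ), 0 < Hf n a t := by
    apply hc.eventually
    rw [Hf_zero]
    exact lt_mem_nhds one_pos
  obtain ⟨δ, hδ, hδ2⟩ := Metric.eventually_nhds_iff.mp he
  refine ⟨min (δ / 2) (1 / 8), by positivity, ?_, fun t ht => ?_⟩
  · exact (min_le_right _ _).trans_lt (by norm_num)
  · rcases le_or_gt 0 t with h | h
    · exact Hf_pos hn ha h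
    · apply hδ2
      rw [Real.dist_eq, sub_zero, abs_of_neg h]
      have := min_le_left (δ / 2) (1 / 8 : ℝ)
      linarith

theorem Geo_G (hn : 3 ≤ n) {a : ℝ} (ha : 0 ≤ a) (S b ε : ℝ) :
    ∃ G : ℝ → ℝ, ContDiff ℝ (⊤ : ℕ∞) G ∧ (∀ t, t ≤ -(1 / 4) → G t = 0) ∧
      (∀ t, S + 1 / 4 ≤ t → G t = 0) ∧
      ∀ t, 0 ≤ t → t ≤ S → G t = (1 / kz n) * Real.log (Hf n a t) + (b - ε * t) := by
  obtain ⟨τ, hτ, hτ4, hpos⟩ := Geo_tau hn ha
  have hq : ∀ t, 0 < Geo_psi S τ t * Hf n a t + (1 - Geo_psi S τ t) := by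
    intro t
    rcases le_or_gt t (-τ) with h | h
    · rw [Geo_psi_left hτ h]; norm_num
    · have h1 := hpos t h
      have h2 := Geo_psi_nonneg S τ t
      have h3 := Geo_psi_le S τ t
      rcases h2.eq_or_lt with h4 | h4
      · rw [← h4]; norm_num
      · have := mul_pos h4 h1
        linarith
  have hs := Geo_psi_smooth S τ
  refine ⟨fun t => (1 / kz n) * Real.log (Geo_psi S τ t * Hf n a t + (1 - Geo_psi S τ t))
      + Geo_psi S τ t * (b - ε * t), ?_, ?_, ?_, ?_⟩
  · refine ContDiff.add (contDiff_const.mul (ContDiff.log ?_ fun t => (hq t).ne')) ?_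
    · exact (hs.mul (Geo_Hf_smooth a)).add (contDiff_const.sub hs)
    · exact hs.mul (contDiff_const.sub (contDiff_const.mul contDiff_id))
  · intro t ht
    have h0 : Geo_psi S τ t = 0 := Geo_psi_left hτ (by linarith)
    simp only [h0]
    simp
  · intro t ht
    have h0 : Geo_psi S τ t = 0 := Geo_psi_right hτ (by linarith)
    simp only [h0]
    simp
  · intro t h0 h1
    have h2 : Geo_psi S τ t = 1 := Geo_psi_one hτ h0 h1
    simp only [h2]
    rw [one_mul, sub_self, add_zero, one_mul]

theorem Geo_norm_single (hn : 3 ≤ n) (x : ℝ) :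
    ‖(EuclideanSpace.single (⟨0, by omega⟩ : Fin n) x : Eu n)‖ = |x| := by
  rw [EuclideanSpace.norm_single, Real.norm_eq_abs]

/-- Domains with separable collars of depth `S` exist for all data, with a constant conformal
factor `d` away from the collars; the underlying Euclidean domain depends only on `N` and `S`. -/
theorem exists_SDd (hn : 3 ≤ n) (r a : Option (Fin N) → ℝ) (hr : ∀ c, 0 < r c)
    (ha : ∀ c, 0 ≤ a c) {S : ℝ} (hS : 3 ≤ S) {d : ℝ} (hd : 0 < d) :
    ∃ D : Dom n N, SD D r a S ∧ IsConnected D.Om ∧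
      D.R0 = 4 * ((N : ℝ) + 1) * Real.exp S ∧ (D.R = fun _ => Real.exp (-S) / 2) ∧
      (D.p = fun i : Fin N =>
        EuclideanSpace.single (⟨0, by omega⟩ : Fin n) (2 * (((i : ℕ) : ℝ) + 1))) ∧
      ∀ x : Eu n, (∀ i, Real.exp (1 / 4) / 2 ≤ ‖x - D.p i‖) → ‖x‖ ≤ 3 * ((N : ℝ) + 1) →
        D.ρ x = d := by
  have hN0 : (0 : ℝ) ≤ N := Nat.cast_nonneg N
  have hk := kz_pos hn
  have hk0 : kz n ≠ 0 := by
    intro h
    rw [h] at hk
    norm_num at hk
  have hE1 : 1 < Real.exp S := Real.one_lt_exp_iff.mpr (by linarith)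
  have hEn : Real.exp (-S) < 1 := by
    rw [Real.exp_lt_one_iff]
    linarith
  have hEn0 : 0 < Real.exp (-S) := Real.exp_pos _
  have hEE : Real.exp (-S) * Real.exp S = 1 := by rw [← Real.exp_add]; simp
  have hq43 : Real.exp (1 / 4) ≤ 4 / 3 := by
    have h1 : 1 - 1 / 4 ≤ Real.exp (-(1 / 4)) := Real.one_sub_le_exp_neg (1 / 4)
    have h2 : Real.exp (-(1 / 4)) * Real.exp (1 / 4) = 1 := by rw [← Real.exp_add]; simp
    have h3 := Real.exp_pos (1 / 4)
    nlinarith
  -- the data
  set R0 : ℝ := 4 * ((N : ℝ) + 1) * Real.exp S with hR0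
  set R : Fin N → ℝ := fun _ => Real.exp (-S) / 2 with hRdef
  set p : Fin N → Eu n := fun i : Fin N =>
    EuclideanSpace.single (⟨0, by omega⟩ : Fin n) (2 * (((i : ℕ) : ℝ) + 1)) with hp
  have hR0pos : 0 < R0 := by positivity
  have hRpos : ∀ i, 0 < R i := fun i => by simp only [hRdef]; positivity
  have hR0big : 4 * ((N : ℝ) + 1) < R0 := by
    rw [hR0]
    have : 0 < 4 * ((N : ℝ) + 1) := by positivity
    nlinarith
  have hpn : ∀ i : Fin N, ‖p i‖ ≤ 2 * N := by
    intro i
    simp only [hp]
    rw [Geo_norm_single hn, abs_of_nonneg (by positivity)]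
    have h1 : (((i : ℕ) : ℝ) + 1) ≤ N := by exact_mod_cast i.2
    linarith
  have hpd : ∀ i j : Fin N, i ≠ j → 2 ≤ dist (p i) (p j) := by
    intro i j hij
    have h1 : p i - p j = EuclideanSpace.single (⟨0, by omega⟩ : Fin n)
        (2 * (((i : ℕ) : ℝ) - ((j : ℕ) : ℝ))) := by
      simp only [hp]
      ext l
      by_cases hl : l = (⟨0, by omega⟩ : Fin n)
      · subst hl
        simp
        ring
      · simp [hl]
    rw [dist_eq_norm, h1, Geo_norm_single hn, abs_mul, abs_of_pos (by norm_num : (0 : ℝ) < 2)]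
    have h2 : (1 : ℝ) ≤ |((i : ℕ) : ℝ) - ((j : ℕ) : ℝ)| := by
      have h3 : ((i : ℕ) : ℤ) - ((j : ℕ) : ℤ) ≠ 0 := by
        intro h4
        apply hij
        ext
        omega
      have h5 := Int.one_le_abs h3
      exact_mod_cast h5
    linarith
  -- center, radius
  set cen : Option (Fin N) → Eu n := fun c => match c with
    | none => 0
    | some i => p i with hcen
  set rad : Option (Fin N) → ℝ := fun c => match c with
    | none => R0
    | some i => R i with hrad
  have hradpos : ∀ c, 0 < rad c := by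
    intro c
    rcases c with _ | i
    · exact hR0pos
    · exact hRpos i
  have heps : ∀ c : Option (Fin N), eps c = 1 ∨ eps c = -1 := by
    intro c
    rcases c with _ | i
    · exact Or.inr rfl
    · exact Or.inl rfl
  have heps2 : ∀ c : Option (Fin N), eps c * eps c = 1 := by
    intro c
    rcases heps c with h | h <;> rw [h] <;> norm_num
  choose G hGs hGl hGr hG using fun c =>
    Geo_G hn (ha c) S (Real.log (r c) - Real.log (rad c) - Real.log d) (eps c)
  choose u hus hu0 hu using fun c => rad_smooth (hGs c) (hGl c) (hGr c) (cen c) (hradpos c) (heps c)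
    (1 : Pol n)
  have hev : ∀ x : E n, ev (1 : Pol n) x = 1 := by
    intro x
    unfold ev
    rw [map_one]
  -- regions
  set Reg : Option (Fin N) → Set (Eu n) := fun c => match c with
    | none => {x | 2 * (N : ℝ) + 1 ≤ ‖x‖}
    | some i => {x | dist x (p i) < 1} with hReg
  have hRegd : ∀ c d, c ≠ d → ∀ x, x ∈ Reg c → x ∉ Reg d := by
    have key : ∀ i : Fin N, ∀ x, dist x (p i) < 1 → ‖x‖ < 2 * (N : ℝ) + 1 := by
      intro i x hx
      have h1 : ‖x‖ ≤ ‖x - p i‖ + ‖p i‖ := by
        calc ‖x‖ = ‖(x - p i) + p i‖ := by rw [sub_add_cancel]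
          _ ≤ _ := norm_add_le _ _
      rw [dist_eq_norm] at hx
      have := hpn i
      linarith
    intro c d hcd x hx hx'
    rcases c with _ | i <;> rcases d with _ | j
    · exact hcd rfl
    · have h1 : 2 * (N : ℝ) + 1 ≤ ‖x‖ := hx
      have h2 := key j x hx'
      linarith
    · have h1 : 2 * (N : ℝ) + 1 ≤ ‖x‖ := hx'
      have h2 := key i x hx
      linarith
    · have hij : i ≠ j := fun h => hcd (by rw [h])
      have h1 : dist x (p i) < 1 := hx
      have h2 : dist x (p j) < 1 := hx'
      have h3 := hpd i j hij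
      have h4 := dist_triangle_left (p i) (p j) x
      linarith
  set Rg : Option (Fin N) → Set (Eu n) := fun c => match c with
    | none => {x | 3 * ((N : ℝ) + 1) < ‖x‖}
    | some i => {x | ‖x - p i‖ < Real.exp (1 / 4) / 2} with hRg
  have hRgu : ∀ c x, x ∉ Rg c → u c x = 0 := by
    intro c x hx
    by_cases hxc : x = cen c
    · rw [hxc]; exact hu0 c
    rw [hu c x hxc]
    have hpos : 0 < ‖x - cen c‖ := norm_pos_iff.mpr (sub_ne_zero.mpr hxc)
    have harg : S + 1 / 4 ≤ eps c * Real.log (‖x - cen c‖ / rad c) := by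
      rcases c with _ | i
      · have h1 : ¬ (3 * ((N : ℝ) + 1) < ‖x‖) := hx
        have h2 : x - cen none = x := by simp [hcen]
        rw [h2] at hpos ⊢
        have h3 : rad none = R0 := rfl
        have h4 : (eps (none : Option (Fin N))) = -1 := rfl
        rw [h3, h4, neg_one_mul, ← Real.log_inv, inv_div]
        have h5 : Real.exp (S + 1 / 4) ≤ R0 / ‖x‖ := by
          rw [le_div_iff₀ hpos, hR0, Real.exp_add]
          push Not at h1
          have h7 := Real.exp_pos S
          have h8 : Real.exp (1 / 4) * ‖x‖ ≤ 4 * ((N : ℝ) + 1) := by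
            have h9 : Real.exp (1 / 4) * ‖x‖ ≤ 4 / 3 * (3 * ((N : ℝ) + 1)) :=
              mul_le_mul hq43 h1 hpos.le (by norm_num)
            linarith
          have h10 := mul_le_mul_of_nonneg_left h8 h7.le
          linarith
        calc S + 1 / 4 = Real.log (Real.exp (S + 1 / 4)) := (Real.log_exp _).symm
          _ ≤ _ := Real.log_le_log (Real.exp_pos _) h5
      · have h1 : ¬ (‖x - p i‖ < Real.exp (1 / 4) / 2) := hx
        have h2 : cen (some i) = p i := rfl
        have h3 : rad (some i) = Real.exp (-S) / 2 := rfl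
        have h4 : (eps (some i)) = 1 := rfl
        rw [h2] at hpos ⊢
        rw [h3, h4, one_mul]
        push Not at h1
        have h5 : Real.exp (S + 1 / 4) ≤ ‖x - p i‖ / (Real.exp (-S) / 2) := by
          rw [le_div_iff₀ (by positivity), Real.exp_add]
          have h6 : Real.exp S * Real.exp (1 / 4) * (Real.exp (-S) / 2)
              = (Real.exp (-S) * Real.exp S) * (Real.exp (1 / 4) / 2) := by ring
          rw [h6, hEE, one_mul]
          exact h1
        calc S + 1 / 4 = Real.log (Real.exp (S + 1 / 4)) := (Real.log_exp _).symm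
          _ ≤ _ := Real.log_le_log (Real.exp_pos _) h5
    rw [hGr c _ harg, zero_mul]
  have hRegu : ∀ c x, x ∉ Reg c → u c x = 0 := by
    intro c x hx
    apply hRgu
    intro hx'
    apply hx
    rcases c with _ | i
    · have h1 : 3 * ((N : ℝ) + 1) < ‖x‖ := hx'
      show 2 * (N : ℝ) + 1 ≤ ‖x‖
      linarith
    · have h1 : ‖x - p i‖ < Real.exp (1 / 4) / 2 := hx'
      show dist x (p i) < 1
      rw [dist_eq_norm]
      linarith
  have hRegin : ∀ c t, 0 ≤ t → t ≤ S → ∀ x, ‖x - cen c‖ = rr (rad c) (eps c) t → x ∈ Reg c := by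
    intro c t h0 h1 x hx
    rcases c with _ | i
    · show 2 * (N : ℝ) + 1 ≤ ‖x‖
      have h2 : x - cen none = x := by simp [hcen]
      have h3 : rr (rad none) (eps (none : Option (Fin N))) t
          = 4 * ((N : ℝ) + 1) * Real.exp (S - t) := by
        show R0 * Real.exp (-1 * t) = _
        rw [hR0, mul_assoc, ← Real.exp_add]
        congr 2
        ring
      rw [h2, h3] at hx
      have h4 : 1 ≤ Real.exp (S - t) := Real.one_le_exp (by linarith)
      rw [hx]
      nlinarith
    · show dist x (p i) < 1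
      have h3 : rr (rad (some i)) (eps (some i)) t = Real.exp (t - S) / 2 := by
        show Real.exp (-S) / 2 * Real.exp (1 * t) = _
        rw [div_mul_eq_mul_div, ← Real.exp_add]
        congr 2
        ring
      have h2 : cen (some i) = p i := rfl
      rw [h2, h3] at hx
      rw [dist_eq_norm, hx]
      have h4 : Real.exp (t - S) ≤ 1 := by
        rw [Real.exp_le_one_iff]
        linarith
      linarith
  -- the domain
  have hinside : ∀ i, ‖p i‖ + R i < R0 := by
    intro i
    have h1 := hpn i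
    have h2 : R i = Real.exp (-S) / 2 := rfl
    rw [h2]
    linarith
  have hdisj : ∀ i j, i ≠ j → R i + R j < dist (p i) (p j) := by
    intro i j hij
    have h1 := hpd i j hij
    show Real.exp (-S) / 2 + Real.exp (-S) / 2 < dist (p i) (p j)
    linarith
  let D : Dom n N :=
    { R0 := R0
      p := p
      R := R
      ρ := fun x => d * Real.exp (∑ c, u c x)
      R0_pos := hR0pos
      R_pos := hRpos
      inside := hinside
      disj := hdisj
      smooth := contDiff_const.mul (ContDiff.sum fun c _ => hus c).exp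
      pos := fun x => mul_pos hd (Real.exp_pos _) }
  have hDc : ∀ c, D.cen c = cen c := by
    intro c
    rcases c with _ | i <;> rfl
  have hDr : ∀ c, D.rad c = rad c := by
    intro c
    rcases c with _ | i <;> rfl
  refine ⟨D, ⟨hS, hr, ha, ?_, ?_, ?_⟩, ?_, rfl, rfl, rfl, ?_⟩
  · -- metric
    intro c t h0 h1 w hw
    rw [hDc, hDr]
    have hrr : 0 < rr (rad c) (eps c) t := mul_pos (hradpos c) (Real.exp_pos _)
    set x : Eu n := cen c + rr (rad c) (eps c) t • w with hx
    have hxn : ‖x - cen c‖ = rr (rad c) (eps c) t := by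
      rw [hx, add_sub_cancel_left, norm_smul, hw, mul_one, Real.norm_of_nonneg hrr.le]
    have hxc : x ≠ cen c := by
      intro h
      rw [h, sub_self, norm_zero] at hxn
      exact hrr.ne hxn
    have hsum : ∑ e, u e x = u c x := by
      apply Finset.sum_eq_single c
      · intro e _ hec
        exact hRegu e x (hRegd c e hec.symm x (hRegin c t h0 h1 x hxn))
      · intro h
        exact absurd (Finset.mem_univ c) h
    have harg : eps c * Real.log (‖x - cen c‖ / rad c) = t := by
      rw [hxn]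
      unfold rr
      rw [mul_comm (rad c), mul_div_assoc, div_self (hradpos c).ne', mul_one, Real.log_exp,
        ← mul_assoc, heps2, one_mul]
    have huc : u c x = (1 / kz n) * Real.log (Hf n (a c) t)
        + ((Real.log (r c) - Real.log (rad c) - Real.log d) - eps c * t) := by
      rw [hu c x hxc, harg, hG c t h0 h1, hev, mul_one]
    show d * Real.exp (∑ c, u c x) * rr (rad c) (eps c) t = r c * Hf n (a c) t ^ (1 / kz n)
    rw [hsum, huc, Real.rpow_def_of_pos (Hf_pos hn (ha c) h0)]
    unfold rr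
    have e1 : (1 / kz n) * Real.log (Hf n (a c) t)
        + ((Real.log (r c) - Real.log (rad c) - Real.log d) - eps c * t)
        = Real.log (Hf n (a c) t) * (1 / kz n) + Real.log (r c) + (- Real.log (rad c))
          + (- Real.log d) + (- (eps c * t)) := by ring
    rw [e1, Real.exp_add, Real.exp_add, Real.exp_add, Real.exp_add, Real.exp_log (hr c),
      Real.exp_neg, Real.exp_neg, Real.exp_neg, Real.exp_log (hradpos c), Real.exp_log hd]
    have h2 := (hradpos c).ne'
    have h3 := (Real.exp_pos (eps c * t)).ne'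
    field_simp
  · -- sub
    intro c x hx
    rw [hDc, hDr] at hx
    obtain ⟨t, ht, hxt⟩ := hx
    have hreg := hRegin c t ht.1.le ht.2.le x hxt
    rcases c with _ | i
    · have h2 : x - cen none = x := by simp [hcen]
      have h3 : rr (rad none) (eps (none : Option (Fin N))) t = R0 * Real.exp (-t) := by
        show R0 * Real.exp (-1 * t) = _
        rw [neg_one_mul]
      rw [h2, h3] at hxt
      have h4 : Real.exp (-t) < 1 := by
        rw [Real.exp_lt_one_iff]
        linarith [ht.1]
      refine ⟨?_, fun i => ?_⟩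
      · show ‖x‖ < R0
        rw [hxt]
        nlinarith
      · show R i < dist x (p i)
        have h5 : ‖x‖ ≤ dist x (p i) + ‖p i‖ := by
          rw [dist_eq_norm]
          calc ‖x‖ = ‖(x - p i) + p i‖ := by rw [sub_add_cancel]
            _ ≤ _ := norm_add_le _ _
        have h6 := hpn i
        have h7 : 2 * (N : ℝ) + 1 ≤ ‖x‖ := hreg
        have h8 : R i = Real.exp (-S) / 2 := rfl
        rw [h8]
        linarith
    · have h3 : rr (rad (some i)) (eps (some i)) t = Real.exp (-S) / 2 * Real.exp t := by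
        show Real.exp (-S) / 2 * Real.exp (1 * t) = _
        rw [one_mul]
      have h2 : cen (some i) = p i := rfl
      rw [h2, h3] at hxt
      have hreg' : dist x (p i) < 1 := hreg
      refine ⟨?_, fun j => ?_⟩
      · show ‖x‖ < R0
        have h5 : ‖x‖ ≤ dist x (p i) + ‖p i‖ := by
          rw [dist_eq_norm]
          calc ‖x‖ = ‖(x - p i) + p i‖ := by rw [sub_add_cancel]
            _ ≤ _ := norm_add_le _ _
        have h6 := hpn i
        linarith
      · show R j < dist x (p j)
        have h8 : R j = Real.exp (-S) / 2 := rfl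
        rw [h8]
        by_cases hij : i = j
        · subst hij
          rw [dist_eq_norm, hxt]
          have h9 : 1 < Real.exp t := Real.one_lt_exp_iff.mpr ht.1
          nlinarith
        · have h9 := hpd i j hij
          have h10 := dist_triangle_left (p i) (p j) x
          linarith
  · -- dis
    intro c e hce
    rw [Set.disjoint_left]
    intro x hx hx'
    rw [hDc, hDr] at hx hx'
    obtain ⟨t, ht, hxt⟩ := hx
    obtain ⟨t', ht', hxt'⟩ := hx'
    exact hRegd c e hce x (hRegin c t ht.1.le ht.2.le x hxt) (hRegin e t' ht'.1.le ht'.2.le x hxt')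
  · -- connected
    refine Om_connected (by omega) D (v := EuclideanSpace.single (⟨1, by omega⟩ : Fin n) (1 : ℝ))
      ?_ ?_
    · rw [EuclideanSpace.norm_single, norm_one]
    · intro i
      show inner ℝ (EuclideanSpace.single (⟨1, by omega⟩ : Fin n) (1 : ℝ))
        (EuclideanSpace.single (⟨0, by omega⟩ : Fin n) (2 * (((i : ℕ) : ℝ) + 1))) = 0
      rw [EuclideanSpace.inner_single_left]
      simp
  · -- constant away from the collars
    intro x hx1 hx2
    have h0 : ∑ e, u e x = 0 := by
      refine Finset.sum_eq_zero fun e _ => hRgu e x ?_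
      rcases e with _ | i
      · exact fun h => absurd h (not_lt.mpr hx2)
      · exact fun h => absurd h (not_lt.mpr (hx1 i))
    show d * Real.exp (∑ c, u c x) = d
    rw [h0, Real.exp_zero, mul_one]

/-- Domains with separable collars of depth `S` exist for all data; the underlying Euclidean
domain depends only on `N` and `S`. -/
theorem exists_SD (hn : 3 ≤ n) (r a : Option (Fin N) → ℝ) (hr : ∀ c, 0 < r c)
    (ha : ∀ c, 0 ≤ a c) {S : ℝ} (hS : 3 ≤ S) :
    ∃ D : Dom n N, SD D r a S ∧ IsConnected D.Om ∧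
      D.R0 = 4 * ((N : ℝ) + 1) * Real.exp S ∧ (D.R = fun _ => Real.exp (-S) / 2) ∧
      D.p = fun i : Fin N => EuclideanSpace.single (⟨0, by omega⟩ : Fin n) (2 * (((i : ℕ) : ℝ) + 1)) := by
  obtain ⟨D, h1, h2, h3, h4, h5, -⟩ := exists_SDd hn r a hr ha hS (d := 1) one_pos
  exact ⟨D, h1, h2, h3, h4, h5⟩

end Pool.Agent.H78.SK
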