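import Pool.Agent.H78.SK.Tst
import Pool.Agent.H78.SK.Min
import Pool.Agent.H78.SK.Dim

/-!
# Job SK-LAP: the Laplacian of the boundary

`lap_lower`: `minmax_lower` with the functionals `u ↦ cf Y (sl u (cen c) (rad c) (eps c) 0) 0 i`
(`N + 1` of them, `m_zero`), `grad_energy` (`H35/CA/ShG.lean`, with `K = 0`; `lam n 1 = n - 1`),
`bdryEnergy_eq`, `mass_eq`.  The last hypothesis of `minmax_lower` comes from `test_family` and
`minmax_space` (`cum_ge`).
`lap_zero`: `minmax_upper` with the test functions of degree `0` (`lam n 0 = 0`, `m_zero`).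
`lap_one`: the same with, in addition, a test function of degree `1` on the sphere `c0`
(`lam n 1 = n - 1`, `m_one`).
-/

namespace Pool.Agent.H78.SK

open MeasureTheory Metric Set
open Pool.Agent.H35.CA

variable {n N : ℕ}

/-- Index set of the test functions. -/
abbrev LapI (Y : SHFam n) (K : Option (Fin N) → ℕ) : Type :=
  Σ c : Option (Fin N), Σ k : Fin (K c), Fin (Y.m k)

theorem Lap_card (Y : SHFam n) (K : Option (Fin N) → ℕ) :
    Fintype.card (LapI Y K) = ∑ c, cum Y (K c) := by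
  rw [Fintype.card_sigma]
  refine Finset.sum_congr rfl (fun c _ => ?_)
  rw [Fintype.card_sigma, cum, Finset.sum_range]
  simp

/-- Extension of the coefficients. -/
noncomputable def Lap_ext {Y : SHFam n} {K : Option (Fin N) → ℕ} (z : LapI Y K → ℝ)
    (c : Option (Fin N)) (k : ℕ) (i : Fin (Y.m k)) : ℝ :=
  if h : k < K c then z ⟨c, ⟨k, h⟩, i⟩ else 0

theorem Lap_ext_eq {Y : SHFam n} {K : Option (Fin N) → ℕ} (z : LapI Y K → ℝ)
    (c : Option (Fin N)) (k : Fin (K c)) (i : Fin (Y.m k)) :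
    Lap_ext z c k i = z ⟨c, k, i⟩ := by
  rw [Lap_ext, dif_pos k.2]

theorem Lap_sum {Y : SHFam n} {K : Option (Fin N) → ℕ} (z : LapI Y K → ℝ)
    (F : (c : Option (Fin N)) → (k : ℕ) → Fin (Y.m k) → ℝ → ℝ) :
    ∑ q : LapI Y K, F q.1 q.2.1 q.2.2 (z q)
      = ∑ c, ∑ k ∈ Finset.range (K c), ∑ i, F c k i (Lap_ext z c k i) := by
  rw [Fintype.sum_sigma]
  refine Finset.sum_congr rfl (fun c _ => ?_)
  rw [Fintype.sum_sigma, Finset.sum_range]
  refine Finset.sum_congr rfl (fun k _ => ?_)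
  refine Finset.sum_congr rfl (fun i _ => ?_)
  rw [Lap_ext_eq]

/-- The test functions of degree `< K c` on the sphere `c`. -/
theorem Lap_test (hn : 3 ≤ n) (Y : SHFam n) {D : Dom n N} {r a : Option (Fin N) → ℝ}
    {S : ℝ} (h : SD D r a S) (K : Option (Fin N) → ℕ) {s : ℝ}
    (hs : ∀ c, ∀ k < K c, lam n k ≤ s * r c ^ 2) :
    ∃ u : LapI Y K → Eu n → ℝ, (∀ i, ContDiff ℝ (⊤ : ℕ∞) (u i)) ∧
      (∀ z : LapI Y K → ℝ, z ≠ 0 → 0 < D.mass (fun x => ∑ i, z i * u i x)) ∧
      ∀ z : LapI Y K → ℝ, D.bdryEnergy (fun x => ∑ i, z i * u i x)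
        ≤ s * D.mass (fun x => ∑ i, z i * u i x) := by
  obtain ⟨C, hC, u, hu, hm⟩ := test_family hn Y h
  have hn1 : (0 : ℝ) < (n : ℝ) := by
    have : 0 < n := by omega
    exact_mod_cast this
  have hom : 0 < (n : ℝ) * om n := mul_pos hn1 (om_pos n)
  refine ⟨fun q => u q.1 q.2.1 q.2.2, fun q => hu _ _ _, ?_, ?_⟩
  · intro z hz
    have hf : (fun x => ∑ q : LapI Y K, z q * u q.1 q.2.1 q.2.2 x)
        = fun x => ∑ c, ∑ k ∈ Finset.range (K c), ∑ i, Lap_ext z c k i * u c k i x := by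
      funext x
      exact Lap_sum z (fun c k i y => y * u c k i x)
    rw [hf, (hm K (Lap_ext z)).1]
    refine mul_pos hom ?_
    have hnn : ∀ c, 0 ≤ r c ^ (n - 1) *
        ∑ k ∈ Finset.range (K c), ∑ i, Lap_ext z c k i ^ 2 := fun c =>
      mul_nonneg (pow_nonneg (h.r_pos c).le _)
        (Finset.sum_nonneg (fun k _ => Finset.sum_nonneg (fun i _ => sq_nonneg _)))
    have hne : ∃ q, z q ≠ 0 := by
      by_contra hcon
      push Not at hcon
      exact hz (funext hcon)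
    obtain ⟨⟨c, k, i⟩, hq⟩ := hne
    refine Finset.sum_pos' (fun c _ => hnn c) ⟨c, Finset.mem_univ _, ?_⟩
    refine mul_pos (pow_pos (h.r_pos c) _) ?_
    refine Finset.sum_pos' (fun k _ => Finset.sum_nonneg (fun i _ => sq_nonneg _))
      ⟨k, Finset.mem_range.2 k.2, ?_⟩
    refine Finset.sum_pos' (fun i _ => sq_nonneg _) ⟨i, Finset.mem_univ _, ?_⟩
    rw [Lap_ext_eq]
    positivity
  · intro z
    have hf : (fun x => ∑ q : LapI Y K, z q * u q.1 q.2.1 q.2.2 x)
        = fun x => ∑ c, ∑ k ∈ Finset.range (K c), ∑ i, Lap_ext z c k i * u c k i x := by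
      funext x
      exact Lap_sum z (fun c k i y => y * u c k i x)
    rw [hf, (hm K (Lap_ext z)).1, (hm K (Lap_ext z)).2.2]
    rw [mul_left_comm s, Finset.mul_sum (s := Finset.univ) (a := s)]
    refine mul_le_mul_of_nonneg_left ?_ hom.le
    refine Finset.sum_le_sum (fun c _ => ?_)
    have hr := h.r_pos c
    have hpow : r c ^ (n - 1) = r c ^ (n - 3) * r c ^ 2 := by
      rw [← pow_add]
      congr 1
      omega
    rw [hpow, mul_left_comm s, mul_assoc]
    refine mul_le_mul_of_nonneg_left ?_ (pow_nonneg hr.le _)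
    rw [mul_left_comm, ← mul_assoc, Finset.mul_sum]
    refine Finset.sum_le_sum (fun k hk => ?_)
    rw [Finset.mul_sum]
    refine Finset.sum_le_sum (fun i _ => ?_)
    have h1 := hs c k (Finset.mem_range.1 hk)
    have h2 := sq_nonneg (Lap_ext z c k i)
    nlinarith

theorem Lap_lam_zero : lam n 0 = 0 := by
  simp [lam]

theorem Lap_lam_one : lam n 1 = (n : ℝ) - 1 := by
  simp only [lam]
  push_cast
  ring

theorem Lap_lower_ineq (hn : 3 ≤ n) (Y : SHFam n) {D : Dom n N} {r a : Option (Fin N) → ℝ}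
    {S ρ : ℝ} (h : SD D r a S) (hρ : ∀ c, r c ≤ ρ) {u : Eu n → ℝ}
    (hu : ContDiff ℝ (⊤ : ℕ∞) u)
    (h0 : ∀ c, en Y (sl u (D.cen c) (D.rad c) (eps c) 0) 0 = 0) :
    ((n : ℝ) - 1) / ρ ^ 2 * D.mass u ≤ D.bdryEnergy u := by
  have hn1 : (0 : ℝ) < (n : ℝ) := by
    have : 0 < n := by omega
    exact_mod_cast this
  have hn3 : (3 : ℝ) ≤ (n : ℝ) := by exact_mod_cast hn
  have hom : 0 < (n : ℝ) * om n := mul_pos hn1 (om_pos n)
  have hρ0 : 0 < ρ := lt_of_lt_of_le (h.r_pos none) (hρ none)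
  rw [mass_eq hn h u, bdryEnergy_eq hn h hu, mul_left_comm, Finset.mul_sum]
  refine mul_le_mul_of_nonneg_left ?_ hom.le
  refine Finset.sum_le_sum (fun c _ => ?_)
  have hr := h.r_pos c
  have hpow : r c ^ (n - 1) = r c ^ (n - 3) * r c ^ 2 := by
    rw [← pow_add]
    congr 1
    omega
  rw [hpow, mul_left_comm, mul_assoc]
  refine mul_le_mul_of_nonneg_left ?_ (pow_nonneg hr.le _)
  set f := sl u (D.cen c) (D.rad c) (eps c) 0 with hf
  have hfs : ContDiff ℝ (⊤ : ℕ∞) f := sl_smooth hu _ _ _ _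
  have hf2 : ContDiffOn ℝ 2 f {0}ᶜ :=
    (contDiff_infty.1 hfs 2).contDiffOn
  have h1 := grad_energy (by omega : 2 ≤ n) Y hf2 0 (fun k hk => by
    have : k = 0 := by omega
    subst this
    exact h0 c)
  rw [Nat.zero_add, Lap_lam_one] at h1
  refine le_trans ?_ h1
  have hsq : 0 ≤ H35.CA.sq f := ShB_sq_nonneg f
  rw [mul_left_comm, ← mul_assoc]
  refine mul_le_mul_of_nonneg_right ?_ hsq
  rw [div_mul_eq_mul_div, div_le_iff₀ (by positivity)]
  have h2 : r c ^ 2 ≤ ρ ^ 2 := pow_le_pow_left₀ hr.le (hρ c) 2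
  nlinarith

theorem lap_lower (hn : 3 ≤ n) (Y : SHFam n) {D : Dom n N} {r a : Option (Fin N) → ℝ}
    {S ρ : ℝ} (h : SD D r a S) (hρ : ∀ c, r c ≤ ρ) {j : ℕ} (hj : N + 1 ≤ j) :
    ((n : ℝ) - 1) / ρ ^ 2 ≤ D.bdryLaplace j := by
  have hn2 : 2 ≤ n := by omega
  have hn1 : 1 ≤ n := by omega
  have hm0 : Y.m 0 = 1 := m_zero hn2 Y
  have hm0' : 0 < Y.m 0 := by omega
  have hcont : ∀ (c : Option (Fin N)) (u : Eu n → ℝ), ContDiff ℝ (⊤ : ℕ∞) u →
      ContinuousOn (sl u (D.cen c) (D.rad c) (eps c) 0) (sphere 0 1) := fun c u hu =>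
    (sl_smooth hu _ _ _ _).continuous.continuousOn
  refine minmax_lower (fun u => bdryEnergy_nonneg D u) (κ := Option (Fin N))
    (by simpa using hj) (fun c u => cf Y (sl u (D.cen c) (D.rad c) (eps c) 0) 0 ⟨0, hm0'⟩)
    ?_ ?_ ?_ ?_
  · intro c u v hu hv
    exact shg_cf_add hn1 Y (hcont c u hu) (hcont c v hv) 0 ⟨0, hm0'⟩
  · intro c y u hu
    simp only [cf]
    rw [← integral_const_mul]
    congr 1
    funext x
    simp only [sl, Pi.smul_apply, smul_eq_mul]
    ring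
  · intro u hu hz
    refine Lap_lower_ineq hn Y h hρ hu (fun c => ?_)
    rw [en]
    refine Finset.sum_eq_zero (fun i _ => ?_)
    have hi : i = ⟨0, hm0'⟩ := by
      apply Fin.ext
      have := i.2
      simp only
      omega
    rw [hi, hz c]
    norm_num
  · have hj0 : j < ∑ c : Option (Fin N), cum Y (j + 1) := by
      have h1 := cum_ge hn2 Y j
      have h2 : cum Y (j + 1) ≤ ∑ c : Option (Fin N), cum Y (j + 1) :=
        Finset.single_le_sum (f := fun _ : Option (Fin N) => cum Y (j + 1))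
          (fun _ _ => Nat.zero_le _) (Finset.mem_univ none)
      omega
    have hex : ∃ s : ℝ, ∀ c, ∀ k < j + 1, lam n k ≤ s * r c ^ 2 := by
      have hlam : ∀ k < j + 1, lam n k ≤ lam n j := by
        intro k hk
        have hk' : (k : ℝ) ≤ (j : ℝ) := by exact_mod_cast (by omega : k ≤ j)
        have hk0 : (0 : ℝ) ≤ (k : ℝ) := Nat.cast_nonneg _
        have hn3 : (3 : ℝ) ≤ (n : ℝ) := by exact_mod_cast hn
        simp only [lam]
        nlinarith
      have hlj : 0 ≤ lam n j := by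
        have := hlam 0 (by omega)
        rwa [Lap_lam_zero] at this
      refine ⟨∑ c, lam n j / r c ^ 2, fun c k hk => ?_⟩
      refine le_trans (hlam k hk) ?_
      have hr := h.r_pos c
      have h1 : lam n j / r c ^ 2 ≤ ∑ c, lam n j / r c ^ 2 :=
        Finset.single_le_sum (f := fun c => lam n j / r c ^ 2)
          (fun c _ => div_nonneg hlj (sq_nonneg _)) (Finset.mem_univ c)
      calc lam n j = lam n j / r c ^ 2 * r c ^ 2 := by field_simp
        _ ≤ _ := mul_le_mul_of_nonneg_right h1 (sq_nonneg _)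
    obtain ⟨s, hs⟩ := hex
    obtain ⟨u, hu, hb, hQ⟩ := Lap_test hn Y h (fun _ => j + 1) hs
    obtain ⟨V, h1, h2, h3, h4⟩ := minmax_space (Q := D.bdryEnergy) (b := D.mass) (j := j)
      (by rw [Lap_card]; exact hj0) u hu hb hQ (by simp [Dom.mass])
    exact ⟨V, h1, h2, h3, s, h4⟩

theorem lap_zero (hn : 3 ≤ n) (Y : SHFam n) {D : Dom n N} {r a : Option (Fin N) → ℝ}
    {S : ℝ} (h : SD D r a S) {j : ℕ} (hj : j < N + 1) : D.bdryLaplace j ≤ 0 := by
  obtain ⟨u, hu, hb, hQ⟩ := Lap_test hn Y h (fun _ => 1) (s := 0) (fun c k hk => by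
    have : k = 0 := by omega
    subst this
    rw [Lap_lam_zero]
    simp)
  refine minmax_upper (fun u => bdryEnergy_nonneg D u) (j := j) ?_ u hu hb hQ
    (by simp [Dom.mass])
  rw [Lap_card]
  simp only [cum, Finset.sum_range_one, m_zero (by omega : 2 ≤ n) Y]
  simpa using hj

theorem lap_one (hn : 3 ≤ n) (Y : SHFam n) {D : Dom n N} {r a : Option (Fin N) → ℝ}
    {S : ℝ} (h : SD D r a S) (c0 : Option (Fin N)) :
    D.bdryLaplace (N + 1) ≤ ((n : ℝ) - 1) / r c0 ^ 2 := by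
  classical
  have hn3 : (3 : ℝ) ≤ (n : ℝ) := by exact_mod_cast hn
  have hr0 := h.r_pos c0
  obtain ⟨u, hu, hb, hQ⟩ := Lap_test hn Y h (fun c => if c = c0 then 2 else 1)
    (s := ((n : ℝ) - 1) / r c0 ^ 2) (fun c k hk => by
    have hs0 : 0 ≤ ((n : ℝ) - 1) / r c0 ^ 2 := div_nonneg (by linarith) (sq_nonneg _)
    rcases Nat.eq_zero_or_pos k with hk0 | hk0
    · subst hk0
      rw [Lap_lam_zero]
      exact mul_nonneg hs0 (sq_nonneg _)
    · have hc : c = c0 := by
        by_contra hc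
        rw [if_neg hc] at hk
        omega
      subst hc
      rw [if_pos rfl] at hk
      have hk1 : k = 1 := by omega
      subst hk1
      rw [Lap_lam_one, div_mul_cancel₀ _ (by positivity)])
  refine minmax_upper (fun u => bdryEnergy_nonneg D u) (j := N + 1) ?_ u hu hb hQ
    (by simp [Dom.mass])
  rw [Lap_card]
  have h1 : ∀ c : Option (Fin N), cum Y (if c = c0 then 2 else 1)
      = 1 + if c = c0 then Y.m 1 else 0 := by
    intro c
    split_ifs with hc
    · simp [cum, Finset.sum_range_succ, m_zero (by omega : 2 ≤ n) Y]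
    · simp [cum, m_zero (by omega : 2 ≤ n) Y]
  rw [Finset.sum_congr rfl (fun c _ => h1 c), Finset.sum_add_distrib,
    Finset.sum_ite_eq' Finset.univ c0]
  have h2 := m_one (by omega : 2 ≤ n) Y
  simp
  omega

end Pool.Agent.H78.SK
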