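import Pool.Agent.H78.SK.Cmp
import Pool.Agent.H78.SK.Lap
import Pool.Agent.H78.SK.Geo

/-!
# Steklov spectra: the two families of data
-/

namespace Pool.Agent.H78.SK

open MeasureTheory Metric Set Filter
open Pool.Agent.H35.CA

variable {n N : ℕ}

/-- The counting function of two spheres of radius `2`. -/
def cc2 (Y : SHFam n) (M : ℕ) : ℕ := cum Y (M + 1) + cum Y (M - 1)

theorem cc2_unb (hn : 2 ≤ n) (Y : SHFam n) (j : ℕ) : j < cc2 Y j := by
  have := cum_ge hn Y j
  unfold cc2
  omega

theorem kz_ne (hn : 3 ≤ n) : kz n ≠ 0 := by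
  have := kz_pos hn
  intro h
  linarith

/-- Two spheres of radius `2`. -/
theorem cntdA (hn : 3 ≤ n) (Y : SHFam n) :
    Cntd n Y (fun _ : Option (Fin 1) => 2)
      (fun c => if c = none then 0 else 1 / kz n) (cc2 Y) := by
  have hk := kz_ne hn
  have hu : ∀ f : Option (Fin 1) → ℕ, ∑ c, f c = f none + f (some 0) := by
    intro f
    rw [Fintype.sum_option, Fin.sum_univ_one]
  refine ⟨fun M => ⟨fun c => if c = none then M + 1 else M - 1, ?_, ?_⟩,
    fun M => ⟨fun c => if c = none then M else M - 2, ?_, ?_⟩⟩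
  · intro c k hkc
    rcases c with _ | i
    · simp only [if_true] at hkc ⊢
      have : (k : ℝ) ≤ M := by exact_mod_cast Nat.lt_succ_iff.1 hkc
      rw [mul_zero, zero_mul, add_zero]
      linarith
    · simp only [reduceCtorEq, if_false] at hkc ⊢
      have : (k : ℝ) + 2 ≤ M := by exact_mod_cast (by omega : k + 2 ≤ M)
      rw [mul_assoc, one_div, inv_mul_cancel₀ hk, mul_one]
      linarith
  · rw [hu]
    simp only [if_true, reduceCtorEq, if_false]
    rfl
  · intro c k hkc
    rcases c with _ | i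
    · simp only [if_true] at hkc ⊢
      have : (M : ℝ) ≤ k := by exact_mod_cast hkc
      rw [mul_zero, zero_mul, add_zero]
      linarith
    · simp only [reduceCtorEq, if_false] at hkc ⊢
      have : (M : ℝ) ≤ k + 2 := by exact_mod_cast (by omega : M ≤ k + 2)
      rw [mul_assoc, one_div, inv_mul_cancel₀ hk, mul_one]
      linarith
  · rw [hu]
    simp only [if_true, reduceCtorEq, if_false]
    rcases M with _ | M
    · simp [cum]
    · rw [if_neg (Nat.succ_ne_zero M)]
      unfold cc2
      rw [Nat.add_sub_cancel, show M + 1 - 2 = M - 1 by omega]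

/-- `2^n` unit spheres. -/
theorem cntdB (hn : 3 ≤ n) (Y : SHFam n) {N : ℕ} (e : Option (Fin N) ≃ Finset (Fin n)) :
    Cntd n Y (fun _ : Option (Fin N) => 1)
      (fun c => ((e c).card : ℝ) / (4 * kz n)) (cc2 Y) := by
  have hk := kz_ne hn
  have hg : ∀ c, 2 * (((e c).card : ℝ) / (4 * kz n)) * kz n = ((e c).card : ℝ) / 2 := by
    intro c
    field_simp
    ring
  refine ⟨fun M => ⟨fun c => (M + 2 - (e c).card) / 2, ?_, ?_⟩,
    fun M => ⟨fun c => (M + 1 - (e c).card) / 2, ?_, ?_⟩⟩
  · intro c k hkc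
    rw [hg, div_one]
    dsimp only at hkc
    have : (2 : ℝ) * k + (e c).card ≤ M := by exact_mod_cast (by omega : 2 * k + (e c).card ≤ M)
    linarith
  · unfold cc2
    rw [cum_id (by omega) Y M]
    exact Equiv.sum_comp e (fun T => cum Y ((M + 2 - T.card) / 2))
  · intro c k hkc
    rw [hg, div_one]
    dsimp only at hkc
    have : (M : ℝ) ≤ 2 * k + (e c).card := by exact_mod_cast (by omega : M ≤ 2 * k + (e c).card)
    linarith
  · rcases M with _ | M
    · rw [if_pos rfl]
      refine Finset.sum_eq_zero fun c _ => ?_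
      dsimp only
      rw [show (0 + 1 - (e c).card) / 2 = 0 by omega]
      simp [cum]
    · rw [if_neg (Nat.succ_ne_zero M), Nat.add_sub_cancel]
      unfold cc2
      rw [cum_id (by omega) Y M]
      exact Equiv.sum_comp e (fun T => cum Y ((M + 2 - T.card) / 2))

theorem SD.radius {D : Dom n N} {r a : Option (Fin N) → ℝ} {S : ℝ} (h : SD D r a S)
    (c : Option (Fin N)) (w : Eu n) (hw : ‖w‖ = 1) : D.ρ (D.pt c w) * D.rad c = r c := by
  have h1 := h.metric c 0 le_rfl (by linarith [h.S_ge]) w hw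
  have h2 : rr (D.rad c) (eps c) 0 = D.rad c := by
    unfold rr
    rw [mul_zero, Real.exp_zero, mul_one]
  rw [h2, Hf_zero, Real.one_rpow, mul_one] at h1
  exact h1

end Pool.Agent.H78.SK
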