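import Pool.Agent.H78.SK.FinA

/-!
# Steklov spectra: data on the same Euclidean domain
-/

namespace Pool.Agent.H78.SK

open MeasureTheory Metric Set Filter
open Pool.Agent.H35.CA

variable {n N : ℕ}

/-- The common counting function. -/
def ccB (Y : SHFam n) (M : ℕ) : ℕ := cc2 Y M + cc2 Y (M / 2)

/-- Radii of the first family. -/
noncomputable def rA : Finset (Fin n) ⊕ Bool → ℝ
  | Sum.inl _ => 1 / 2
  | Sum.inr _ => 2

/-- Profile parameters of both families. -/
noncomputable def aB (n : ℕ) : Finset (Fin n) ⊕ Bool → ℝ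
  | Sum.inl T => (T.card : ℝ) / (4 * kz n)
  | Sum.inr false => 0
  | Sum.inr true => 1 / kz n

theorem sum_cases {N : ℕ} (e : Option (Fin N) ≃ Finset (Fin n) ⊕ Bool)
    (f : Finset (Fin n) ⊕ Bool → ℕ) :
    ∑ c, f (e c) = ∑ T : Finset (Fin n), f (Sum.inl T) + (f (Sum.inr true) + f (Sum.inr false)) := by
  rw [Equiv.sum_comp e f, Fintype.sum_sum_type, Fintype.sum_bool]

theorem aB_nonneg (hn : 3 ≤ n) (x : Finset (Fin n) ⊕ Bool) : 0 ≤ aB n x := by
  have hk := kz_pos hn
  have hk0 : 0 < kz n := by linarith
  rcases x with T | b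
  · unfold aB; positivity
  · cases b
    · exact le_rfl
    · unfold aB; positivity

theorem aB_inl (hn : 3 ≤ n) (T : Finset (Fin n)) :
    2 * aB n (Sum.inl T) * kz n = (T.card : ℝ) / 2 := by
  have hk := kz_ne hn
  unfold aB
  field_simp
  ring

theorem aB_true (hn : 3 ≤ n) : 2 * aB n (Sum.inr true) * kz n = 2 := by
  have hk := kz_ne hn
  unfold aB
  field_simp

theorem aB_false : 2 * aB n (Sum.inr false) * kz n = 0 := by
  unfold aB
  ring

theorem cntdC (hn : 3 ≤ n) (Y : SHFam n) {N : ℕ} (e : Option (Fin N) ≃ Finset (Fin n) ⊕ Bool) :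
    Cntd n Y (fun c => rA (e c)) (fun c => aB n (e c)) (ccB Y) := by
  refine ⟨fun M => ⟨fun c => Sum.elim (fun T => (M / 2 + 2 - T.card) / 2)
      (fun b => if b then M - 1 else M + 1) (e c), ?_, ?_⟩,
    fun M => ⟨fun c => Sum.elim (fun T => if M = 0 then 0 else ((M - 1) / 2 + 2 - T.card) / 2)
      (fun b => if b then M - 2 else M) (e c), ?_, ?_⟩⟩
  · intro c k
    dsimp only
    rcases e c with T | b
    · intro hkc
      rw [Sum.elim_inl] at hkc
      rw [aB_inl hn]
      have h1 : 4 * k + 2 * T.card ≤ M := by omega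
      have h2 : (4 : ℝ) * k + 2 * T.card ≤ M := by exact_mod_cast h1
      unfold rA
      rw [div_le_div_iff₀ (by norm_num) (by norm_num)]
      linarith
    · cases b
      · intro hkc
        rw [Sum.elim_inr, if_neg Bool.false_ne_true] at hkc
        have h2 : (k : ℝ) ≤ M := by exact_mod_cast Nat.lt_succ_iff.1 hkc
        rw [aB_false]
        unfold rA
        linarith
      · intro hkc
        rw [Sum.elim_inr, if_pos rfl] at hkc
        have h2 : (k : ℝ) + 2 ≤ M := by exact_mod_cast (by omega : k + 2 ≤ M)
        rw [aB_true hn]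
        unfold rA
        linarith
  · rw [sum_cases e (fun x => cum Y (Sum.elim (fun T => (M / 2 + 2 - T.card) / 2)
      (fun b => if b then M - 1 else M + 1) x))]
    simp only [Sum.elim_inl, Sum.elim_inr, Bool.false_eq_true, if_false, if_true]
    rw [← cum_id (by omega) Y (M / 2)]
    unfold ccB cc2
    omega
  · intro c k
    dsimp only
    rcases e c with T | b
    · intro hkc
      rw [Sum.elim_inl] at hkc
      rw [aB_inl hn]
      have h1 : M ≤ 4 * k + 2 * T.card := by
        rcases Nat.eq_zero_or_pos M with hM | hM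
        · omega
        · rw [if_neg (by omega)] at hkc
          omega
      have h2 : (M : ℝ) ≤ 4 * k + 2 * T.card := by exact_mod_cast h1
      unfold rA
      rw [div_le_div_iff₀ (by norm_num) (by norm_num)]
      linarith
    · cases b
      · intro hkc
        rw [Sum.elim_inr, if_neg Bool.false_ne_true] at hkc
        have h2 : (M : ℝ) ≤ k := by exact_mod_cast hkc
        rw [aB_false]
        unfold rA
        linarith
      · intro hkc
        rw [Sum.elim_inr, if_pos rfl] at hkc
        have h2 : (M : ℝ) ≤ k + 2 := by exact_mod_cast (by omega : M ≤ k + 2)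
        rw [aB_true hn]
        unfold rA
        linarith
  · rw [sum_cases e (fun x => cum Y (Sum.elim
      (fun T => if M = 0 then 0 else ((M - 1) / 2 + 2 - T.card) / 2)
      (fun b => if b then M - 2 else M) x))]
    simp only [Sum.elim_inl, Sum.elim_inr, Bool.false_eq_true, if_false, if_true]
    rcases M with _ | M
    · simp [cum]
    · simp only [Nat.succ_ne_zero, if_false, Nat.add_sub_cancel]
      rw [← cum_id (by omega) Y (M / 2)]
      unfold ccB cc2
      rw [show M + 1 - 2 = M - 1 by omega]
      omega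

theorem cntdD (hn : 3 ≤ n) (Y : SHFam n) {N : ℕ} (e : Option (Fin N) ≃ Finset (Fin n) ⊕ Bool) :
    Cntd n Y (fun _ : Option (Fin N) => 1) (fun c => aB n (e c)) (ccB Y) := by
  refine ⟨fun M => ⟨fun c => Sum.elim (fun T => (M + 2 - T.card) / 2)
      (fun b => if b then M / 2 - 1 else M / 2 + 1) (e c), ?_, ?_⟩,
    fun M => ⟨fun c => Sum.elim (fun T => (M + 1 - T.card) / 2)
      (fun b => if b then (M - 1) / 2 - 1 else (M + 1) / 2) (e c), ?_, ?_⟩⟩
  · intro c k
    dsimp only
    rcases e c with T | b
    · intro hkc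
      rw [Sum.elim_inl] at hkc
      rw [aB_inl hn, div_one]
      have h2 : (2 : ℝ) * k + T.card ≤ M := by exact_mod_cast (by omega : 2 * k + T.card ≤ M)
      linarith
    · cases b
      · intro hkc
        rw [Sum.elim_inr, if_neg Bool.false_ne_true] at hkc
        have h2 : (2 : ℝ) * k ≤ M := by exact_mod_cast (by omega : 2 * k ≤ M)
        rw [aB_false]
        linarith
      · intro hkc
        rw [Sum.elim_inr, if_pos rfl] at hkc
        have h2 : (2 : ℝ) * k + 4 ≤ M := by exact_mod_cast (by omega : 2 * k + 4 ≤ M)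
        rw [aB_true hn]
        linarith
  · rw [sum_cases e (fun x => cum Y (Sum.elim (fun T => (M + 2 - T.card) / 2)
      (fun b => if b then M / 2 - 1 else M / 2 + 1) x))]
    simp only [Sum.elim_inl, Sum.elim_inr, Bool.false_eq_true, if_false, if_true]
    rw [← cum_id (by omega) Y M]
    unfold ccB cc2
    omega
  · intro c k
    dsimp only
    rcases e c with T | b
    · intro hkc
      rw [Sum.elim_inl] at hkc
      rw [aB_inl hn, div_one]
      have h2 : (M : ℝ) ≤ 2 * k + T.card := by exact_mod_cast (by omega : M ≤ 2 * k + T.card)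
      linarith
    · cases b
      · intro hkc
        rw [Sum.elim_inr, if_neg Bool.false_ne_true] at hkc
        have h2 : (M : ℝ) ≤ 2 * k := by exact_mod_cast (by omega : M ≤ 2 * k)
        rw [aB_false]
        linarith
      · intro hkc
        rw [Sum.elim_inr, if_pos rfl] at hkc
        have h2 : (M : ℝ) ≤ 2 * k + 4 := by exact_mod_cast (by omega : M ≤ 2 * k + 4)
        rw [aB_true hn]
        linarith
  · rw [sum_cases e (fun x => cum Y (Sum.elim (fun T => (M + 1 - T.card) / 2)
      (fun b => if b then (M - 1) / 2 - 1 else (M + 1) / 2) x))]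
    simp only [Sum.elim_inl, Sum.elim_inr, Bool.false_eq_true, if_false, if_true]
    rcases M with _ | M
    · rw [if_pos rfl]
      have : ∀ T : Finset (Fin n), cum Y ((0 + 1 - T.card) / 2) = 0 := by
        intro T
        rw [show (0 + 1 - T.card) / 2 = 0 by omega]
        simp [cum]
      rw [Finset.sum_eq_zero (fun T _ => this T)]
      simp [cum]
    · rw [if_neg (Nat.succ_ne_zero M), Nat.add_sub_cancel,
        show (M + 1 + 1) / 2 = M / 2 + 1 by omega]
      rw [← cum_id (by omega) Y M]
      unfold ccB cc2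
      omega

end Pool.Agent.H78.SK
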