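import Pool.Agent.H78.SK.Base

/-!
# Job SK-PAR: choice of the depth of the collars (scalar inequality)

`exists_S`.  Put `κ = k + z ≥ 1`.  `κ^2 ≤ e^(2κ)`, so the left side is at most
`(8 + C1) / r c * e^(-2κ(S-2))`.  Since `k ≤ κ` and `1 ≤ κ`,
`e^(-2κ(S-2)) e^(C (k + G c) / r c) ≤ e^(-κ (2 (S-2) - C (1 + G c) / r c))
≤ e^(-(2 (S-2) - C (1 + G c) / r c))` once `2 (S-2) ≥ C (1 + G c) / r c`, and
`(8 + C1) / r c * e^(-t) ≤ ε` for `t ≥ (8 + C1) / (r c * ε)` (`y ≤ e^y`).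
`S0 = 3 + ∑ c, (C (1 + G c) / r c + (8 + C1) / (r c * ε))`.
-/

namespace Pool.Agent.H78.SK

/-- the inequality for one boundary component -/
theorem Par_one {r G C ε C1 z S : ℝ} (hr : 0 < r) (hG : 0 ≤ G)
    (hC : 0 ≤ C) (hε : 0 < ε) (hC1 : 0 ≤ C1) (hz : 1 / 2 ≤ z)
    (hS : 3 + (C * (1 + G) / r + (8 + C1) / (r * ε)) ≤ S) (k : ℕ) (hk : 1 ≤ k) :
      (8 * ((k : ℝ) + z) ^ 2 * Real.exp (-(2 * ((k : ℝ) + z) * S)) +
        C1 * Real.exp (-(2 * ((k : ℝ) + z) * (S - 2)))) / r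
      ≤ ε * Real.exp (-(C * (((k : ℝ) + G) / r))) := by
  have hk1 : (1 : ℝ) ≤ k := by exact_mod_cast hk
  obtain ⟨κ, hκ⟩ : ∃ κ : ℝ, κ = (k : ℝ) + z := ⟨_, rfl⟩
  have hκ1 : 1 ≤ κ := by linarith
  have hkκ : (k : ℝ) ≤ κ := by linarith
  rw [← hκ]
  obtain ⟨A, hA⟩ : ∃ A : ℝ, A = C * (1 + G) / r := ⟨_, rfl⟩
  obtain ⟨B, hB⟩ : ∃ B : ℝ, B = (8 + C1) / (r * ε) := ⟨_, rfl⟩
  have hA0 : 0 ≤ A := by rw [hA]; positivity
  have hB0 : 0 < B := by rw [hB]; positivity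
  rw [← hA, ← hB] at hS
  have h1 : κ ^ 2 ≤ Real.exp (2 * κ) := by
    have h := Real.add_one_le_exp κ
    have e : Real.exp (2 * κ) = Real.exp κ ^ 2 := by rw [sq, ← Real.exp_add]; congr 1; ring
    rw [e]
    gcongr
    linarith
  have h2 : κ ^ 2 * Real.exp (-(2 * κ * S)) ≤ Real.exp (-(2 * κ * (S - 2))) := by
    calc κ ^ 2 * Real.exp (-(2 * κ * S)) ≤ Real.exp (2 * κ) * Real.exp (-(2 * κ * S)) := by gcongr
      _ = Real.exp (2 * κ + -(2 * κ * S)) := by rw [Real.exp_add]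
      _ ≤ _ := by
        apply Real.exp_le_exp.mpr
        nlinarith
  have h3 : C * (((k : ℝ) + G) / r) ≤ κ * A := by
    rw [hA]
    have e1 : C * (((k : ℝ) + G) / r) = C * ((k : ℝ) + G) / r := by ring
    have e2 : κ * (C * (1 + G) / r) = C * (κ * (1 + G)) / r := by ring
    rw [e1, e2]
    have h4 : (k : ℝ) + G ≤ κ * (1 + G) := by nlinarith
    gcongr
  have h5 : Real.exp (-(2 * κ * (S - 2))) ≤ 1 / B * Real.exp (-(C * (((k : ℝ) + G) / r))) := by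
    have h6 : -(2 * κ * (S - 2)) ≤ -B + -(C * (((k : ℝ) + G) / r)) := by
      have h7 : κ * (A + B) ≤ 2 * κ * (S - 2) := by
        have h8 : A + B ≤ 2 * (S - 2) := by linarith
        have := mul_le_mul_of_nonneg_left h8 (by linarith : 0 ≤ κ)
        linarith
      have h9 : B ≤ κ * B := by nlinarith
      nlinarith
    calc Real.exp (-(2 * κ * (S - 2))) ≤ Real.exp (-B + -(C * (((k : ℝ) + G) / r))) :=
          Real.exp_le_exp.mpr h6
      _ = Real.exp (-B) * Real.exp (-(C * (((k : ℝ) + G) / r))) := Real.exp_add _ _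
      _ ≤ 1 / B * Real.exp (-(C * (((k : ℝ) + G) / r))) := by
        gcongr
        rw [Real.exp_neg, ← one_div]
        apply one_div_le_one_div_of_le hB0
        have := Real.add_one_le_exp B
        linarith
  have h10 : 8 * κ ^ 2 * Real.exp (-(2 * κ * S)) + C1 * Real.exp (-(2 * κ * (S - 2))) ≤
      (8 + C1) * Real.exp (-(2 * κ * (S - 2))) := by
    nlinarith
  calc (8 * κ ^ 2 * Real.exp (-(2 * κ * S)) + C1 * Real.exp (-(2 * κ * (S - 2)))) / r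
      ≤ (8 + C1) * Real.exp (-(2 * κ * (S - 2))) / r := by gcongr
    _ ≤ (8 + C1) * (1 / B * Real.exp (-(C * (((k : ℝ) + G) / r)))) / r := by gcongr
    _ = ε * Real.exp (-(C * (((k : ℝ) + G) / r))) := by
      rw [hB]
      field_simp

theorem exists_S {ι : Type} [Fintype ι] (r G : ι → ℝ) (hr : ∀ c, 0 < r c) (hG : ∀ c, 0 ≤ G c)
    {C ε C1 z : ℝ} (hC : 0 ≤ C) (hε : 0 < ε) (hC1 : 0 ≤ C1) (hz : 1 / 2 ≤ z) :
    ∃ S0 : ℝ, 3 ≤ S0 ∧ ∀ S, S0 ≤ S → ∀ c (k : ℕ), 1 ≤ k →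
      (8 * ((k : ℝ) + z) ^ 2 * Real.exp (-(2 * ((k : ℝ) + z) * S)) +
        C1 * Real.exp (-(2 * ((k : ℝ) + z) * (S - 2)))) / r c
      ≤ ε * Real.exp (-(C * (((k : ℝ) + G c) / r c))) := by
  have hn : ∀ c, 0 ≤ C * (1 + G c) / r c + (8 + C1) / (r c * ε) := by
    intro c
    have h1 := hr c
    have h2 := hG c
    positivity
  refine ⟨3 + ∑ c, (C * (1 + G c) / r c + (8 + C1) / (r c * ε)), ?_, ?_⟩
  · have := Finset.sum_nonneg fun c (_ : c ∈ (Finset.univ : Finset ι)) => hn c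
    linarith
  · intro S hS c k hk
    refine Par_one (hr c) (hG c) hC hε hC1 hz ?_ k hk
    have := Finset.single_le_sum (fun c _ => hn c) (Finset.mem_univ c)
    linarith

end Pool.Agent.H78.SK
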