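import Pool.Agent.H78.SK.Tst0
import Pool.Agent.H78.SK.ReaU

/-!
# Job SK-UNIU: uniform upper bounds for the Steklov eigenvalues

`uni_upper`.  Same proof as `real_upper` (`ReaU.lean`; index type
`(c : Option (Fin N)) × (k : Fin (κ c)) × Fin (Y.m k)`, `minmax_upper`) with the functions of
`TF` (`Tst0.lean`): for `k < κ c` the energy coefficient is at most `s * r c ^ (n - 1)`:
for `k = 0` this is `h0`, for `k ≥ 1` it is `hs` (`r c ^ (n - 1) = r c ^ (n - 2) * r c`).
-/

namespace Pool.Agent.H78.SK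

open MeasureTheory Metric Set
open Pool.Agent.H35.CA

variable {n N : ℕ}

theorem uni_upper (hn : 3 ≤ n) (Y : SHFam n) {D : Dom n N} {r a : Option (Fin N) → ℝ}
    {S C η s : ℝ} (h : SD D r a S) (hT : TF Y D r a S C η)
    {j : ℕ} {κ : Option (Fin N) → ℕ} (h0 : ∀ c, η ≤ s * r c ^ (n - 1))
    (hs : ∀ c, ∀ k < κ c, 1 ≤ k → ((k : ℝ) + 2 * a c * kz n
      + C * Real.exp (-(2 * ((k : ℝ) + kz n) * (S - 2)))) / r c ≤ s)
    (hj : j < ∑ c, cum Y (κ c)) : D.steklov j ≤ s := by
  obtain ⟨u, hu, htest⟩ := hT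
  have hn0 : (0 : ℝ) < n := by
    have : 0 < n := by omega
    exact_mod_cast this
  have hnom : 0 < (n : ℝ) * om n := mul_pos hn0 (om_pos n)
  refine minmax_upper (energy_nonneg D) (ι := Σ c : Option (Fin N), Σ k : Fin (κ c), Fin (Y.m k))
    (by rw [reau_card]; exact hj) (fun q => u q.1 q.2.1 q.2.2) (fun q => hu _ _ _) ?_ ?_ ?_
  · intro z hz
    rw [reau_sum, (htest κ (reau_Z Y κ z)).1]
    refine mul_pos hnom ?_
    obtain ⟨⟨c, k, i⟩, hq⟩ := Function.ne_iff.1 hz
    refine Finset.sum_pos' (fun c _ => mul_nonneg (pow_pos (h.r_pos c) _).le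
      (Finset.sum_nonneg fun k _ => Finset.sum_nonneg fun i _ => sq_nonneg _)) ⟨c, Finset.mem_univ c, ?_⟩
    refine mul_pos (pow_pos (h.r_pos c) _) ?_
    refine Finset.sum_pos' (fun k _ => Finset.sum_nonneg fun i _ => sq_nonneg _)
      ⟨k, Finset.mem_range.2 k.2, ?_⟩
    refine Finset.sum_pos' (fun i _ => sq_nonneg _) ⟨i, Finset.mem_univ i, ?_⟩
    rw [reau_Z_eq]
    exact lt_of_le_of_ne (sq_nonneg _) (Ne.symm (pow_ne_zero 2 hq))
  · intro z
    rw [reau_sum, (htest κ (reau_Z Y κ z)).1]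
    refine (htest κ (reau_Z Y κ z)).2.trans ?_
    rw [mul_left_comm]
    refine mul_le_mul_of_nonneg_left ?_ hnom.le
    rw [Finset.mul_sum]
    refine Finset.sum_le_sum fun c _ => ?_
    rw [← mul_assoc, Finset.mul_sum]
    refine Finset.sum_le_sum fun k hk => ?_
    rw [Finset.mul_sum]
    refine Finset.sum_le_sum fun i _ => ?_
    rw [mul_comm]
    refine mul_le_mul_of_nonneg_right ?_ (sq_nonneg _)
    by_cases hk0 : k = 0
    · rw [if_pos hk0]
      exact h0 c
    · rw [if_neg hk0]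
      have hrr : r c ^ (n - 1) = r c ^ (n - 2) * r c := by
        rw [← pow_succ]
        congr 1
        omega
      have h1 := hs c k (Finset.mem_range.1 hk) (Nat.one_le_iff_ne_zero.2 hk0)
      rw [div_le_iff₀ (h.r_pos c)] at h1
      rw [hrr, mul_left_comm]
      exact mul_le_mul_of_nonneg_left h1 (pow_pos (h.r_pos c) _).le
  · simp [Dom.mass]

end Pool.Agent.H78.SK
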