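import Pool.Agent.H78.SK.One

/-!
# Job SK-ONEU: the radial problem in a collar, upper bound

Notation: `κ = k + kz n`, `lam n k = κ^2 - (kz n)^2`, `H = Hf n a`, `H 0 = 1`,
`H' 0 = kz n (2 a - 1)`, `H'' = (kz n)^2 H`, and `H > 0` on `[0, ∞)` for `a ≥ 0`
(`Hf_pos`, `Hf_zero`).

`oneD_upper`.  Put `w = H f = χ e^(-κ t)` and `η = H'/H`; `η' + η^2 = (kz n)^2`.  Then
`H f' = w' - η w` and
`H^2 (f'^2 + lam f^2) = w'^2 + κ^2 w^2 - (η w^2)'`, so the integral is
`∫_0^S (w'^2 + κ^2 w^2) - η(S) w(S)^2 + η(0) w(0)^2`, `w(S) = 0`, `w(0) = 1`, and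
`w'^2 + κ^2 w^2 = χ'^2 e^(-2κt) - κ (χ^2 e^(-2κt))'`.
In short: `H^2 (f'^2 + lam f^2) = χ'^2 e^(-2κt) - ((κ + η) χ^2 e^(-2κt))'` on `(0, S)`, and
`κ + η(0) = k + 2 a kz n`.

`smt_bound`: `χ t = smoothTransition (S - 1 - t)` has derivative `0` outside `[S - 2, S - 1]` and
bounded derivative (continuous function, periodic argument not needed: it vanishes outside a
compact interval); on `[S - 2, S - 1]` one has `e^(-2κt) ≤ e^(-2κ(S-2))`.

Status: complete (helper26).
-/

namespace Pool.Agent.H78.SK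

open MeasureTheory Metric Set
open Pool.Agent.H35.CA

variable {n : ℕ}

theorem OneU_hasDeriv_H (a t : ℝ) : HasDerivAt (Hf n a)
    (kz n * (a * Real.exp (kz n * t) - (1 - a) * Real.exp (-(kz n * t)))) t := by
  have h1 : HasDerivAt (fun t => kz n * t) (kz n) t := by
    simpa using (hasDerivAt_id t).const_mul (kz n)
  have h2 := (h1.exp.const_mul a).add (h1.neg.exp.const_mul (1 - a))
  have h3 : HasDerivAt (Hf n a) (a * (Real.exp (kz n * t) * kz n)
      + (1 - a) * (Real.exp (-(kz n * t)) * -kz n)) t := h2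
  convert h3 using 1
  ring

theorem OneU_hasDeriv_Hd (a t : ℝ) : HasDerivAt
    (fun t => kz n * (a * Real.exp (kz n * t) - (1 - a) * Real.exp (-(kz n * t))))
    (kz n ^ 2 * Hf n a t) t := by
  have h1 : HasDerivAt (fun t => kz n * t) (kz n) t := by
    simpa using (hasDerivAt_id t).const_mul (kz n)
  have h2 := ((h1.exp.const_mul a).sub (h1.neg.exp.const_mul (1 - a))).const_mul (kz n)
  have h3 : HasDerivAt (fun t => kz n * (a * Real.exp (kz n * t) - (1 - a) * Real.exp (-(kz n * t))))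
      (kz n * (a * (Real.exp (kz n * t) * kz n) - (1 - a) * (Real.exp (-(kz n * t)) * -kz n))) t := h2
  convert h3 using 1
  unfold Hf
  ring

/-- Energy of the function `χ e^(-κ t) / H`. -/
theorem oneD_upper (hn : 3 ≤ n) {a S : ℝ} (ha : 0 ≤ a) (hS : 0 < S) (k : ℕ)
    {χ χ' f f' : ℝ → ℝ} (hχ : ∀ t, HasDerivAt χ (χ' t) t) (hχ' : Continuous χ')
    (h0 : χ 0 = 1) (h1 : χ S = 0)
    (hf : ∀ t, 0 ≤ t → f t = χ t * Real.exp (-(((k : ℝ) + kz n) * t)) / Hf n a t)
    (hf' : ∀ t, 0 < t → HasDerivAt f (f' t) t) :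
    ∫ t in Ioo 0 S, Hf n a t ^ 2 * (f' t ^ 2 + lam n k * f t ^ 2)
      = (k : ℝ) + 2 * a * kz n
        + ∫ t in Ioo 0 S, χ' t ^ 2 * Real.exp (-(2 * ((k : ℝ) + kz n) * t)) := by
  obtain ⟨c, hc⟩ : ∃ c : ℝ, c = kz n := ⟨_, rfl⟩
  obtain ⟨K, hK⟩ : ∃ K : ℝ, K = (k : ℝ) + kz n := ⟨_, rfl⟩
  obtain ⟨Hd, hHd⟩ : ∃ Hd : ℝ → ℝ, Hd = fun t => kz n * (a * Real.exp (kz n * t) - (1 - a) * Real.exp (-(kz n * t))) :=
    ⟨_, rfl⟩
  have dH : ∀ t, HasDerivAt (Hf n a) (Hd t) t := fun t => by rw [hHd]; exact OneU_hasDeriv_H a t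
  have dHd : ∀ t, HasDerivAt Hd (c ^ 2 * Hf n a t) t := fun t => by rw [hHd, hc]; exact OneU_hasDeriv_Hd a t
  have hpos : ∀ t, 0 ≤ t → 0 < Hf n a t := fun t ht => Hf_pos hn ha ht
  obtain ⟨η, hη⟩ : ∃ η : ℝ → ℝ, η = fun t => Hd t / Hf n a t := ⟨_, rfl⟩
  have dη : ∀ t, 0 ≤ t → HasDerivAt η (c ^ 2 - η t ^ 2) t := by
    intro t ht
    have h := (dHd t).div (dH t) (hpos t ht).ne'
    have hne := (hpos t ht).ne'
    rw [hη]
    have e : c ^ 2 - (Hd t / Hf n a t) ^ 2 = (c ^ 2 * Hf n a t * Hf n a t - Hd t * Hd t) / Hf n a t ^ 2 := by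
      field_simp
    show HasDerivAt (fun t => Hd t / Hf n a t) (c ^ 2 - (Hd t / Hf n a t) ^ 2) t
    rw [e]
    exact h
  have cη : ContinuousOn η (Icc 0 S) := fun t ht => (dη t ht.1).continuousAt.continuousWithinAt
  have cχ : Continuous χ := continuous_iff_continuousAt.2 fun t => (hχ t).continuousAt
  obtain ⟨E, hE⟩ : ∃ E : ℝ → ℝ, E = fun t => Real.exp (-(2 * K * t)) := ⟨_, rfl⟩
  have cE : Continuous E := by rw [hE]; fun_prop
  have dE : ∀ t, HasDerivAt E (-(2 * K) * E t) t := by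
    intro t
    have h0 : HasDerivAt (fun t => 2 * K * t) (2 * K) t := by
      simpa using (hasDerivAt_id t).const_mul (2 * K)
    have h1 : HasDerivAt (fun t => -(2 * K * t)) (-(2 * K)) t := h0.neg
    have h2 := h1.exp
    rw [hE]
    convert h2 using 1
    ring
  obtain ⟨g, hg⟩ : ∃ g : ℝ → ℝ, g = fun t => (K + η t) * χ t ^ 2 * E t := ⟨_, rfl⟩
  obtain ⟨G, hG⟩ : ∃ G : ℝ → ℝ, G = fun t => ((c ^ 2 - η t ^ 2) * χ t ^ 2 + (K + η t) * (2 * χ t * χ' t)) * E t
    + (K + η t) * χ t ^ 2 * (-(2 * K) * E t) := ⟨_, rfl⟩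
  have dg : ∀ t, 0 ≤ t → HasDerivAt g (G t) t := by
    intro t ht
    have h1 : HasDerivAt (fun t => K + η t) (c ^ 2 - η t ^ 2) t := by
      simpa using (dη t ht).const_add K
    have h2 : HasDerivAt (fun t => χ t ^ 2) (2 * χ t * χ' t) t := by
      have h := (hχ t).pow 2
      have e : ((2 : ℕ) : ℝ) * χ t ^ (2 - 1) * χ' t = 2 * χ t * χ' t := by norm_num
      rw [e] at h
      exact h
    have h3 := (h1.mul h2).mul (dE t)
    rw [hg, hG]
    exact h3
  have cG : ContinuousOn G (Icc 0 S) := by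
    rw [hG]
    exact ((((continuousOn_const.sub (cη.pow 2)).mul (cχ.continuousOn.pow 2)).add
      ((continuousOn_const.add cη).mul ((continuousOn_const.mul cχ.continuousOn).mul hχ'.continuousOn))).mul
      cE.continuousOn).add (((continuousOn_const.add cη).mul (cχ.continuousOn.pow 2)).mul
      (continuousOn_const.mul cE.continuousOn))
  obtain ⟨A, hA⟩ : ∃ A : ℝ → ℝ, A = fun t => χ' t ^ 2 * E t := ⟨_, rfl⟩
  have cA : Continuous A := by
    rw [hA]
    exact (hχ'.pow 2).mul cE
  have hint : IntervalIntegrable G volume 0 S := by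
    refine ContinuousOn.intervalIntegrable ?_
    rw [uIcc_of_le hS.le]
    exact cG
  have hFTC : ∫ t in (0 : ℝ)..S, G t = g S - g 0 :=
    intervalIntegral.integral_eq_sub_of_hasDerivAt (fun t ht => dg t (by
      rw [uIcc_of_le hS.le] at ht
      exact ht.1)) hint
  have hgS : g S = 0 := by rw [hg]; simp only [h1]; ring
  have hg0 : g 0 = (k : ℝ) + 2 * a * kz n := by
    rw [hg]
    simp only [h0, hη, hHd, hE, Hf_zero, mul_zero, neg_zero, Real.exp_zero, hK]
    ring
  have key : ∀ t ∈ Ioo 0 S, Hf n a t ^ 2 * (f' t ^ 2 + lam n k * f t ^ 2) = A t - G t := by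
    intro t ht
    have htp := hpos t ht.1.le
    have hne := htp.ne'
    obtain ⟨e, he⟩ : ∃ e : ℝ → ℝ, e = fun t => Real.exp (-(((k : ℝ) + kz n) * t)) := ⟨_, rfl⟩
    have de : HasDerivAt e (-K * e t) t := by
      have h0 : HasDerivAt (fun t => ((k : ℝ) + kz n) * t) ((k : ℝ) + kz n) t := by
        simpa using (hasDerivAt_id t).const_mul ((k : ℝ) + kz n)
      have h1 : HasDerivAt (fun t => -(((k : ℝ) + kz n) * t)) (-K) t := by
        rw [hK]
        exact h0.neg
      have h2 := h1.exp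
      rw [he]
      convert h2 using 1
      ring
    have d1 := ((hχ t).mul de).div (dH t) hne
    have d2 : HasDerivAt f ((((χ' t) * e t + χ t * (-K * e t)) * Hf n a t - (χ t * e t) * Hd t)
        / Hf n a t ^ 2) t := by
      refine d1.congr_of_eventuallyEq ?_
      filter_upwards [Ioi_mem_nhds ht.1] with s hs
      rw [hf s (le_of_lt hs)]
      simp only [he, Pi.mul_apply, Pi.div_apply]
    have hfd := (hf' t ht.1).unique d2
    have hft : f t = χ t * e t / Hf n a t := by
      rw [hf t ht.1.le, he]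
    have hEe : E t = e t ^ 2 := by
      rw [hE, he]
      simp only
      rw [← Real.exp_nat_mul]
      congr 1
      rw [hK]
      push_cast
      ring
    have hlam : lam n k = K ^ 2 - c ^ 2 := by
      unfold lam
      rw [hK, hc]
      unfold kz
      ring
    rw [hfd, hft, hA, hG]
    simp only
    rw [hEe, hη, hlam]
    simp only
    field_simp
    ring
  have hI1 : ∫ t in Ioo 0 S, Hf n a t ^ 2 * (f' t ^ 2 + lam n k * f t ^ 2) = ∫ t in Ioo 0 S, (A t - G t) :=
    setIntegral_congr_fun measurableSet_Ioo key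
  rw [hI1, ← integral_Ioc_eq_integral_Ioo, ← intervalIntegral.integral_of_le hS.le,
    intervalIntegral.integral_sub (cA.intervalIntegrable _ _) hint, hFTC, hgS, hg0,
    intervalIntegral.integral_of_le hS.le, integral_Ioc_eq_integral_Ioo]
  have hAE : ∀ t, A t = χ' t ^ 2 * Real.exp (-(2 * ((k : ℝ) + kz n) * t)) := by
    intro t
    rw [hA, hE, hK]
  simp only [hAE]
  ring

/-- The error term for the cut-off `smoothTransition (S - 1 - t)`. -/
theorem smt_bound : ∃ C : ℝ, 0 ≤ C ∧ ∀ (κ S : ℝ), 0 ≤ κ → 3 ≤ S →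
    ∫ t in Ioo 0 S, (deriv (fun s => Real.smoothTransition (S - 1 - s)) t) ^ 2
      * Real.exp (-(2 * κ * t)) ≤ C * Real.exp (-(2 * κ * (S - 2))) := by
  have hcd : ContDiff ℝ 1 Real.smoothTransition := Real.smoothTransition.contDiff
  have hdc : Continuous (deriv Real.smoothTransition) := hcd.continuous_deriv le_rfl
  obtain ⟨B, hB⟩ := (isCompact_Icc (a := (0 : ℝ)) (b := 1)).exists_bound_of_continuousOn hdc.continuousOn
  have hz1 : ∀ x : ℝ, x < 0 → deriv Real.smoothTransition x = 0 := by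
    intro x hx
    have h : Real.smoothTransition =ᶠ[nhds x] fun _ => 0 := by
      filter_upwards [Iio_mem_nhds hx] with y hy
      exact Real.smoothTransition.zero_of_nonpos (le_of_lt hy)
    rw [h.deriv_eq, deriv_const]
  have hz2 : ∀ x : ℝ, 1 < x → deriv Real.smoothTransition x = 0 := by
    intro x hx
    have h : Real.smoothTransition =ᶠ[nhds x] fun _ => 1 := by
      filter_upwards [Ioi_mem_nhds hx] with y hy
      exact Real.smoothTransition.one_of_one_le (le_of_lt hy)
    rw [h.deriv_eq, deriv_const]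
  have hB0 : 0 ≤ B := (norm_nonneg _).trans (hB 0 ⟨le_rfl, zero_le_one⟩)
  refine ⟨B ^ 2, by positivity, ?_⟩
  intro κ S hκ hS
  have hd : ∀ t, deriv (fun s => Real.smoothTransition (S - 1 - s)) t = -deriv Real.smoothTransition (S - 1 - t) := by
    intro t
    have h1 : HasDerivAt (fun s : ℝ => S - 1 - s) (-1) t := by
      simpa using (hasDerivAt_id t).const_sub (S - 1)
    have h2 : HasDerivAt Real.smoothTransition (deriv Real.smoothTransition (S - 1 - t)) (S - 1 - t) :=
      (hcd.differentiable one_ne_zero _).hasDerivAt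
    have h3 := h2.comp t h1
    have h4 : HasDerivAt (fun s => Real.smoothTransition (S - 1 - s)) (deriv Real.smoothTransition (S - 1 - t) * -1) t := h3
    rw [h4.deriv]
    ring
  have hle : ∀ t, (deriv (fun s => Real.smoothTransition (S - 1 - s)) t) ^ 2 * Real.exp (-(2 * κ * t))
      ≤ (Icc (S - 2) (S - 1)).indicator (fun _ => B ^ 2 * Real.exp (-(2 * κ * (S - 2)))) t := by
    intro t
    rw [hd]
    by_cases ht : t ∈ Icc (S - 2) (S - 1)
    · rw [indicator_of_mem ht]
      have h1 := hB (S - 1 - t) ⟨by linarith [ht.2], by linarith [ht.1]⟩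
      rw [Real.norm_eq_abs] at h1
      have h2 : (-deriv Real.smoothTransition (S - 1 - t)) ^ 2 ≤ B ^ 2 := by
        rw [neg_sq, ← sq_abs]
        exact pow_le_pow_left₀ (abs_nonneg _) h1 2
      have h3 : Real.exp (-(2 * κ * t)) ≤ Real.exp (-(2 * κ * (S - 2))) := by
        refine Real.exp_le_exp.2 ?_
        have := mul_le_mul_of_nonneg_left ht.1 (by positivity : 0 ≤ 2 * κ)
        linarith
      exact mul_le_mul h2 h3 (Real.exp_pos _).le (by positivity)
    · rw [indicator_of_notMem ht]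
      have h1 : deriv Real.smoothTransition (S - 1 - t) = 0 := by
        rw [mem_Icc, not_and_or, not_le, not_le] at ht
        rcases ht with ht | ht
        · exact hz2 _ (by linarith)
        · exact hz1 _ (by linarith)
      rw [h1]
      simp
  have hcont : Continuous (fun t => (deriv (fun s => Real.smoothTransition (S - 1 - s)) t) ^ 2 * Real.exp (-(2 * κ * t))) := by
    have : (fun t => (deriv (fun s => Real.smoothTransition (S - 1 - s)) t) ^ 2 * Real.exp (-(2 * κ * t))) =
        fun t => (-deriv Real.smoothTransition (S - 1 - t)) ^ 2 * Real.exp (-(2 * κ * t)) := by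
      funext t
      rw [hd]
    rw [this]
    have h1 : Continuous fun t => deriv Real.smoothTransition (S - 1 - t) := hdc.comp (by fun_prop)
    have h2 : Continuous fun t : ℝ => Real.exp (-(2 * κ * t)) := by fun_prop
    exact (h1.neg.pow 2).mul h2
  have hi1 : IntegrableOn (fun t => (deriv (fun s => Real.smoothTransition (S - 1 - s)) t) ^ 2 * Real.exp (-(2 * κ * t)))
      (Ioo 0 S) := (hcont.continuousOn.integrableOn_Icc (a := 0) (b := S)).mono_set Ioo_subset_Icc_self
  have hi2 : Integrable ((Icc (S - 2) (S - 1)).indicator (fun _ : ℝ => B ^ 2 * Real.exp (-(2 * κ * (S - 2))))) := by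
    rw [integrable_indicator_iff measurableSet_Icc]
    exact integrableOn_const (by rw [Real.volume_Icc]; exact ENNReal.ofReal_ne_top)
  refine (setIntegral_mono hi1 hi2.integrableOn hle).trans ?_
  refine (setIntegral_le_integral hi2 (Filter.Eventually.of_forall fun t => ?_)).trans ?_
  · exact indicator_nonneg (fun _ _ => by positivity) t
  · rw [integral_indicator_const _ measurableSet_Icc, measureReal_def, Real.volume_Icc]
    have : S - 1 - (S - 2) = 1 := by ring
    rw [this, ENNReal.ofReal_one, ENNReal.toReal_one, one_smul]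

end Pool.Agent.H78.SK
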