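import Pool.Agent.H78.SK.Ene
import Pool.Agent.H78.SK.Rad
import Pool.Agent.H78.SK.Cmb
import Pool.Agent.H78.SK.OneU

/-!
# Job SK-TST: test functions

Proof of `test_family`.  For a boundary sphere `c` let `H = Hf n (a c)`, `κ = k + kz n` and
choose `τ ∈ (0, 1)` with `H > 0` on `(-2τ, ∞)`.  Let
`χ t = smoothTransition (S - 1 - t)` (`1` for `t ≤ S - 2`, `0` for `t ≥ S - 1`),
`G t = smoothTransition ((t + τ) / τ) * χ t * e^(-κ t) / H t` (smooth with compact support),
and let `u c k i` be the function of `rad_smooth` for `G`, the centre, radius and sign of `c`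
and the polynomial `Y.Y k i`.
On the sphere at depth `t ∈ [0, S]` of the collar `c`, `u c k i = G t * ev (Y.Y k i) w`.
At points `x` of `Om` or of a boundary sphere `d ≠ c` the depth
`eps c * log (‖x - cen c‖ / rad c)` is positive (fields `inside`, `disj` of `Dom`), and if
`x ∉ ann (cen c) (rad c) (eps c) S` it is `≥ S`, where `u c k i` vanishes in a neighbourhood.
A boundary point of a sphere `d ≠ c` is not in `Om`, hence (field `sub`) not in the collar `c`.
So `energy_eq` applies to `w` and in the collar `c` only the functions `u c k i` matter: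
`sl w t = ∑ z c k i G t ev (Y.Y k i)` on the unit sphere for `0 ≤ t < S`,
`dsl w t = ∑ z c k i G' t ev (Y.Y k i)` for `0 < t < S`, so (`sq_comb`, `lap_comb` of
`Cmb.lean`) `DD w t = ∑ z^2 (G'^2 + lam n k G^2)`, and `oneD_upper`, `smt_bound` (`OneU.lean`).
For the boundary energy: `∑_q ∫ (XX (sl w 0))^2 = ∑ lam n k * z^2` by `lap_comb`.
-/

namespace Pool.Agent.H78.SK

open MeasureTheory Metric Set
open Pool.Agent.H35.CA

variable {n N : ℕ}

/-! ### The radial profile -/

/-- The radial profile of the test functions. -/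
noncomputable def tG (n : ℕ) (a τ S : ℝ) (k : ℕ) (t : ℝ) : ℝ :=
  Real.smoothTransition ((t + τ) / τ) *
    (Real.smoothTransition (S - 1 - t) * Real.exp (-(((k : ℝ) + kz n) * t)) / Hf n a t)

theorem tst_Hf_smooth (a : ℝ) : ContDiff ℝ (⊤ : ℕ∞) (Hf n a) := by
  unfold Hf
  fun_prop

theorem tst_tau (hn : 3 ≤ n) {a : ℝ} (ha : 0 ≤ a) : ∃ τ : ℝ, 0 < τ ∧ ∀ t, -(2 * τ) < t → 0 < Hf n a t := by
  have hc : Continuous (Hf n a) := (tst_Hf_smooth a).continuous
  have h0 : 0 < Hf n a 0 := by rw [Hf_zero]; exact one_pos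
  obtain ⟨δ, hδ, h⟩ := Metric.eventually_nhds_iff.1 (hc.continuousAt.eventually (lt_mem_nhds h0))
  refine ⟨δ / 2, by positivity, fun t ht => ?_⟩
  rcases le_or_gt 0 t with h1 | h1
  · exact Hf_pos hn ha h1
  · refine h ?_
    rw [Real.dist_eq, sub_zero, abs_of_neg h1]
    linarith

theorem tst_left {a τ S : ℝ} (hτ : 0 < τ) (k : ℕ) (t : ℝ) (ht : t ≤ -τ) : tG n a τ S k t = 0 := by
  unfold tG
  rw [Real.smoothTransition.zero_of_nonpos (div_nonpos_of_nonpos_of_nonneg (by linarith) hτ.le), zero_mul]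

theorem tst_right {a τ S : ℝ} (k : ℕ) (t : ℝ) (ht : S - 1 ≤ t) : tG n a τ S k t = 0 := by
  unfold tG
  rw [Real.smoothTransition.zero_of_nonpos (x := S - 1 - t) (by linarith), zero_mul, zero_div, mul_zero]

theorem tst_mid {a τ S : ℝ} (hτ : 0 < τ) (k : ℕ) (t : ℝ) (ht : 0 ≤ t) : tG n a τ S k t =
    Real.smoothTransition (S - 1 - t) * Real.exp (-(((k : ℝ) + kz n) * t)) / Hf n a t := by
  unfold tG
  rw [Real.smoothTransition.one_of_one_le (x := (t + τ) / τ) (by rw [le_div_iff₀ hτ]; linarith), one_mul]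

theorem tst_smooth {a τ S : ℝ} (hτ : 0 < τ) (hH : ∀ t, -(2 * τ) < t → 0 < Hf n a t) (k : ℕ) :
    ContDiff ℝ (⊤ : ℕ∞) (tG n a τ S k) := by
  rw [contDiff_iff_contDiffAt]
  intro t
  rcases lt_or_ge t (-τ) with h1 | h1
  · refine (contDiffAt_const (c := (0 : ℝ))).congr_of_eventuallyEq ?_
    filter_upwards [gt_mem_nhds h1] with s hs
    exact tst_left hτ k s (le_of_lt hs)
  · unfold tG
    have hsm : ContDiff ℝ (⊤ : ℕ∞) Real.smoothTransition := Real.smoothTransition.contDiff
    have h2 : ContDiff ℝ (⊤ : ℕ∞) (fun t : ℝ => Real.smoothTransition ((t + τ) / τ)) :=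
      hsm.comp (by fun_prop)
    have h3 : ContDiff ℝ (⊤ : ℕ∞) (fun t : ℝ => Real.smoothTransition (S - 1 - t)) :=
      hsm.comp (by fun_prop)
    have h4 : ContDiff ℝ (⊤ : ℕ∞) (fun t : ℝ => Real.exp (-(((k : ℝ) + kz n) * t))) := by fun_prop
    exact h2.contDiffAt.mul ((h3.contDiffAt.mul h4.contDiffAt).div (tst_Hf_smooth a).contDiffAt
      (hH t (by linarith)).ne')

/-! ### Geometry -/

/-- The open set where the test functions of the sphere `d` vanish. -/
def tO (D : Dom n N) (S : ℝ) (d : Option (Fin N)) : Set (Eu n) :=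
  {x | (eps d = 1 ∧ D.rad d * Real.exp (S - 1) < ‖x - D.cen d‖) ∨
    (eps d = -1 ∧ ‖x - D.cen d‖ < D.rad d * Real.exp (-(S - 1)))}

theorem tO_open (D : Dom n N) (S : ℝ) (d : Option (Fin N)) : IsOpen (tO D S d) := by
  have hc : Continuous (fun x : Eu n => ‖x - D.cen d‖) := by fun_prop
  have h1 : IsOpen {x : Eu n | D.rad d * Real.exp (S - 1) < ‖x - D.cen d‖} := isOpen_lt continuous_const hc
  have h2 : IsOpen {x : Eu n | ‖x - D.cen d‖ < D.rad d * Real.exp (-(S - 1))} := isOpen_lt hc continuous_const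
  exact IsOpen.union (isOpen_const.inter h1) (isOpen_const.inter h2)

/-- The point `x` lies on the side of the domain of the sphere `d`. -/
def tside (D : Dom n N) (d : Option (Fin N)) (x : Eu n) : Prop :=
  (eps d = 1 ∧ D.rad d < ‖x - D.cen d‖) ∨ (eps d = -1 ∧ ‖x - D.cen d‖ < D.rad d)

theorem tO_of_side {D : Dom n N} {S : ℝ} {d : Option (Fin N)} {x : Eu n} (h : tside D d x)
    (hx : x ∉ ann (D.cen d) (D.rad d) (eps d) S) : x ∈ tO D S d := by
  have hR := rad_pos D d
  rcases h with ⟨he, h⟩ | ⟨he, h⟩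
  · refine Or.inl ⟨he, ?_⟩
    by_contra hcon
    push Not at hcon
    have h0 : 0 < ‖x - D.cen d‖ := hR.trans h
    have h1 : 0 < ‖x - D.cen d‖ / D.rad d := div_pos h0 hR
    refine hx ⟨Real.log (‖x - D.cen d‖ / D.rad d), ⟨Real.log_pos ((one_lt_div hR).2 h), ?_⟩, ?_⟩
    · rw [Real.log_lt_iff_lt_exp h1, div_lt_iff₀ hR]
      refine hcon.trans_lt ?_
      rw [mul_comm]
      exact mul_lt_mul_of_pos_right (Real.exp_lt_exp.2 (by linarith)) hR
    · rw [rr, he, one_mul, Real.exp_log h1]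
      field_simp
  · refine Or.inr ⟨he, ?_⟩
    by_contra hcon
    push Not at hcon
    have h0 : 0 < ‖x - D.cen d‖ := (mul_pos hR (Real.exp_pos _)).trans_le hcon
    have h1 : 0 < ‖x - D.cen d‖ / D.rad d := div_pos h0 hR
    refine hx ⟨-Real.log (‖x - D.cen d‖ / D.rad d), ⟨?_, ?_⟩, ?_⟩
    · rw [neg_pos]
      exact Real.log_neg h1 ((div_lt_one hR).2 h)
    · rw [neg_lt, Real.lt_log_iff_exp_lt h1, lt_div_iff₀ hR]
      refine lt_of_lt_of_le ?_ hcon
      rw [mul_comm]
      exact mul_lt_mul_of_pos_left (Real.exp_lt_exp.2 (by linarith)) hR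
    · rw [rr, he, neg_mul_neg, one_mul, Real.exp_log h1]
      field_simp

theorem side_of_Om {D : Dom n N} {x : Eu n} (hx : x ∈ D.Om) (d : Option (Fin N)) : tside D d x := by
  cases d with
  | none =>
    refine Or.inr ⟨rfl, ?_⟩
    simpa [Dom.cen, Dom.rad] using hx.1
  | some i =>
    refine Or.inl ⟨rfl, ?_⟩
    have := hx.2 i
    rw [dist_eq_norm] at this
    exact this

theorem side_of_bdry {D : Dom n N} {x : Eu n} {c d : Option (Fin N)} (hcd : d ≠ c)
    (hx : ‖x - D.cen c‖ = D.rad c) : tside D d x := by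
  cases c with
  | none =>
    cases d with
    | none => exact (hcd rfl).elim
    | some i =>
      refine Or.inl ⟨rfl, ?_⟩
      simp only [Dom.cen, Dom.rad, sub_zero] at hx ⊢
      have h1 := D.inside i
      have h2 : ‖x‖ ≤ ‖x - D.p i‖ + ‖D.p i‖ := by
        simpa using norm_add_le (x - D.p i) (D.p i)
      linarith
  | some j =>
    cases d with
    | none =>
      refine Or.inr ⟨rfl, ?_⟩
      simp only [Dom.cen, Dom.rad, sub_zero] at hx ⊢
      have h1 := D.inside j
      have h2 : ‖x‖ ≤ ‖x - D.p j‖ + ‖D.p j‖ := by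
        simpa using norm_add_le (x - D.p j) (D.p j)
      linarith
    | some i =>
      refine Or.inl ⟨rfl, ?_⟩
      simp only [Dom.cen, Dom.rad] at hx ⊢
      have hij : i ≠ j := fun h => hcd (by rw [h])
      have h1 := D.disj i j hij
      have h2 : dist (D.p i) (D.p j) ≤ ‖x - D.p i‖ + ‖x - D.p j‖ := by
        have := dist_triangle_left (D.p i) (D.p j) x
        rw [dist_eq_norm x, dist_eq_norm x] at this
        exact this
      linarith

theorem not_Om_of_bdry {D : Dom n N} {x : Eu n} {c : Option (Fin N)}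
    (hx : ‖x - D.cen c‖ = D.rad c) : x ∉ D.Om := by
  intro h
  cases c with
  | none =>
    simp only [Dom.cen, Dom.rad, sub_zero] at hx
    exact absurd h.1 (by rw [hx]; exact lt_irrefl _)
  | some j =>
    simp only [Dom.cen, Dom.rad] at hx
    have := h.2 j
    rw [dist_eq_norm, hx] at this
    exact lt_irrefl _ this

theorem tst_rr_pos (D : Dom n N) (c : Option (Fin N)) (t : ℝ) : 0 < rr (D.rad c) (eps c) t :=
  mul_pos (rad_pos D c) (Real.exp_pos _)

theorem tst_norm {D : Dom n N} {c : Option (Fin N)} (t : ℝ) {w : Eu n} (hw : ‖w‖ = 1) :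
    ‖D.cen c + rr (D.rad c) (eps c) t • w - D.cen c‖ = rr (D.rad c) (eps c) t := by
  rw [add_sub_cancel_left, norm_smul, hw, mul_one, Real.norm_eq_abs, abs_of_pos (tst_rr_pos D c t)]

theorem tO_slice {D : Dom n N} {r a : Option (Fin N) → ℝ} {S : ℝ} (h : SD D r a S)
    {c d : Option (Fin N)} (hcd : d ≠ c) {t : ℝ} (h0 : 0 ≤ t) (h1 : t < S) {w : Eu n} (hw : ‖w‖ = 1) :
    D.cen c + rr (D.rad c) (eps c) t • w ∈ tO D S d := by
  rcases h0.eq_or_lt with h2 | h2
  · subst h2
    have h3 : ‖D.cen c + rr (D.rad c) (eps c) 0 • w - D.cen c‖ = D.rad c := by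
      rw [tst_norm 0 hw, rr, mul_zero, Real.exp_zero, mul_one]
    exact tO_of_side (side_of_bdry hcd h3) (fun h4 => not_Om_of_bdry h3 (h.sub d h4))
  · have h3 : D.cen c + rr (D.rad c) (eps c) t • w ∈ ann (D.cen c) (D.rad c) (eps c) S :=
      ⟨t, ⟨h2, h1⟩, tst_norm t hw⟩
    exact tO_of_side (side_of_Om (h.sub c h3) d)
      (fun h4 => (Set.disjoint_left.1 (h.dis c d hcd.symm)) h3 h4)

/-! ### The functions of one sphere -/

/-- The function `u` separates in polar coordinates, with the profile `G`. -/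
structure TSep (D : Dom n N) (c : Option (Fin N)) (G : ℝ → ℝ) (P : Pol n) (u : Eu n → ℝ) : Prop where
  smooth : ContDiff ℝ (⊤ : ℕ∞) u
  cen : u (D.cen c) = 0
  val : ∀ x, x ≠ D.cen c → u x = G (eps c * Real.log (‖x - D.cen c‖ / D.rad c)) * ev P (un (x - D.cen c))

theorem TSep.zero {D : Dom n N} {c : Option (Fin N)} {G : ℝ → ℝ} {P : Pol n} {u : Eu n → ℝ}
    (h : TSep D c G P u) {S : ℝ} (hG : ∀ t, S - 1 ≤ t → G t = 0) {x : Eu n} (hx : x ∈ tO D S c) : u x = 0 := by
  by_cases hxc : x = D.cen c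
  · rw [hxc, h.cen]
  have hR := rad_pos D c
  have h0 : 0 < ‖x - D.cen c‖ := norm_pos_iff.2 (sub_ne_zero.2 hxc)
  have h1 : 0 < ‖x - D.cen c‖ / D.rad c := div_pos h0 hR
  rw [h.val x hxc, hG, zero_mul]
  rcases hx with ⟨he, hx⟩ | ⟨he, hx⟩
  · rw [he, one_mul, Real.le_log_iff_exp_le h1, le_div_iff₀ hR, mul_comm]
    exact hx.le
  · rw [he, neg_one_mul, le_neg, Real.log_le_iff_le_exp h1, div_le_iff₀ hR, mul_comm]
    exact hx.le

theorem TSep.slice {D : Dom n N} {c : Option (Fin N)} {G : ℝ → ℝ} {P : Pol n} {u : Eu n → ℝ}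
    (h : TSep D c G P u) (t : ℝ) {w : Eu n} (hw : ‖w‖ = 1) :
    u (D.cen c + rr (D.rad c) (eps c) t • w) = G t * ev P w := by
  have hR := rad_pos D c
  have hr := tst_rr_pos D c t
  have h1 := tst_norm (D := D) (c := c) t hw
  have hne : D.cen c + rr (D.rad c) (eps c) t • w ≠ D.cen c := by
    intro h2
    rw [h2, sub_self, norm_zero] at h1
    linarith
  rw [h.val _ hne, h1]
  have h2 : rr (D.rad c) (eps c) t / D.rad c = Real.exp (eps c * t) := by
    rw [rr]
    field_simp
  have h3 : eps c * Real.log (rr (D.rad c) (eps c) t / D.rad c) = t := by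
    rw [h2, Real.log_exp, ← mul_assoc]
    rcases eps_or c with he | he <;> rw [he] <;> ring
  have h4 : un (D.cen c + rr (D.rad c) (eps c) t • w - D.cen c) = w := by
    rw [un, h1, add_sub_cancel_left, smul_smul, inv_mul_cancel₀ hr.ne', one_smul]
  rw [h3, h4]

/-- The test functions, with the constant of `smt_bound` given. -/
theorem test_family_unif {C : ℝ}
    (hCb : ∀ (kk S : ℝ), 0 ≤ kk → 3 ≤ S →
      (∫ t in Ioo 0 S, (deriv (fun s => Real.smoothTransition (S - 1 - s)) t) ^ 2 *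
        Real.exp (-(2 * kk * t))) ≤ C * Real.exp (-(2 * kk * (S - 2))))
    (hn : 3 ≤ n) (Y : SHFam n) {D : Dom n N} {r a : Option (Fin N) → ℝ}
    {S : ℝ} (h : SD D r a S) :
    ∃ u : Option (Fin N) → (k : ℕ) → Fin (Y.m k) → Eu n → ℝ,
      (∀ c k i, ContDiff ℝ (⊤ : ℕ∞) (u c k i)) ∧
      ∀ (K : Option (Fin N) → ℕ) (z : Option (Fin N) → (k : ℕ) → Fin (Y.m k) → ℝ),
        D.mass (fun x => ∑ c, ∑ k ∈ Finset.range (K c), ∑ i, z c k i * u c k i x)
          = (n : ℝ) * om n * ∑ c, (r c ^ (n - 1) *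
            ∑ k ∈ Finset.range (K c), ∑ i, z c k i ^ 2) ∧
        D.energy (fun x => ∑ c, ∑ k ∈ Finset.range (K c), ∑ i, z c k i * u c k i x)
          ≤ (n : ℝ) * om n * ∑ c, (r c ^ (n - 2) *
            ∑ k ∈ Finset.range (K c), ∑ i, z c k i ^ 2 * ((k : ℝ) + 2 * a c * kz n
              + C * Real.exp (-(2 * ((k : ℝ) + kz n) * (S - 2))))) ∧
        D.bdryEnergy (fun x => ∑ c, ∑ k ∈ Finset.range (K c), ∑ i, z c k i * u c k i x)
          = (n : ℝ) * om n * ∑ c, (r c ^ (n - 3) *
            ∑ k ∈ Finset.range (K c), ∑ i, lam n k * z c k i ^ 2) := by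
  have hS := h.S_ge
  have hn1 : 1 ≤ n := by omega
  choose τ hτ hτH using fun c => tst_tau hn (h.a_nonneg c)
  have hG : ∀ c k, ContDiff ℝ (⊤ : ℕ∞) (tG n (a c) (τ c) S k) := fun c k => tst_smooth (hτ c) (hτH c) k
  have hex : ∀ (c : Option (Fin N)) (k : ℕ) (i : Fin (Y.m k)), ∃ u : Eu n → ℝ,
      TSep D c (tG n (a c) (τ c) S k) (Y.Y k i) u := by
    intro c k i
    obtain ⟨u, h1, h2, h3⟩ := rad_smooth (hG c k) (A := -τ c) (B := S - 1)
      (fun t ht => tst_left (hτ c) k t ht) (fun t ht => tst_right k t ht) (D.cen c) (rad_pos D c)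
      (eps_or c) (Y.Y k i)
    exact ⟨u, h1, h2, h3⟩
  choose u hu using hex
  refine ⟨u, fun c k i => (hu c k i).smooth, fun K z => ?_⟩
  set W : Eu n → ℝ := fun x => ∑ c, ∑ k ∈ Finset.range (K c), ∑ i, z c k i * u c k i x with hW
  have hWs : ContDiff ℝ (⊤ : ℕ∞) W := by
    refine ContDiff.sum fun c _ => ContDiff.sum fun k _ => ContDiff.sum fun i _ => ?_
    exact contDiff_const.mul (hu c k i).smooth
  have hG0 : ∀ c k, tG n (a c) (τ c) S k 0 = 1 := by
    intro c k
    rw [tst_mid (hτ c) k 0 le_rfl, Hf_zero, Real.smoothTransition.one_of_one_le (by linarith)]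
    simp
  -- slices
  have hsl : ∀ (c : Option (Fin N)) (t : ℝ), 0 ≤ t → t < S → ∀ w : Eu n, ‖w‖ = 1 →
      sl W (D.cen c) (D.rad c) (eps c) t w =
        ∑ k ∈ Finset.range (K c), ∑ i, (z c k i * tG n (a c) (τ c) S k t) * ev (Y.Y k i) w := by
    intro c t h0 h1 w hw
    simp only [sl, hW]
    rw [Finset.sum_eq_single c]
    · refine Finset.sum_congr rfl fun k _ => Finset.sum_congr rfl fun i _ => ?_
      rw [(hu c k i).slice t hw]
      ring
    · intro d _ hd
      refine Finset.sum_eq_zero fun k _ => Finset.sum_eq_zero fun i _ => ?_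
      rw [(hu d k i).zero (fun t ht => tst_right k t ht) (tO_slice h hd h0 h1 hw), mul_zero]
    · intro hc
      exact absurd (Finset.mem_univ c) hc
  have hdsl : ∀ (c : Option (Fin N)) (t : ℝ), 0 < t → t < S → ∀ w : Eu n, ‖w‖ = 1 →
      dsl W (D.cen c) (D.rad c) (eps c) t w =
        ∑ k ∈ Finset.range (K c), ∑ i, (z c k i * deriv (tG n (a c) (τ c) S k) t) * ev (Y.Y k i) w := by
    intro c t h0 h1 w hw
    have h2 := sl_hasDerivAt hWs (D.cen c) (D.rad c) (eps c) t w
    have h3 : HasDerivAt (fun t => ∑ k ∈ Finset.range (K c), ∑ i,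
        (z c k i * tG n (a c) (τ c) S k t) * ev (Y.Y k i) w)
        (∑ k ∈ Finset.range (K c), ∑ i, (z c k i * deriv (tG n (a c) (τ c) S k) t) * ev (Y.Y k i) w) t := by
      refine HasDerivAt.fun_sum fun k _ => HasDerivAt.fun_sum fun i _ => ?_
      have h4 : HasDerivAt (tG n (a c) (τ c) S k) (deriv (tG n (a c) (τ c) S k) t) t :=
        ((hG c k).differentiable (by simp)).differentiableAt.hasDerivAt
      exact (h4.const_mul _).mul_const _
    refine h2.unique (h3.congr_of_eventuallyEq ?_)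
    filter_upwards [Ioo_mem_nhds h0 h1] with s hs
    exact hsl c s hs.1.le hs.2 w hw
  refine ⟨?_, ?_, ?_⟩
  · rw [mass_eq hn h]
    congr 1
    refine Finset.sum_congr rfl fun c _ => ?_
    congr 1
    rw [sq_comb hn1 Y (K c) _ (hsl c 0 le_rfl (by linarith))]
    refine Finset.sum_congr rfl fun k _ => Finset.sum_congr rfl fun i _ => ?_
    rw [hG0, mul_one]
  · rw [energy_eq hn h hWs ?_]
    · refine mul_le_mul_of_nonneg_left ?_ (mul_nonneg (Nat.cast_nonneg _) (om_pos n).le)
      refine Finset.sum_le_sum fun c _ => mul_le_mul_of_nonneg_left ?_ (pow_nonneg (h.r_pos c).le _)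
      have h1 : ∀ t ∈ Ioo (0 : ℝ) S, Hf n (a c) t ^ 2 * DD W (D.cen c) (D.rad c) (eps c) t =
          ∑ k ∈ Finset.range (K c), ∑ i, z c k i ^ 2 * (Hf n (a c) t ^ 2 *
            (deriv (tG n (a c) (τ c) S k) t ^ 2 + lam n k * tG n (a c) (τ c) S k t ^ 2)) := by
        intro t ht
        have h2 : ∫ w, dsl W (D.cen c) (D.rad c) (eps c) t w ^ 2 ∂(mu n) =
            H35.CA.sq (dsl W (D.cen c) (D.rad c) (eps c) t) := rfl
        rw [DD, h2, sq_comb hn1 Y (K c) _ (hdsl c t ht.1 ht.2),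
          lap_comb hn1 Y (sl_smooth hWs _ _ _ t) (K c) _ (hsl c t ht.1.le ht.2), ← Finset.sum_add_distrib,
          Finset.mul_sum]
        refine Finset.sum_congr rfl fun k _ => ?_
        rw [← Finset.sum_add_distrib, Finset.mul_sum]
        refine Finset.sum_congr rfl fun i _ => ?_
        ring
      have hint : ∀ k, IntegrableOn (fun t => Hf n (a c) t ^ 2 *
          (deriv (tG n (a c) (τ c) S k) t ^ 2 + lam n k * tG n (a c) (τ c) S k t ^ 2)) (Ioo 0 S) := by
        intro k
        have hd : Continuous (deriv (tG n (a c) (τ c) S k)) := (hG c k).continuous_deriv (by simp)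
        have hc : Continuous (fun t => Hf n (a c) t ^ 2 *
          (deriv (tG n (a c) (τ c) S k) t ^ 2 + lam n k * tG n (a c) (τ c) S k t ^ 2)) :=
          ((tst_Hf_smooth (a c)).continuous.pow 2).mul ((hd.pow 2).add
            (continuous_const.mul ((hG c k).continuous.pow 2)))
        exact (hc.integrableOn_Icc (a := 0) (b := S)).mono_set Ioo_subset_Icc_self
      rw [setIntegral_congr_fun measurableSet_Ioo h1, integral_finsetSum _ fun k _ =>
        integrable_finsetSum _ fun i _ => (hint k).const_mul _]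
      refine Finset.sum_le_sum fun k _ => ?_
      rw [integral_finsetSum _ fun i _ => (hint k).const_mul _]
      refine Finset.sum_le_sum fun i _ => ?_
      rw [integral_const_mul]
      refine mul_le_mul_of_nonneg_left ?_ (sq_nonneg _)
      have hχ : ContDiff ℝ (⊤ : ℕ∞) (fun s : ℝ => Real.smoothTransition (S - 1 - s)) :=
        (Real.smoothTransition.contDiff (n := (⊤ : ℕ∞))).comp (by fun_prop)
      rw [oneD_upper hn (h.a_nonneg c) (by linarith : (0 : ℝ) < S) k
        (χ := fun s => Real.smoothTransition (S - 1 - s))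
        (χ' := deriv (fun s => Real.smoothTransition (S - 1 - s)))
        (fun t => ((hχ.differentiable (by simp)).differentiableAt).hasDerivAt)
        (hχ.continuous_deriv (by simp)) (Real.smoothTransition.one_of_one_le (by linarith))
        (Real.smoothTransition.zero_of_nonpos (by linarith))
        (fun t ht => tst_mid (hτ c) k t ht)
        (fun t _ => (((hG c k).differentiable (by simp)).differentiableAt).hasDerivAt)]
      have h5 := hCb ((k : ℝ) + kz n) S (by have := kz_pos hn; positivity) hS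
      linarith
    · intro x hx hxa
      have h1 : W =ᶠ[nhds x] fun _ => 0 := by
        have h2 : ∀ d, ∀ᶠ y in nhds x, y ∈ tO D S d := fun d =>
          (tO_open D S d).mem_nhds (tO_of_side (side_of_Om hx d) (hxa d))
        filter_upwards [Filter.eventually_all.2 h2] with y hy
        simp only [hW]
        refine Finset.sum_eq_zero fun d _ => Finset.sum_eq_zero fun k _ => Finset.sum_eq_zero fun i _ => ?_
        rw [(hu d k i).zero (fun t ht => tst_right k t ht) (hy d), mul_zero]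
      rw [h1.fderiv_eq]
      simp
  · rw [bdryEnergy_eq hn h hWs]
    congr 1
    refine Finset.sum_congr rfl fun c _ => ?_
    congr 1
    rw [lap_comb hn1 Y (sl_smooth hWs _ _ _ 0) (K c) _ (hsl c 0 le_rfl (by linarith))]
    refine Finset.sum_congr rfl fun k _ => Finset.sum_congr rfl fun i _ => ?_
    rw [hG0, mul_one]

/-- The test functions. -/
theorem test_family (hn : 3 ≤ n) (Y : SHFam n) {D : Dom n N} {r a : Option (Fin N) → ℝ}
    {S : ℝ} (h : SD D r a S) :
    ∃ C : ℝ, 0 ≤ C ∧ ∃ u : Option (Fin N) → (k : ℕ) → Fin (Y.m k) → Eu n → ℝ,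
      (∀ c k i, ContDiff ℝ (⊤ : ℕ∞) (u c k i)) ∧
      ∀ (K : Option (Fin N) → ℕ) (z : Option (Fin N) → (k : ℕ) → Fin (Y.m k) → ℝ),
        D.mass (fun x => ∑ c, ∑ k ∈ Finset.range (K c), ∑ i, z c k i * u c k i x)
          = (n : ℝ) * om n * ∑ c, (r c ^ (n - 1) *
            ∑ k ∈ Finset.range (K c), ∑ i, z c k i ^ 2) ∧
        D.energy (fun x => ∑ c, ∑ k ∈ Finset.range (K c), ∑ i, z c k i * u c k i x)
          ≤ (n : ℝ) * om n * ∑ c, (r c ^ (n - 2) *
            ∑ k ∈ Finset.range (K c), ∑ i, z c k i ^ 2 * ((k : ℝ) + 2 * a c * kz n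
              + C * Real.exp (-(2 * ((k : ℝ) + kz n) * (S - 2))))) ∧
        D.bdryEnergy (fun x => ∑ c, ∑ k ∈ Finset.range (K c), ∑ i, z c k i * u c k i x)
          = (n : ℝ) * om n * ∑ c, (r c ^ (n - 3) *
            ∑ k ∈ Finset.range (K c), ∑ i, lam n k * z c k i ^ 2) := by
  obtain ⟨C, hC, hCb⟩ := smt_bound
  exact ⟨C, hC, test_family_unif hCb hn Y h⟩

end Pool.Agent.H78.SK
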