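import Pool.Agent.H78.SK.Geo
import Pool.Agent.H78.SK.Tst

/-!
# Job SK-ZER: functions of small energy separating the collars

`exists_zero`.  Here `p i = 2 (i + 1) e0`, the inner collars lie in `|x - p i| < 1/2`, the outer
one in `|x| > 4 (N + 1)`, and `ρ = d` where `e^(1/4)/2 ≤ |x - p i|` for all `i` and
`|x| ≤ 3 (N + 1)`.  Take, with `sT = Real.smoothTransition`,
`w none x = sT ((‖x‖ ^ 2 - (2 N + 2) ^ 2) / ((3 (N + 1)) ^ 2 - (2 N + 2) ^ 2))` and
`w (some i) x = sT ((1 - ‖x - p i‖ ^ 2) / (1 - e^(1/2) / 4))` (smooth: squares of norms are smooth;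
`e^(1/2) / 4 < 1`).
They depend only on `n, N` (not on `S, d, D`: define them before `D`).
* Values in the collars: `w (some i) = 1` where `|x - p i| ≤ e^(1/4)/2` (contains the collar `i`,
  where `|x - p i| ≤ 1/2`), `= 0` where `|x - p i| ≥ 1` (contains the other inner collars,
  `|p i - p j| ≥ 2`, and the outer one, `|p i| ≤ 2 N`); `w none = 1` where `|x| ≥ 3 (N + 1)`,
  `= 0` where `|x| ≤ 2 N + 2`.
* The functions are locally constant in the complement of the set `T = {x | |x| ≤ 3 (N + 1) and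
  e^(1/4)/2 ≤ |x - p i| for all i}` (use open sets: `|x - p i| < e^(1/4)/2`, `|x - p i| > 1`,
  `|x| > 3 (N+1)`, `|x| < 2 N + 2`; on the transition shells `ρ = d`).  So
  `ρ^(n-2) ‖fderiv (∑ ζ c w c) x‖^2 ≤ d^(n-2) (∑ c, |ζ c| B1)^2` where
  `‖fderiv (w c) x‖ ≤ B1` on `closedBall 0 (3 (N + 1))` (continuity, compactness), it is `0`
  outside this ball, and `(∑ c, |ζ c|)^2 ≤ (N + 1) ∑ c, ζ c ^ 2`.
  `B = (N + 1) B1^2 volume (closedBall 0 (3 (N + 1)))`.
-/

namespace Pool.Agent.H78.SK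

open MeasureTheory Metric Set
open Pool.Agent.H35.CA

variable {n : ℕ}

/-- The functions: one for each boundary sphere. -/
noncomputable def Zer_w {N : ℕ} (p : Fin N → Eu n) : Option (Fin N) → Eu n → ℝ
  | none => fun x => Real.smoothTransition ((‖x‖ ^ 2 - (2 * (N : ℝ) + 2) ^ 2) /
      ((3 * ((N : ℝ) + 1)) ^ 2 - (2 * (N : ℝ) + 2) ^ 2))
  | some i => fun x => Real.smoothTransition ((1 - ‖x - p i‖ ^ 2) / (1 - Real.exp (1 / 2) / 4))

/-- Open sets where all the functions are constant. -/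
def Zer_U {N : ℕ} (p : Fin N → Eu n) : Option (Fin N) → Set (Eu n)
  | none => {x | 3 * ((N : ℝ) + 1) < ‖x‖}
  | some i => {x | ‖x - p i‖ < Real.exp (1 / 4) / 2}

theorem Zer_smooth {N : ℕ} (p : Fin N → Eu n) (c : Option (Fin N)) :
    ContDiff ℝ (⊤ : ℕ∞) (Zer_w p c) := by
  rcases c with _ | i
  · have h1 : ContDiff ℝ (⊤ : ℕ∞) (fun x : Eu n => (‖x‖ ^ 2 - (2 * (N : ℝ) + 2) ^ 2) /
        ((3 * ((N : ℝ) + 1)) ^ 2 - (2 * (N : ℝ) + 2) ^ 2)) :=
      ((contDiff_norm_sq ℝ).sub contDiff_const).div_const _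
    exact Real.smoothTransition.contDiff.comp h1
  · have h0 : ContDiff ℝ (⊤ : ℕ∞) (fun x : Eu n => x - p i) := contDiff_id.sub contDiff_const
    have h1 : ContDiff ℝ (⊤ : ℕ∞) (fun x : Eu n => (1 - ‖x - p i‖ ^ 2) /
        (1 - Real.exp (1 / 2) / 4)) :=
      (contDiff_const.sub ((contDiff_norm_sq ℝ).comp h0)).div_const _
    exact Real.smoothTransition.contDiff.comp h1

theorem Zer_open {N : ℕ} (p : Fin N → Eu n) (d : Option (Fin N)) : IsOpen (Zer_U p d) := by
  rcases d with _ | i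
  · exact isOpen_lt continuous_const continuous_norm
  · exact isOpen_lt (continuous_id.sub continuous_const).norm continuous_const

theorem Zer_exp4 : Real.exp (1 / 4) ≤ 4 / 3 := by
  have h1 : 1 - 1 / 4 ≤ Real.exp (-(1 / 4)) := Real.one_sub_le_exp_neg (1 / 4)
  have h2 : Real.exp (-(1 / 4)) * Real.exp (1 / 4) = 1 := by rw [← Real.exp_add]; simp
  have h3 := Real.exp_pos (1 / 4)
  nlinarith

theorem Zer_exp2 : Real.exp (1 / 2) = Real.exp (1 / 4) ^ 2 := by
  rw [← Real.exp_nat_mul]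
  congr 1
  norm_num

theorem Zer_den : 0 < 1 - Real.exp (1 / 2) / 4 := by
  rw [Zer_exp2]
  have h1 := Zer_exp4
  have h2 := Real.exp_pos (1 / 4)
  nlinarith

theorem Zer_none_one {N : ℕ} (p : Fin N → Eu n) {x : Eu n} (h : 3 * ((N : ℝ) + 1) ≤ ‖x‖) :
    Zer_w p none x = 1 := by
  have hN0 : (0 : ℝ) ≤ N := Nat.cast_nonneg N
  show Real.smoothTransition _ = 1
  apply Real.smoothTransition.one_of_one_le
  have h1 : 0 < (3 * ((N : ℝ) + 1)) ^ 2 - (2 * (N : ℝ) + 2) ^ 2 := by nlinarith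
  rw [le_div_iff₀ h1]
  have h2 : (3 * ((N : ℝ) + 1)) ^ 2 ≤ ‖x‖ ^ 2 := pow_le_pow_left₀ (by positivity) h 2
  linarith

theorem Zer_none_zero {N : ℕ} (p : Fin N → Eu n) {x : Eu n} (h : ‖x‖ ≤ 2 * (N : ℝ) + 2) :
    Zer_w p none x = 0 := by
  have hN0 : (0 : ℝ) ≤ N := Nat.cast_nonneg N
  show Real.smoothTransition _ = 0
  apply Real.smoothTransition.zero_of_nonpos
  have h1 : 0 < (3 * ((N : ℝ) + 1)) ^ 2 - (2 * (N : ℝ) + 2) ^ 2 := by nlinarith
  have h2 : ‖x‖ ^ 2 ≤ (2 * (N : ℝ) + 2) ^ 2 := pow_le_pow_left₀ (norm_nonneg x) h 2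
  exact div_nonpos_of_nonpos_of_nonneg (by linarith) h1.le

theorem Zer_some_one {N : ℕ} (p : Fin N → Eu n) {i : Fin N} {x : Eu n}
    (h : ‖x - p i‖ ≤ Real.exp (1 / 4) / 2) : Zer_w p (some i) x = 1 := by
  show Real.smoothTransition _ = 1
  apply Real.smoothTransition.one_of_one_le
  rw [le_div_iff₀ Zer_den, Zer_exp2]
  have h2 : ‖x - p i‖ ^ 2 ≤ (Real.exp (1 / 4) / 2) ^ 2 := pow_le_pow_left₀ (norm_nonneg _) h 2
  have h3 : (Real.exp (1 / 4) / 2) ^ 2 = Real.exp (1 / 4) ^ 2 / 4 := by ring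
  linarith

theorem Zer_some_zero {N : ℕ} (p : Fin N → Eu n) {i : Fin N} {x : Eu n}
    (h : 1 ≤ ‖x - p i‖) : Zer_w p (some i) x = 0 := by
  show Real.smoothTransition _ = 0
  apply Real.smoothTransition.zero_of_nonpos
  have h2 : (1 : ℝ) ^ 2 ≤ ‖x - p i‖ ^ 2 := pow_le_pow_left₀ zero_le_one h 2
  exact div_nonpos_of_nonpos_of_nonneg (by linarith) Zer_den.le

theorem Zer_const {N : ℕ} (p : Fin N → Eu n) (hp : ∀ i, ‖p i‖ ≤ 2 * N)
    (hpd : ∀ i j, i ≠ j → 2 ≤ dist (p i) (p j)) (d : Option (Fin N)) {x : Eu n}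
    (hx : x ∈ Zer_U p d) (c : Option (Fin N)) : Zer_w p c x = if c = d then 1 else 0 := by
  have hN0 : (0 : ℝ) ≤ N := Nat.cast_nonneg N
  have h4 := Zer_exp4
  rcases d with _ | i
  · have h1 : 3 * ((N : ℝ) + 1) < ‖x‖ := hx
    rcases c with _ | j
    · rw [if_pos rfl]
      exact Zer_none_one p h1.le
    · rw [if_neg (by simp)]
      apply Zer_some_zero
      have h2 : ‖x‖ ≤ ‖x - p j‖ + ‖p j‖ := by
        calc ‖x‖ = ‖(x - p j) + p j‖ := by rw [sub_add_cancel]
          _ ≤ _ := norm_add_le _ _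
      have h3 := hp j
      linarith
  · have h1 : ‖x - p i‖ < Real.exp (1 / 4) / 2 := hx
    rcases c with _ | j
    · rw [if_neg (by simp)]
      apply Zer_none_zero
      have h2 : ‖x‖ ≤ ‖x - p i‖ + ‖p i‖ := by
        calc ‖x‖ = ‖(x - p i) + p i‖ := by rw [sub_add_cancel]
          _ ≤ _ := norm_add_le _ _
      have h3 := hp i
      linarith
    · by_cases hij : j = i
      · subst hij
        rw [if_pos rfl]
        exact Zer_some_one p h1.le
      · rw [if_neg (by simpa using hij)]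
        apply Zer_some_zero
        have h2 := hpd i j (fun h => hij h.symm)
        have h3 := dist_triangle_left (p i) (p j) x
        rw [dist_eq_norm x, dist_eq_norm x] at h3
        linarith

theorem Zer_fderiv {N : ℕ} (p : Fin N → Eu n) (hp : ∀ i, ‖p i‖ ≤ 2 * N)
    (hpd : ∀ i j, i ≠ j → 2 ≤ dist (p i) (p j)) (d : Option (Fin N)) {x : Eu n}
    (hx : x ∈ Zer_U p d) (c : Option (Fin N)) : fderiv ℝ (Zer_w p c) x = 0 := by
  have h : Zer_w p c =ᶠ[nhds x] fun _ => (if c = d then (1 : ℝ) else 0) := by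
    filter_upwards [(Zer_open p d).mem_nhds hx] with y hy
    exact Zer_const p hp hpd d hy c
  rw [h.fderiv_eq]
  simp

theorem Zer_bound {N : ℕ} (p : Fin N → Eu n) : ∃ B : ℝ, 0 ≤ B ∧
    ∀ c, ∀ x : Eu n, ‖x‖ ≤ 3 * ((N : ℝ) + 1) → ‖fderiv ℝ (Zer_w p c) x‖ ≤ B := by
  have h : ∀ c : Option (Fin N), ∃ M : ℝ, ∀ x ∈ closedBall (0 : Eu n) (3 * ((N : ℝ) + 1)),
      ‖fderiv ℝ (Zer_w p c) x‖ ≤ M := by
    intro c
    have hc : Continuous (fderiv ℝ (Zer_w p c)) := (Zer_smooth p c).continuous_fderiv (by simp)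
    exact (isCompact_closedBall (0 : Eu n) _).exists_bound_of_continuousOn hc.continuousOn
  choose M hM using h
  refine ⟨∑ c, |M c|, Finset.sum_nonneg fun c _ => abs_nonneg _, fun c x hx => ?_⟩
  calc ‖fderiv ℝ (Zer_w p c) x‖ ≤ M c := hM c x (by simpa using hx)
    _ ≤ |M c| := le_abs_self _
    _ ≤ ∑ c, |M c| := Finset.single_le_sum (f := fun c => |M c|) (fun c _ => abs_nonneg _)
        (Finset.mem_univ c)

theorem Zer_sum_fderiv {N : ℕ} (p : Fin N → Eu n) (ζ : Option (Fin N) → ℝ) (x : Eu n) :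
    fderiv ℝ (fun x => ∑ c, ζ c * Zer_w p c x) x = ∑ c, ζ c • fderiv ℝ (Zer_w p c) x := by
  have h : HasFDerivAt (fun x => ∑ c, ζ c * Zer_w p c x)
      (∑ c, ζ c • fderiv ℝ (Zer_w p c) x) x := by
    refine HasFDerivAt.fun_sum fun c _ => ?_
    have h1 : HasFDerivAt (Zer_w p c) (fderiv ℝ (Zer_w p c) x) x :=
      (((Zer_smooth p c).differentiable (by simp)).differentiableAt).hasFDerivAt
    exact h1.const_mul (ζ c)
  exact h.fderiv

theorem Zer_norm_single (hn : 3 ≤ n) (x : ℝ) :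
    ‖(EuclideanSpace.single (⟨0, by omega⟩ : Fin n) x : Eu n)‖ = |x| := by
  rw [EuclideanSpace.norm_single, Real.norm_eq_abs]

theorem exists_zero (hn : 3 ≤ n) (N : ℕ) : ∃ B : ℝ, 0 ≤ B ∧ ∀ (D : Dom n N) (S d : ℝ),
    3 ≤ S → 0 < d → D.R0 = 4 * ((N : ℝ) + 1) * Real.exp S →
    (D.R = fun _ => Real.exp (-S) / 2) →
    (D.p = fun i : Fin N =>
      EuclideanSpace.single (⟨0, by omega⟩ : Fin n) (2 * (((i : ℕ) : ℝ) + 1))) →
    (∀ x : Eu n, (∀ i, Real.exp (1 / 4) / 2 ≤ ‖x - D.p i‖) → ‖x‖ ≤ 3 * ((N : ℝ) + 1) →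
      D.ρ x = d) →
    ∃ w : Option (Fin N) → Eu n → ℝ, (∀ c, ContDiff ℝ (⊤ : ℕ∞) (w c)) ∧
      (∀ c d t, 0 ≤ t → t < S → ∀ e : Eu n, ‖e‖ = 1 →
        w c (D.cen d + rr (D.rad d) (eps d) t • e) = if c = d then 1 else 0) ∧
      ∀ ζ : Option (Fin N) → ℝ, D.energy (fun x => ∑ c, ζ c * w c x)
        ≤ B * d ^ (n - 2) * ∑ c, ζ c ^ 2 := by
  set p : Fin N → Eu n := fun i : Fin N =>
    EuclideanSpace.single (⟨0, by omega⟩ : Fin n) (2 * (((i : ℕ) : ℝ) + 1)) with hpdef
  have hN0 : (0 : ℝ) ≤ N := Nat.cast_nonneg N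
  have hpn : ∀ i : Fin N, ‖p i‖ ≤ 2 * N := by
    intro i
    simp only [hpdef]
    rw [Zer_norm_single hn, abs_of_nonneg (by positivity)]
    have h1 : (((i : ℕ) : ℝ) + 1) ≤ N := by exact_mod_cast i.2
    linarith
  have hpd : ∀ i j : Fin N, i ≠ j → 2 ≤ dist (p i) (p j) := by
    intro i j hij
    have h1 : p i - p j = EuclideanSpace.single (⟨0, by omega⟩ : Fin n)
        (2 * (((i : ℕ) : ℝ) - ((j : ℕ) : ℝ))) := by
      simp only [hpdef]
      ext l
      by_cases hl : l = (⟨0, by omega⟩ : Fin n)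
      · subst hl
        simp
        ring
      · simp [hl]
    rw [dist_eq_norm, h1, Zer_norm_single hn, abs_mul, abs_of_pos (by norm_num : (0 : ℝ) < 2)]
    have h2 : (1 : ℝ) ≤ |((i : ℕ) : ℝ) - ((j : ℕ) : ℝ)| := by
      have h3 : ((i : ℕ) : ℤ) - ((j : ℕ) : ℤ) ≠ 0 := by
        intro h4
        apply hij
        ext
        omega
      have h5 := Int.one_le_abs h3
      exact_mod_cast h5
    linarith
  obtain ⟨B1, hB1, hB⟩ := Zer_bound p
  set V : ℝ := volume.real (closedBall (0 : Eu n) (3 * ((N : ℝ) + 1))) with hV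
  have hV0 : 0 ≤ V := measureReal_nonneg
  refine ⟨((N : ℝ) + 1) * B1 ^ 2 * V, by positivity, ?_⟩
  intro D S d hS hd hR0 hR hp hρ
  refine ⟨Zer_w p, Zer_smooth p, ?_, ?_⟩
  · intro c d' t ht0 htS e he
    apply Zer_const p hpn hpd
    rcases d' with _ | i
    · show 3 * ((N : ℝ) + 1) < ‖D.cen none + rr (D.rad none) (eps (none : Option (Fin N))) t • e‖
      have h1 : D.cen none = 0 := rfl
      have h2 : rr (D.rad none) (eps (none : Option (Fin N))) t
          = 4 * ((N : ℝ) + 1) * Real.exp (S - t) := by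
        show D.R0 * Real.exp (-1 * t) = _
        rw [hR0, mul_assoc, ← Real.exp_add]
        congr 2
        ring
      rw [h1, zero_add, h2, norm_smul, he, mul_one, Real.norm_of_nonneg (by positivity)]
      have h4 : 1 ≤ Real.exp (S - t) := Real.one_le_exp (by linarith)
      nlinarith
    · show ‖D.cen (some i) + rr (D.rad (some i)) (eps (some i)) t • e - p i‖
        < Real.exp (1 / 4) / 2
      have h1 : D.cen (some i) = p i := by
        show D.p i = p i
        rw [hp]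
      have h2 : rr (D.rad (some i)) (eps (some i)) t = Real.exp (t - S) / 2 := by
        show D.R i * Real.exp (1 * t) = _
        rw [hR, div_mul_eq_mul_div, ← Real.exp_add]
        congr 2
        ring
      rw [h1, h2, add_sub_cancel_left, norm_smul, he, mul_one,
        Real.norm_of_nonneg (by positivity)]
      have h4 : Real.exp (t - S) < Real.exp (1 / 4) := Real.exp_lt_exp.mpr (by linarith)
      linarith
  · intro ζ
    have hpw : ∀ x : Eu n, D.ρ x ^ (n - 2) * ‖fderiv ℝ (fun x => ∑ c, ζ c * Zer_w p c x) x‖ ^ 2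
        ≤ (closedBall (0 : Eu n) (3 * ((N : ℝ) + 1))).indicator
          (fun _ => d ^ (n - 2) * (((N : ℝ) + 1) * B1 ^ 2 * ∑ c, ζ c ^ 2)) x := by
      intro x
      rw [Zer_sum_fderiv]
      by_cases hU : ∃ e, x ∈ Zer_U p e
      · obtain ⟨e, he⟩ := hU
        have h1 : ∑ c, ζ c • fderiv ℝ (Zer_w p c) x = 0 :=
          Finset.sum_eq_zero fun c _ => by rw [Zer_fderiv p hpn hpd e he c, smul_zero]
        rw [h1]
        simp only [norm_zero, ne_eq, OfNat.ofNat_ne_zero, not_false_eq_true, zero_pow, mul_zero]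
        apply Set.indicator_nonneg
        intro y _
        have h2 : 0 ≤ ∑ c, ζ c ^ 2 := Finset.sum_nonneg fun c _ => sq_nonneg _
        positivity
      · push Not at hU
        have h1 : ‖x‖ ≤ 3 * ((N : ℝ) + 1) := by
          have h := hU none
          by_contra hcon
          exact h (not_le.mp hcon)
        have h2 : ∀ i, Real.exp (1 / 4) / 2 ≤ ‖x - D.p i‖ := by
          intro i
          have h := hU (some i)
          by_contra hcon
          apply h
          show ‖x - p i‖ < Real.exp (1 / 4) / 2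
          rw [hp] at hcon
          exact not_le.mp hcon
        rw [hρ x h2 h1, Set.indicator_of_mem (by simpa using h1)]
        refine mul_le_mul_of_nonneg_left ?_ (by positivity)
        have h3 : ‖∑ c, ζ c • fderiv ℝ (Zer_w p c) x‖ ≤ ∑ c, |ζ c| * B1 := by
          refine (norm_sum_le _ _).trans (Finset.sum_le_sum fun c _ => ?_)
          rw [norm_smul, Real.norm_eq_abs]
          exact mul_le_mul_of_nonneg_left (hB c x h1) (abs_nonneg _)
        have h4 : (∑ c, |ζ c| * B1) ^ 2 ≤ ((N : ℝ) + 1) * B1 ^ 2 * ∑ c, ζ c ^ 2 := by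
          have h5 := sq_sum_le_card_mul_sum_sq (s := (Finset.univ : Finset (Option (Fin N))))
            (f := fun c => |ζ c| * B1)
          refine h5.trans (le_of_eq ?_)
          rw [Finset.card_univ, Fintype.card_option, Fintype.card_fin]
          push_cast
          rw [Finset.mul_sum, Finset.mul_sum]
          refine Finset.sum_congr rfl fun c _ => ?_
          rw [mul_pow, sq_abs]
          ring
        exact (pow_le_pow_left₀ (norm_nonneg _) h3 2).trans h4
    set K : ℝ := d ^ (n - 2) * (((N : ℝ) + 1) * B1 ^ 2 * ∑ c, ζ c ^ 2) with hK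
    have hK0 : 0 ≤ K := by
      have h2 : 0 ≤ ∑ c, ζ c ^ 2 := Finset.sum_nonneg fun c _ => sq_nonneg _
      positivity
    have hint : Integrable ((closedBall (0 : Eu n) (3 * ((N : ℝ) + 1))).indicator
        (fun _ => K)) (volume : Measure (Eu n)) := by
      rw [integrable_indicator_iff measurableSet_closedBall]
      exact integrableOn_const (isCompact_closedBall (0 : Eu n) _).measure_lt_top.ne
    have h1 : D.energy (fun x => ∑ c, ζ c * Zer_w p c x) ≤
        ∫ x in D.Om, (closedBall (0 : Eu n) (3 * ((N : ℝ) + 1))).indicator (fun _ => K) x := by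
      unfold Dom.energy
      refine integral_mono_of_nonneg (Filter.Eventually.of_forall fun x => ?_) hint.integrableOn
        (Filter.Eventually.of_forall fun x => hpw x)
      exact mul_nonneg (pow_nonneg (D.pos x).le _) (sq_nonneg _)
    have h2 : ∫ x in D.Om, (closedBall (0 : Eu n) (3 * ((N : ℝ) + 1))).indicator (fun _ => K) x ≤
        ∫ x, (closedBall (0 : Eu n) (3 * ((N : ℝ) + 1))).indicator (fun _ => K) x := by
      refine setIntegral_le_integral hint (Filter.Eventually.of_forall fun x => ?_)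
      exact Set.indicator_nonneg (fun _ _ => hK0) x
    have h3 : ∫ x, (closedBall (0 : Eu n) (3 * ((N : ℝ) + 1))).indicator (fun _ => K) x
        = V * K := by
      rw [integral_indicator measurableSet_closedBall, setIntegral_const, smul_eq_mul]
    calc D.energy (fun x => ∑ c, ζ c * Zer_w p c x) ≤ V * K := by rw [← h3]; exact h1.trans h2
      _ = _ := by rw [hK]; ring

end Pool.Agent.H78.SK
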