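import Pool.Agent.H78.SK.UniL
import Pool.Agent.H78.SK.UniU
import Pool.Agent.H78.SK.Zer
import Pool.Agent.H78.SK.Par
import Pool.Agent.H78.SK.Cnt2
import Pool.Agent.H78.SK.FinA

/-!
# Steklov spectra: uniform closeness
-/

namespace Pool.Agent.H78.SK

open MeasureTheory Metric Set Filter
open Pool.Agent.H35.CA

variable {n N : ℕ}

/-- Radius with step `s`. -/
noncomputable def rS (s : ℕ) : ℝ := 2 / (s : ℝ)

/-- Profile parameter with step `s` and offset `e`. -/
noncomputable def aS (n s e : ℕ) : ℝ := (e : ℝ) / (2 * s * kz n)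

theorem rS_pos {s : ℕ} (hs : 0 < s) : 0 < rS s := by
  have : (0 : ℝ) < s := by exact_mod_cast hs
  unfold rS
  positivity

theorem aS_nonneg (hn : 3 ≤ n) {s : ℕ} (e : ℕ) : 0 ≤ aS n s e := by
  have hk := kz_pos hn
  have hk0 : 0 < kz n := by linarith
  unfold aS
  positivity

theorem I_eq (hn : 3 ≤ n) {s : ℕ} (hs : 0 < s) (e k : ℕ) :
    ((k : ℝ) + 2 * aS n s e * kz n) / rS s = ((e : ℝ) + s * k) / 2 := by
  have hk := kz_ne hn
  have hs' : (s : ℝ) ≠ 0 := by
    have : (0 : ℝ) < s := by exact_mod_cast hs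
    exact this.ne'
  unfold aS rS
  field_simp
  ring

/-- The number of modes with `e + s k ≤ M` or `k = 0`. -/
def ccS (Y : SHFam n) (s e : Option (Fin N) → ℕ) (M : ℕ) : ℕ :=
  ∑ c, cum Y (max 1 ((M + s c - e c) / s c))

theorem ccS_zero (hn : 2 ≤ n) (Y : SHFam n) {s e : Option (Fin N) → ℕ} (hs : ∀ c, 0 < s c) :
    ccS Y s e 0 = N + 1 := by
  unfold ccS
  have : ∀ c, cum Y (max 1 ((0 + s c - e c) / s c)) = 1 := by
    intro c
    have h1 : (0 + s c - e c) / s c ≤ 1 := by
      rw [Nat.zero_add]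
      calc (s c - e c) / s c ≤ s c / s c := Nat.div_le_div_right (Nat.sub_le _ _)
        _ = 1 := Nat.div_self (hs c)
    rw [max_eq_left h1]
    simp [cum, m_zero hn Y]
  rw [Finset.sum_congr rfl fun c _ => this c]
  simp

theorem close2 (hn : 3 ≤ n) (Y : SHFam n) {D : Dom n N} {s e : Option (Fin N) → ℕ}
    (hs : ∀ c, 0 < s c) {S C C1 η ε : ℝ}
    (h : SD D (fun c => rS (s c)) (fun c => aS n (s c) (e c)) S)
    (hT : TF Y D (fun c => rS (s c)) (fun c => aS n (s c) (e c)) S C1 η)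
    (hC : 0 ≤ C) (hC1 : 0 ≤ C1) (hε : 0 < ε) (hεC : ε * C ≤ 1) (hε2 : ε ≤ 1 / 2)
    (hη : ∀ c, η ≤ ε * rS (s c) ^ (n - 1))
    (hS : ∀ c (k : ℕ), 1 ≤ k → (8 * ((k : ℝ) + kz n) ^ 2 *
        Real.exp (-(2 * ((k : ℝ) + kz n) * S)) +
        C1 * Real.exp (-(2 * ((k : ℝ) + kz n) * (S - 2)))) / rS (s c)
      ≤ ε * Real.exp (-(C * (((k : ℝ) + 2 * aS n (s c) (e c) * kz n) / rS (s c))))) :
    (∀ j < N + 1, D.steklov j ≤ ε) ∧
    ∀ j M, 1 ≤ M → ccS Y s e (M - 1) ≤ j → j < ccS Y s e M →
      |D.steklov j - (M : ℝ) / 2| ≤ ε * Real.exp (-(C * ((M : ℝ) / 2))) := by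
  constructor
  · intro j hj
    refine uni_upper hn Y h hT (κ := fun _ => 1) hη ?_ ?_
    · intro c k hk hk1
      omega
    · simpa [cum, m_zero (by omega : 2 ≤ n) Y] using hj
  · intro j M hM h1 h2
    have hM1 : (1 : ℝ) ≤ M := by exact_mod_cast hM
    have hexp : ∀ x : ℝ, 0 < Real.exp x := Real.exp_pos
    -- monotonicity
    have hmono : ∀ x y : ℝ, 0 ≤ x → x ≤ y →
        x + ε * Real.exp (-(C * x)) ≤ y + ε * Real.exp (-(C * y)) := by
      intro x y hx hxy
      have e1 : Real.exp (-(C * x)) - Real.exp (-(C * y)) ≤ C * (y - x) := by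
        have e2 : Real.exp (-(C * y)) = Real.exp (-(C * x)) * Real.exp (-(C * (y - x))) := by
          rw [← Real.exp_add]
          congr 1
          ring
        have e3 : 1 - C * (y - x) ≤ Real.exp (-(C * (y - x))) := Real.one_sub_le_exp_neg _
        have e4 : Real.exp (-(C * x)) ≤ 1 := Real.exp_le_one_iff.2 (by nlinarith)
        have e5 : 0 ≤ C * (y - x) := mul_nonneg hC (by linarith)
        have e6 := hexp (-(C * x))
        rw [e2]
        nlinarith
      have e7 : ε * (Real.exp (-(C * x)) - Real.exp (-(C * y))) ≤ ε * (C * (y - x)) :=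
        mul_le_mul_of_nonneg_left e1 hε.le
      have e8 : ε * (C * (y - x)) ≤ 1 * (y - x) := by
        rw [← mul_assoc]
        exact mul_le_mul_of_nonneg_right hεC (by linarith)
      linarith
    have hup : D.steklov j ≤ (M : ℝ) / 2 + ε * Real.exp (-(C * ((M : ℝ) / 2))) := by
      have hpos : 0 ≤ ε * Real.exp (-(C * ((M : ℝ) / 2))) := by
        have := hexp (-(C * ((M : ℝ) / 2)))
        positivity
      refine uni_upper hn Y h hT (κ := fun c => max 1 ((M + s c - e c) / s c)) ?_ ?_ h2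
      · intro c
        refine (hη c).trans (mul_le_mul_of_nonneg_right ?_ (pow_pos (rS_pos (hs c)) _).le)
        linarith
      · intro c k hk hk1
        have hk2 : k < (M + s c - e c) / s c := by
          rcases lt_max_iff.1 hk with h3 | h3
          · omega
          · exact h3
        have hk3 : s c * (k + 1) ≤ M + s c - e c := by
          have h4 : k + 1 ≤ (M + s c - e c) / s c := hk2
          have h5 := (Nat.le_div_iff_mul_le (hs c)).1 h4
          rw [mul_comm]
          exact h5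
        have hk4 : e c + s c * k ≤ M := by
          have := hs c
          have h6 : s c * (k + 1) = s c * k + s c := by ring
          omega
        have hk5 : (e c : ℝ) + s c * k ≤ M := by exact_mod_cast hk4
        have h7 := hS c k hk1
        rw [I_eq hn (hs c)] at h7
        have hI := I_eq hn (hs c) (e c) k
        have h8 : ((k : ℝ) + 2 * aS n (s c) (e c) * kz n +
            C1 * Real.exp (-(2 * ((k : ℝ) + kz n) * (S - 2)))) / rS (s c) ≤
            ((e c : ℝ) + s c * k) / 2 + ε * Real.exp (-(C * (((e c : ℝ) + s c * k) / 2))) := by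
          rw [add_div, hI]
          have h9 : C1 * Real.exp (-(2 * ((k : ℝ) + kz n) * (S - 2))) / rS (s c) ≤
              (8 * ((k : ℝ) + kz n) ^ 2 * Real.exp (-(2 * ((k : ℝ) + kz n) * S)) +
              C1 * Real.exp (-(2 * ((k : ℝ) + kz n) * (S - 2)))) / rS (s c) := by
            refine div_le_div_of_nonneg_right ?_ (rS_pos (hs c)).le
            have := hexp (-(2 * ((k : ℝ) + kz n) * S))
            nlinarith [sq_nonneg ((k : ℝ) + kz n), mul_nonneg (sq_nonneg ((k : ℝ) + kz n)) this.le]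
          linarith
        refine h8.trans (hmono _ _ ?_ (by linarith))
        positivity
    have hlow : (M : ℝ) / 2 - ε * Real.exp (-(C * ((M : ℝ) / 2))) ≤ D.steklov j := by
      refine uni_lower hn Y h hC hε.le ?_ (κ := fun c => max 1 ((M - 1 + s c - e c) / s c)) ?_ ?_ ?_
      · intro c k hk
        refine le_trans ?_ (hS c k hk)
        refine div_le_div_of_nonneg_right ?_ (rS_pos (hs c)).le
        have := hexp (-(2 * ((k : ℝ) + kz n) * (S - 2)))
        nlinarith [mul_nonneg hC1 this.le]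
      · intro c
        exact le_max_left _ _
      · intro c k hk
        rw [I_eq hn (hs c)]
        have hk1 : (M - 1 + s c - e c) / s c ≤ k := (le_max_right _ _).trans hk
        have hk2 : M - 1 + s c - e c < (k + 1) * s c :=
          (Nat.div_lt_iff_lt_mul (hs c)).1 (Nat.lt_succ_of_le hk1)
        have hk3 : M ≤ e c + s c * k := by
          have h6 : (k + 1) * s c = s c * k + s c := by ring
          omega
        have hk4 : (M : ℝ) ≤ (e c : ℝ) + s c * k := by exact_mod_cast hk3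
        linarith
      · exact h1
    rw [abs_le]
    constructor <;> linarith

theorem ccS_cm (hn : 2 ≤ n) (Y : SHFam n) (s e : Option (Fin N) → ℕ) (M : ℕ) :
    ccS Y s e M = N + 1 + ∑ c, cm Y ((M + s c - e c) / s c) := by
  unfold ccS
  rw [Finset.sum_congr rfl fun c _ => cum_cm hn Y _, Finset.sum_add_distrib]
  simp

/-- Comparison of two domains with the same counting function. -/
theorem compare2 (hn : 3 ≤ n) {D D' : Dom n N} {C ε : ℝ} {cc : ℕ → ℕ}
    (hC : 0 ≤ C) (hε : 0 < ε) (hεC : ε * C ≤ 1) (hcc : cc 0 = N + 1)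
    (hu : ∀ j, ∃ M, j < cc M)
    (h1 : ∀ j < N + 1, D.steklov j ≤ ε) (h1' : ∀ j < N + 1, D'.steklov j ≤ ε)
    (h2 : ∀ j M, 1 ≤ M → cc (M - 1) ≤ j → j < cc M →
      |D.steklov j - (M : ℝ) / 2| ≤ ε * Real.exp (-(C * ((M : ℝ) / 2))))
    (h2' : ∀ j M, 1 ≤ M → cc (M - 1) ≤ j → j < cc M →
      |D'.steklov j - (M : ℝ) / 2| ≤ ε * Real.exp (-(C * ((M : ℝ) / 2)))) :
    (∀ j, |D.steklov j - D'.steklov j| ≤ 6 * ε * Real.exp (-(C * D.steklov j))) ∧
      Tendsto D.steklov atTop atTop := by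
  have hexp1 : Real.exp 1 < 3 := by
    have := Real.exp_one_lt_d9
    linarith
  have key : ∀ j, N + 1 ≤ j → ∃ M : ℕ, 1 ≤ M ∧ cc (M - 1) ≤ j ∧ j < cc M := by
    intro j hj
    classical
    have h0 : Nat.find (hu j) ≠ 0 := by
      intro h
      have h3 := Nat.find_spec (hu j)
      rw [h, hcc] at h3
      omega
    exact ⟨Nat.find (hu j), Nat.one_le_iff_ne_zero.2 h0,
      not_lt.1 (Nat.find_min (hu j) (Nat.pred_lt h0)), Nat.find_spec (hu j)⟩
  have hexpC : Real.exp (C * ε) ≤ 3 := by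
    have h3 : Real.exp (C * ε) ≤ Real.exp 1 := Real.exp_le_exp.2 (by linarith [mul_comm C ε])
    linarith
  constructor
  · intro j
    by_cases hj : j < N + 1
    · have a0 : 0 ≤ D.steklov j := minmax_nonneg (energy_nonneg D) j
      have a1 : 0 ≤ D'.steklov j := minmax_nonneg (energy_nonneg D') j
      have a2 := h1 j hj
      have a3 := h1' j hj
      have a4 : |D.steklov j - D'.steklov j| ≤ ε := by
        rw [abs_le]
        constructor <;> linarith
      have a5 : 1 ≤ 3 * Real.exp (-(C * D.steklov j)) := by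
        have b1 : 1 = Real.exp (C * ε) * Real.exp (-(C * ε)) := by
          rw [← Real.exp_add]
          simp
        have b2 : Real.exp (-(C * ε)) ≤ Real.exp (-(C * D.steklov j)) :=
          Real.exp_le_exp.2 (by nlinarith)
        have b3 := Real.exp_pos (-(C * ε))
        nlinarith
      have a6 := Real.exp_pos (-(C * D.steklov j))
      calc |D.steklov j - D'.steklov j| ≤ ε * 1 := by linarith
        _ ≤ ε * (3 * Real.exp (-(C * D.steklov j))) := mul_le_mul_of_nonneg_left a5 hε.le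
        _ ≤ 6 * ε * Real.exp (-(C * D.steklov j)) := by nlinarith
    · obtain ⟨M, hM, hM1, hM2⟩ := key j (by omega)
      have h3 := h2 j M hM hM1 hM2
      have h4 := h2' j M hM hM1 hM2
      have he : Real.exp (-(C * ((M : ℝ) / 2))) ≤ 1 :=
        Real.exp_le_one_iff.2 (by
          have : 0 ≤ C * ((M : ℝ) / 2) := by positivity
          linarith)
      have h5 : D.steklov j ≤ (M : ℝ) / 2 + ε := by
        have := (abs_le.1 h3).2
        nlinarith
      have h6 : Real.exp (-(C * ((M : ℝ) / 2))) ≤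
          Real.exp (C * ε) * Real.exp (-(C * D.steklov j)) := by
        rw [← Real.exp_add]
        exact Real.exp_le_exp.2 (by nlinarith)
      have h6' : Real.exp (-(C * ((M : ℝ) / 2))) ≤ 3 * Real.exp (-(C * D.steklov j)) :=
        h6.trans (mul_le_mul_of_nonneg_right hexpC (Real.exp_pos _).le)
      have h7 : |D.steklov j - D'.steklov j| ≤ 2 * ε * Real.exp (-(C * ((M : ℝ) / 2))) := by
        have := abs_sub_le (D.steklov j) ((M : ℝ) / 2) (D'.steklov j)
        rw [abs_sub_comm ((M : ℝ) / 2)] at this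
        linarith
      calc |D.steklov j - D'.steklov j| ≤ 2 * ε * Real.exp (-(C * ((M : ℝ) / 2))) := h7
        _ ≤ 2 * ε * (3 * Real.exp (-(C * D.steklov j))) :=
          mul_le_mul_of_nonneg_left h6' (by linarith)
        _ = _ := by ring
  · rw [tendsto_atTop_atTop]
    intro b
    obtain ⟨M0, hM0⟩ := exists_nat_gt (2 * (b + ε))
    refine ⟨N + 1 + ∑ M ∈ Finset.range (M0 + 1), cc M, fun j hj => ?_⟩
    obtain ⟨M, hM, hM1, hM2⟩ := key j (by omega)
    have hMM : M0 < M := by
      by_contra hcon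
      have : cc M ≤ ∑ M ∈ Finset.range (M0 + 1), cc M :=
        Finset.single_le_sum (f := cc) (fun _ _ => Nat.zero_le _)
          (Finset.mem_range.2 (by omega))
      omega
    have h3 := h2 j M hM hM1 hM2
    have he : Real.exp (-(C * ((M : ℝ) / 2))) ≤ 1 :=
      Real.exp_le_one_iff.2 (by
        have : 0 ≤ C * ((M : ℝ) / 2) := by positivity
        linarith)
    have h5 : (M : ℝ) / 2 - ε ≤ D.steklov j := by
      have := (abs_le.1 h3).1
      nlinarith
    have h6 : (M0 : ℝ) < M := by exact_mod_cast hMM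
    linarith

/-- Domains for all steps and offsets. -/
theorem exists_D2 (hn : 3 ≤ n) (Y : SHFam n) {s e : Option (Fin N) → ℕ} (hs : ∀ c, 0 < s c)
    {C1 : ℝ} (hCb : ∀ (kk S : ℝ), 0 ≤ kk → 3 ≤ S →
      (∫ t in Ioo 0 S, (deriv (fun s => Real.smoothTransition (S - 1 - s)) t) ^ 2 *
        Real.exp (-(2 * kk * t))) ≤ C1 * Real.exp (-(2 * kk * (S - 2)))) {S η : ℝ} (hS : 3 ≤ S)
    (hη : 0 < η) :
    ∃ D : Dom n N, SD D (fun c => rS (s c)) (fun c => aS n (s c) (e c)) S ∧
      TF Y D (fun c => rS (s c)) (fun c => aS n (s c) (e c)) S C1 η ∧ IsConnected D.Om ∧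
      D.R0 = 4 * ((N : ℝ) + 1) * Real.exp S ∧ (D.R = fun _ => Real.exp (-S) / 2) ∧
      D.p = fun i : Fin N =>
        EuclideanSpace.single (⟨0, by omega⟩ : Fin n) (2 * (((i : ℕ) : ℝ) + 1)) := by
  obtain ⟨B, hB0, hB⟩ := exists_zero hn N
  have hnom : 0 < (n : ℝ) * om n := by
    have h1 : (0 : ℝ) < n := by
      have : 0 < n := by omega
      exact_mod_cast this
    exact mul_pos h1 (om_pos n)
  obtain ⟨d, hd0, hd1, hd2⟩ : ∃ d : ℝ, 0 < d ∧ d ≤ 1 ∧ B * d ≤ (n : ℝ) * om n * η := by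
    refine ⟨min 1 ((n : ℝ) * om n * η / (B + 1)), lt_min one_pos (by positivity), min_le_left _ _, ?_⟩
    have h1 : min 1 ((n : ℝ) * om n * η / (B + 1)) ≤ (n : ℝ) * om n * η / (B + 1) := min_le_right _ _
    have h2 : 0 ≤ (n : ℝ) * om n * η / (B + 1) := by positivity
    calc B * min 1 ((n : ℝ) * om n * η / (B + 1)) ≤ (B + 1) * ((n : ℝ) * om n * η / (B + 1)) := by
          refine mul_le_mul (by linarith) h1 (le_min zero_le_one h2) (by linarith)
      _ = (n : ℝ) * om n * η := by field_simp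
  obtain ⟨D, h1, h2, h3, h4, h5, h6⟩ := exists_SDd (N := N) hn (fun c => rS (s c))
    (fun c => aS n (s c) (e c)) (fun c => rS_pos (hs c)) (fun c => aS_nonneg hn (e c)) hS hd0
  obtain ⟨w, hw, hw1, hwE⟩ := hB D S d hS hd0 h3 h4 h5 h6
  refine ⟨D, h1, test_family0 hCb hn Y h1 w hw hw1 fun ζ => ?_, h2, h3, h4, h5⟩
  refine (hwE ζ).trans ?_
  have hζ : 0 ≤ ∑ c, ζ c ^ 2 := Finset.sum_nonneg fun c _ => sq_nonneg _
  have hdn : d ^ (n - 2) ≤ d := by
    calc d ^ (n - 2) ≤ d ^ 1 := pow_le_pow_of_le_one hd0.le hd1 (by omega)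
      _ = d := pow_one d
  have h7 : B * d ^ (n - 2) ≤ (n : ℝ) * om n * η :=
    (mul_le_mul_of_nonneg_left hdn hB0).trans hd2
  calc B * d ^ (n - 2) * ∑ c, ζ c ^ 2 ≤ (n : ℝ) * om n * η * ∑ c, ζ c ^ 2 :=
        mul_le_mul_of_nonneg_right h7 hζ
    _ = _ := by ring

end Pool.Agent.H78.SK
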