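import Pool.Agent.H78.SK.FinC

/-!
# Steklov spectra: uniform closeness, the data
-/

namespace Pool.Agent.H78.SK

open MeasureTheory Metric Set Filter
open Pool.Agent.H35.CA

variable {n N : ℕ}

/-- Steps of the first family. -/
def sA (x : Finset (Fin n) × (Finset (Fin n) ⊕ Bool)) : ℕ := Sum.elim (fun _ => 4) (fun _ => 1) x.2

/-- Offsets of the first family. -/
def eA (x : Finset (Fin n) × (Finset (Fin n) ⊕ Bool)) : ℕ :=
  Sum.elim (fun U => x.1.card - 1 + 2 * U.card) (fun b => 2 * x.1.card - 1 + if b then 2 else 0) x.2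

/-- Offsets of the second family. -/
def eB (x : Finset (Fin n) × (Finset (Fin n) ⊕ Bool)) : ℕ :=
  Sum.elim (fun U => 2 * x.1.card - 1 + U.card) (fun b => x.1.card - 1 + if b then 4 else 0) x.2

theorem sA_pos (x : Finset (Fin n) × (Finset (Fin n) ⊕ Bool)) : 0 < sA x := by
  obtain ⟨T, y⟩ := x
  rcases y with U | b <;> simp [sA]

theorem sA_le (x : Finset (Fin n) × (Finset (Fin n) ⊕ Bool)) : sA x ≤ 4 := by
  obtain ⟨T, y⟩ := x
  rcases y with U | b <;> simp [sA]

theorem sum_idx {T0 : Finset (Fin n)} (e : Option (Fin N) ≃ ↥(Th T0) × (Finset (Fin n) ⊕ Bool))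
    (f : Finset (Fin n) × (Finset (Fin n) ⊕ Bool) → ℕ) :
    ∑ c, f ((e c).1, (e c).2) = ∑ T ∈ Th T0, (∑ U : Finset (Fin n), f (T, Sum.inl U)
      + (f (T, Sum.inr true) + f (T, Sum.inr false))) := by
  rw [Equiv.sum_comp e (fun x => f (x.1, x.2)), Fintype.sum_prod_type,
    ← Finset.sum_coe_sort (Th T0)]
  refine Finset.sum_congr rfl fun T _ => ?_
  rw [Fintype.sum_sum_type, Fintype.sum_bool]

/-- The two families have the same counting function. -/
theorem cc_same (hn : 3 ≤ n) (Y : SHFam n) {T0 : Finset (Fin n)} (h0 : T0.card = 2)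
    (e : Option (Fin N) ≃ ↥(Th T0) × (Finset (Fin n) ⊕ Bool)) :
    ccS Y (fun c => sA ((e c).1, (e c).2)) (fun c => eA ((e c).1, (e c).2))
      = ccS Y (fun _ : Option (Fin N) => 2) (fun c => eB ((e c).1, (e c).2)) := by
  funext M
  rw [ccS_cm (by omega) Y, ccS_cm (by omega) Y]
  congr 1
  rw [sum_idx e (fun x => cm Y ((M + sA x - eA x) / sA x)),
    sum_idx e (fun x => cm Y ((M + 2 - eB x) / 2))]
  have h := cm_big (by omega : 2 ≤ n) Y h0 M
  simp only [sA, eA, eB, Sum.elim_inl, Sum.elim_inr, if_true, Bool.false_eq_true, if_false,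
    Nat.div_one, add_zero]
  have e1 : ∀ T : Finset (Fin n), ∀ a b : ℕ, a + b = b + a := fun _ a b => add_comm a b
  rw [Finset.sum_congr rfl fun T _ => by rw [add_comm (cm Y (M + 1 - (2 * T.card - 1 + 2)))]]
  rw [h]
  exact Finset.sum_congr rfl fun T _ => by
    rw [add_comm (cm Y ((M + 2 - (T.card - 1)) / 2))]

/-- The counting function is unbounded. -/
theorem ccS_unb (hn : 3 ≤ n) (Y : SHFam n) (s e : Option (Fin N) → ℕ) (hs : ∀ c, 0 < s c) (j : ℕ) :
    ∃ M, j < ccS Y s e M := by
  refine ⟨(j + 1) * s none + e none, ?_⟩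
  have h1 : ((j + 1) * s none + e none + s none - e none) / s none = j + 2 := by
    rw [show (j + 1) * s none + e none + s none - e none = (j + 2) * s none by
      have : (j + 2) * s none = (j + 1) * s none + s none := by ring
      omega]
    exact Nat.mul_div_cancel _ (hs none)
  have h2 : cum Y (max 1 (((j + 1) * s none + e none + s none - e none) / s none)) ≤
      ccS Y s e ((j + 1) * s none + e none) :=
    Finset.single_le_sum (f := fun c => cum Y (max 1 (((j + 1) * s none + e none + s c - e c) / s c)))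
      (fun _ _ => Nat.zero_le _) (Finset.mem_univ none)
  rw [h1, max_eq_right (by omega)] at h2
  have h3 := cum_ge (by omega : 2 ≤ n) Y (j + 1)
  rw [show j + 1 + 1 = j + 2 by ring] at h3
  omega

end Pool.Agent.H78.SK
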