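import Pool.Agent.H78.SK.Sli

/-!
# Job SK-GRD: the gradient in polar coordinates

`sl u p R ε t x = u (p + rr R ε t • x)`, `rr R ε t = R * exp (ε * t)`.
With `g = fderiv ℝ u (p + rr • w)`, represented by a vector `b` (`InnerProductSpace.toDual`),
`g (Jij i j w) = w i * b j - w j * b i` (`SphC_Jij_apply` in `H35/CA/SphC.lean`), and
`∑_{i<j} (w i b j - w j b i)^2 = |w|^2 |b|^2 - ⟪w, b⟫^2` (Lagrange; `ShA_sum_prs` in
`H35/CA/ShA.lean` turns the sum over pairs `i < j` into a double sum).  Use `XX_sl` and the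
definition of `dsl`; `ε^2 = 1`.
-/

namespace Pool.Agent.H78.SK

open MeasureTheory Metric Set
open Pool.Agent.H35.CA

variable {n : ℕ}

theorem Grd_sum_prs (f : Fin n → Fin n → ℝ) (hs : ∀ i j, f j i = f i j)
    (hd : ∀ i, f i i = 0) : 2 * ∑ q ∈ prs n, f q.1 q.2 = ∑ i, ∑ j, f i j := by
  have h1 : ∑ i, ∑ j, f i j = ∑ q : Fin n × Fin n, f q.1 q.2 := by
    rw [Fintype.sum_prod_type]
  have h2 : ∑ q : Fin n × Fin n, f q.1 q.2 =
      (∑ q : Fin n × Fin n, if q.1 < q.2 then f q.1 q.2 else 0) +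
      (∑ q : Fin n × Fin n, if q.2 < q.1 then f q.1 q.2 else 0) := by
    rw [← Finset.sum_add_distrib]
    refine Finset.sum_congr rfl fun q _ => ?_
    rcases lt_trichotomy q.1 q.2 with h | h | h
    · rw [if_pos h, if_neg (not_lt.2 h.le), add_zero]
    · rw [h, if_neg (lt_irrefl _), hd, add_zero]
    · rw [if_neg (not_lt.2 h.le), if_pos h, zero_add]
  have h3 : (∑ q : Fin n × Fin n, if q.2 < q.1 then f q.1 q.2 else 0) =
      ∑ q : Fin n × Fin n, if q.1 < q.2 then f q.1 q.2 else 0 := by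
    refine Fintype.sum_equiv (Equiv.prodComm _ _) _ _ (fun q => ?_)
    change (if q.2 < q.1 then f q.1 q.2 else 0) = if q.2 < q.1 then f q.2 q.1 else 0
    rw [hs]
  rw [h1, h2, h3, prs, Finset.sum_filter, two_mul]

/-- Lagrange's identity. -/
theorem Grd_lagrange (a b : Fin n → ℝ) :
    ∑ q ∈ prs n, (a q.1 * b q.2 - a q.2 * b q.1) ^ 2
      = (∑ i, a i ^ 2) * (∑ i, b i ^ 2) - (∑ i, a i * b i) ^ 2 := by
  have h := Grd_sum_prs (fun i j => (a i * b j - a j * b i) ^ 2) (fun i j => by ring)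
    (fun i => by ring)
  have h2 : ∑ i, ∑ j, (a i * b j - a j * b i) ^ 2
      = 2 * ((∑ i, a i ^ 2) * (∑ i, b i ^ 2) - (∑ i, a i * b i) ^ 2) := by
    have e : ∀ i j, (a i * b j - a j * b i) ^ 2
        = a i ^ 2 * b j ^ 2 + b i ^ 2 * a j ^ 2 - 2 * ((a i * b i) * (a j * b j)) := by
      intro i j; ring
    simp only [e, Finset.sum_sub_distrib, Finset.sum_add_distrib, ← Finset.mul_sum,
      ← Finset.sum_mul]
    ring
  linarith

/-- The sum of the squares of the rotation derivatives. -/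
theorem Grd_sum_form (g : Eu n →L[ℝ] ℝ) {w : Eu n} (hw : ‖w‖ = 1) :
    ∑ q ∈ prs n, (g (Jij q.1 q.2 w)) ^ 2 = ‖g‖ ^ 2 - (g w) ^ 2 := by
  obtain ⟨b, rfl⟩ := (InnerProductSpace.toDual ℝ (Eu n)).surjective g
  have h1 : ∀ i j : Fin n, InnerProductSpace.toDual ℝ (Eu n) b (Jij i j w)
      = w i * b j - w j * b i := by
    intro i j
    rw [InnerProductSpace.toDual_apply_apply, SphC_Jij_apply, inner_sub_right, inner_smul_right,
      inner_smul_right, EuclideanSpace.inner_single_right, EuclideanSpace.inner_single_right]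
    simp
  have hw2 : ∑ i, w i ^ 2 = 1 := by
    have := EuclideanSpace.real_norm_sq_eq w
    rw [hw] at this
    linarith
  have hb : ‖InnerProductSpace.toDual ℝ (Eu n) b‖ ^ 2 = ∑ i, b i ^ 2 := by
    rw [LinearIsometryEquiv.norm_map, EuclideanSpace.real_norm_sq_eq]
  have hg : InnerProductSpace.toDual ℝ (Eu n) b w = ∑ i, w i * b i := by
    rw [InnerProductSpace.toDual_apply_apply]
    simp [PiLp.inner_apply]
  rw [hb, hg]
  simp only [h1]
  rw [Grd_lagrange (fun i => w i) (fun i => b i), hw2, one_mul]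

variable {u : Eu n → ℝ} (hu : ContDiff ℝ (⊤ : ℕ∞) u) (p : Eu n) (R ε : ℝ)

include hu

theorem tang_sq (hε : ε = 1 ∨ ε = -1) (t : ℝ) {w : Eu n} (hw : ‖w‖ = 1) :
    rr R ε t ^ 2 * (‖fderiv ℝ u (p + rr R ε t • w)‖ ^ 2 - (fderiv ℝ u (p + rr R ε t • w) w) ^ 2)
      = ∑ q ∈ prs n, XX (Jij q.1 q.2) (sl u p R ε t) w ^ 2 := by
  rw [← Grd_sum_form _ hw, Finset.mul_sum]
  refine Finset.sum_congr rfl fun q _ => ?_
  rw [XX_sl hu, map_smul, smul_eq_mul, mul_pow]

theorem grad_sq (hε : ε = 1 ∨ ε = -1) (t : ℝ) {w : Eu n} (hw : ‖w‖ = 1) :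
    rr R ε t ^ 2 * ‖fderiv ℝ u (p + rr R ε t • w)‖ ^ 2
      = dsl u p R ε t w ^ 2 + ∑ q ∈ prs n, XX (Jij q.1 q.2) (sl u p R ε t) w ^ 2 := by
  rw [← tang_sq hu p R ε hε t hw]
  have h : dsl u p R ε t w ^ 2 = rr R ε t ^ 2 * (fderiv ℝ u (p + rr R ε t • w) w) ^ 2 := by
    unfold dsl
    rw [map_smul, smul_eq_mul]
    rcases hε with h | h <;> subst h <;> ring
  rw [h]
  ring

end Pool.Agent.H78.SK
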