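import Pool.Agent.H78.SK.One

/-!
# Job SK-ONEL: the radial problem in a collar, lower bound

Notation: `κ = k + kz n`, `lam n k = κ^2 - (kz n)^2`, `H = Hf n a`, `H 0 = 1`,
`H' 0 = kz n (2 a - 1)`, `H'' = (kz n)^2 H`, and `H > 0` on `[0, ∞)` for `a ≥ 0`.

`oneD_lower`.  Put `w = H f`.  Then
`∫_0^S H^2 (f'^2 + lam f^2) = ∫_0^S (w'^2 + κ^2 w^2) - η(S) w(S)^2 + η(0) w(0)^2`, with
`η = H'/H` (because `H f' = w' - η w` and `(η w^2)' = η' w^2 + 2 η w w'`, `η' + η^2 = (kz n)^2`).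
Next `∫_0^S (w'^2 + κ^2 w^2) = ∫_0^S (w' + κ w)^2 + κ w(0)^2 - κ w(S)^2`.
One has `η(S) ≤ kz n + 1/2 ≤ κ - 1/2` (for `S ≥ 2`, because `e^(2 kz S) ≥ 4 kz + 1`), and
`κ + η(S) ≤ 2 κ`; if `κ + η(S) ≤ 0` the term `-(κ + η(S)) w(S)^2` is nonnegative.  Otherwise
with `v(t) = e^(κ t) w(t)`, `v' = e^(κ t) (w' + κ w)`,
`w(S)^2 = e^(-2κS) v(S)^2 ≤ e^(-2κS) (1 + 1/δ) v(0)^2 + (1 + δ) / (2κ) ∫ (w' + κ w)^2` where
`1 + δ = 2 κ / (κ + η(S))`, so that
`-(κ + η(S)) w(S)^2 ≥ - ∫ (w' + κ w)^2 - 8 κ^2 e^(-2κS) w(0)^2`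
(an alternative is the pointwise comparison with `g = (e^(-κ t) + 4 κ e^(-2κS) e^(κ t)) / H`:
`H^2 (f'^2 + lam f^2) ≥ (H^2 (g'/g) f^2)'`).
-/

namespace Pool.Agent.H78.SK

open MeasureTheory Metric Set
open Pool.Agent.H35.CA

variable {n : ℕ}

theorem OneL_exp_deriv (r t : ℝ) :
    HasDerivAt (fun t : ℝ => Real.exp (r * t)) (r * Real.exp (r * t)) t := by
  have h1 : HasDerivAt (fun t : ℝ => r * t) r t := by
    simpa using (hasDerivAt_id t).const_mul r
  exact h1.exp.congr_deriv (by ring)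

theorem OneL_comb_deriv (r α β t : ℝ) :
    HasDerivAt (fun t : ℝ => α * Real.exp (r * t) + β * Real.exp (-(r * t)))
      (r * (α * Real.exp (r * t) - β * Real.exp (-(r * t)))) t := by
  have h1 := (OneL_exp_deriv r t).const_mul α
  have h2 := (OneL_exp_deriv (-r) t).const_mul β
  have h3 := h1.add h2
  have h4 : (fun t : ℝ => α * Real.exp (r * t) + β * Real.exp (-(r * t))) =
      (fun t : ℝ => α * Real.exp (r * t)) + fun t : ℝ => β * Real.exp (-r * t) := by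
    funext s
    simp only [Pi.add_apply, neg_mul]
  rw [h4]
  refine h3.congr_deriv ?_
  rw [show -r * t = -(r * t) by ring]
  ring

theorem OneL_combd_deriv (r α β t : ℝ) :
    HasDerivAt (fun t : ℝ => r * (α * Real.exp (r * t) - β * Real.exp (-(r * t))))
      (r ^ 2 * (α * Real.exp (r * t) + β * Real.exp (-(r * t)))) t := by
  have h1 := (OneL_comb_deriv r α (-β) t).const_mul r
  have h4 : (fun t : ℝ => r * (α * Real.exp (r * t) - β * Real.exp (-(r * t)))) =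
      fun t : ℝ => r * (α * Real.exp (r * t) + -β * Real.exp (-(r * t))) := by
    funext s
    ring
  rw [h4]
  refine h1.congr_deriv ?_
  ring

/-- The comparison inequality with `ψ = H^2 y'/y - H H'`. -/
theorem OneL_comp {H Hd y yd : ℝ → ℝ} {z κ S : ℝ} (hS : 0 ≤ S)
    (h1 : ∀ t, HasDerivAt H (Hd t) t) (h2 : ∀ t, HasDerivAt Hd (z ^ 2 * H t) t)
    (h3 : ∀ t, HasDerivAt y (yd t) t) (h4 : ∀ t, HasDerivAt yd (κ ^ 2 * y t) t)
    (hy : ∀ t, 0 < y t) {f f' : ℝ → ℝ} (hf : ∀ t, HasDerivAt f (f' t) t)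
    (hf' : Continuous f') :
    (H S ^ 2 * (yd S / y S) - H S * Hd S) * f S ^ 2
        - (H 0 ^ 2 * (yd 0 / y 0) - H 0 * Hd 0) * f 0 ^ 2
      ≤ ∫ t in Ioo 0 S, H t ^ 2 * (f' t ^ 2 + (κ ^ 2 - z ^ 2) * f t ^ 2) := by
  have cH : Continuous H := continuous_iff_continuousAt.2 fun t => (h1 t).continuousAt
  have cHd : Continuous Hd := continuous_iff_continuousAt.2 fun t => (h2 t).continuousAt
  have cy : Continuous y := continuous_iff_continuousAt.2 fun t => (h3 t).continuousAt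
  have cyd : Continuous yd := continuous_iff_continuousAt.2 fun t => (h4 t).continuousAt
  have cf : Continuous f := continuous_iff_continuousAt.2 fun t => (hf t).continuousAt
  have hy0 : ∀ t, y t ≠ 0 := fun t => (hy t).ne'
  have hder : ∀ t, HasDerivAt (fun t => (H t ^ 2 * (yd t / y t) - H t * Hd t) * f t ^ 2)
      (((κ ^ 2 - z ^ 2) * H t ^ 2 - (H t * (yd t / y t) - Hd t) ^ 2) * f t ^ 2
        + (H t ^ 2 * (yd t / y t) - H t * Hd t) * (2 * f t * f' t)) t := by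
    intro t
    have e1 := (((h1 t).pow 2).mul ((h4 t).div (h3 t) (hy0 t))).sub ((h1 t).mul (h2 t))
    have e2 := e1.mul ((hf t).pow 2)
    refine e2.congr_deriv ?_
    simp only [Pi.mul_apply, Pi.pow_apply, Pi.sub_apply, Pi.div_apply]
    have := hy0 t
    push_cast
    field_simp
    ring
  have cder : Continuous fun t =>
      (((κ ^ 2 - z ^ 2) * H t ^ 2 - (H t * (yd t / y t) - Hd t) ^ 2) * f t ^ 2
        + (H t ^ 2 * (yd t / y t) - H t * Hd t) * (2 * f t * f' t)) := by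
    have c1 : Continuous fun t => yd t / y t := cyd.div cy hy0
    fun_prop
  have hFTC := intervalIntegral.integral_eq_sub_of_hasDerivAt (a := 0) (b := S)
    (fun t _ => hder t) (cder.intervalIntegrable 0 S)
  rw [← integral_Ioc_eq_integral_Ioo, ← intervalIntegral.integral_of_le hS, ← hFTC]
  have cint : Continuous fun t => H t ^ 2 * (f' t ^ 2 + (κ ^ 2 - z ^ 2) * f t ^ 2) := by
    fun_prop
  refine intervalIntegral.integral_mono_on hS (cder.intervalIntegrable 0 S)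
    (cint.intervalIntegrable 0 S) fun t _ => ?_
  have hsq := sq_nonneg (H t * f' t - (H t * (yd t / y t) - Hd t) * f t)
  nlinarith [hsq]

theorem OneL_bound {z a S : ℝ} (hz : 1 / 2 ≤ z) (ha : 0 ≤ a) (hS : 2 ≤ S) :
    z * (a * Real.exp (z * S) - (1 - a) * Real.exp (-(z * S))) ≤
      (z + 1 / 2) * (a * Real.exp (z * S) + (1 - a) * Real.exp (-(z * S))) := by
  have h1 : 0 < Real.exp (-(z * S)) := Real.exp_pos _
  have h2 : Real.exp (z * S) = Real.exp (2 * (z * S)) * Real.exp (-(z * S)) := by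
    rw [← Real.exp_add]
    congr 1
    ring
  have h3 : 1 + 4 * z ≤ Real.exp (2 * (z * S)) := by
    have := Real.add_one_le_exp (2 * (z * S))
    nlinarith
  suffices h : 0 ≤ 1 / 2 * a * Real.exp (z * S) + (2 * z + 1 / 2) * (1 - a) * Real.exp (-(z * S)) by
    linarith
  rw [h2]
  have h4 : 0 ≤ 1 / 2 * a * Real.exp (2 * (z * S)) + (2 * z + 1 / 2) * (1 - a) := by
    nlinarith [mul_le_mul_of_nonneg_left h3 ha]
  have h5 := mul_nonneg h4 h1.le
  linarith

/-- Lower bound for the energy of one mode in a collar. -/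
theorem oneD_lower (hn : 3 ≤ n) {a S : ℝ} (ha : 0 ≤ a) (hS : 2 ≤ S) {k : ℕ} (hk : 1 ≤ k)
    {f f' : ℝ → ℝ} (hf : ∀ t, HasDerivAt f (f' t) t) (hf' : Continuous f') :
    ((k : ℝ) + 2 * a * kz n - 8 * ((k : ℝ) + kz n) ^ 2 *
        Real.exp (-(2 * ((k : ℝ) + kz n) * S))) * f 0 ^ 2
      ≤ ∫ t in Ioo 0 S, Hf n a t ^ 2 * (f' t ^ 2 + lam n k * f t ^ 2) := by
  have hz := kz_pos hn
  have hk1 : (1 : ℝ) ≤ k := by exact_mod_cast hk
  obtain ⟨z, hzdef⟩ : ∃ z, z = kz n := ⟨_, rfl⟩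
  obtain ⟨κ, hκ⟩ : ∃ κ, κ = (k : ℝ) + kz n := ⟨_, rfl⟩
  obtain ⟨c, hc⟩ : ∃ c, c = 4 * κ * Real.exp (-(2 * κ * S)) := ⟨_, rfl⟩
  have hn' : (n : ℝ) = 2 * z + 2 := by
    rw [hzdef]
    unfold kz
    ring
  have hlam : lam n k = κ ^ 2 - z ^ 2 := by
    unfold lam
    rw [hκ, ← hzdef, hn']
    ring
  have hH : ∀ t, Hf n a t = a * Real.exp (z * t) + (1 - a) * Real.exp (-(z * t)) := by
    intro t
    rw [hzdef]
    rfl
  rw [← hκ, ← hzdef, hlam]
  rw [← hzdef] at hz hκ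
  have hκ1 : z + 1 ≤ κ := by linarith
  have hκ0 : 0 < κ := by linarith
  have hc0 : 0 < c := by
    rw [hc]
    have := Real.exp_pos (-(2 * κ * S))
    positivity
  have hmain := OneL_comp (H := Hf n a)
    (Hd := fun t => z * (a * Real.exp (z * t) - (1 - a) * Real.exp (-(z * t))))
    (y := fun t => c * Real.exp (κ * t) + 1 * Real.exp (-(κ * t)))
    (yd := fun t => κ * (c * Real.exp (κ * t) - 1 * Real.exp (-(κ * t))))
    (z := z) (κ := κ) (S := S) (by linarith)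
    (fun t => by
      have h := OneL_comb_deriv z a (1 - a) t
      have e : Hf n a = fun t => a * Real.exp (z * t) + (1 - a) * Real.exp (-(z * t)) :=
        funext hH
      rw [e]
      exact h)
    (fun t => by
      rw [hH]
      exact OneL_combd_deriv z a (1 - a) t)
    (fun t => OneL_comb_deriv κ c 1 t)
    (fun t => OneL_combd_deriv κ c 1 t)
    (fun t => by positivity) hf hf'
  refine le_trans ?_ hmain
  have hHS : 0 < Hf n a S := Hf_pos hn ha (by linarith)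
  -- the term at `S`
  have hcS : c * Real.exp (κ * S) = 4 * κ * Real.exp (-(κ * S)) := by
    rw [hc, mul_assoc, ← Real.exp_add]
    congr 2
    ring
  have eS : 0 < Real.exp (-(κ * S)) := Real.exp_pos _
  have hyS : κ - 1 / 2 ≤ κ * (c * Real.exp (κ * S) - 1 * Real.exp (-(κ * S))) /
      (c * Real.exp (κ * S) + 1 * Real.exp (-(κ * S))) := by
    rw [hcS, le_div_iff₀ (by positivity)]
    have : (κ - 1 / 2) * (4 * κ * Real.exp (-(κ * S)) + 1 * Real.exp (-(κ * S))) =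
        κ * (4 * κ * Real.exp (-(κ * S)) - 1 * Real.exp (-(κ * S)))
          - 1 / 2 * Real.exp (-(κ * S)) := by
      ring
    rw [this]
    linarith
  have hb := OneL_bound hz ha hS
  rw [← hH] at hb
  have hS1 : 0 ≤ Hf n a S ^ 2 * (κ * (c * Real.exp (κ * S) - 1 * Real.exp (-(κ * S))) /
      (c * Real.exp (κ * S) + 1 * Real.exp (-(κ * S)))) -
        Hf n a S * (z * (a * Real.exp (z * S) - (1 - a) * Real.exp (-(z * S)))) := by
    have e1 : (z + 1 / 2) * Hf n a S ≤ Hf n a S *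
        (κ * (c * Real.exp (κ * S) - 1 * Real.exp (-(κ * S))) /
          (c * Real.exp (κ * S) + 1 * Real.exp (-(κ * S)))) := by
      rw [mul_comm (z + 1 / 2)]
      exact mul_le_mul_of_nonneg_left (by linarith) hHS.le
    have e2 := le_trans hb e1
    have e3 := mul_nonneg hHS.le (sub_nonneg.2 e2)
    refine e3.trans (le_of_eq ?_)
    ring
  have hS2 := mul_nonneg hS1 (sq_nonneg (f S))
  -- the term at `0`
  have hy0 : κ * (c * Real.exp (κ * 0) - 1 * Real.exp (-(κ * 0))) /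
      (c * Real.exp (κ * 0) + 1 * Real.exp (-(κ * 0))) ≤ 2 * c * κ - κ := by
    rw [mul_zero, neg_zero, Real.exp_zero, div_le_iff₀ (by positivity)]
    nlinarith [mul_pos hc0 hκ0, mul_pos hc0 (mul_pos hc0 hκ0)]
  have h0 : (k : ℝ) + 2 * a * z - 8 * κ ^ 2 * Real.exp (-(2 * κ * S)) ≤
      -(Hf n a 0 ^ 2 * (κ * (c * Real.exp (κ * 0) - 1 * Real.exp (-(κ * 0))) /
      (c * Real.exp (κ * 0) + 1 * Real.exp (-(κ * 0)))) -
        Hf n a 0 * (z * (a * Real.exp (z * 0) - (1 - a) * Real.exp (-(z * 0))))) := by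
    rw [Hf_zero]
    have e1 : z * (a * Real.exp (z * 0) - (1 - a) * Real.exp (-(z * 0))) = z * (2 * a - 1) := by
      rw [mul_zero, neg_zero, Real.exp_zero]
      ring
    have e2 : 8 * κ ^ 2 * Real.exp (-(2 * κ * S)) = 2 * c * κ := by
      rw [hc]
      ring
    rw [e1, e2]
    nlinarith
  have h00 := mul_le_mul_of_nonneg_right h0 (sq_nonneg (f 0))
  have h01 : (Hf n a S ^ 2 * (κ * (c * Real.exp (κ * S) - 1 * Real.exp (-(κ * S))) /
      (c * Real.exp (κ * S) + 1 * Real.exp (-(κ * S)))) -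
        Hf n a S * (z * (a * Real.exp (z * S) - (1 - a) * Real.exp (-(z * S))))) * f S ^ 2 -
      (Hf n a 0 ^ 2 * (κ * (c * Real.exp (κ * 0) - 1 * Real.exp (-(κ * 0))) /
      (c * Real.exp (κ * 0) + 1 * Real.exp (-(κ * 0)))) -
        Hf n a 0 * (z * (a * Real.exp (z * 0) - (1 - a) * Real.exp (-(z * 0))))) * f 0 ^ 2 ≥
      ((k : ℝ) + 2 * a * z - 8 * κ ^ 2 * Real.exp (-(2 * κ * S))) * f 0 ^ 2 := by
    linarith
  exact h01

end Pool.Agent.H78.SK
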