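import Pool.Agent.H78.SK.Sli
import Pool.Agent.H78.SK.OneL

/-!
# Job SK-LOW: lower bound for the energy in a collar

Write `û k i t = cf Y (sl u p R ε t) k i`; its derivative is `cf Y (dsl u p R ε t) k i`
(`cf_hasDerivAt`, continuous by `cf_dsl_cont`).  For every `t` and every `K`
`∑_{k<K} ∑_i (û' k i t ^ 2 + lam n k * û k i t ^ 2) ≤ DD u p R ε t`, by `bessel` for `dsl` and
by `sum_lap` (`H35/CA/ShG.lean`) for `sl` (partial sums of a nonnegative series; remember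
`en Y f k = ∑ i, cf Y f k i ^ 2`, and `lam n k ≥ 0`).  Multiply by `Hf^2`, integrate over
`Ioo 0 S` (everything is continuous, `DD_cont`), use `oneD_lower` for `K0 ≤ k < K` and drop the
terms with `k < K0`:
`y ∑_{k<K} en Y (sl u p R ε 0) k ≤ ∫ Hf^2 DD` (the terms `k < K0` on the left vanish by `hz`).
Let `K → ∞`: `parseval` (`H35/CA/ShB.lean`).
-/

namespace Pool.Agent.H78.SK

open MeasureTheory Metric Set
open Pool.Agent.H35.CA

variable {n : ℕ}

theorem Low_lam (hn : 3 ≤ n) (k : ℕ) : 0 ≤ lam n k := by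
  have h : (3 : ℝ) ≤ n := by exact_mod_cast hn
  have h2 : (0 : ℝ) ≤ k := Nat.cast_nonneg k
  unfold lam
  exact mul_nonneg h2 (by linarith)

theorem Low_slice {X : ℝ → Eu n → ℝ} (h : Continuous (fun q : ℝ × Eu n => X q.1 q.2)) (t : ℝ) :
    ContinuousOn (X t) (sphere 0 1) := by
  have h1 : Continuous (X t) := h.comp (Continuous.prodMk_right t)
  exact h1.continuousOn

theorem DD_ge (hn : 3 ≤ n) (Y : SHFam n) {u : Eu n → ℝ} (hu : ContDiff ℝ (⊤ : ℕ∞) u)
    (p : Eu n) (R ε t : ℝ) (K : ℕ) :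
    ∑ k ∈ Finset.range K, ∑ i, (cf Y (dsl u p R ε t) k i ^ 2
      + lam n k * cf Y (sl u p R ε t) k i ^ 2) ≤ DD u p R ε t := by
  have hn1 : 1 ≤ n := by omega
  have h1 : ∑ k ∈ Finset.range K, en Y (dsl u p R ε t) k ≤ H35.CA.sq (dsl u p R ε t) :=
    bessel hn1 Y (Low_slice (X := dsl u p R ε) (dsl_cont hu p R ε) t) K
  have hs2 : ContDiff ℝ ((2 : ℕ) : WithTop ℕ∞) (sl u p R ε t) :=
    contDiff_infty.1 (sl_smooth hu p R ε t) 2
  have hτ : ContDiffOn ℝ 2 (sl u p R ε t) {0}ᶜ := hs2.contDiffOn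
  have h2 := sum_lap hn1 Y hτ
  have h3 : ∑ k ∈ Finset.range K, lam n k * en Y (sl u p R ε t) k
      ≤ ∑ q ∈ prs n, ∫ x, (XX (Jij q.1 q.2) (sl u p R ε t) x) ^ 2 ∂(mu n) :=
    sum_le_hasSum _ (fun k _ => mul_nonneg (Low_lam hn k) (en_nonneg Y _ k)) h2
  have h4 : ∑ k ∈ Finset.range K, ∑ i, (cf Y (dsl u p R ε t) k i ^ 2
      + lam n k * cf Y (sl u p R ε t) k i ^ 2)
      = ∑ k ∈ Finset.range K, en Y (dsl u p R ε t) k
        + ∑ k ∈ Finset.range K, lam n k * en Y (sl u p R ε t) k := by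
    rw [← Finset.sum_add_distrib]
    refine Finset.sum_congr rfl fun k _ => ?_
    rw [en, en, Finset.mul_sum, ← Finset.sum_add_distrib]
  rw [h4]
  exact add_le_add h1 h3

theorem Low_Hf_cont (a : ℝ) : Continuous (Hf n a) := by
  unfold Hf
  fun_prop

theorem Low_int {F : ℝ → ℝ} (hF : Continuous F) (S : ℝ) : IntegrableOn F (Ioo 0 S) volume :=
  (hF.integrableOn_Icc (a := 0) (b := S)).mono_set Ioo_subset_Icc_self

theorem col_lower (hn : 3 ≤ n) (Y : SHFam n) {u : Eu n → ℝ} (hu : ContDiff ℝ (⊤ : ℕ∞) u)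
    (p : Eu n) (R ε : ℝ) {a S y : ℝ} (ha : 0 ≤ a) (hS : 2 ≤ S) {K0 : ℕ} (hK0 : 1 ≤ K0)
    (hy0 : 0 ≤ y)
    (hy : ∀ k : ℕ, K0 ≤ k → y ≤ (k : ℝ) + 2 * a * kz n - 8 * ((k : ℝ) + kz n) ^ 2 *
        Real.exp (-(2 * ((k : ℝ) + kz n) * S)))
    (hz : ∀ k < K0, ∀ i, cf Y (sl u p R ε 0) k i = 0) :
    y * H35.CA.sq (sl u p R ε 0) ≤ ∫ t in Ioo 0 S, Hf n a t ^ 2 * DD u p R ε t := by
  have hn1 : 1 ≤ n := by omega
  have hH : Continuous (Hf n a) := Low_Hf_cont a
  have hDD : Continuous (DD u p R ε) := DD_cont hu p R ε hn1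
  have hf : ∀ k i, ∀ t, HasDerivAt (fun t => cf Y (sl u p R ε t) k i)
      (cf Y (dsl u p R ε t) k i) t := fun k i t => cf_hasDerivAt hu p R ε hn1 Y k i t
  have hfc : ∀ k i, Continuous (fun t => cf Y (sl u p R ε t) k i) := fun k i =>
    continuous_iff_continuousAt.2 fun t => (hf k i t).continuousAt
  have hf' : ∀ k i, Continuous (fun t => cf Y (dsl u p R ε t) k i) := fun k i =>
    cf_dsl_cont hu p R ε hn1 Y k i
  -- the integrand of one mode
  have hG : ∀ k (i : Fin (Y.m k)), Continuous (fun t => Hf n a t ^ 2 *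
      (cf Y (dsl u p R ε t) k i ^ 2 + lam n k * cf Y (sl u p R ε t) k i ^ 2)) := fun k i =>
    (hH.pow 2).mul (((hf' k i).pow 2).add (continuous_const.mul ((hfc k i).pow 2)))
  have hone : ∀ k (i : Fin (Y.m k)), y * cf Y (sl u p R ε 0) k i ^ 2 ≤
      ∫ t in Ioo 0 S, Hf n a t ^ 2 *
        (cf Y (dsl u p R ε t) k i ^ 2 + lam n k * cf Y (sl u p R ε t) k i ^ 2) := by
    intro k i
    by_cases hk : K0 ≤ k
    · refine le_trans ?_ (oneD_lower hn ha hS (hK0.trans hk) (hf k i) (hf' k i))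
      exact mul_le_mul_of_nonneg_right (hy k hk) (sq_nonneg _)
    · rw [hz k (by omega) i]
      have h0 : 0 ≤ ∫ t in Ioo 0 S, Hf n a t ^ 2 *
        (cf Y (dsl u p R ε t) k i ^ 2 + lam n k * cf Y (sl u p R ε t) k i ^ 2) :=
        integral_nonneg fun t => mul_nonneg (sq_nonneg _)
          (add_nonneg (sq_nonneg _) (mul_nonneg (Low_lam hn k) (sq_nonneg _)))
      simpa using h0
  have hK : ∀ K : ℕ, y * ∑ k ∈ Finset.range K, en Y (sl u p R ε 0) k
      ≤ ∫ t in Ioo 0 S, Hf n a t ^ 2 * DD u p R ε t := by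
    intro K
    have e1 : y * ∑ k ∈ Finset.range K, en Y (sl u p R ε 0) k
        = ∑ k ∈ Finset.range K, ∑ i, y * cf Y (sl u p R ε 0) k i ^ 2 := by
      rw [Finset.mul_sum]
      refine Finset.sum_congr rfl fun k _ => ?_
      rw [en, Finset.mul_sum]
    rw [e1]
    refine (Finset.sum_le_sum fun k _ => Finset.sum_le_sum fun i _ => hone k i).trans ?_
    have e2 : ∑ k ∈ Finset.range K, ∑ i, ∫ t in Ioo 0 S, Hf n a t ^ 2 *
        (cf Y (dsl u p R ε t) k i ^ 2 + lam n k * cf Y (sl u p R ε t) k i ^ 2)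
        = ∫ t in Ioo 0 S, ∑ k ∈ Finset.range K, ∑ i, Hf n a t ^ 2 *
        (cf Y (dsl u p R ε t) k i ^ 2 + lam n k * cf Y (sl u p R ε t) k i ^ 2) := by
      rw [integral_finsetSum]
      · refine Finset.sum_congr rfl fun k _ => ?_
        rw [integral_finsetSum]
        exact fun i _ => Low_int (hG k i) S
      · exact fun k _ => integrable_finsetSum _ fun i _ => Low_int (hG k i) S
    rw [e2]
    refine integral_mono (integrable_finsetSum _ fun k _ => integrable_finsetSum _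
      fun i _ => Low_int (hG k i) S) (Low_int ((hH.pow 2).mul hDD) S) fun t => ?_
    have e3 : ∑ k ∈ Finset.range K, ∑ i, Hf n a t ^ 2 *
        (cf Y (dsl u p R ε t) k i ^ 2 + lam n k * cf Y (sl u p R ε t) k i ^ 2)
        = Hf n a t ^ 2 * ∑ k ∈ Finset.range K, ∑ i,
        (cf Y (dsl u p R ε t) k i ^ 2 + lam n k * cf Y (sl u p R ε t) k i ^ 2) := by
      rw [Finset.mul_sum]
      exact Finset.sum_congr rfl fun k _ => (Finset.mul_sum _ _ _).symm
    change ∑ k ∈ Finset.range K, ∑ i, Hf n a t ^ 2 *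
        (cf Y (dsl u p R ε t) k i ^ 2 + lam n k * cf Y (sl u p R ε t) k i ^ 2)
        ≤ Hf n a t ^ 2 * DD u p R ε t
    rw [e3]
    exact mul_le_mul_of_nonneg_left (DD_ge hn Y hu p R ε t K) (sq_nonneg _)
  have hlim := (parseval hn1 Y
    (Low_slice (X := sl u p R ε) (sl_cont hu p R ε) 0)).tendsto_sum_nat.const_mul y
  exact le_of_tendsto' hlim hK

end Pool.Agent.H78.SK
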