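import Pool.Agent.H78.SK.Low
import Pool.Agent.H78.SK.Tst
import Pool.Agent.H78.SK.Min
import Pool.Agent.H78.SK.Dim

/-!
# Job SK-REAL: lower bounds for the Steklov eigenvalues of a domain with separable collars

Put `g c = 2 * a c * kz n`, `I c k = (k + g c) / r c`.

`real_lower`.  `K = ∑ c, (8 / r c + g c / r c) * exp (C * (g c / r c))`.  Let
`y = x - K exp (-C x)`.  If `y ≤ 0`: `minmax_nonneg`.  If `y > 0`, all `κ c ≥ 1`: otherwise
`x ≤ g c / r c` and `K exp (-C x) ≥ g c / r c ≥ x`.  For `k ≥ κ c`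
`y * r c ≤ k + g c - 8 κ^2 e^(-2κS)`, `κ = k + kz n`: `s ↦ s - K exp (-C s)` is increasing, so
`y ≤ I c k - K exp (-C I c k)`, and `K exp (-C I c k) ≥ (8 / r c) exp (-C k / r c)
≥ (8 / r c) exp (-2 k (S - 2)) ≥ (8 / r c) κ^2 e^(-2κS)` (because `κ^2 ≤ e^(2κ)`, `k ≤ κ`).
Apply `minmax_lower` with the index type `(c : Option (Fin N)) × (k : Fin (κ c)) × Fin (Y.m k)`
(of cardinality `∑ cum Y (κ c)`), the functionals
`u ↦ cf Y (sl u (cen c) (rad c) (eps c) 0) k i`, `energy_ge`, `col_lower` (for `y * r c`) and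
`mass_eq`.  The last hypothesis of `minmax_lower` comes from `test_family` and `minmax_space`
with `K c = j + 1` (`cum_ge`).
-/

namespace Pool.Agent.H78.SK

open MeasureTheory Metric Set
open Pool.Agent.H35.CA

variable {n N : ℕ}

theorem ReaL_scalar {C r S g z K x : ℝ} (hC : 0 ≤ C) (hr : 0 < r) (hS : 3 ≤ S)
    (hCr : C / r ≤ 2 * (S - 2)) (hz : 0 ≤ z) (hK0 : 0 ≤ K)
    (hK : 8 / r * Real.exp (C * (g / r)) ≤ K) (k : ℕ) (hx : x ≤ ((k : ℝ) + g) / r) :
    (x - K * Real.exp (-(C * x))) * r ≤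
      (k : ℝ) + g - 8 * ((k : ℝ) + z) ^ 2 * Real.exp (-(2 * ((k : ℝ) + z) * S)) := by
  have hk : (0 : ℝ) ≤ k := Nat.cast_nonneg k
  set I : ℝ := ((k : ℝ) + g) / r with hI
  have hIr : I * r = (k : ℝ) + g := by rw [hI]; field_simp
  have e1 : Real.exp (-(C * I)) ≤ Real.exp (-(C * x)) := by
    refine Real.exp_le_exp.2 ?_
    have := mul_le_mul_of_nonneg_left hx hC
    linarith
  have h1 : x - K * Real.exp (-(C * x)) ≤ I - K * Real.exp (-(C * I)) := by
    have := mul_le_mul_of_nonneg_left e1 hK0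
    linarith
  have h2 : 8 / r * Real.exp (-(C / r * k)) ≤ K * Real.exp (-(C * I)) := by
    have h3 := mul_le_mul_of_nonneg_right hK (Real.exp_pos (-(C * I))).le
    have h4 : 8 / r * Real.exp (C * (g / r)) * Real.exp (-(C * I)) =
        8 / r * Real.exp (-(C / r * k)) := by
      rw [mul_assoc, ← Real.exp_add]
      congr 2
      rw [hI]
      field_simp
      ring
    linarith
  have h5 : ((k : ℝ) + z) ^ 2 * Real.exp (-(2 * ((k : ℝ) + z) * S)) ≤
      Real.exp (-(C / r * k)) := by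
    have h6 : (k : ℝ) + z ≤ Real.exp ((k : ℝ) + z) := by
      have := Real.add_one_le_exp ((k : ℝ) + z)
      linarith
    have h7 : ((k : ℝ) + z) ^ 2 ≤ Real.exp (2 * ((k : ℝ) + z)) := by
      have h8 : Real.exp (2 * ((k : ℝ) + z)) = Real.exp ((k : ℝ) + z) ^ 2 := by
        rw [← Real.exp_nat_mul]
        norm_num
      rw [h8]
      exact pow_le_pow_left₀ (by linarith) h6 2
    calc ((k : ℝ) + z) ^ 2 * Real.exp (-(2 * ((k : ℝ) + z) * S))
        ≤ Real.exp (2 * ((k : ℝ) + z)) * Real.exp (-(2 * ((k : ℝ) + z) * S)) :=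
          mul_le_mul_of_nonneg_right h7 (Real.exp_pos _).le
      _ = Real.exp (2 * ((k : ℝ) + z) + -(2 * ((k : ℝ) + z) * S)) := by rw [Real.exp_add]
      _ ≤ Real.exp (-(C / r * k)) := by
          refine Real.exp_le_exp.2 ?_
          have h9 : C / r * k ≤ 2 * (S - 2) * k := mul_le_mul_of_nonneg_right hCr hk
          nlinarith [mul_nonneg hz (by linarith : (0 : ℝ) ≤ S - 1)]
  have h10 : 8 / r * (((k : ℝ) + z) ^ 2 * Real.exp (-(2 * ((k : ℝ) + z) * S))) ≤
      8 / r * Real.exp (-(C / r * k)) :=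
    mul_le_mul_of_nonneg_left h5 (by positivity)
  have h11 : x - K * Real.exp (-(C * x)) ≤
      I - 8 / r * (((k : ℝ) + z) ^ 2 * Real.exp (-(2 * ((k : ℝ) + z) * S))) := by linarith
  have h12 := mul_le_mul_of_nonneg_right h11 hr.le
  have h13 : (I - 8 / r * (((k : ℝ) + z) ^ 2 * Real.exp (-(2 * ((k : ℝ) + z) * S)))) * r =
      (k : ℝ) + g - 8 * ((k : ℝ) + z) ^ 2 * Real.exp (-(2 * ((k : ℝ) + z) * S)) := by
    rw [sub_mul, hIr]
    field_simp
  linarith

theorem ReaL_zero {C r g K x : ℝ} (hC : 0 ≤ C) (hr : 0 < r) (hg : 0 ≤ g)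
    (hK : g / r * Real.exp (C * (g / r)) ≤ K) (hx : x ≤ g / r) :
    x - K * Real.exp (-(C * x)) ≤ 0 := by
  have h0 : 0 ≤ g / r := by positivity
  have h1 : 1 ≤ Real.exp (C * (g / r)) * Real.exp (-(C * x)) := by
    rw [← Real.exp_add]
    refine Real.one_le_exp ?_
    have := mul_le_mul_of_nonneg_left hx hC
    linarith
  have h2 := mul_le_mul_of_nonneg_right hK (Real.exp_pos (-(C * x))).le
  have h3 := mul_le_mul_of_nonneg_left h1 h0
  linarith

theorem ReaL_sl_add (u v : Eu n → ℝ) (p : Eu n) (R ε t : ℝ) :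
    sl (u + v) p R ε t = fun x => sl u p R ε t x + sl v p R ε t x := rfl

theorem ReaL_sl_smul (c : ℝ) (u : Eu n → ℝ) (p : Eu n) (R ε t : ℝ) :
    sl (c • u) p R ε t = fun x => c * sl u p R ε t x := rfl

theorem ReaL_cf_smul (Y : SHFam n) (c : ℝ) (f : Eu n → ℝ) (k : ℕ) (i : Fin (Y.m k)) :
    cf Y (fun x => c * f x) k i = c * cf Y f k i := by
  unfold cf
  rw [← integral_const_mul]
  congr 1
  funext x
  ring

/-- The space of test functions. -/
theorem ReaL_space (hn : 3 ≤ n) (Y : SHFam n) {D : Dom n N} {r a : Option (Fin N) → ℝ}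
    {S : ℝ} (h : SD D r a S) (j : ℕ) :
    ∃ V : Submodule ℝ (Eu n → ℝ), Module.finrank ℝ V = j + 1 ∧
      (∀ u ∈ V, ContDiff ℝ (⊤ : ℕ∞) u) ∧ (∀ u ∈ V, u ≠ 0 → 0 < D.mass u) ∧
      ∃ s : ℝ, ∀ u ∈ V, D.energy u ≤ s * D.mass u := by
  obtain ⟨C, hC, u, hu, hfam⟩ := test_family hn Y h
  have hkz : 0 ≤ kz n := by have := kz_pos hn; linarith
  have hnom : 0 < (n : ℝ) * om n := by
    have h1 : (0 : ℝ) < n := by
      have : 0 < n := by omega
      exact_mod_cast this
    exact mul_pos h1 (om_pos n)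
  -- coefficients
  set zz : ((c : Option (Fin N)) × (k : Fin (j + 1)) × Fin (Y.m k) → ℝ) →
      Option (Fin N) → (k : ℕ) → Fin (Y.m k) → ℝ := fun z c k i =>
    if hk : k < j + 1 then z ⟨c, ⟨⟨k, hk⟩, i⟩⟩ else 0 with hzz
  have hfun : ∀ z : (c : Option (Fin N)) × (k : Fin (j + 1)) × Fin (Y.m k) → ℝ,
      (fun x => ∑ p, z p * u p.1 (p.2.1 : ℕ) p.2.2 x) =
        fun x => ∑ c, ∑ k ∈ Finset.range (j + 1), ∑ i, zz z c k i * u c k i x := by
    intro z
    funext x
    rw [Fintype.sum_sigma]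
    refine Finset.sum_congr rfl fun c _ => ?_
    rw [Fintype.sum_sigma, Finset.sum_range]
    refine Finset.sum_congr rfl fun k _ => ?_
    refine Finset.sum_congr rfl fun i _ => ?_
    rw [hzz]
    simp only [dif_pos k.2]
  have hM : ∀ z, D.mass (fun x => ∑ p, z p * u p.1 (p.2.1 : ℕ) p.2.2 x) =
      (n : ℝ) * om n * ∑ c, (r c ^ (n - 1) *
            ∑ k ∈ Finset.range (j + 1), ∑ i, zz z c k i ^ 2) := by
    intro z
    rw [hfun z]
    exact (hfam (fun _ => j + 1) (zz z)).1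
  have hE : ∀ z, D.energy (fun x => ∑ p, z p * u p.1 (p.2.1 : ℕ) p.2.2 x) ≤
      (n : ℝ) * om n * ∑ c, (r c ^ (n - 2) *
            ∑ k ∈ Finset.range (j + 1), ∑ i, zz z c k i ^ 2 * ((k : ℝ) + 2 * a c * kz n
              + C * Real.exp (-(2 * ((k : ℝ) + kz n) * (S - 2))))) := by
    intro z
    rw [hfun z]
    exact (hfam (fun _ => j + 1) (zz z)).2.1
  have hz2 : ∀ z c, 0 ≤ ∑ k ∈ Finset.range (j + 1), ∑ i, zz z c k i ^ 2 := fun z c =>
    Finset.sum_nonneg fun k _ => Finset.sum_nonneg fun i _ => sq_nonneg _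
  have hcard : j < Fintype.card ((c : Option (Fin N)) × (k : Fin (j + 1)) × Fin (Y.m k)) := by
    rw [Fintype.card_sigma]
    have h1 : Fintype.card ((k : Fin (j + 1)) × Fin (Y.m k)) = cum Y (j + 1) := by
      rw [Fintype.card_sigma]
      unfold cum
      rw [Finset.sum_range]
      exact Finset.sum_congr rfl fun k _ => Fintype.card_fin _
    have h2 := cum_ge (by omega : 2 ≤ n) Y j
    have h3 : Fintype.card ((k : Fin (j + 1)) × Fin (Y.m k)) ≤
        ∑ c : Option (Fin N), Fintype.card ((k : Fin (j + 1)) × Fin (Y.m k)) :=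
      Finset.single_le_sum (f := fun _ : Option (Fin N) =>
        Fintype.card ((k : Fin (j + 1)) × Fin (Y.m k))) (fun _ _ => Nat.zero_le _)
        (Finset.mem_univ none)
    omega
  set s : ℝ := ∑ c, ((j : ℝ) + 1 + 2 * a c * kz n + C) / r c with hs
  have hterm : ∀ c, 0 ≤ ((j : ℝ) + 1 + 2 * a c * kz n + C) / r c := by
    intro c
    have h1 := h.a_nonneg c
    have h2 := h.r_pos c
    have h3 : 0 ≤ a c * kz n := mul_nonneg h1 hkz
    have h4 : (0 : ℝ) ≤ j := Nat.cast_nonneg j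
    refine div_nonneg ?_ h2.le
    nlinarith
  have hle : ∀ c, ((j : ℝ) + 1 + 2 * a c * kz n + C) / r c ≤ s := fun c =>
    Finset.single_le_sum (f := fun c => ((j : ℝ) + 1 + 2 * a c * kz n + C) / r c)
      (fun c _ => hterm c) (Finset.mem_univ c)
  obtain ⟨V, hV1, hV2, hV3, hV4⟩ := minmax_space (Q := D.energy) (b := D.mass) hcard (s := s)
    (fun p => u p.1 (p.2.1 : ℕ) p.2.2) (fun p => hu _ _ _)
    (by
      intro z hz
      rw [hM z]
      refine mul_pos hnom ?_
      obtain ⟨p, hp⟩ : ∃ p, z p ≠ 0 := by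
        by_contra hcon
        push Not at hcon
        exact hz (funext hcon)
      have hpos : 0 < ∑ k ∈ Finset.range (j + 1), ∑ i, zz z p.1 k i ^ 2 := by
        have h1 : 0 < zz z p.1 (p.2.1 : ℕ) p.2.2 ^ 2 := by
          have : zz z p.1 (p.2.1 : ℕ) p.2.2 = z p := by
            rw [hzz]
            simp only [dif_pos p.2.1.2]
          rw [this]
          positivity
        have h2 : zz z p.1 (p.2.1 : ℕ) p.2.2 ^ 2 ≤ ∑ i, zz z p.1 (p.2.1 : ℕ) i ^ 2 :=
          Finset.single_le_sum (f := fun i => zz z p.1 (p.2.1 : ℕ) i ^ 2)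
            (fun i _ => sq_nonneg _) (Finset.mem_univ p.2.2)
        have h3 : ∑ i, zz z p.1 (p.2.1 : ℕ) i ^ 2 ≤
            ∑ k ∈ Finset.range (j + 1), ∑ i, zz z p.1 k i ^ 2 :=
          Finset.single_le_sum (f := fun k => ∑ i, zz z p.1 k i ^ 2)
            (fun k _ => Finset.sum_nonneg fun i _ => sq_nonneg _) (Finset.mem_range.2 p.2.1.2)
        linarith
      have h4 : 0 < r p.1 ^ (n - 1) * ∑ k ∈ Finset.range (j + 1), ∑ i, zz z p.1 k i ^ 2 :=
        mul_pos (pow_pos (h.r_pos _) _) hpos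
      have h5 : r p.1 ^ (n - 1) * ∑ k ∈ Finset.range (j + 1), ∑ i, zz z p.1 k i ^ 2 ≤
          ∑ c, (r c ^ (n - 1) * ∑ k ∈ Finset.range (j + 1), ∑ i, zz z c k i ^ 2) :=
        Finset.single_le_sum (f := fun c => r c ^ (n - 1) *
          ∑ k ∈ Finset.range (j + 1), ∑ i, zz z c k i ^ 2)
          (fun c _ => mul_nonneg (pow_pos (h.r_pos c) _).le (hz2 z c)) (Finset.mem_univ p.1)
      linarith)
    (by
      intro z
      rw [hM z]
      refine (hE z).trans ?_
      have h1 : ∑ c, (r c ^ (n - 2) *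
            ∑ k ∈ Finset.range (j + 1), ∑ i, zz z c k i ^ 2 * ((k : ℝ) + 2 * a c * kz n
              + C * Real.exp (-(2 * ((k : ℝ) + kz n) * (S - 2))))) ≤
          s * ∑ c, (r c ^ (n - 1) * ∑ k ∈ Finset.range (j + 1), ∑ i, zz z c k i ^ 2) := by
        rw [Finset.mul_sum]
        refine Finset.sum_le_sum fun c _ => ?_
        have hr := h.r_pos c
        have hrn : r c ^ (n - 1) = r c ^ (n - 2) * r c := by
          rw [← pow_succ]
          congr 1
          omega
        have h2 : ∑ k ∈ Finset.range (j + 1), ∑ i, zz z c k i ^ 2 * ((k : ℝ) + 2 * a c * kz n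
              + C * Real.exp (-(2 * ((k : ℝ) + kz n) * (S - 2)))) ≤
            ((j : ℝ) + 1 + 2 * a c * kz n + C) *
              ∑ k ∈ Finset.range (j + 1), ∑ i, zz z c k i ^ 2 := by
          rw [Finset.mul_sum]
          refine Finset.sum_le_sum fun k hk => ?_
          rw [Finset.mul_sum]
          refine Finset.sum_le_sum fun i _ => ?_
          rw [mul_comm]
          refine mul_le_mul_of_nonneg_right ?_ (sq_nonneg _)
          have h3 : (k : ℝ) ≤ j + 1 := by
            have := Finset.mem_range.1 hk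
            have h4 : k ≤ j + 1 := by omega
            exact_mod_cast h4
          have h5 : Real.exp (-(2 * ((k : ℝ) + kz n) * (S - 2))) ≤ 1 := by
            rw [Real.exp_le_one_iff]
            have h6 : (0 : ℝ) ≤ k := Nat.cast_nonneg k
            have h7 : 0 ≤ S - 2 := by have := h.S_ge; linarith
            have h8 : 0 ≤ ((k : ℝ) + kz n) * (S - 2) := mul_nonneg (by linarith) h7
            linarith
          have h9 := mul_le_mul_of_nonneg_left h5 hC
          linarith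
        have h3 : r c ^ (n - 2) * ∑ k ∈ Finset.range (j + 1), ∑ i, zz z c k i ^ 2 *
              ((k : ℝ) + 2 * a c * kz n + C * Real.exp (-(2 * ((k : ℝ) + kz n) * (S - 2)))) ≤
            r c ^ (n - 2) * (((j : ℝ) + 1 + 2 * a c * kz n + C) *
              ∑ k ∈ Finset.range (j + 1), ∑ i, zz z c k i ^ 2) :=
          mul_le_mul_of_nonneg_left h2 (pow_pos hr _).le
        refine h3.trans ?_
        have h4 : r c ^ (n - 2) * (((j : ℝ) + 1 + 2 * a c * kz n + C) *
              ∑ k ∈ Finset.range (j + 1), ∑ i, zz z c k i ^ 2) =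
            ((j : ℝ) + 1 + 2 * a c * kz n + C) / r c * (r c ^ (n - 1) *
              ∑ k ∈ Finset.range (j + 1), ∑ i, zz z c k i ^ 2) := by
          rw [hrn]
          field_simp
        rw [h4]
        exact mul_le_mul_of_nonneg_right (hle c)
          (mul_nonneg (pow_pos hr _).le (hz2 z c))
      have h2 := mul_le_mul_of_nonneg_left h1 hnom.le
      calc _ ≤ _ := h2
        _ = _ := by ring)
    (by simp [Dom.mass])
  exact ⟨V, hV1, hV2, hV3, s, hV4⟩

theorem real_lower (hn : 3 ≤ n) (Y : SHFam n) {D : Dom n N} {r a : Option (Fin N) → ℝ}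
    {S C : ℝ} (h : SD D r a S) (hC : 0 ≤ C) (hS : ∀ c, C / r c ≤ 2 * (S - 2)) :
    ∃ K : ℝ, 0 ≤ K ∧ ∀ (j : ℕ) (x : ℝ) (κ : Option (Fin N) → ℕ),
      (∀ c (k : ℕ), κ c ≤ k → x ≤ ((k : ℝ) + 2 * a c * kz n) / r c) →
      ∑ c, cum Y (κ c) ≤ j → x - K * Real.exp (-(C * x)) ≤ D.steklov j := by
  have hkz : 0 ≤ kz n := by have := kz_pos hn; linarith
  have hg0 : ∀ c, 0 ≤ 2 * a c * kz n := fun c =>
    mul_nonneg (mul_nonneg (by norm_num) (h.a_nonneg c)) hkz
  have hnom : 0 < (n : ℝ) * om n := by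
    have h1 : (0 : ℝ) < n := by
      have : 0 < n := by omega
      exact_mod_cast this
    exact mul_pos h1 (om_pos n)
  set K : ℝ := ∑ c, (8 / r c + 2 * a c * kz n / r c) *
    Real.exp (C * (2 * a c * kz n / r c)) with hKdef
  have hKt : ∀ c, 0 ≤ (8 / r c + 2 * a c * kz n / r c) *
      Real.exp (C * (2 * a c * kz n / r c)) := fun c =>
    mul_nonneg (add_nonneg (div_nonneg (by norm_num) (h.r_pos c).le)
      (div_nonneg (hg0 c) (h.r_pos c).le)) (Real.exp_pos _).le
  have hK0 : 0 ≤ K := Finset.sum_nonneg fun c _ => hKt c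
  have hKc : ∀ c, (8 / r c + 2 * a c * kz n / r c) *
      Real.exp (C * (2 * a c * kz n / r c)) ≤ K := fun c =>
    Finset.single_le_sum (f := fun c => (8 / r c + 2 * a c * kz n / r c) *
      Real.exp (C * (2 * a c * kz n / r c))) (fun c _ => hKt c) (Finset.mem_univ c)
  have hK1 : ∀ c, 8 / r c * Real.exp (C * (2 * a c * kz n / r c)) ≤ K := by
    intro c
    refine le_trans (mul_le_mul_of_nonneg_right ?_ (Real.exp_pos _).le) (hKc c)
    have := div_nonneg (hg0 c) (h.r_pos c).le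
    linarith
  have hK2 : ∀ c, 2 * a c * kz n / r c * Real.exp (C * (2 * a c * kz n / r c)) ≤ K := by
    intro c
    refine le_trans (mul_le_mul_of_nonneg_right ?_ (Real.exp_pos _).le) (hKc c)
    have : 0 ≤ 8 / r c := div_nonneg (by norm_num) (h.r_pos c).le
    linarith
  refine ⟨K, hK0, fun j x κ hx hj => ?_⟩
  show x - K * Real.exp (-(C * x)) ≤ minmax D.energy D.mass j
  by_cases hy : x - K * Real.exp (-(C * x)) ≤ 0
  · exact hy.trans (minmax_nonneg (energy_nonneg D) j)
  · push Not at hy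
    have hκ : ∀ c, 1 ≤ κ c := by
      intro c
      by_contra hcon
      have h0 : κ c = 0 := by omega
      have h1 := hx c 0 (by omega)
      rw [Nat.cast_zero, zero_add] at h1
      have h2 := ReaL_zero hC (h.r_pos c) (hg0 c) (hK2 c) h1
      linarith
    refine minmax_lower (energy_nonneg D)
      (κ := (c : Option (Fin N)) × (k : Fin (κ c)) × Fin (Y.m k)) ?_
      (fun p u => cf Y (sl u (D.cen p.1) (D.rad p.1) (eps p.1) 0) (p.2.1 : ℕ) p.2.2)
      ?_ ?_ ?_ (ReaL_space hn Y h j)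
    · rw [Fintype.card_sigma]
      refine le_trans (le_of_eq ?_) hj
      refine Finset.sum_congr rfl fun c _ => ?_
      rw [Fintype.card_sigma]
      unfold cum
      rw [Finset.sum_range]
      exact Finset.sum_congr rfl fun k _ => Fintype.card_fin _
    · intro p u v hu hv
      show cf Y (sl (u + v) (D.cen p.1) (D.rad p.1) (eps p.1) 0) _ _ = _
      rw [ReaL_sl_add]
      exact shg_cf_add (by omega) Y (sl_smooth hu _ _ _ 0).continuous.continuousOn
        (sl_smooth hv _ _ _ 0).continuous.continuousOn _ _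
    · intro p c u hu
      show cf Y (sl (c • u) (D.cen p.1) (D.rad p.1) (eps p.1) 0) _ _ = _
      rw [ReaL_sl_smul, ReaL_cf_smul]
    · intro u hu hz
      refine le_trans ?_ (energy_ge hn h hu)
      rw [mass_eq hn h u]
      have h1 : ∀ c, (x - K * Real.exp (-(C * x))) * (r c ^ (n - 1) *
          H35.CA.sq (sl u (D.cen c) (D.rad c) (eps c) 0)) ≤ r c ^ (n - 2) *
          ∫ t in Ioo 0 S, Hf n (a c) t ^ 2 * DD u (D.cen c) (D.rad c) (eps c) t := by
        intro c
        have hr := h.r_pos c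
        have h2 := col_lower hn Y hu (D.cen c) (D.rad c) (eps c) (a := a c) (S := S)
          (y := (x - K * Real.exp (-(C * x))) * r c) (h.a_nonneg c)
          (by have := h.S_ge; linarith) (hκ c) (mul_pos hy hr).le
          (fun k hk => ReaL_scalar hC hr h.S_ge (hS c) hkz hK0 (hK1 c) k (hx c k hk))
          (fun k hk i => hz ⟨c, ⟨⟨k, hk⟩, i⟩⟩)
        have h3 := mul_le_mul_of_nonneg_left h2 (pow_pos hr (n - 2)).le
        have hrn : r c ^ (n - 1) = r c ^ (n - 2) * r c := by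
          rw [← pow_succ]
          congr 1
          omega
        refine le_trans (le_of_eq ?_) h3
        rw [hrn]
        ring
      have h4 := mul_le_mul_of_nonneg_left (Finset.sum_le_sum fun c (_ : c ∈ Finset.univ) => h1 c)
        hnom.le
      refine le_trans (le_of_eq ?_) h4
      rw [← Finset.mul_sum]
      ring

end Pool.Agent.H78.SK
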