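import Pool.Agent.H78.SK.Base

/-!
# Job SK-SLI: slices of a function along a collar

`sl u p R ε t x = u (p + rr R ε t • x)`, `rr R ε t = R * exp (ε * t)`; `d/dt rr = ε * rr`.
`cf_hasDerivAt`: differentiation under the integral sign over the unit sphere, as in the proof
of `XX_int` in `H35/CA/SphC.lean`; bound for `t` in a compact interval by continuity on a
compact set (`dsl_cont`).
-/

namespace Pool.Agent.H78.SK

open MeasureTheory Metric Set
open Pool.Agent.H35.CA

variable {n : ℕ}

/-- Continuity of integrals over the sphere depending on a parameter. -/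
theorem Sli_cont_int (hn : 1 ≤ n) {G : ℝ × Eu n → ℝ} (hG : Continuous G) :
    Continuous (fun t : ℝ => ∫ x, G (t, x) ∂(mu n)) := by
  have := mu_prob (n := n) hn
  rw [continuous_iff_continuousAt]
  intro t
  obtain ⟨C, hC⟩ := ((isCompact_Icc (a := t - 1) (b := t + 1)).prod
    (isCompact_sphere (0 : Eu n) 1)).exists_bound_of_continuousOn hG.continuousOn
  refine continuousAt_of_dominated (bound := fun _ => C) ?_ ?_ (integrable_const C) ?_
  · refine Filter.Eventually.of_forall fun s => ?_
    exact (hG.comp (Continuous.prodMk_right s)).aestronglyMeasurable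
  · have hmem : Icc (t - 1) (t + 1) ∈ nhds t := Icc_mem_nhds (by linarith) (by linarith)
    filter_upwards [hmem] with s hs
    filter_upwards [mu_ae (n := n) hn] with x hx
    exact hC (s, x) ⟨hs, mem_sphere_zero_iff_norm.2 hx⟩
  · refine Filter.Eventually.of_forall fun x => ?_
    exact (hG.comp (Continuous.prodMk_left x)).continuousAt

/-- Differentiation under the integral sign. -/
theorem Sli_deriv_int (hn : 1 ≤ n) {G G' : ℝ × Eu n → ℝ} (hG : Continuous G)
    (hG' : Continuous G') (hd : ∀ t x, HasDerivAt (fun s => G (s, x)) (G' (t, x)) t) (t : ℝ) :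
    HasDerivAt (fun s : ℝ => ∫ x, G (s, x) ∂(mu n)) (∫ x, G' (t, x) ∂(mu n)) t := by
  have := mu_prob (n := n) hn
  obtain ⟨C, hC⟩ := ((isCompact_Icc (a := t - 1) (b := t + 1)).prod
    (isCompact_sphere (0 : Eu n) 1)).exists_bound_of_continuousOn hG'.continuousOn
  have hmem : Icc (t - 1) (t + 1) ∈ nhds t := Icc_mem_nhds (by linarith) (by linarith)
  have hmain := hasDerivAt_integral_of_dominated_loc_of_deriv_le (μ := mu n)
    (F := fun (s : ℝ) (x : Eu n) => G (s, x)) (F' := fun s x => G' (s, x))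
    (x₀ := t) (s := Icc (t - 1) (t + 1)) (bound := fun _ => C) hmem
    (Filter.Eventually.of_forall fun s =>
      (hG.comp (Continuous.prodMk_right s)).aestronglyMeasurable)
    (integrable_mu hn (hG.comp (Continuous.prodMk_right t)).continuousOn)
    (hG'.comp (Continuous.prodMk_right t)).aestronglyMeasurable
    (by
      filter_upwards [mu_ae (n := n) hn] with x hx s hs
      exact hC (s, x) ⟨hs, mem_sphere_zero_iff_norm.2 hx⟩)
    (integrable_const C)
    (Filter.Eventually.of_forall fun x s _ => hd s x)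
  exact hmain.2

theorem Sli_rr_cont (R ε : ℝ) : Continuous (fun t : ℝ => rr R ε t) := by
  unfold rr
  fun_prop

theorem Sli_rr_deriv (R ε t : ℝ) : HasDerivAt (fun t : ℝ => rr R ε t) (ε * rr R ε t) t := by
  unfold rr
  have h1 : HasDerivAt (fun t : ℝ => ε * t) ε t := by
    simpa using (hasDerivAt_id t).const_mul ε
  have h2 := (h1.exp).const_mul R
  exact h2.congr_deriv (by ring)

/-- The gradient term of a slice, integrated over the sphere. -/
noncomputable def DD (u : Eu n → ℝ) (p : Eu n) (R ε t : ℝ) : ℝ :=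
  ∫ w, dsl u p R ε t w ^ 2 ∂(mu n)
    + ∑ q ∈ prs n, ∫ w, XX (Jij q.1 q.2) (sl u p R ε t) w ^ 2 ∂(mu n)

variable {u : Eu n → ℝ} (hu : ContDiff ℝ (⊤ : ℕ∞) u) (p : Eu n) (R ε : ℝ)

include hu

theorem sl_smooth (t : ℝ) : ContDiff ℝ (⊤ : ℕ∞) (sl u p R ε t) := by
  unfold sl
  exact hu.comp (contDiff_const.add (contDiff_id.const_smul (rr R ε t)))

theorem sl_hasDerivAt (t : ℝ) (x : Eu n) :
    HasDerivAt (fun t => sl u p R ε t x) (dsl u p R ε t x) t := by
  have h1 : HasDerivAt (fun t => p + rr R ε t • x) ((ε * rr R ε t) • x) t :=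
    ((Sli_rr_deriv R ε t).smul_const x).const_add p
  have h2 : HasFDerivAt u (fderiv ℝ u (p + rr R ε t • x)) (p + rr R ε t • x) :=
    (hu.differentiable (by simp) _).hasFDerivAt
  exact h2.comp_hasDerivAt t h1

theorem sl_cont : Continuous (fun q : ℝ × Eu n => sl u p R ε q.1 q.2) := by
  unfold sl
  exact hu.continuous.comp (continuous_const.add
    (((Sli_rr_cont R ε).comp continuous_fst).smul continuous_snd))

theorem dsl_cont : Continuous (fun q : ℝ × Eu n => dsl u p R ε q.1 q.2) := by
  unfold dsl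
  have h1 : Continuous (fderiv ℝ u) := hu.continuous_fderiv (by simp)
  have h2 : Continuous (fun q : ℝ × Eu n => p + rr R ε q.1 • q.2) :=
    continuous_const.add (((Sli_rr_cont R ε).comp continuous_fst).smul continuous_snd)
  exact (h1.comp h2).clm_apply
    ((continuous_const.mul ((Sli_rr_cont R ε).comp continuous_fst)).smul continuous_snd)

theorem XX_sl (J : Eu n →L[ℝ] Eu n) (t : ℝ) (x : Eu n) :
    XX J (sl u p R ε t) x = fderiv ℝ u (p + rr R ε t • x) (rr R ε t • J x) := by
  have h1 : HasFDerivAt (fun x : Eu n => p + rr R ε t • x)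
      (rr R ε t • ContinuousLinearMap.id ℝ (Eu n)) x :=
    ((hasFDerivAt_id x).const_smul (rr R ε t)).const_add p
  have h2 : HasFDerivAt u (fderiv ℝ u (p + rr R ε t • x)) (p + rr R ε t • x) :=
    (hu.differentiable (by simp) _).hasFDerivAt
  have h3 : HasFDerivAt (sl u p R ε t) _ x := h2.comp x h1
  unfold XX
  rw [h3.fderiv]
  simp

theorem xsl_cont (J : Eu n →L[ℝ] Eu n) :
    Continuous (fun q : ℝ × Eu n => XX J (sl u p R ε q.1) q.2) := by
  have h0 : (fun q : ℝ × Eu n => XX J (sl u p R ε q.1) q.2) = fun q : ℝ × Eu n =>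
      fderiv ℝ u (p + rr R ε q.1 • q.2) (rr R ε q.1 • J q.2) := by
    funext q
    exact XX_sl hu p R ε J q.1 q.2
  rw [h0]
  have h1 : Continuous (fderiv ℝ u) := hu.continuous_fderiv (by simp)
  have h2 : Continuous (fun q : ℝ × Eu n => p + rr R ε q.1 • q.2) :=
    continuous_const.add (((Sli_rr_cont R ε).comp continuous_fst).smul continuous_snd)
  exact (h1.comp h2).clm_apply
    (((Sli_rr_cont R ε).comp continuous_fst).smul (J.continuous.comp continuous_snd))

theorem cf_hasDerivAt (hn : 1 ≤ n) (Y : SHFam n) (k : ℕ) (i : Fin (Y.m k)) (t : ℝ) :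
    HasDerivAt (fun t => cf Y (sl u p R ε t) k i) (cf Y (dsl u p R ε t) k i) t := by
  have he : Continuous (fun q : ℝ × Eu n => ev (Y.Y k i) q.2) :=
    (ev_smooth (Y.Y k i)).continuous.comp continuous_snd
  exact Sli_deriv_int hn (G := fun q => sl u p R ε q.1 q.2 * ev (Y.Y k i) q.2)
    (G' := fun q => dsl u p R ε q.1 q.2 * ev (Y.Y k i) q.2)
    ((sl_cont hu p R ε).mul he) ((dsl_cont hu p R ε).mul he)
    (fun t x => (sl_hasDerivAt hu p R ε t x).mul_const (ev (Y.Y k i) x)) t

theorem cf_dsl_cont (hn : 1 ≤ n) (Y : SHFam n) (k : ℕ) (i : Fin (Y.m k)) :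
    Continuous (fun t => cf Y (dsl u p R ε t) k i) := by
  have he : Continuous (fun q : ℝ × Eu n => ev (Y.Y k i) q.2) :=
    (ev_smooth (Y.Y k i)).continuous.comp continuous_snd
  exact Sli_cont_int hn (G := fun q => dsl u p R ε q.1 q.2 * ev (Y.Y k i) q.2)
    ((dsl_cont hu p R ε).mul he)

theorem DD_cont (hn : 1 ≤ n) : Continuous (DD u p R ε) := by
  unfold DD
  refine (Sli_cont_int hn (G := fun q => dsl u p R ε q.1 q.2 ^ 2)
    ((dsl_cont hu p R ε).pow 2)).add ?_
  refine continuous_finsetSum _ fun q _ => ?_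
  exact Sli_cont_int hn (G := fun s => XX (Jij q.1 q.2) (sl u p R ε s.1) s.2 ^ 2)
    ((xsl_cont hu p R ε _).pow 2)

end Pool.Agent.H78.SK
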