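import Pool.Agent.H78.SK.Tst

/-!
# Job SK-TST0: test functions whose modes of degree zero have small energy

`test_family0` is `test_family_unif` (`Tst.lean`) with the functions of degree `0` replaced by
given functions `w c` (equal to `1` in the collar `c` and to `0` in the other collars).

Proof.  Let `u'` be the family of `test_family_unif` (repeat its construction: one needs the
slices `hsl` and the vanishing near points of `Om` outside the collars, not only its
conclusion).  `Y.Y 0 i` is homogeneous of degree `0`, so `ev (Y.Y 0 i)` is a constant `q i`.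
Put `u c k i = u' c k i` for `k ≥ 1` and `u c 0 i = fun x => q i * w c x`.
Write the combination as `W = W0 + W1`, `W0 = ∑ c, ζ c * w c x` with
`ζ c = ∑ i, z c 0 i * q i` if `0 < K c` and `0` otherwise (the terms `k = 0`), and `W1` the terms
`k ≥ 1`, which is the combination of `test_family_unif` with `z' c 0 i = 0`.
* Mass: on the sphere `c` the slice of `W` at `t = 0` is `∑ z c k i * ev (Y.Y k i)`; `mass_eq`
  and `sq_comb` as in `test_family_unif`.
* Energy: at `x ∈ Om` in a collar `W0` is locally constant (the collar is open and `hw1`), so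
  `fderiv W0 x = 0`; at `x ∈ Om` outside all collars `W1 = 0` near `x`, so `fderiv W1 x = 0`.
  Hence `‖fderiv W x‖ ^ 2 = ‖fderiv W0 x‖ ^ 2 + ‖fderiv W1 x‖ ^ 2` on `Om` and
  `D.energy W = D.energy W0 + D.energy W1` (`Ene_int_Om`, `Ene_cont`); `hwE` and
  `test_family_unif`.  `ζ c ^ 2 = ∑ i, z c 0 i ^ 2`: `Y.m 0 = 1` (`m_zero` in `Dim.lean`) and
  `q i ^ 2 = 1` (normalisation in `SHFam`); or apply `sq_comb` with `K = 1` to
  `∑ k ∈ range 1, ∑ i, z c k i * ev (Y.Y k i)`, the constant function `ζ c`.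
-/

namespace Pool.Agent.H78.SK

open MeasureTheory Metric Set
open Pool.Agent.H35.CA

variable {n N : ℕ}

/-- There are test functions whose modes of degree zero have energy at most `η`. -/
def TF (Y : SHFam n) (D : Dom n N) (r a : Option (Fin N) → ℝ) (S C η : ℝ) : Prop :=
  ∃ u : Option (Fin N) → (k : ℕ) → Fin (Y.m k) → Eu n → ℝ,
    (∀ c k i, ContDiff ℝ (⊤ : ℕ∞) (u c k i)) ∧
    ∀ (K : Option (Fin N) → ℕ) (z : Option (Fin N) → (k : ℕ) → Fin (Y.m k) → ℝ),
      D.mass (fun x => ∑ c, ∑ k ∈ Finset.range (K c), ∑ i, z c k i * u c k i x)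
        = (n : ℝ) * om n * ∑ c, (r c ^ (n - 1) *
          ∑ k ∈ Finset.range (K c), ∑ i, z c k i ^ 2) ∧
      D.energy (fun x => ∑ c, ∑ k ∈ Finset.range (K c), ∑ i, z c k i * u c k i x)
        ≤ (n : ℝ) * om n * ∑ c, ∑ k ∈ Finset.range (K c), ∑ i, z c k i ^ 2 *
          (if k = 0 then η else r c ^ (n - 2) * ((k : ℝ) + 2 * a c * kz n
            + C * Real.exp (-(2 * ((k : ℝ) + kz n) * (S - 2)))))


/-! ### Auxiliary statements -/

/-- The modes of the test functions outside degree zero, replaced in degree zero. -/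
noncomputable def Tst0_u (Y : SHFam n) (q : Fin (Y.m 0) → ℝ) (w : Option (Fin N) → Eu n → ℝ)
    (u : Option (Fin N) → (k : ℕ) → Fin (Y.m k) → Eu n → ℝ) :
    Option (Fin N) → (k : ℕ) → Fin (Y.m k) → Eu n → ℝ
  | c, 0, i => fun x => q i * w c x
  | c, k + 1, i => u c (k + 1) i

/-- The coefficients without the modes of degree zero. -/
def Tst0_z (Y : SHFam n) (z : Option (Fin N) → (k : ℕ) → Fin (Y.m k) → ℝ) :
    Option (Fin N) → (k : ℕ) → Fin (Y.m k) → ℝ
  | _, 0, _ => 0
  | c, k + 1, i => z c (k + 1) i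

/-- The collar contains a neighbourhood of each of its points. -/
theorem Tst0_nhds {D : Dom n N} {c : Option (Fin N)} {S : ℝ} {x : Eu n}
    (hx : x ∈ ann (D.cen c) (D.rad c) (eps c) S) :
    ∀ᶠ y in nhds x, ∃ t : ℝ, 0 < t ∧ t < S ∧ ∃ e : Eu n, ‖e‖ = 1 ∧
      y = D.cen c + rr (D.rad c) (eps c) t • e := by
  obtain ⟨t, ht, hxt⟩ := hx
  have hR := rad_pos D c
  have he2 : eps c * eps c = 1 := by
    rcases eps_or c with he | he <;> rw [he] <;> norm_num
  have h0 : 0 < ‖x - D.cen c‖ := by
    rw [hxt]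
    exact tst_rr_pos D c t
  have hv : eps c * Real.log (‖x - D.cen c‖ / D.rad c) = t := by
    have h2 : rr (D.rad c) (eps c) t / D.rad c = Real.exp (eps c * t) := by
      rw [rr]
      field_simp
    rw [hxt, h2, Real.log_exp, ← mul_assoc, he2, one_mul]
  have hc1 : ContinuousAt (fun y : Eu n => ‖y - D.cen c‖) x :=
    (continuous_id.sub continuous_const).norm.continuousAt
  have hc2 : ContinuousAt (fun y : Eu n => eps c * Real.log (‖y - D.cen c‖ / D.rad c)) x :=
    continuousAt_const.mul ((hc1.div_const _).log (by positivity))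
  have e1 : ∀ᶠ y in nhds x, 0 < ‖y - D.cen c‖ := hc1.eventually (lt_mem_nhds h0)
  have e2 : ∀ᶠ y in nhds x, 0 < eps c * Real.log (‖y - D.cen c‖ / D.rad c) :=
    hc2.eventually (lt_mem_nhds (by show (0 : ℝ) < eps c * Real.log (‖x - D.cen c‖ / D.rad c); rw [hv]; exact ht.1))
  have e3 : ∀ᶠ y in nhds x, eps c * Real.log (‖y - D.cen c‖ / D.rad c) < S :=
    hc2.eventually (gt_mem_nhds (by show eps c * Real.log (‖x - D.cen c‖ / D.rad c) < S; rw [hv]; exact ht.2))
  filter_upwards [e1, e2, e3] with y h1 h2 h3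
  refine ⟨_, h2, h3, ‖y - D.cen c‖⁻¹ • (y - D.cen c), ?_, ?_⟩
  · rw [norm_smul, norm_inv, norm_norm, inv_mul_cancel₀ h1.ne']
  · have h4 : rr (D.rad c) (eps c) (eps c * Real.log (‖y - D.cen c‖ / D.rad c)) = ‖y - D.cen c‖ := by
      rw [rr, ← mul_assoc, he2, one_mul, Real.exp_log (by positivity)]
      field_simp
    rw [h4, smul_smul, mul_inv_cancel₀ h1.ne', one_smul]
    abel

/-- The energy bound of `test_family_unif`, for given functions which separate. -/
theorem Tst0_energy {C : ℝ}
    (hCb : ∀ (kk S : ℝ), 0 ≤ kk → 3 ≤ S →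
      (∫ t in Ioo 0 S, (deriv (fun s => Real.smoothTransition (S - 1 - s)) t) ^ 2 *
        Real.exp (-(2 * kk * t))) ≤ C * Real.exp (-(2 * kk * (S - 2))))
    (hn : 3 ≤ n) (Y : SHFam n) {D : Dom n N} {r a : Option (Fin N) → ℝ}
    {S : ℝ} (h : SD D r a S) {τ : Option (Fin N) → ℝ} (hτ : ∀ c, 0 < τ c)
    (hτH : ∀ c t, -(2 * τ c) < t → 0 < Hf n (a c) t)
    {u : Option (Fin N) → (k : ℕ) → Fin (Y.m k) → Eu n → ℝ}
    (hu : ∀ c k i, TSep D c (tG n (a c) (τ c) S k) (Y.Y k i) (u c k i))
    (K : Option (Fin N) → ℕ) (z : Option (Fin N) → (k : ℕ) → Fin (Y.m k) → ℝ) :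
    D.energy (fun x => ∑ c, ∑ k ∈ Finset.range (K c), ∑ i, z c k i * u c k i x)
      ≤ (n : ℝ) * om n * ∑ c, (r c ^ (n - 2) *
        ∑ k ∈ Finset.range (K c), ∑ i, z c k i ^ 2 * ((k : ℝ) + 2 * a c * kz n
          + C * Real.exp (-(2 * ((k : ℝ) + kz n) * (S - 2))))) := by
  have hS := h.S_ge
  have hn1 : 1 ≤ n := by omega
  have hG : ∀ c k, ContDiff ℝ (⊤ : ℕ∞) (tG n (a c) (τ c) S k) := fun c k => tst_smooth (hτ c) (hτH c) k
  set W : Eu n → ℝ := fun x => ∑ c, ∑ k ∈ Finset.range (K c), ∑ i, z c k i * u c k i x with hW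
  have hWs : ContDiff ℝ (⊤ : ℕ∞) W := by
    refine ContDiff.sum fun c _ => ContDiff.sum fun k _ => ContDiff.sum fun i _ => ?_
    exact contDiff_const.mul (hu c k i).smooth
  -- slices
  have hsl : ∀ (c : Option (Fin N)) (t : ℝ), 0 ≤ t → t < S → ∀ w : Eu n, ‖w‖ = 1 →
      sl W (D.cen c) (D.rad c) (eps c) t w =
        ∑ k ∈ Finset.range (K c), ∑ i, (z c k i * tG n (a c) (τ c) S k t) * ev (Y.Y k i) w := by
    intro c t h0 h1 w hw
    simp only [sl, hW]
    rw [Finset.sum_eq_single c]
    · refine Finset.sum_congr rfl fun k _ => Finset.sum_congr rfl fun i _ => ?_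
      rw [(hu c k i).slice t hw]
      ring
    · intro d _ hd
      refine Finset.sum_eq_zero fun k _ => Finset.sum_eq_zero fun i _ => ?_
      rw [(hu d k i).zero (fun t ht => tst_right k t ht) (tO_slice h hd h0 h1 hw), mul_zero]
    · intro hc
      exact absurd (Finset.mem_univ c) hc
  have hdsl : ∀ (c : Option (Fin N)) (t : ℝ), 0 < t → t < S → ∀ w : Eu n, ‖w‖ = 1 →
      dsl W (D.cen c) (D.rad c) (eps c) t w =
        ∑ k ∈ Finset.range (K c), ∑ i, (z c k i * deriv (tG n (a c) (τ c) S k) t) * ev (Y.Y k i) w := by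
    intro c t h0 h1 w hw
    have h2 := sl_hasDerivAt hWs (D.cen c) (D.rad c) (eps c) t w
    have h3 : HasDerivAt (fun t => ∑ k ∈ Finset.range (K c), ∑ i,
        (z c k i * tG n (a c) (τ c) S k t) * ev (Y.Y k i) w)
        (∑ k ∈ Finset.range (K c), ∑ i, (z c k i * deriv (tG n (a c) (τ c) S k) t) * ev (Y.Y k i) w) t := by
      refine HasDerivAt.fun_sum fun k _ => HasDerivAt.fun_sum fun i _ => ?_
      have h4 : HasDerivAt (tG n (a c) (τ c) S k) (deriv (tG n (a c) (τ c) S k) t) t :=
        ((hG c k).differentiable (by simp)).differentiableAt.hasDerivAt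
      exact (h4.const_mul _).mul_const _
    refine h2.unique (h3.congr_of_eventuallyEq ?_)
    filter_upwards [Ioo_mem_nhds h0 h1] with s hs
    exact hsl c s hs.1.le hs.2 w hw
  rw [energy_eq hn h hWs ?_]
  · refine mul_le_mul_of_nonneg_left ?_ (mul_nonneg (Nat.cast_nonneg _) (om_pos n).le)
    refine Finset.sum_le_sum fun c _ => mul_le_mul_of_nonneg_left ?_ (pow_nonneg (h.r_pos c).le _)
    have h1 : ∀ t ∈ Ioo (0 : ℝ) S, Hf n (a c) t ^ 2 * DD W (D.cen c) (D.rad c) (eps c) t =
        ∑ k ∈ Finset.range (K c), ∑ i, z c k i ^ 2 * (Hf n (a c) t ^ 2 *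
          (deriv (tG n (a c) (τ c) S k) t ^ 2 + lam n k * tG n (a c) (τ c) S k t ^ 2)) := by
      intro t ht
      have h2 : ∫ w, dsl W (D.cen c) (D.rad c) (eps c) t w ^ 2 ∂(mu n) =
          H35.CA.sq (dsl W (D.cen c) (D.rad c) (eps c) t) := rfl
      rw [DD, h2, sq_comb hn1 Y (K c) _ (hdsl c t ht.1 ht.2),
        lap_comb hn1 Y (sl_smooth hWs _ _ _ t) (K c) _ (hsl c t ht.1.le ht.2), ← Finset.sum_add_distrib,
        Finset.mul_sum]
      refine Finset.sum_congr rfl fun k _ => ?_
      rw [← Finset.sum_add_distrib, Finset.mul_sum]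
      refine Finset.sum_congr rfl fun i _ => ?_
      ring
    have hint : ∀ k, IntegrableOn (fun t => Hf n (a c) t ^ 2 *
        (deriv (tG n (a c) (τ c) S k) t ^ 2 + lam n k * tG n (a c) (τ c) S k t ^ 2)) (Ioo 0 S) := by
      intro k
      have hd : Continuous (deriv (tG n (a c) (τ c) S k)) := (hG c k).continuous_deriv (by simp)
      have hc : Continuous (fun t => Hf n (a c) t ^ 2 *
        (deriv (tG n (a c) (τ c) S k) t ^ 2 + lam n k * tG n (a c) (τ c) S k t ^ 2)) :=
        ((tst_Hf_smooth (a c)).continuous.pow 2).mul ((hd.pow 2).add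
          (continuous_const.mul ((hG c k).continuous.pow 2)))
      exact (hc.integrableOn_Icc (a := 0) (b := S)).mono_set Ioo_subset_Icc_self
    rw [setIntegral_congr_fun measurableSet_Ioo h1, integral_finsetSum _ fun k _ =>
      integrable_finsetSum _ fun i _ => (hint k).const_mul _]
    refine Finset.sum_le_sum fun k _ => ?_
    rw [integral_finsetSum _ fun i _ => (hint k).const_mul _]
    refine Finset.sum_le_sum fun i _ => ?_
    rw [integral_const_mul]
    refine mul_le_mul_of_nonneg_left ?_ (sq_nonneg _)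
    have hχ : ContDiff ℝ (⊤ : ℕ∞) (fun s : ℝ => Real.smoothTransition (S - 1 - s)) :=
      (Real.smoothTransition.contDiff (n := (⊤ : ℕ∞))).comp (by fun_prop)
    rw [oneD_upper hn (h.a_nonneg c) (by linarith : (0 : ℝ) < S) k
      (χ := fun s => Real.smoothTransition (S - 1 - s))
      (χ' := deriv (fun s => Real.smoothTransition (S - 1 - s)))
      (fun t => ((hχ.differentiable (by simp)).differentiableAt).hasDerivAt)
      (hχ.continuous_deriv (by simp)) (Real.smoothTransition.one_of_one_le (by linarith))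
      (Real.smoothTransition.zero_of_nonpos (by linarith))
      (fun t ht => tst_mid (hτ c) k t ht)
      (fun t _ => (((hG c k).differentiable (by simp)).differentiableAt).hasDerivAt)]
    have h5 := hCb ((k : ℝ) + kz n) S (by have := kz_pos hn; positivity) hS
    linarith
  · intro x hx hxa
    have h1 : W =ᶠ[nhds x] fun _ => 0 := by
      have h2 : ∀ d, ∀ᶠ y in nhds x, y ∈ tO D S d := fun d =>
        (tO_open D S d).mem_nhds (tO_of_side (side_of_Om hx d) (hxa d))
      filter_upwards [Filter.eventually_all.2 h2] with y hy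
      simp only [hW]
      refine Finset.sum_eq_zero fun d _ => Finset.sum_eq_zero fun k _ => Finset.sum_eq_zero fun i _ => ?_
      rw [(hu d k i).zero (fun t ht => tst_right k t ht) (hy d), mul_zero]
    rw [h1.fderiv_eq]
    simp

/-- Energy of a sum of two functions whose gradients have disjoint supports. -/
theorem Tst0_split (D : Dom n N) {f g : Eu n → ℝ} (hf : ContDiff ℝ (⊤ : ℕ∞) f)
    (hg : ContDiff ℝ (⊤ : ℕ∞) g)
    (hfg : ∀ x ∈ D.Om, fderiv ℝ f x = 0 ∨ fderiv ℝ g x = 0) :
    D.energy (fun x => f x + g x) = D.energy f + D.energy g := by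
  unfold Dom.energy
  rw [← integral_add (Ene_int_Om D (Ene_cont D hf)) (Ene_int_Om D (Ene_cont D hg))]
  refine setIntegral_congr_fun (Ene_meas_Om D) fun x hx => ?_
  show D.ρ x ^ (n - 2) * ‖fderiv ℝ (fun x => f x + g x) x‖ ^ 2 =
    D.ρ x ^ (n - 2) * ‖fderiv ℝ f x‖ ^ 2 + D.ρ x ^ (n - 2) * ‖fderiv ℝ g x‖ ^ 2
  have h1 : fderiv ℝ (fun x => f x + g x) x = fderiv ℝ f x + fderiv ℝ g x :=
    fderiv_fun_add ((hf.differentiable (by simp)) x) ((hg.differentiable (by simp)) x)
  rw [h1]
  rcases hfg x hx with h2 | h2 <;> rw [h2] <;> simp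

theorem Tst0_const (Y : SHFam n) (i : Fin (Y.m 0)) (x y : Eu n) :
    ev (Y.Y 0 i) x = ev (Y.Y 0 i) y := by
  have h1 : (Y.Y 0 i).totalDegree = 0 := Nat.le_zero.1 (Y.deg 0 i)
  have h2 := MvPolynomial.totalDegree_eq_zero_iff_eq_C.1 h1
  rw [h2, ShA_ev_C]

theorem test_family0 {C : ℝ}
    (hCb : ∀ (kk S : ℝ), 0 ≤ kk → 3 ≤ S →
      (∫ t in Ioo 0 S, (deriv (fun s => Real.smoothTransition (S - 1 - s)) t) ^ 2 *
        Real.exp (-(2 * kk * t))) ≤ C * Real.exp (-(2 * kk * (S - 2))))
    (hn : 3 ≤ n) (Y : SHFam n) {D : Dom n N} {r a : Option (Fin N) → ℝ}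
    {S : ℝ} (h : SD D r a S) {η : ℝ} (w : Option (Fin N) → Eu n → ℝ)
    (hw : ∀ c, ContDiff ℝ (⊤ : ℕ∞) (w c))
    (hw1 : ∀ c d t, 0 ≤ t → t < S → ∀ e : Eu n, ‖e‖ = 1 →
      w c (D.cen d + rr (D.rad d) (eps d) t • e) = if c = d then 1 else 0)
    (hwE : ∀ ζ : Option (Fin N) → ℝ, D.energy (fun x => ∑ c, ζ c * w c x)
      ≤ (n : ℝ) * om n * (η * ∑ c, ζ c ^ 2)) :
    TF Y D r a S C η := by
  classical
  have hS := h.S_ge
  have hn1 : 1 ≤ n := by omega
  choose τ hτ hτH using fun c => tst_tau hn (h.a_nonneg c)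
  have hG : ∀ c k, ContDiff ℝ (⊤ : ℕ∞) (tG n (a c) (τ c) S k) := fun c k => tst_smooth (hτ c) (hτH c) k
  have hex : ∀ (c : Option (Fin N)) (k : ℕ) (i : Fin (Y.m k)), ∃ u : Eu n → ℝ,
      TSep D c (tG n (a c) (τ c) S k) (Y.Y k i) u := by
    intro c k i
    obtain ⟨u, h1, h2, h3⟩ := rad_smooth (hG c k) (A := -τ c) (B := S - 1)
      (fun t ht => tst_left (hτ c) k t ht) (fun t ht => tst_right k t ht) (D.cen c) (rad_pos D c)
      (eps_or c) (Y.Y k i)
    exact ⟨u, h1, h2, h3⟩
  choose u hu using hex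
  have hG0 : ∀ c k, tG n (a c) (τ c) S k 0 = 1 := by
    intro c k
    rw [tst_mid (hτ c) k 0 le_rfl, Hf_zero, Real.smoothTransition.one_of_one_le (by linarith)]
    simp
  set q : Fin (Y.m 0) → ℝ := fun i => ev (Y.Y 0 i) 0 with hq
  have hqe : ∀ i (x : Eu n), ev (Y.Y 0 i) x = q i := fun i x => Tst0_const Y i x 0
  refine ⟨Tst0_u Y q w u, ?_, fun K z => ⟨?_, ?_⟩⟩
  · intro c k i
    cases k with
    | zero => exact contDiff_const.mul (hw c)
    | succ k => exact (hu c (k + 1) i).smooth
  · -- mass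
    rw [mass_eq hn h]
    congr 1
    refine Finset.sum_congr rfl fun c _ => ?_
    congr 1
    refine sq_comb hn1 Y (K c) _ fun e he => ?_
    simp only [sl]
    rw [Finset.sum_eq_single c]
    · refine Finset.sum_congr rfl fun k _ => Finset.sum_congr rfl fun i _ => ?_
      congr 1
      cases k with
      | zero =>
        show q i * w c _ = _
        rw [hw1 c c 0 le_rfl (by linarith) e he, if_pos rfl, hqe, mul_one]
      | succ k =>
        show u c (k + 1) i _ = _
        rw [(hu c (k + 1) i).slice 0 he, hG0, one_mul]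
    · intro d _ hd
      refine Finset.sum_eq_zero fun k _ => Finset.sum_eq_zero fun i _ => ?_
      have h2 : Tst0_u Y q w u d k i (D.cen c + rr (D.rad c) (eps c) 0 • e) = 0 := by
        cases k with
        | zero =>
          show q i * w d _ = _
          rw [hw1 d c 0 le_rfl (by linarith) e he, if_neg hd, mul_zero]
        | succ k =>
          show u d (k + 1) i _ = _
          exact (hu d (k + 1) i).zero (fun t ht => tst_right (k + 1) t ht)
            (tO_slice h hd le_rfl (by linarith) he)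
      rw [h2, mul_zero]
    · intro hc
      exact absurd (Finset.mem_univ c) hc
  · -- energy
    set ζ : Option (Fin N) → ℝ := fun c => if 0 < K c then ∑ i, z c 0 i * q i else 0 with hζ
    set W0 : Eu n → ℝ := fun x => ∑ c, ζ c * w c x with hW0
    set W1 : Eu n → ℝ := fun x => ∑ c, ∑ k ∈ Finset.range (K c), ∑ i,
      Tst0_z Y z c k i * u c k i x with hW1
    have hsplit : (fun x => ∑ c, ∑ k ∈ Finset.range (K c), ∑ i, z c k i * Tst0_u Y q w u c k i x)
        = fun x => W0 x + W1 x := by
      funext x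
      simp only [hW0, hW1]
      rw [← Finset.sum_add_distrib]
      refine Finset.sum_congr rfl fun c _ => ?_
      rcases Nat.eq_zero_or_pos (K c) with h0 | h0
      · rw [h0, Finset.sum_range_zero, Finset.sum_range_zero, hζ]
        simp [h0]
      · obtain ⟨K', hK'⟩ : ∃ K', K c = K' + 1 := ⟨K c - 1, by omega⟩
        have h1 : ζ c = ∑ i, z c 0 i * q i := by
          simp only [hζ]
          rw [if_pos h0]
        rw [hK', Finset.sum_range_succ', Finset.sum_range_succ', h1]
        have h2 : ∑ i, Tst0_z Y z c 0 i * u c 0 i x = 0 := by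
          refine Finset.sum_eq_zero fun i _ => ?_
          show (0 : ℝ) * _ = 0
          rw [zero_mul]
        have h3 : ∑ i, z c 0 i * Tst0_u Y q w u c 0 i x = (∑ i, z c 0 i * q i) * w c x := by
          rw [Finset.sum_mul]
          refine Finset.sum_congr rfl fun i _ => ?_
          show z c 0 i * (q i * w c x) = _
          ring
        rw [h2, h3, add_zero, add_comm]
        rfl
    have hW0s : ContDiff ℝ (⊤ : ℕ∞) W0 :=
      ContDiff.sum fun c _ => contDiff_const.mul (hw c)
    have hW1s : ContDiff ℝ (⊤ : ℕ∞) W1 := by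
      refine ContDiff.sum fun c _ => ContDiff.sum fun k _ => ContDiff.sum fun i _ => ?_
      exact contDiff_const.mul (hu c k i).smooth
    rw [hsplit, Tst0_split D hW0s hW1s ?_]
    · have hE0 := hwE ζ
      have hE1 := Tst0_energy hCb hn Y h hτ hτH hu K (Tst0_z Y z)
      have hζ2 : ∀ c, ζ c ^ 2 = if 0 < K c then ∑ i, z c 0 i ^ 2 else 0 := by
        intro c
        by_cases h0 : 0 < K c
        · rw [if_pos h0]
          have h1 := sq_comb hn1 Y (f := fun _ => ζ c) 1 (fun k i => z c k i) (by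
            intro e _
            rw [Finset.sum_range_one]
            simp only [hζ]
            rw [if_pos h0]
            refine Finset.sum_congr rfl fun i _ => ?_
            rw [hqe])
          rw [Finset.sum_range_one] at h1
          rw [← h1]
          unfold H35.CA.sq
          rw [int_const hn1]
        · rw [if_neg h0]
          simp only [hζ]
          rw [if_neg h0]
          norm_num
      refine (add_le_add hE0 hE1).trans (le_of_eq ?_)
      rw [← mul_add, Finset.mul_sum, ← Finset.sum_add_distrib]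
      congr 1
      refine Finset.sum_congr rfl fun c _ => ?_
      rw [hζ2]
      rcases Nat.eq_zero_or_pos (K c) with h0 | h0
      · rw [h0]
        simp
      · obtain ⟨K', hK'⟩ : ∃ K', K c = K' + 1 := ⟨K c - 1, by omega⟩
        rw [if_pos h0, hK', Finset.sum_range_succ', Finset.sum_range_succ']
        have h2 : ∑ i, Tst0_z Y z c 0 i ^ 2 * (((0 : ℕ) : ℝ) + 2 * a c * kz n
            + C * Real.exp (-(2 * (((0 : ℕ) : ℝ) + kz n) * (S - 2)))) = 0 := by
          refine Finset.sum_eq_zero fun i _ => ?_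
          show (0 : ℝ) ^ 2 * _ = 0
          ring
        rw [h2, add_zero, Finset.mul_sum, Finset.mul_sum, add_comm]
        congr 1
        · refine Finset.sum_congr rfl fun k _ => ?_
          rw [Finset.mul_sum]
          refine Finset.sum_congr rfl fun i _ => ?_
          rw [if_neg (Nat.succ_ne_zero k)]
          show r c ^ (n - 2) * (z c (k + 1) i ^ 2 * _) = _
          ring
        · refine Finset.sum_congr rfl fun i _ => ?_
          rw [if_pos rfl]
          ring
    · intro x hx
      by_cases hxa : ∃ c, x ∈ ann (D.cen c) (D.rad c) (eps c) S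
      · left
        obtain ⟨c, hc⟩ := hxa
        have h1 : W0 =ᶠ[nhds x] fun _ => ζ c := by
          filter_upwards [Tst0_nhds hc] with y hy
          obtain ⟨t, ht0, ht1, e, he, rfl⟩ := hy
          simp only [hW0]
          rw [Finset.sum_eq_single c]
          · rw [hw1 c c t ht0.le ht1 e he, if_pos rfl, mul_one]
          · intro d _ hd
            rw [hw1 d c t ht0.le ht1 e he, if_neg hd, mul_zero]
          · intro hc
            exact absurd (Finset.mem_univ c) hc
        rw [h1.fderiv_eq]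
        simp
      · right
        push Not at hxa
        have h1 : W1 =ᶠ[nhds x] fun _ => 0 := by
          have h2 : ∀ d, ∀ᶠ y in nhds x, y ∈ tO D S d := fun d =>
            (tO_open D S d).mem_nhds (tO_of_side (side_of_Om hx d) (hxa d))
          filter_upwards [Filter.eventually_all.2 h2] with y hy
          simp only [hW1]
          refine Finset.sum_eq_zero fun d _ => Finset.sum_eq_zero fun k _ => Finset.sum_eq_zero fun i _ => ?_
          rw [(hu d k i).zero (fun t ht => tst_right k t ht) (hy d), mul_zero]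
        rw [h1.fderiv_eq]
        simp

end Pool.Agent.H78.SK
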