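import Pool.Agent.H78.SK.ReaL

/-!
# Job SK-UNIL: uniform lower bounds for the Steklov eigenvalues

`uni_lower`.  Same proof as `real_lower` (`ReaL.lean`), case `y > 0`, with the scalar lemma
`ReaL_scalar` replaced by: for `κ c ≤ k` (so `1 ≤ k`), with `I = (k + 2 a c kz) / r c ≥ x`,
`x - ε e^(-C x) ≤ I - ε e^(-C I) ≤ I - 8 (k + kz)^2 e^(-2(k+kz)S) / r c` (`hS`).
-/

namespace Pool.Agent.H78.SK

open MeasureTheory Metric Set
open Pool.Agent.H35.CA

variable {n N : ℕ}

theorem UniL_scalar {C r S g z ε x : ℝ} (hC : 0 ≤ C) (hr : 0 < r) (hε : 0 ≤ ε) (k : ℕ)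
    (hS : 8 * ((k : ℝ) + z) ^ 2 * Real.exp (-(2 * ((k : ℝ) + z) * S)) / r
      ≤ ε * Real.exp (-(C * (((k : ℝ) + g) / r))))
    (hx : x ≤ ((k : ℝ) + g) / r) :
    (x - ε * Real.exp (-(C * x))) * r ≤
      (k : ℝ) + g - 8 * ((k : ℝ) + z) ^ 2 * Real.exp (-(2 * ((k : ℝ) + z) * S)) := by
  have e1 : Real.exp (-(C * (((k : ℝ) + g) / r))) ≤ Real.exp (-(C * x)) := by
    refine Real.exp_le_exp.2 ?_
    have := mul_le_mul_of_nonneg_left hx hC
    linarith
  have h1 := mul_le_mul_of_nonneg_left e1 hε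
  have h2 : x - ε * Real.exp (-(C * x)) ≤ (((k : ℝ) + g) -
      8 * ((k : ℝ) + z) ^ 2 * Real.exp (-(2 * ((k : ℝ) + z) * S))) / r := by
    rw [sub_div]
    linarith
  exact (le_div_iff₀ hr).1 h2

theorem uni_lower (hn : 3 ≤ n) (Y : SHFam n) {D : Dom n N} {r a : Option (Fin N) → ℝ}
    {S C ε : ℝ} (h : SD D r a S) (hC : 0 ≤ C) (hε : 0 ≤ ε)
    (hS : ∀ c (k : ℕ), 1 ≤ k → 8 * ((k : ℝ) + kz n) ^ 2 *
      Real.exp (-(2 * ((k : ℝ) + kz n) * S)) / r c
        ≤ ε * Real.exp (-(C * (((k : ℝ) + 2 * a c * kz n) / r c))))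
    {j : ℕ} {x : ℝ} {κ : Option (Fin N) → ℕ} (hκ : ∀ c, 1 ≤ κ c)
    (hx : ∀ c (k : ℕ), κ c ≤ k → x ≤ ((k : ℝ) + 2 * a c * kz n) / r c)
    (hj : ∑ c, cum Y (κ c) ≤ j) : x - ε * Real.exp (-(C * x)) ≤ D.steklov j := by
  have hkz : 0 ≤ kz n := by have := kz_pos hn; linarith
  have hnom : 0 < (n : ℝ) * om n := by
    have h1 : (0 : ℝ) < n := by
      have : 0 < n := by omega
      exact_mod_cast this
    exact mul_pos h1 (om_pos n)
  show x - ε * Real.exp (-(C * x)) ≤ minmax D.energy D.mass j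
  by_cases hy : x - ε * Real.exp (-(C * x)) ≤ 0
  · exact hy.trans (minmax_nonneg (energy_nonneg D) j)
  · push Not at hy
    refine minmax_lower (energy_nonneg D)
      (κ := (c : Option (Fin N)) × (k : Fin (κ c)) × Fin (Y.m k)) ?_
      (fun p u => cf Y (sl u (D.cen p.1) (D.rad p.1) (eps p.1) 0) (p.2.1 : ℕ) p.2.2)
      ?_ ?_ ?_ (ReaL_space hn Y h j)
    · rw [Fintype.card_sigma]
      refine le_trans (le_of_eq ?_) hj
      refine Finset.sum_congr rfl fun c _ => ?_
      rw [Fintype.card_sigma]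
      unfold cum
      rw [Finset.sum_range]
      exact Finset.sum_congr rfl fun k _ => Fintype.card_fin _
    · intro p u v hu hv
      show cf Y (sl (u + v) (D.cen p.1) (D.rad p.1) (eps p.1) 0) _ _ = _
      rw [ReaL_sl_add]
      exact shg_cf_add (by omega) Y (sl_smooth hu _ _ _ 0).continuous.continuousOn
        (sl_smooth hv _ _ _ 0).continuous.continuousOn _ _
    · intro p c u hu
      show cf Y (sl (c • u) (D.cen p.1) (D.rad p.1) (eps p.1) 0) _ _ = _
      rw [ReaL_sl_smul, ReaL_cf_smul]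
    · intro u hu hz
      refine le_trans ?_ (energy_ge hn h hu)
      rw [mass_eq hn h u]
      have h1 : ∀ c, (x - ε * Real.exp (-(C * x))) * (r c ^ (n - 1) *
          H35.CA.sq (sl u (D.cen c) (D.rad c) (eps c) 0)) ≤ r c ^ (n - 2) *
          ∫ t in Ioo 0 S, Hf n (a c) t ^ 2 * DD u (D.cen c) (D.rad c) (eps c) t := by
        intro c
        have hr := h.r_pos c
        have h2 := col_lower hn Y hu (D.cen c) (D.rad c) (eps c) (a := a c) (S := S)
          (y := (x - ε * Real.exp (-(C * x))) * r c) (h.a_nonneg c)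
          (by have := h.S_ge; linarith) (hκ c) (mul_pos hy hr).le
          (fun k hk => UniL_scalar hC hr hε k (hS c k ((hκ c).trans hk)) (hx c k hk))
          (fun k hk i => hz ⟨c, ⟨⟨k, hk⟩, i⟩⟩)
        have h3 := mul_le_mul_of_nonneg_left h2 (pow_pos hr (n - 2)).le
        have hrn : r c ^ (n - 1) = r c ^ (n - 2) * r c := by
          rw [← pow_succ]
          congr 1
          omega
        refine le_trans (le_of_eq ?_) h3
        rw [hrn]
        ring
      have h4 := mul_le_mul_of_nonneg_left (Finset.sum_le_sum fun c (_ : c ∈ Finset.univ) => h1 c)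
        hnom.le
      refine le_trans (le_of_eq ?_) h4
      rw [← Finset.mul_sum]
      ring

end Pool.Agent.H78.SK
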